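import Pool.Agent.Lib.MP_3e612f_nt.DI.Vec

/-!
Properties of `Alg` and `Str`.

All statements on `Alg` are proved by induction on the predicate. `Alg.relabel`: in the case `gen` use
`Finset.prod_image` and `Finset.card_image_of_injOn`; in the case `mul`, `image_union` and
`Finset.disjoint_image'` for injective functions. `Alg.trans`: in the case `gen` use the hypothesis
(`Str` for the colour set `B`), and `Good` for `B` gives `Good` for subsets of `B`.
`str_of_one`: given `C, B` with `B.card = i` choose `g : C0 → C` which maps `B0` bijectively onto `B` (equality of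
the cardinals; arbitrary outside `B0`; if `i = 0` and `C` is empty treat the case separately: then use that `Alg 𝓖 ∅ φ`
has `φ` constant), apply `Alg.relabel` and evaluate the hypothesis at `v ∘ g`, which is `Good` on `B0`.
`str_ext`: both sides are additive (and `ZMod ℓ`-homogeneous) in every colour of `B` (`Alg.add_colour`,
`Alg.zsmul_colour`), so it is enough to know equality when all `v j` are points; expand the vectors
colour by colour (induction on the set of the colours which are not yet points).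
`Str.solve`: `c κ₀` is a unit, as `ℓ` is prime, so `F κ₀` is `(c κ₀)⁻¹` times (`∑ c κ • F κ` minus the
other terms); use `Alg.add`, `Alg.smul`, `Alg.gen` (the tensors with `c κ ≠ 0` all have order `i`).
-/

set_option autoImplicit false

namespace Pool.Agent.Lib.MP_3e612f_nt.DI

open Finset

section
variable {ℓ : ℕ} {C C' R : Type} [DecidableEq C] [DecidableEq C'] [CommRing R]

theorem Alg.mono {𝓖 𝓖' : Set (ℕ × (R →+ ZMod ℓ))} (h : 𝓖 ⊆ 𝓖') {B : Finset C}
    {φ : (C → R) → ZMod ℓ} (hφ : Alg 𝓖 B φ) : Alg 𝓖' B φ := by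
  induction hφ with
  | zero B => exact .zero B
  | one => exact .one
  | add _ _ h1 h2 => exact h1.add h2
  | smul c _ h1 => exact h1.smul c
  | gen hm hB => exact .gen (h hm) hB
  | mul hd _ _ h1 h2 => exact .mul hd h1 h2

/-- the value only depends on the values of the generators at the subtuples -/
theorem Alg.factor {𝓖 : Set (ℕ × (R →+ ZMod ℓ))} {B : Finset C} {φ : (C → R) → ZMod ℓ}
    (hφ : Alg 𝓖 B φ) (v w : C → R)
    (h : ∀ B' ⊆ B, ∀ F, (B'.card, F) ∈ 𝓖 → F (∏ j ∈ B', v j) = F (∏ j ∈ B', w j)) : φ v = φ w := by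
  induction hφ with
  | zero B => rfl
  | one => rfl
  | add _ _ h1 h2 =>
    show _ + _ = _ + _
    rw [h1 h, h2 h]
  | smul c _ h1 =>
    show _ * _ = _ * _
    rw [h1 h]
  | gen hm hB =>
    subst hB
    exact h _ (Subset.refl _) _ hm
  | mul hd _ _ h1 h2 =>
    show _ * _ = _ * _
    rw [h1 fun B' hB' => h B' (hB'.trans subset_union_left),
      h2 fun B' hB' => h B' (hB'.trans subset_union_right)]

theorem Alg.congr {𝓖 : Set (ℕ × (R →+ ZMod ℓ))} {B : Finset C} {φ : (C → R) → ZMod ℓ}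
    (hφ : Alg 𝓖 B φ) (v w : C → R) (h : ∀ j ∈ B, v j = w j) : φ v = φ w := by
  refine hφ.factor v w fun B' hB' F _ => ?_
  rw [prod_congr rfl fun j hj => h j (hB' hj)]

theorem Alg.add_colour {𝓖 : Set (ℕ × (R →+ ZMod ℓ))} {B : Finset C} {φ : (C → R) → ZMod ℓ}
    (hφ : Alg 𝓖 B φ) {j : C} (hj : j ∈ B) (v : C → R) (a b : R) :
    φ (Function.update v j (a + b)) = φ (Function.update v j a) + φ (Function.update v j b) := by
  induction hφ with
  | zero B => simp
  | one => exact absurd hj (notMem_empty j)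
  | add _ _ h1 h2 =>
    simp only [h1 hj, h2 hj]
    ring
  | smul c _ h1 =>
    simp only [h1 hj]
    ring
  | gen hm hB =>
    simp only [prod_update_of_mem hj]
    rw [add_mul, map_add]
  | @mul B B' φ ψ hd hφ hψ h1 h2 =>
    rcases mem_union.1 hj with h | h
    · have h3 : ∀ a : R, ψ (Function.update v j a) = ψ v := fun a =>
        hψ.congr _ _ fun k hk => Function.update_of_ne
          (fun he : k = j => (Finset.disjoint_left.1 hd h) (he ▸ hk)) _ _
      simp only [h1 h, h3]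
      ring
    · have h3 : ∀ a : R, φ (Function.update v j a) = φ v := fun a =>
        hφ.congr _ _ fun k hk => Function.update_of_ne
          (fun he : k = j => (Finset.disjoint_left.1 hd hk) (he ▸ h)) _ _
      simp only [h2 h, h3]
      ring

theorem Alg.sum {𝓖 : Set (ℕ × (R →+ ZMod ℓ))} {B : Finset C} {ι : Type} (s : Finset ι)
    {φ : ι → (C → R) → ZMod ℓ} (hφ : ∀ i ∈ s, Alg 𝓖 B (φ i)) : Alg 𝓖 B fun v => ∑ i ∈ s, φ i v := by
  classical
  induction s using Finset.induction_on with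
  | empty =>
    simp only [sum_empty]
    exact .zero B
  | insert i s hi ih =>
    simp only [sum_insert hi]
    exact (hφ i (mem_insert_self i s)).add (ih fun k hk => hφ k (mem_insert_of_mem hk))

theorem Alg.relabel {𝓖 : Set (ℕ × (R →+ ZMod ℓ))} (g : C → C') {B : Finset C}
    (hg : Set.InjOn g B) {φ : (C → R) → ZMod ℓ} (hφ : Alg 𝓖 B φ) :
    Alg 𝓖 (B.image g) fun v => φ (v ∘ g) := by
  induction hφ with
  | zero B => exact .zero _
  | one =>
    rw [image_empty]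
    exact .one
  | add _ _ h1 h2 => exact (h1 hg).add (h2 hg)
  | smul c _ h1 => exact (h1 hg).smul c
  | @gen B i F hm hB =>
    have h1 : (fun v : C' → R => F (∏ j ∈ B, (v ∘ g) j)) = fun v => F (∏ j ∈ B.image g, v j) := by
      funext v
      rw [prod_image hg]
      rfl
    show Alg 𝓖 (B.image g) fun v : C' → R => F (∏ j ∈ B, (v ∘ g) j)
    rw [h1]
    exact .gen hm ((card_image_of_injOn hg).trans hB)
  | @mul B B' φ ψ hd hφ hψ h1 h2 =>
    rw [image_union]
    refine .mul ?_ (h1 (hg.mono (by simp))) (h2 (hg.mono (by simp)))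
    rw [Finset.disjoint_left]
    intro a ha hb
    obtain ⟨x, hx, rfl⟩ := mem_image.1 ha
    obtain ⟨y, hy, hxy⟩ := mem_image.1 hb
    have h3 := hg (by simp [hy]) (by simp [hx]) hxy
    exact Finset.disjoint_left.1 hd hx (h3 ▸ hy)

end

section
variable {ℓ : ℕ} {C X R : Type} [DecidableEq C] [CommRing R] [Algebra (ZMod ℓ) R]
  {ξ : X → R} {Far : X → X → Prop} {𝒳 : Set X}

theorem GoodM.good {M : ℕ} {B : Finset C} {v : C → R} (h : GoodM ℓ ξ Far 𝒳 M B v) :
    Good ℓ ξ Far 𝒳 B v := by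
  obtain ⟨W, h1, h2, _, h4⟩ := h
  exact ⟨W, h1, h2, h4⟩

theorem Good.mono {𝒳' : Set X} (hX : 𝒳' ⊆ 𝒳) {B B' : Finset C} (hB : B' ⊆ B) {v : C → R}
    (h : Good ℓ ξ Far 𝒳' B v) : Good ℓ ξ Far 𝒳 B' v := by
  obtain ⟨W, h1, h2, h3⟩ := h
  exact ⟨W, fun i hi j hj => h1 i (hB hi) j (hB hj), fun j hj => (h2 j (hB hj)).trans hX,
    fun j hj => h3 j (hB hj)⟩

theorem Str.mono {𝒳' : Set X} (hX : 𝒳' ⊆ 𝒳) {i : ℕ} {T : R →+ ZMod ℓ}
    {𝓖 𝓖' : Set (ℕ × (R →+ ZMod ℓ))} (hG : 𝓖 ⊆ 𝓖') (h : Str ξ Far 𝒳 i T 𝓖) :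
    Str ξ Far 𝒳' i T 𝓖' := by
  intro C _ B hB
  obtain ⟨φ, h1, h2⟩ := h C B hB
  exact ⟨φ, h1.mono hG, fun v hv => h2 v (hv.mono hX (Subset.refl B))⟩

theorem Alg.trans {𝓖 𝓖' : Set (ℕ × (R →+ ZMod ℓ))}
    (h : ∀ p ∈ 𝓖, Str ξ Far 𝒳 p.1 p.2 𝓖') {B : Finset C} {φ : (C → R) → ZMod ℓ}
    (hφ : Alg 𝓖 B φ) : ∃ φ' : (C → R) → ZMod ℓ, Alg 𝓖' B φ' ∧
      ∀ v, Good ℓ ξ Far 𝒳 B v → φ v = φ' v := by
  induction hφ with
  | zero B => exact ⟨_, .zero B, fun _ _ => rfl⟩
  | one => exact ⟨_, .one, fun _ _ => rfl⟩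
  | add _ _ h1 h2 =>
    obtain ⟨φ1, ha, hb⟩ := h1
    obtain ⟨φ2, hc, hd⟩ := h2
    exact ⟨_, ha.add hc, fun v hv => congrArg₂ (· + ·) (hb v hv) (hd v hv)⟩
  | smul c _ h1 =>
    obtain ⟨φ1, ha, hb⟩ := h1
    exact ⟨_, ha.smul c, fun v hv => congrArg (c * ·) (hb v hv)⟩
  | @gen B i F hm hB => exact h (i, F) hm C B hB
  | @mul B B' φ ψ hd hφ hψ h1 h2 =>
    obtain ⟨φ1, ha, hb⟩ := h1
    obtain ⟨φ2, hc, he⟩ := h2
    exact ⟨_, .mul hd ha hc, fun v hv => congrArg₂ (· * ·)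
      (hb v (hv.mono (Set.Subset.refl _) subset_union_left))
      (he v (hv.mono (Set.Subset.refl _) subset_union_right))⟩

theorem Str.trans {𝓖 𝓖' : Set (ℕ × (R →+ ZMod ℓ))} {i : ℕ} {T : R →+ ZMod ℓ}
    (hT : Str ξ Far 𝒳 i T 𝓖) (h : ∀ p ∈ 𝓖, Str ξ Far 𝒳 p.1 p.2 𝓖') : Str ξ Far 𝒳 i T 𝓖' := by
  intro C _ B hB
  obtain ⟨φ, h1, h2⟩ := hT C B hB
  obtain ⟨φ', h3, h4⟩ := h1.trans h
  exact ⟨φ', h3, fun v hv => (h2 v hv).trans (h4 v hv)⟩

theorem Str.self {𝓖 : Set (ℕ × (R →+ ZMod ℓ))} {i : ℕ} {T : R →+ ZMod ℓ} (h : (i, T) ∈ 𝓖) :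
    Str ξ Far 𝒳 i T 𝓖 := by
  intro C _ B hB
  exact ⟨_, .gen h hB, fun v _ => rfl⟩

/-- it is enough to know the structure for one set of colours -/
theorem str_of_one {𝓖 : Set (ℕ × (R →+ ZMod ℓ))} {i : ℕ} {T : R →+ ZMod ℓ} (B0 : Finset C)
    (hB0 : B0.card = i) {φ : (C → R) → ZMod ℓ} (hφ : Alg 𝓖 B0 φ)
    (h : ∀ v : C → R, Good ℓ ξ Far 𝒳 B0 v → T (∏ j ∈ B0, v j) = φ v) : Str ξ Far 𝒳 i T 𝓖 := by
  intro D _ B hB
  rcases B.eq_empty_or_nonempty with rfl | ⟨d0, hd0⟩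
  · refine ⟨_, Alg.one.smul (T 1), fun v _ => ?_⟩
    rw [prod_empty, mul_one]
  · let e : B0 ≃ B := Finset.equivOfCardEq (hB0.trans hB.symm)
    let g : C → D := fun c => if hc : c ∈ B0 then (e ⟨c, hc⟩ : D) else d0
    have hg : ∀ (c : C) (hc : c ∈ B0), g c = (e ⟨c, hc⟩ : D) := fun c hc => dif_pos hc
    have hinj : Set.InjOn g B0 := by
      intro c hc c' hc' hcc
      rw [mem_coe] at hc hc'
      rw [hg c hc, hg c' hc'] at hcc
      have h1 := e.injective (Subtype.ext hcc)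
      exact congrArg Subtype.val h1
    have himg : B0.image g = B := by
      ext d
      rw [mem_image]
      constructor
      · rintro ⟨c, hc, rfl⟩
        rw [hg c hc]
        exact (e ⟨c, hc⟩).2
      · intro hd
        refine ⟨(e.symm ⟨d, hd⟩ : C), (e.symm ⟨d, hd⟩).2, ?_⟩
        rw [hg _ (e.symm ⟨d, hd⟩).2]
        simp
    have h1 := hφ.relabel g hinj
    rw [himg] at h1
    refine ⟨_, h1, fun v hv => ?_⟩
    obtain ⟨W, h2, h3, h4⟩ := hv
    have hmem : ∀ c ∈ B0, g c ∈ B := fun c hc => himg ▸ mem_image_of_mem g hc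
    rw [← h (v ∘ g) ⟨W ∘ g, fun i hi j hj hij => h2 (g i) (hmem i hi) (g j) (hmem j hj)
      fun he => hij (hinj hi hj he), fun j hj => h3 (g j) (hmem j hj),
      fun j hj => h4 (g j) (hmem j hj)⟩, ← himg, prod_image hinj]
    rfl

/-- it is enough to know an identity at tuples of points -/
theorem str_ext {𝓖 : Set (ℕ × (R →+ ZMod ℓ))} {T : R →+ ZMod ℓ} {B : Finset C}
    {φ : (C → R) → ZMod ℓ} (hφ : Alg 𝓖 B φ) (hB : B.Nonempty)
    (h : ∀ x : C → X, (∀ j ∈ B, x j ∈ 𝒳) → (∀ i ∈ B, ∀ j ∈ B, i ≠ j → Far (x i) (x j)) →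
      T (∏ j ∈ B, ξ (x j)) = φ fun j => ξ (x j))
    (v : C → R) (hv : Good ℓ ξ Far 𝒳 B v) : T (∏ j ∈ B, v j) = φ v := by
  obtain ⟨W, h1, h2, h3⟩ := hv
  have key : ∀ A : Finset C, A ⊆ B → ∀ v : C → R,
      (∀ j ∈ A, ∃ h : X → ZMod ℓ, v j = vec ξ (W j) h) →
      (∀ j ∈ B, j ∉ A → ∃ x ∈ W j, v j = ξ x) → T (∏ j ∈ B, v j) = φ v := by
    intro A
    induction A using Finset.induction_on with
    | empty =>
      intro _ v _ hp
      obtain ⟨j0, hj0⟩ := hB
      obtain ⟨x0, _, _⟩ := hp j0 hj0 (notMem_empty _)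
      have h4 : ∀ j : C, ∃ x : X, j ∈ B → x ∈ W j ∧ v j = ξ x := by
        intro j
        by_cases hj : j ∈ B
        · obtain ⟨x, hx⟩ := hp j hj (notMem_empty _)
          exact ⟨x, fun _ => hx⟩
        · exact ⟨x0, fun hj' => absurd hj' hj⟩
      choose x hx using h4
      rw [prod_congr rfl fun j hj => (hx j hj).2,
        hφ.congr v (fun j => ξ (x j)) fun j hj => (hx j hj).2]
      exact h x (fun j hj => h2 j hj (hx j hj).1)
        fun i hi j hj hij => h1 i hi j hj hij _ (hx i hi).1 _ (hx j hj).1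
    | insert j0 A hj0 ih =>
      intro hA v hv hp
      have hj0B : j0 ∈ B := hA (mem_insert_self j0 A)
      let f1 : R →+ ZMod ℓ := AddMonoidHom.mk' (fun a => T (∏ j ∈ B, Function.update v j0 a j))
        (fun a b => by simp only [prod_update_of_mem hj0B, add_mul, map_add])
      let f2 : R →+ ZMod ℓ := AddMonoidHom.mk' (fun a => φ (Function.update v j0 a))
        (fun a b => hφ.add_colour hj0B v a b)
      have e1 : f1 (v j0) = T (∏ j ∈ B, v j) := by
        show T (∏ j ∈ B, Function.update v j0 (v j0) j) = _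
        rw [Function.update_eq_self]
      have e2 : f2 (v j0) = φ v := by
        show φ (Function.update v j0 (v j0)) = _
        rw [Function.update_eq_self]
      have e3 : ∀ x ∈ W j0, f1 (ξ x) = f2 (ξ x) := by
        intro x hx
        refine ih ((subset_insert j0 A).trans hA) (Function.update v j0 (ξ x)) ?_ ?_
        · intro j hj
          have hne : j ≠ j0 := fun he => hj0 (he ▸ hj)
          rw [Function.update_of_ne hne]
          exact hv j (mem_insert_of_mem hj)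
        · intro j hj hjA
          by_cases hne : j = j0
          · subst hne
            exact ⟨x, hx, by rw [Function.update_self]⟩
          · rw [Function.update_of_ne hne]
            exact hp j hj fun hmem => (mem_insert.1 hmem).elim hne hjA
      obtain ⟨k, hk⟩ := hv j0 (mem_insert_self j0 A)
      have hk' : v j0 = ∑ x ∈ W j0, k x • ξ x := hk
      rw [← e1, ← e2, hk', map_sum, map_sum]
      refine sum_congr rfl fun x hx => ?_
      rw [ZMod.map_smul, ZMod.map_smul, e3 x hx]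
  exact key B (Subset.refl B) v h3 fun j hj hj' => absurd hj hj'

theorem Str.solve (hℓ : ℓ.Prime) {n : ℕ} {e : Fin n → ℕ} {F : Fin n → R →+ ZMod ℓ} {i : ℕ}
    {c : Fin n → ZMod ℓ} (hc : ∀ κ, c κ ≠ 0 → e κ = i) {κ₀ : Fin n} (hκ₀ : c κ₀ ≠ 0)
    {𝓖 𝓖' : Set (ℕ × (R →+ ZMod ℓ))} (h𝓖 : ∀ κ, κ ≠ κ₀ → (e κ, F κ) ∈ 𝓖)
    (h : Str ξ Far 𝒳 i (∑ κ, c κ • F κ) 𝓖') : Str ξ Far 𝒳 i (F κ₀) (𝓖 ∪ 𝓖') := by
  have : Fact ℓ.Prime := ⟨hℓ⟩
  intro C _ B hB
  obtain ⟨φ, h1, h2⟩ := h C B hB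
  refine ⟨fun v => (c κ₀)⁻¹ * (φ v + ∑ κ ∈ univ.erase κ₀, -c κ * F κ (∏ j ∈ B, v j)), ?_, ?_⟩
  · refine .smul _ (.add (h1.mono Set.subset_union_right) (Alg.sum _ fun κ hκ => ?_))
    by_cases h0 : c κ = 0
    · simp only [h0, neg_zero, zero_mul]
      exact .zero B
    · exact .smul _ (.gen (Or.inl (h𝓖 κ (ne_of_mem_erase hκ))) (hB.trans (hc κ h0).symm))
  · intro v hv
    have h3 := h2 v hv
    rw [AddMonoidHom.finsetSum_apply, ← add_sum_erase _ _ (mem_univ κ₀)] at h3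
    simp only [AddMonoidHom.smul_apply, smul_eq_mul] at h3
    show F κ₀ (∏ j ∈ B, v j) =
      (c κ₀)⁻¹ * (φ v + ∑ κ ∈ univ.erase κ₀, -c κ * F κ (∏ j ∈ B, v j))
    rw [← h3, add_assoc, ← sum_add_distrib]
    simp only [neg_mul, add_neg_cancel, sum_const_zero, add_zero]
    rw [← mul_assoc, inv_mul_cancel₀ hκ₀, one_mul]

end

end Pool.Agent.Lib.MP_3e612f_nt.DI
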