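import Pool.Agent.Lib.MP_3e612f_nt.DI.GDefs

/-!
Alternating sums and multilinear forms.

PROOF of `alt_sum`. The left side is `∑_S c S • t S`, `c S = ∑_I (-1) ^ I.card * [S ⊆ base ∪ ⋃_j (if j ∈ I then A' j else A j)]`. Let
`S_j = S ∩ (A j ∪ A' j)` (disjoint for different `j`, and disjoint from `base`). The condition is
`S \ ⋃ S_j ⊆ base` and `S_j ⊆ A j` resp. `A' j` for all `j`, so `c S = [S \ ⋃ S_j ⊆ base] * ∏_j ([S_j ⊆ A j] - [S_j ⊆ A' j])`
(`Finset.prod_sub` / `prod_add`). If some `S_j` is empty this is `0`. If `t S ≠ 0` then `S.card ≤ card C`, so all `S_j` have one element and `S` is their union;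
there is exactly one injective `x : C → X` with `x j ∈ S_j` for all `j`, `univ.image x = S`, and
`∏_j ([x j ∈ A j] - [x j ∈ A' j])` is the coefficient. Conversely in `mlt` only the `x` with `x j ∈ A j ∪ A' j` for all `j` contribute.
`alt_zero`: the same, `t S = 0` for `S.card ≥ card C`.
`madd_mlt`: `∏_j (…)` is additive in each `h j` and linear in `x`: `mlt` is additive in each colour.
`Tm_vec`: `Fintype.prod_sum` (`∏_j ∑_x h j x • pt x = ∑_{x : C → X} (∏_j h j (x j)) • ∏_j pt (x j)`) and
`Tm d τ (∏_j pt (x j)) = if Injective x then τ (univ.image x) else 0` (`card C = d`: the monomial `∑_j single (x j) 1` equals `∑_{x ∈ S} single x 1` with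
`S.card = d` iff `x` is injective and `univ.image x = S`). `Tm_point`: coefficients of a monomial. `Tm_mlt`: `Tm_vec` and the cast.
-/

set_option autoImplicit false

namespace Pool.Agent.Lib.MP_3e612f_nt.DI

open Finset

section
variable {C X G : Type} [Fintype C] [DecidableEq C] [Fintype X] [DecidableEq X] [AddCommGroup G]

private theorem alt_prod (u u' : C → ℤ) :
    ∑ I : Finset C, (-1 : ℤ) ^ I.card * ∏ j, (if j ∈ I then u' j else u j) =
      ∏ j, (u j - u' j) := by
  have h : ∏ j, (u j - u' j) = ∏ j, (-u' j + u j) :=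
    Finset.prod_congr rfl fun j _ => by ring
  rw [h, Finset.prod_add, Finset.powerset_univ]
  refine Finset.sum_congr rfl fun I _ => ?_
  rw [Finset.prod_neg, ← Finset.prod_sdiff (Finset.subset_univ I), mul_assoc,
    mul_comm (∏ j ∈ I, u' j)]
  congr 2
  · exact Finset.prod_congr rfl fun j hj => if_neg (Finset.mem_sdiff.mp hj).2
  · exact Finset.prod_congr rfl fun j hj => if_pos hj

/-- the condition `S ⊆ base ∪ …`, split over the colours -/
private theorem alt_cond (base : Finset X) (A A' : C → Finset X)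
    (hdis : ∀ i j, i ≠ j → Disjoint (A i ∪ A' i) (A j ∪ A' j))
    (hbase : ∀ j, Disjoint base (A j ∪ A' j)) (S : Finset X) (I : Finset C) :
    S ⊆ (base ∪ univ.biUnion fun j => if j ∈ I then A' j else A j) ↔
      (∀ x ∈ S, x ∈ base ∨ ∃ j, x ∈ A j ∪ A' j) ∧
        ∀ j ∈ (univ : Finset C), if j ∈ I then S ∩ (A j ∪ A' j) ⊆ A' j else
          S ∩ (A j ∪ A' j) ⊆ A j := by
  constructor
  · intro h
    constructor
    · intro x hx
      rcases Finset.mem_union.mp (h hx) with hb | hb
      · exact Or.inl hb
      · obtain ⟨j, _, hj⟩ := Finset.mem_biUnion.mp hb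
        refine Or.inr ⟨j, ?_⟩
        split_ifs at hj with hI
        · exact Finset.mem_union_right _ hj
        · exact Finset.mem_union_left _ hj
    · intro j _
      have key : ∀ x ∈ S ∩ (A j ∪ A' j), x ∈ (if j ∈ I then A' j else A j) := by
        intro x hx
        obtain ⟨hxS, hxj⟩ := Finset.mem_inter.mp hx
        rcases Finset.mem_union.mp (h hxS) with hb | hb
        · exact absurd hxj (Finset.disjoint_left.mp (hbase j) hb)
        · obtain ⟨k, _, hk⟩ := Finset.mem_biUnion.mp hb
          have hkj : k = j := by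
            by_contra hne
            have hxk : x ∈ A k ∪ A' k := by
              split_ifs at hk with hI
              · exact Finset.mem_union_right _ hk
              · exact Finset.mem_union_left _ hk
            exact Finset.disjoint_left.mp (hdis k j hne) hxk hxj
          rw [hkj] at hk
          exact hk
      split_ifs with hI
      · intro x hx
        have := key x hx
        rwa [if_pos hI] at this
      · intro x hx
        have := key x hx
        rwa [if_neg hI] at this
  · rintro ⟨h1, h2⟩ x hx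
    rcases h1 x hx with hb | ⟨j, hj⟩
    · exact Finset.mem_union_left _ hb
    · refine Finset.mem_union_right _ (Finset.mem_biUnion.mpr ⟨j, mem_univ _, ?_⟩)
      have h := h2 j (mem_univ j)
      split_ifs at h ⊢ with hI
      · exact h (Finset.mem_inter.mpr ⟨hx, hj⟩)
      · exact h (Finset.mem_inter.mpr ⟨hx, hj⟩)

/-- the coefficient of `t S` -/
private theorem alt_coeff (base : Finset X) (A A' : C → Finset X)
    (hdis : ∀ i j, i ≠ j → Disjoint (A i ∪ A' i) (A j ∪ A' j))
    (hbase : ∀ j, Disjoint base (A j ∪ A' j)) (S : Finset X) :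
    ∑ I : Finset C, (-1 : ℤ) ^ I.card *
        (if S ⊆ (base ∪ univ.biUnion fun j => if j ∈ I then A' j else A j) then 1 else 0) =
      (if ∀ x ∈ S, x ∈ base ∨ ∃ j, x ∈ A j ∪ A' j then 1 else 0) *
        ∏ j, ((if S ∩ (A j ∪ A' j) ⊆ A j then (1 : ℤ) else 0) -
          if S ∩ (A j ∪ A' j) ⊆ A' j then 1 else 0) := by
  rw [← alt_prod, Finset.mul_sum]
  refine Finset.sum_congr rfl fun I _ => ?_
  have h1 : (if S ⊆ (base ∪ univ.biUnion fun j => if j ∈ I then A' j else A j)
      then (1 : ℤ) else 0) = (if ∀ x ∈ S, x ∈ base ∨ ∃ j, x ∈ A j ∪ A' j then 1 else 0) *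
        if (∀ j ∈ (univ : Finset C), if j ∈ I then S ∩ (A j ∪ A' j) ⊆ A' j else
          S ∩ (A j ∪ A' j) ⊆ A j) then 1 else 0 := by
    by_cases ha : ∀ x ∈ S, x ∈ base ∨ ∃ j, x ∈ A j ∪ A' j
    · by_cases hb : ∀ j ∈ (univ : Finset C), if j ∈ I then S ∩ (A j ∪ A' j) ⊆ A' j else
          S ∩ (A j ∪ A' j) ⊆ A j
      · rw [if_pos ((alt_cond base A A' hdis hbase S I).mpr ⟨ha, hb⟩), if_pos ha, if_pos hb,
          one_mul]
      · rw [if_neg fun h => hb ((alt_cond base A A' hdis hbase S I).mp h).2, if_neg hb,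
          mul_zero]
    · rw [if_neg fun h => ha ((alt_cond base A A' hdis hbase S I).mp h).1, if_neg ha,
        zero_mul]
  have h2 : (∏ j, (if j ∈ I then (if S ∩ (A j ∪ A' j) ⊆ A' j then (1 : ℤ) else 0) else
      if S ∩ (A j ∪ A' j) ⊆ A j then 1 else 0)) =
        if (∀ j ∈ (univ : Finset C), if j ∈ I then S ∩ (A j ∪ A' j) ⊆ A' j else
          S ∩ (A j ∪ A' j) ⊆ A j) then 1 else 0 := by
    by_cases hb : ∀ j ∈ (univ : Finset C), if j ∈ I then S ∩ (A j ∪ A' j) ⊆ A' j else
        S ∩ (A j ∪ A' j) ⊆ A j
    · rw [if_pos hb]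
      refine Finset.prod_eq_one fun j hj => ?_
      have h := hb j hj
      by_cases hI : j ∈ I
      · rw [if_pos hI] at h ⊢
        rw [if_pos h]
      · rw [if_neg hI] at h ⊢
        rw [if_pos h]
    · rw [if_neg hb]
      push Not at hb
      obtain ⟨j, hj, h⟩ := hb
      refine Finset.prod_eq_zero hj ?_
      by_cases hI : j ∈ I
      · rw [if_pos hI] at h ⊢
        rw [if_neg h]
      · rw [if_neg hI] at h ⊢
        rw [if_neg h]
  rw [h1, h2]
  ring

/-- the weight of a map vanishes when a point is in neither of the two sets of its colour -/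
private theorem alt_wt (A A' : C → Finset X) {x : C → X} {j : C} (h : x j ∉ A j ∪ A' j) :
    (∏ j, ((if x j ∈ A j then (1 : ℤ) else 0) - if x j ∈ A' j then 1 else 0)) = 0 := by
  rw [Finset.mem_union, not_or] at h
  refine Finset.prod_eq_zero (mem_univ j) ?_
  rw [if_neg h.1, if_neg h.2, sub_zero]

theorem alt_sum (t : Finset X → G) (ht : ∀ S, Fintype.card C < S.card → t S = 0)
    (base : Finset X) (A A' : C → Finset X)
    (hdis : ∀ i j, i ≠ j → Disjoint (A i ∪ A' i) (A j ∪ A' j))
    (hbase : ∀ j, Disjoint base (A j ∪ A' j)) :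
    ∑ I : Finset C, (-1 : ℤ) ^ I.card •
        ∑ S ∈ (base ∪ univ.biUnion fun j => if j ∈ I then A' j else A j).powerset, t S =
      mlt t fun j x => (if x ∈ A j then 1 else 0) - if x ∈ A' j then 1 else 0 := by
  have e1 : ∀ I : Finset C, (-1 : ℤ) ^ I.card •
      ∑ S ∈ (base ∪ univ.biUnion fun j => if j ∈ I then A' j else A j).powerset, t S =
      ∑ S : Finset X, ((-1 : ℤ) ^ I.card *
        (if S ⊆ (base ∪ univ.biUnion fun j => if j ∈ I then A' j else A j) then 1 else 0)) •
          t S := by
    intro I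
    rw [Finset.smul_sum]
    symm
    rw [← Finset.sum_subset (Finset.subset_univ
      (base ∪ univ.biUnion fun j => if j ∈ I then A' j else A j).powerset)]
    · refine Finset.sum_congr rfl fun S hS => ?_
      rw [if_pos (Finset.mem_powerset.mp hS), mul_one]
    · intro S _ hS
      rw [if_neg fun h => hS (Finset.mem_powerset.mpr h), mul_zero, zero_smul]
  simp only [e1]
  rw [Finset.sum_comm]
  unfold mlt
  rw [← Finset.sum_fiberwise (s := (univ : Finset (C → X))) (g := fun x : C → X => univ.image x)]
  refine Finset.sum_congr rfl fun S _ => ?_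
  rw [← Finset.sum_smul, alt_coeff base A A' hdis hbase S]
  by_cases hc : Fintype.card C < S.card
  · rw [ht S hc, smul_zero]
    symm
    refine Finset.sum_eq_zero fun x hx => ?_
    rw [(Finset.mem_filter.mp hx).2, ht S hc, smul_zero, ite_self]
  by_cases hy : ∀ j, ∃ y, y ∈ S ∩ (A j ∪ A' j)
  · choose y hy using hy
    have hyS : ∀ j, y j ∈ S := fun j => (Finset.mem_inter.mp (hy j)).1
    have hyA : ∀ j, y j ∈ A j ∪ A' j := fun j => (Finset.mem_inter.mp (hy j)).2
    have hinj : Function.Injective y := by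
      intro a b hab
      by_contra hne
      exact Finset.disjoint_left.mp (hdis a b hne) (hyA a) (hab ▸ hyA b)
    have himg : univ.image y = S := by
      refine Finset.eq_of_subset_of_card_le ?_ ?_
      · intro z hz
        obtain ⟨j, _, rfl⟩ := Finset.mem_image.mp hz
        exact hyS j
      · rw [Finset.card_image_of_injective _ hinj, Finset.card_univ]
        exact not_lt.mp hc
    rw [Finset.sum_eq_single y]
    · rw [if_pos hinj, himg]
      congr 1
      have h0 : ∀ x ∈ S, x ∈ base ∨ ∃ j, x ∈ A j ∪ A' j := by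
        intro x hx
        rw [← himg] at hx
        obtain ⟨j, _, rfl⟩ := Finset.mem_image.mp hx
        exact Or.inr ⟨j, hyA j⟩
      rw [if_pos h0, one_mul]
      refine Finset.prod_congr rfl fun j _ => ?_
      have hs : S ∩ (A j ∪ A' j) = {y j} := by
        ext z
        rw [Finset.mem_singleton]
        constructor
        · intro hz
          obtain ⟨hzS, hzA⟩ := Finset.mem_inter.mp hz
          rw [← himg] at hzS
          obtain ⟨k, _, rfl⟩ := Finset.mem_image.mp hzS
          by_contra hne
          refine Finset.disjoint_left.mp (hdis k j ?_) (hyA k) hzA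
          rintro rfl
          exact hne rfl
        · rintro rfl
          exact hy j
      simp only [hs, Finset.singleton_subset_iff]
    · intro x hx hxy
      have hxS : univ.image x = S := (Finset.mem_filter.mp hx).2
      have hj : ∃ j, x j ∉ A j ∪ A' j := by
        by_contra hall
        push Not at hall
        refine hxy (funext fun j => ?_)
        have hxj : x j ∈ univ.image y := by
          rw [himg, ← hxS]
          exact Finset.mem_image_of_mem x (mem_univ j)
        obtain ⟨k, _, hk⟩ := Finset.mem_image.mp hxj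
        by_contra hne
        refine Finset.disjoint_left.mp (hdis k j ?_) (hyA k) (hk ▸ hall j)
        rintro rfl
        exact hne hk.symm
      obtain ⟨j, hj⟩ := hj
      rw [alt_wt A A' hj, zero_smul, ite_self]
    · intro hn
      exact (hn (Finset.mem_filter.mpr ⟨mem_univ _, himg⟩)).elim
  · push Not at hy
    obtain ⟨j, hj⟩ := hy
    have hE : S ∩ (A j ∪ A' j) = ∅ := Finset.eq_empty_of_forall_notMem hj
    have hz : (∏ j, ((if S ∩ (A j ∪ A' j) ⊆ A j then (1 : ℤ) else 0) -
        if S ∩ (A j ∪ A' j) ⊆ A' j then 1 else 0)) = 0 := by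
      refine Finset.prod_eq_zero (mem_univ j) ?_
      rw [hE, if_pos (Finset.empty_subset _), if_pos (Finset.empty_subset _), sub_self]
    rw [hz, mul_zero, zero_smul]
    symm
    refine Finset.sum_eq_zero fun x hx => ?_
    have hxS : univ.image x = S := (Finset.mem_filter.mp hx).2
    have hxj : x j ∉ A j ∪ A' j := by
      intro h
      refine hj (x j) (Finset.mem_inter.mpr ⟨?_, h⟩)
      rw [← hxS]
      exact Finset.mem_image_of_mem x (mem_univ j)
    rw [alt_wt A A' hxj, zero_smul, ite_self]

theorem alt_zero (t : Finset X → G) (ht : ∀ S, Fintype.card C ≤ S.card → t S = 0)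
    (base : Finset X) (A A' : C → Finset X)
    (hdis : ∀ i j, i ≠ j → Disjoint (A i ∪ A' i) (A j ∪ A' j))
    (hbase : ∀ j, Disjoint base (A j ∪ A' j)) :
    ∑ I : Finset C, (-1 : ℤ) ^ I.card •
        ∑ S ∈ (base ∪ univ.biUnion fun j => if j ∈ I then A' j else A j).powerset, t S = 0 := by
  rw [alt_sum t (fun S hS => ht S hS.le) base A A' hdis hbase]
  refine Finset.sum_eq_zero fun x _ => ?_
  by_cases hx : Function.Injective x
  · rw [if_pos hx, ht, smul_zero]
    rw [Finset.card_image_of_injective _ hx, Finset.card_univ]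
  · rw [if_neg hx]

theorem madd_mlt (t : Finset X → G) : MAdd (univ : Finset C) fun h : C → X → ℤ => mlt t h := by
  intro h j
  constructor
  · intro _ u v
    have e : ∀ (w : X → ℤ) (x : C → X), ∏ k, Function.update h j w k (x k) =
        w (x j) * ∏ k ∈ univ.erase j, h k (x k) := by
      intro w x
      rw [← Finset.mul_prod_erase univ _ (mem_univ j), Function.update_self]
      congr 1
      refine Finset.prod_congr rfl fun k hk => ?_
      rw [Function.update_of_ne (Finset.ne_of_mem_erase hk)]
    unfold mlt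
    rw [← Finset.sum_add_distrib]
    refine Finset.sum_congr rfl fun x _ => ?_
    by_cases hx : Function.Injective x
    · simp only [if_pos hx, e, Pi.add_apply, add_mul, add_smul]
    · simp only [if_neg hx, add_zero]
  · intro hj
    exact absurd (mem_univ j) hj

theorem mlt_map {G' : Type} [AddCommGroup G'] (φ : G →+ G') (t : Finset X → G) (h : C → X → ℤ) :
    mlt (fun S => φ (t S)) h = φ (mlt t h) := by
  unfold mlt
  rw [map_sum]
  refine Finset.sum_congr rfl fun x _ => ?_
  by_cases hx : Function.Injective x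
  · rw [if_pos hx, if_pos hx, map_zsmul]
  · rw [if_neg hx, if_neg hx, map_zero]

theorem mlt_congr {t t' : Finset X → G} (h : ∀ S, S.card = Fintype.card C → t S = t' S)
    (v : C → X → ℤ) : mlt t v = mlt t' v := by
  unfold mlt
  refine Finset.sum_congr rfl fun x _ => ?_
  by_cases hx : Function.Injective x
  · rw [if_pos hx, if_pos hx, h]
    rw [Finset.card_image_of_injective _ hx, Finset.card_univ]
  · rw [if_neg hx, if_neg hx]

end

section
variable {ℓ : ℕ} {C X : Type} [Fintype C] [DecidableEq C] [Fintype X] [DecidableEq X]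

private theorem alt_ind (S : Finset X) (y : X) :
    (∑ x ∈ S, Finsupp.single x 1 : X →₀ ℕ) y = if y ∈ S then 1 else 0 := by
  rw [Finsupp.finsetSum_apply]
  simp only [Finsupp.single_apply]
  rw [Finset.sum_ite_eq' S y fun _ => 1]

private theorem Tm_apply {d : ℕ} (τ : Finset X → ZMod ℓ) (f : MvPolynomial X (ZMod ℓ)) :
    Tm d τ f = ∑ S ∈ univ.powersetCard d,
      MvPolynomial.coeff (∑ x ∈ S, Finsupp.single x 1) f * τ S := rfl

private theorem alt_mono {ι : Type} (s : Finset ι) (y : ι → X) :
    (∏ j ∈ s, pt (ℓ := ℓ) (y j)) =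
      MvPolynomial.monomial (∑ j ∈ s, Finsupp.single (y j) 1) (1 : ZMod ℓ) := by
  rw [MvPolynomial.monomial_sum_one]
  rfl

theorem Tm_point {d : ℕ} (τ : Finset X → ZMod ℓ) {S : Finset X} (hS : S.card = d) :
    Tm d τ (∏ x ∈ S, pt x) = τ S := by
  classical
  rw [Tm_apply, alt_mono S fun x => x, Finset.sum_eq_single S]
  · rw [MvPolynomial.coeff_monomial, if_pos rfl, one_mul]
  · intro S' _ hne
    rw [MvPolynomial.coeff_monomial, if_neg, zero_mul]
    intro h
    refine hne (Finset.ext fun y => ?_)
    have hy := DFunLike.congr_fun h y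
    rw [alt_ind, alt_ind] at hy
    by_cases h1 : y ∈ S' <;> by_cases h2 : y ∈ S <;> simp_all
  · intro hn
    exact absurd (Finset.mem_powersetCard.mpr ⟨Finset.subset_univ S, hS⟩) hn

private theorem Tm_smul {d : ℕ} (τ : Finset X → ZMod ℓ) (c : ZMod ℓ)
    (f : MvPolynomial X (ZMod ℓ)) : Tm d τ (c • f) = c * Tm d τ f := by
  rw [Tm_apply, Tm_apply, Finset.mul_sum]
  refine Finset.sum_congr rfl fun S _ => ?_
  rw [MvPolynomial.coeff_smul, smul_eq_mul, mul_assoc]

private theorem Tm_prod {d : ℕ} (hd : Fintype.card C = d) (τ : Finset X → ZMod ℓ) (x : C → X) :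
    Tm d τ (∏ j, pt (x j)) = if Function.Injective x then τ (univ.image x) else 0 := by
  classical
  by_cases hx : Function.Injective x
  · rw [if_pos hx, ← Tm_point (d := d) τ (S := univ.image x)]
    · rw [Finset.prod_image fun a _ b _ hab => hx hab]
    · rw [Finset.card_image_of_injective _ hx, Finset.card_univ, hd]
  · rw [if_neg hx, Tm_apply]
    refine Finset.sum_eq_zero fun S _ => ?_
    rw [alt_mono univ x, MvPolynomial.coeff_monomial, if_neg, zero_mul]
    intro h
    refine hx fun a b hab => ?_
    by_contra hne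
    have hy := DFunLike.congr_fun h (x a)
    rw [alt_ind, Finsupp.finsetSum_apply] at hy
    have h2 : 2 ≤ ∑ j, (Finsupp.single (x j) 1 : X →₀ ℕ) (x a) := by
      have h3 : ∑ j ∈ ({a, b} : Finset C), (Finsupp.single (x j) 1 : X →₀ ℕ) (x a) ≤
          ∑ j, (Finsupp.single (x j) 1 : X →₀ ℕ) (x a) :=
        Finset.sum_le_sum_of_subset (Finset.subset_univ _)
      rw [Finset.sum_pair hne, Finsupp.single_eq_same, ← hab, Finsupp.single_eq_same] at h3
      exact h3
    rw [hy] at h2
    split_ifs at h2 <;> omega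

theorem Tm_vec {d : ℕ} (hd : Fintype.card C = d) (τ : Finset X → ZMod ℓ) (h : C → X → ZMod ℓ) :
    Tm d τ (∏ j : C, ∑ x, h j x • pt x) =
      ∑ x : C → X, if Function.Injective x then (∏ j, h j (x j)) * τ (univ.image x) else 0 := by
  rw [Finset.prod_univ_sum, map_sum]
  simp only [Fintype.piFinset_univ]
  refine Finset.sum_congr rfl fun x _ => ?_
  rw [Finset.prod_smul, Tm_smul, Tm_prod hd, mul_ite, mul_zero]

theorem Tm_mlt {d : ℕ} (hd : Fintype.card C = d) (τ : Finset X → ZMod ℓ) (h : C → X → ℤ) :
    Tm d τ (∏ j : C, ∑ x, (h j x : ZMod ℓ) • pt x) = mlt τ h := by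
  rw [Tm_vec hd τ fun j x => (h j x : ZMod ℓ)]
  unfold mlt
  refine Finset.sum_congr rfl fun x _ => ?_
  by_cases hx : Function.Injective x
  · rw [if_pos hx, if_pos hx, zsmul_eq_mul, Int.cast_prod]
  · rw [if_neg hx, if_neg hx]

end

end Pool.Agent.Lib.MP_3e612f_nt.DI
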