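import Pool.Agent.Lib.MP_3e612f_nt.DI.Defs

/-!
Elementary facts on averages `av` and proportions `pr`. All proofs are a few lines.

`av_coord`: the map `(x, u) ↦ update x j u` from `(C → E) × E` to `C → E` is onto and all its fibres
have `card E` elements. `av_comp_inj`: the same for `h ↦ h ∘ g`, whose fibres all have
`card E ^ (card C' - card C)` elements (or: an equivalence `(C' → E) ≃ (C → E) × ((complement of the
range of g) → E)`, e.g. `Equiv.piEquivPiSubtypeProd`, `Equiv.ofInjective`).
`av_piecewise`: all fibres of `(k, k') ↦ B.piecewise k' k` have the same number of elements (or induction on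
`B` with `av_coord`). `pr_markov`: `t * #{a | t ≤ f a} ≤ ∑ f`.
-/

set_option autoImplicit false

namespace Pool.Agent.Lib.MP_3e612f_nt.DI

open Finset
open Pool.Agent.Lib.MP_3e612f_nt.PI (ee)

section
variable {α β : Type} [Fintype α] [Fintype β]

theorem av_const [Nonempty α] (c : ℂ) : av (fun _ : α => c) = c := by
  unfold av
  have h : (Fintype.card α : ℂ) ≠ 0 := by
    exact_mod_cast Fintype.card_ne_zero
  rw [Finset.sum_const, card_univ, nsmul_eq_mul, inv_mul_cancel_left₀ h]

theorem av_add (f g : α → ℂ) : av (fun a => f a + g a) = av f + av g := by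
  unfold av
  rw [Finset.sum_add_distrib, mul_add]

theorem av_mul_left (c : ℂ) (f : α → ℂ) : av (fun a => c * f a) = c * av f := by
  unfold av
  rw [← Finset.mul_sum, mul_left_comm]

theorem av_sum {ι : Type} (s : Finset ι) (f : ι → α → ℂ) :
    av (fun a => ∑ i ∈ s, f i a) = ∑ i ∈ s, av (f i) := by
  unfold av
  rw [Finset.sum_comm, Finset.mul_sum]

theorem av_conj (f : α → ℂ) : (starRingEnd ℂ) (av f) = av fun a => (starRingEnd ℂ) (f a) := by
  unfold av
  rw [map_mul, map_sum, map_inv₀, Complex.conj_natCast]

theorem norm_av_le (f : α → ℂ) : ‖av f‖ ≤ (av fun a => ((‖f a‖ : ℝ) : ℂ)).re := by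
  have h : (av fun a => ((‖f a‖ : ℝ) : ℂ)) = (((Fintype.card α : ℝ)⁻¹ * ∑ a, ‖f a‖ : ℝ) : ℂ) := by
    unfold av
    push_cast
    rfl
  rw [h, Complex.ofReal_re]
  unfold av
  rw [norm_mul, norm_inv, Complex.norm_natCast]
  exact mul_le_mul_of_nonneg_left (norm_sum_le _ _) (by positivity)

theorem norm_av_le_of {c : ℝ} (hc : 0 ≤ c) {f : α → ℂ} (h : ∀ a, ‖f a‖ ≤ c) : ‖av f‖ ≤ c := by
  unfold av
  rw [norm_mul, norm_inv, Complex.norm_natCast]
  have h1 : ‖∑ a, f a‖ ≤ Fintype.card α * c := by
    refine (norm_sum_le _ _).trans ?_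
    refine (Finset.sum_le_sum fun a _ => h a).trans ?_
    rw [Finset.sum_const, card_univ, nsmul_eq_mul]
  rcases Nat.eq_zero_or_pos (Fintype.card α) with h0 | h0
  · rw [h0]
    simpa using hc
  · have h2 : (0 : ℝ) < Fintype.card α := by exact_mod_cast h0
    rw [inv_mul_le_iff₀ h2]
    exact h1

theorem av_re_mono {f g : α → ℂ} (h : ∀ a, (f a).re ≤ (g a).re) : (av f).re ≤ (av g).re := by
  have h1 : ∀ f : α → ℂ, (av f).re = (Fintype.card α : ℝ)⁻¹ * ∑ a, (f a).re := by
    intro f
    unfold av
    have h2 : ((Fintype.card α : ℂ)⁻¹) = (((Fintype.card α : ℝ)⁻¹ : ℝ) : ℂ) := by push_cast; rfl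
    rw [h2, Complex.re_ofReal_mul, Complex.re_sum]
  rw [h1, h1]
  exact mul_le_mul_of_nonneg_left (Finset.sum_le_sum fun a _ => h a) (by positivity)

theorem av_equiv (σ : α ≃ β) (f : β → ℂ) : av (fun a => f (σ a)) = av f := by
  unfold av
  rw [Fintype.card_congr σ, Equiv.sum_comp σ f]

theorem av_prod (f : α × β → ℂ) : av f = av fun a => av fun b => f (a, b) := by
  unfold av
  rw [Fintype.card_prod, Fintype.sum_prod_type, ← Finset.mul_sum, Nat.cast_mul, mul_inv, mul_assoc]

theorem av_comm (f : α → β → ℂ) : (av fun a => av fun b => f a b) = av fun b => av fun a => f a b := by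
  unfold av
  rw [← Finset.mul_sum, ← Finset.mul_sum, Finset.sum_comm, mul_left_comm]

theorem av_add_right {E : Type} [AddGroup E] [Fintype E] (a : E) (f : E → ℂ) :
    av (fun x => f (x + a)) = av f := by
  exact av_equiv (Equiv.addRight a) f

theorem av_coord {C E : Type} [Fintype C] [DecidableEq C] [Fintype E] (j : C)
    (f : (C → E) → ℂ) : av f = av fun x : C → E => av fun u => f (Function.update x j u) := by
  by_cases hE : Nonempty E
  · let σ : ((C → E) × E) ≃ ((C → E) × E) :=
      { toFun := fun p => (Function.update p.1 j p.2, p.1 j)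
        invFun := fun p => (Function.update p.1 j p.2, p.1 j)
        left_inv := by
          rintro ⟨x, u⟩
          simp
        right_inv := by
          rintro ⟨x, u⟩
          simp }
    have h1 := av_equiv σ (fun p : (C → E) × E => f p.1)
    rw [av_prod, av_prod] at h1
    have h2 : (av fun a : C → E => av fun _ : E => f a) = av f := by
      congr 1
      funext a
      exact av_const _
    have h3 : (av fun a : C → E => av fun _ : E => f (a, (Classical.arbitrary E)).1) = av f := h2
    rw [← h2]
    exact h1.symm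
  · have hE' : IsEmpty (C → E) := ⟨fun x => hE ⟨x j⟩⟩
    unfold av
    rw [Fintype.card_eq_zero]
    simp

theorem av_comp_inj {C C' E : Type} [Fintype C] [DecidableEq C] [Fintype C'] [DecidableEq C']
    [Fintype E] [Nonempty E] (g : C → C') (hg : Function.Injective g) (f : (C → E) → ℂ) :
    av (fun h : C' → E => f (h ∘ g)) = av f := by
  classical
  let p : C' → Prop := fun c => c ∈ Set.range g
  let e : C ≃ {c // p c} := Equiv.ofInjective g hg
  let σ : (C' → E) ≃ (C → E) × ({c // ¬ p c} → E) :=
    (Equiv.piEquivPiSubtypeProd p fun _ => E).trans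
      (Equiv.prodCongr (Equiv.arrowCongr e.symm (Equiv.refl E)) (Equiv.refl _))
  have h1 := av_equiv σ (fun q : (C → E) × ({c // ¬ p c} → E) => f q.1)
  have h2 : ∀ h : C' → E, (σ h).1 = h ∘ g := by
    intro h
    rfl
  simp only [h2] at h1
  rw [h1, av_prod]
  have h3 : ∀ a : C → E, (av fun _ : {c // ¬ p c} → E => f a) = f a := fun a => av_const _
  simp only [h3]

/-- two independent copies used on complementary coordinates are one copy -/
theorem av_piecewise {C E : Type} [Fintype C] [DecidableEq C] [Fintype E] (B : Finset C)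
    (f : (C → E) → ℂ) : (av fun k : C → E => av fun k' : C → E => f (B.piecewise k' k)) = av f := by
  by_cases hE : Nonempty (C → E)
  · let σ : ((C → E) × (C → E)) ≃ ((C → E) × (C → E)) :=
      { toFun := fun p => (B.piecewise p.2 p.1, B.piecewise p.1 p.2)
        invFun := fun p => (B.piecewise p.2 p.1, B.piecewise p.1 p.2)
        left_inv := by
          rintro ⟨x, u⟩
          ext c <;> by_cases hc : c ∈ B <;> simp [hc]
        right_inv := by
          rintro ⟨x, u⟩
          ext c <;> by_cases hc : c ∈ B <;> simp [hc] }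
    have h1 := av_equiv σ (fun p : (C → E) × (C → E) => f p.1)
    rw [av_prod, av_prod] at h1
    have h2 : (av fun a : C → E => av fun _ : C → E => f a) = av f := by
      congr 1
      funext a
      exact av_const _
    rw [← h2]
    exact h1
  · have hE' : IsEmpty (C → E) := not_nonempty_iff.1 hE
    unfold av
    rw [Fintype.card_eq_zero]
    simp

private theorem pr_def (P : α → Prop) [DecidablePred P] :
    pr P = ((univ.filter P).card : ℝ) / Fintype.card α := by
  unfold pr
  congr!

open Classical in
private theorem pr_eq_av (P : α → Prop) : (pr P : ℂ) = av fun a => (if P a then 1 else 0 : ℂ) := by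
  unfold pr av
  rw [Finset.sum_boole, Complex.ofReal_div, div_eq_inv_mul, Complex.ofReal_natCast,
    Complex.ofReal_natCast]

theorem pr_nonneg (P : α → Prop) : 0 ≤ pr P := by
  unfold pr
  positivity

theorem pr_le_one (P : α → Prop) : pr P ≤ 1 := by
  classical
  unfold pr
  apply div_le_one_of_le₀
  · have h : (univ.filter P).card ≤ (univ : Finset α).card := Finset.card_filter_le _ _
    rw [card_univ] at h
    convert (Nat.cast_le (α := ℝ)).2 h
  · positivity

theorem pr_mono {P Q : α → Prop} (h : ∀ a, P a → Q a) : pr P ≤ pr Q := by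
  classical
  unfold pr
  apply div_le_div_of_nonneg_right _ (by positivity)
  have h1 : (univ.filter P).card ≤ (univ.filter Q).card :=
    Finset.card_le_card (Finset.monotone_filter_right _ fun a _ => h a)
  convert (Nat.cast_le (α := ℝ)).2 h1

theorem pr_not [Nonempty α] (P : α → Prop) : pr (fun a => ¬ P a) = 1 - pr P := by
  classical
  have h : (Fintype.card α : ℝ) ≠ 0 := by exact_mod_cast Fintype.card_ne_zero
  unfold pr
  rw [eq_sub_iff_add_eq, ← add_div, div_eq_one_iff_eq h]
  have h1 := Finset.card_filter_add_card_filter_not (s := (univ : Finset α)) P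
  rw [card_univ] at h1
  rw [← h1]
  push_cast
  rw [add_comm]
  congr!

theorem pr_exists_le {ι : Type} (s : Finset ι) (P : ι → α → Prop) :
    pr (fun a => ∃ i ∈ s, P i a) ≤ ∑ i ∈ s, pr (P i) := by
  classical
  simp only [pr_def]
  rw [← Finset.sum_div]
  apply div_le_div_of_nonneg_right _ (by positivity)
  have h1 : (univ.filter fun a => ∃ i ∈ s, P i a).card ≤ ∑ i ∈ s, (univ.filter (P i)).card := by
    refine le_trans (Finset.card_le_card ?_) Finset.card_biUnion_le
    intro a ha
    rw [mem_filter] at ha
    obtain ⟨-, i, hi, hP⟩ := ha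
    rw [mem_biUnion]
    exact ⟨i, hi, mem_filter.2 ⟨mem_univ _, hP⟩⟩
  have h2 : (((univ.filter fun a => ∃ i ∈ s, P i a).card : ℕ) : ℝ) ≤
      ∑ i ∈ s, (((univ.filter (P i)).card : ℕ) : ℝ) := by exact_mod_cast h1
  exact h2

theorem exists_of_pr_pos {P : α → Prop} (h : 0 < pr P) : ∃ a, P a := by
  classical
  by_contra hne
  push Not at hne
  have h1 : pr P = 0 := by
    unfold pr
    have : univ.filter P = ∅ := by
      rw [Finset.filter_eq_empty_iff]
      intro a _
      exact hne a
    simp only [this]
    simp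
  linarith

theorem exists_of_pr_add {P Q : α → Prop} (h : 1 < pr P + pr Q) : ∃ a, P a ∧ Q a := by
  by_contra hne
  push Not at hne
  have hα : Nonempty α := by
    by_contra hα
    have hα' : IsEmpty α := not_nonempty_iff.1 hα
    have h1 : ∀ R : α → Prop, pr R = 0 := by
      intro R
      unfold pr
      rw [Fintype.card_eq_zero]
      simp
    rw [h1, h1] at h
    norm_num at h
  have h1 : pr Q ≤ pr (fun a => ¬ P a) := pr_mono fun a hQ hP => hne a hP hQ
  rw [pr_not] at h1
  linarith

theorem pr_add_right {E : Type} [AddGroup E] [Fintype E] (a : E) (P : E → Prop) :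
    pr (fun x => P (x + a)) = pr P := by
  classical
  have h1 := av_add_right a (fun x : E => (if P x then 1 else 0 : ℂ))
  have h2 := pr_eq_av (fun x => P (x + a))
  rw [h1, ← pr_eq_av] at h2
  exact_mod_cast h2

theorem pr_coord {C E : Type} [Fintype C] [DecidableEq C] [Fintype E] (j : C)
    (P : (C → E) → Prop) : (pr P : ℂ) = av fun x : C → E => (pr fun u => P (Function.update x j u) : ℂ) := by
  classical
  rw [pr_eq_av, av_coord j]
  congr 1
  funext x
  rw [pr_eq_av]

theorem pr_markov {f : α → ℝ} (hf : ∀ a, 0 ≤ f a) {t : ℝ} (ht : 0 < t) :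
    pr (fun a => t ≤ f a) ≤ (av fun a => (f a : ℂ)).re / t := by
  classical
  have h1 : (av fun a => (f a : ℂ)).re = (Fintype.card α : ℝ)⁻¹ * ∑ a, f a := by
    have : (av fun a => (f a : ℂ)) = (((Fintype.card α : ℝ)⁻¹ * ∑ a, f a : ℝ) : ℂ) := by
      unfold av
      push_cast
      rfl
    rw [this, Complex.ofReal_re]
  rw [h1, le_div_iff₀ ht]
  have h2 : (univ.filter fun a => t ≤ f a).card * t ≤ ∑ a, f a := by
    rw [← nsmul_eq_mul, ← Finset.sum_const]
    refine (Finset.sum_le_sum fun a ha => (mem_filter.1 ha).2).trans ?_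
    exact Finset.sum_le_sum_of_subset_of_nonneg (Finset.filter_subset _ _) fun a _ _ => hf a
  have h3 : pr (fun a => t ≤ f a) = (Fintype.card α : ℝ)⁻¹ * (univ.filter fun a => t ≤ f a).card := by
    rw [pr_def, div_eq_inv_mul]
  rw [h3, mul_assoc]
  exact mul_le_mul_of_nonneg_left h2 (by positivity)

end

end Pool.Agent.Lib.MP_3e612f_nt.DI
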