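import Pool.Agent.Lib.MP_3e612f_nt.DI.Vec

/-!
Products of averages of multiadditive phases.

`av_mul_le`: the product of the averages of `ee φ` and `ee φ'` is the average over `E × E` of
`ee (φ x + φ' z)`, and this is at most the average over the diagonal subgroup (`madd_restrict`).
`bi_classes`: if the vectors in each colour are sums over classes, then one of the tuples of classes has
a small bias.
-/

set_option autoImplicit false

namespace Pool.Agent.Lib.MP_3e612f_nt.DI

open Finset
open Pool.Agent.Lib.MP_3e612f_nt.PI (ee)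

theorem BMul_ee_add {M : ℕ} [NeZero M] (z w : ZMod M) : ee (z + w) = ee z * ee w := by
  unfold Pool.Agent.Lib.MP_3e612f_nt.PI.ee
  exact AddChar.map_add_eq_mul _ _ _

section
variable {C E G : Type} [DecidableEq C] [AddCommGroup E] [AddCommGroup G]

theorem MAdd.zero (A : Finset C) : MAdd A fun _ : C → E => (0 : G) := fun _ _ => by
  simp

theorem MAdd.add {A : Finset C} {φ φ' : (C → E) → G} (h : MAdd A φ) (h' : MAdd A φ') :
    MAdd A fun x => φ x + φ' x := fun x j => by
  refine ⟨fun hj u v => ?_, fun hj u => ?_⟩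
  · simp only
    rw [(h x j).1 hj, (h' x j).1 hj]
    abel
  · simp only
    rw [(h x j).2 hj, (h' x j).2 hj]

theorem MAdd.sum {A : Finset C} {κ : Type} (s : Finset κ) {φ : κ → (C → E) → G}
    (h : ∀ k ∈ s, MAdd A (φ k)) : MAdd A fun x => ∑ k ∈ s, φ k x := fun x j => by
  refine ⟨fun hj u v => ?_, fun hj u => ?_⟩
  · simp only
    rw [← sum_add_distrib]
    exact sum_congr rfl fun k hk => (h k hk x j).1 hj u v
  · exact sum_congr rfl fun k hk => (h k hk x j).2 hj u

theorem MAdd.comp {E' : Type} [AddCommGroup E'] {A : Finset C} {φ : (C → E) → G} (h : MAdd A φ)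
    (α : C → E' →+ E) : MAdd A fun x : C → E' => φ fun j => α j (x j) := fun x j => by
  have hup : ∀ u : E', (fun i => α i (Function.update x j u i)) =
      Function.update (fun i => α i (x i)) j (α j u) := fun u => by
    funext i
    by_cases hi : i = j
    · subst hi
      simp
    · simp [Function.update_of_ne hi]
  refine ⟨fun hj u v => ?_, fun hj u => ?_⟩
  · simp only [hup, map_add]
    exact (h _ j).1 hj _ _
  · simp only [hup]
    exact (h _ j).2 hj _

end

section
variable {ℓ : ℕ} [NeZero ℓ] {C E : Type} [Fintype C] [DecidableEq C] [AddCommGroup E] [Fintype E]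

/-- the product of the averages is at most the average of the product -/
theorem av_mul_le {A : Finset C} (hA : A.Nonempty) {φ φ' : (C → E) → ZMod ℓ} (h : MAdd A φ)
    (h' : MAdd A φ') :
    (av fun x => ee (φ x)).re * (av fun x => ee (φ' x)).re ≤ (av fun x => ee (φ x + φ' x)).re := by
  have h1 : MAdd A fun x : C → E × E => φ (fun j => (x j).1) + φ' fun j => (x j).2 :=
    MAdd.add (h.comp fun _ => AddMonoidHom.fst E E) (h'.comp fun _ => AddMonoidHom.snd E E)
  have h2 := madd_restrict hA h1 fun _ => (AddMonoidHom.id E).prod (AddMonoidHom.id E)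
  have h3 : (av fun x : C → E × E => ee (φ (fun j => (x j).1) + φ' fun j => (x j).2)) =
      (av fun x => ee (φ x)) * av fun x => ee (φ' x) := by
    rw [← av_equiv (Equiv.arrowProdEquivProdArrow C (fun _ => E) (fun _ => E)).symm, av_prod]
    have h4 : ∀ a : C → E, (av fun b : C → E =>
        ee (φ (fun j => ((Equiv.arrowProdEquivProdArrow C (fun _ => E) (fun _ => E)).symm
          (a, b) j).1) + φ' fun j => ((Equiv.arrowProdEquivProdArrow C (fun _ => E)
          (fun _ => E)).symm (a, b) j).2)) = (av fun x => ee (φ' x)) * ee (φ a) := fun a => by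
      rw [mul_comm, ← av_mul_left]
      congr 1
      funext b
      exact BMul_ee_add _ _
    simp only [h4]
    rw [av_mul_left, mul_comm]
  have h5 : (av fun x => ee (φ x)).im = 0 := avg_real hA h
  rw [h3, Complex.mul_re, h5, zero_mul, sub_zero] at h2
  exact h2

theorem av_prod_le {A : Finset C} (hA : A.Nonempty) {κ : Type} (s : Finset κ)
    {φ : κ → (C → E) → ZMod ℓ} (h : ∀ k ∈ s, MAdd A (φ k)) :
    ∏ k ∈ s, (av fun x => ee (φ k x)).re ≤ (av fun x => ee (∑ k ∈ s, φ k x)).re := by
  classical
  induction s using Finset.induction_on with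
  | empty =>
    have h1 : ee (0 : ZMod ℓ) = 1 := by
      unfold Pool.Agent.Lib.MP_3e612f_nt.PI.ee
      exact AddChar.map_zero_eq_one _
    simp only [prod_empty, sum_empty, h1]
    rw [av_const]
    simp
  | insert k s hk ih =>
    rw [prod_insert hk]
    have h1 := h k (mem_insert_self k s)
    have h2 : ∀ i ∈ s, MAdd A (φ i) := fun i hi => h i (mem_insert_of_mem hi)
    refine (mul_le_mul_of_nonneg_left (ih h2) (avg_nonneg hA h1)).trans ?_
    simp only [sum_insert hk]
    exact av_mul_le hA h1 (MAdd.sum s h2)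

end

section
variable {ℓ : ℕ} [NeZero ℓ] {C E R κ : Type} [Fintype C] [DecidableEq C] [AddCommGroup E]
  [Fintype E] [CommRing R] [Fintype κ]

/-- one of the tuples of classes has a small bias -/
theorem bi_classes [Nonempty C] [Nonempty κ] (T : R →+ ZMod ℓ) (ι : C → E →+ R)
    (ι' : C → κ → E →+ R) (h : ∀ j e, ι j e = ∑ k, ι' j k e) :
    ∃ τ : C → κ, bi T univ (fun j => ι' j (τ j)) ^ (Fintype.card κ ^ Fintype.card C) ≤
      bi T univ ι := by
  classical
  have hA : (univ : Finset C).Nonempty := univ_nonempty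
  obtain ⟨τ, _, hτ⟩ := exists_min_image (univ : Finset (C → κ))
    (fun τ => bi T univ fun j => ι' j (τ j)) univ_nonempty
  refine ⟨τ, ?_⟩
  have h1 := av_prod_le hA (univ : Finset (C → κ))
    (φ := fun τ (x : C → E) => T (∏ j, ι' j (τ j) (x j)))
    fun τ _ => madd_prod T univ fun j => ι' j (τ j)
  have h2 : (av fun x : C → E => ee (∑ τ : C → κ, T (∏ j, ι' j (τ j) (x j)))).re =
      bi T univ ι := by
    unfold bi
    congr 2
    funext x
    rw [← map_sum]
    congr 2
    simp only [h]
    rw [prod_univ_sum, Fintype.piFinset_univ]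
  rw [h2] at h1
  refine le_trans ?_ h1
  have h3 : Fintype.card κ ^ Fintype.card C = (univ : Finset (C → κ)).card := by
    rw [card_univ, Fintype.card_fun]
  rw [h3, ← prod_const]
  refine prod_le_prod (fun _ _ => bi_nonneg hA T _) fun τ' _ => ?_
  exact hτ τ' (mem_univ _)

end

end Pool.Agent.Lib.MP_3e612f_nt.DI
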