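import Pool.Agent.Lib.MP_3e612f_nt.DI.Vec

/-!
The identity of Bogdanov and Viola, with tests in a fixed far tuple of sets `W`.

`exists_cl`: `ZMod ℓ` is finite and `ee z ≠ 1` for `z ≠ 0`; take a quarter of the minimum of the `‖ee z - 1‖` and
`1`. PROOF of `bv_eq`. By `expand_add`, `beta v = ee (T (∏ v)) * av_a ee (∑_{I ∈ A.powerset, I ≠ A} T (v_I * a_{A \ I}))`, and
the same for `w` with the same second factor `Ψ` (hypothesis `h`). So
`‖ee (-T v) b - ee (-T w) b‖ ≤ ‖ee (-T v) (b - beta v)‖ + ‖ee (-T w) (beta w - b)‖ ≤ 2 c b` (as `ee (-T v) beta v = Ψ = ee (-T w) beta w`),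
i.e. `‖ee (T w - T v) - 1‖ ≤ 2 c`, hence `T v = T w`.
PROOF of `bv_pr`. `‖beta‖ ≤ b` by `bi_shift` (commute the two summands), so `f h = b - Re beta ≥ 0`, and `av f ≤ η b`.
If `‖beta - b‖ > c b`, then `c² b² < ‖beta‖² - 2 b Re beta + b² ≤ 2 b f`, so `f ≥ c² b / 2`; `pr_markov` with
`t = c² b / 2`.
`tests_family`: the functional `cm T (∏_{j ∈ A \ I} vec ξ (W j) (a j))` depends only on `I` and on the values of `a` on the
finite set `A.sigma W` of at most `A.card * s` elements; enumerate the pairs.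
-/

set_option autoImplicit false

namespace Pool.Agent.Lib.MP_3e612f_nt.DI

open Finset
open Pool.Agent.Lib.MP_3e612f_nt.PI (ee)

variable {ℓ : ℕ} [NeZero ℓ] {C X R : Type} [Fintype C] [DecidableEq C] [Fintype X] [DecidableEq X]
  [CommRing R] [Algebra (ZMod ℓ) R]

/-- the average over the tests of the shifted tensor -/
noncomputable def beta (ξ : X → R) (T : R →+ ZMod ℓ) (A : Finset C) (W : C → Finset X)
    (v : C → R) : ℂ :=
  av fun a : C → X → ZMod ℓ => ee (T (∏ j ∈ A, (vec ξ (W j) (a j) + v j)))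

private theorem ee_norm (x : ZMod ℓ) : ‖ee x‖ = 1 := AddChar.norm_apply _ x

private theorem ee_add (x y : ZMod ℓ) : ee (x + y) = ee x * ee y := AddChar.map_add_eq_mul _ x y

private theorem ee_zero : ee (0 : ZMod ℓ) = 1 := AddChar.map_zero_eq_one _

private theorem ee_neg_mul (x : ZMod ℓ) : ee (-x) * ee x = 1 := by
  rw [← ee_add, neg_add_cancel, ee_zero]

theorem exists_cl (ℓ : ℕ) [NeZero ℓ] :
    ∃ c : ℝ, 0 < c ∧ c ≤ 1 ∧ ∀ z : ZMod ℓ, z ≠ 0 → 2 * c < ‖ee z - 1‖ := by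
  classical
  have hpos : ∀ z : ZMod ℓ, z ≠ 0 → 0 < ‖ee z - 1‖ := by
    intro z hz
    rw [norm_pos_iff, sub_ne_zero]
    intro h
    apply hz
    apply ZMod.injective_stdAddChar (N := ℓ)
    rw [AddChar.map_zero_eq_one]
    exact h
  obtain ⟨z0, -, hz0⟩ := Finset.exists_min_image (univ : Finset (ZMod ℓ))
    (fun z => if z = 0 then (1 : ℝ) else ‖ee z - 1‖) ⟨0, mem_univ _⟩
  set m : ℝ := if z0 = 0 then (1 : ℝ) else ‖ee z0 - 1‖ with hm
  have hm0 : 0 < m := by
    rw [hm]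
    split_ifs with h
    · norm_num
    · exact hpos z0 h
  refine ⟨m / 4, by positivity, ?_, ?_⟩
  · have h := hz0 0 (mem_univ _)
    simp only [if_true] at h
    linarith
  · intro z hz
    have h := hz0 z (mem_univ _)
    simp only [if_neg hz] at h
    linarith

theorem bv_eq (ξ : X → R) (T : R →+ ZMod ℓ) (A : Finset C) (W : C → Finset X) {b c : ℝ}
    (hb : 0 < b) (hc : ∀ z : ZMod ℓ, z ≠ 0 → 2 * c < ‖ee z - 1‖) (v w : C → R)
    (hv : ‖beta ξ T A W v - b‖ ≤ c * b) (hw : ‖beta ξ T A W w - b‖ ≤ c * b)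
    (h : ∀ I ⊆ A, I ≠ A → ∀ a : C → X → ZMod ℓ,
      T ((∏ j ∈ I, v j) * ∏ j ∈ A \ I, vec ξ (W j) (a j)) =
        T ((∏ j ∈ I, w j) * ∏ j ∈ A \ I, vec ξ (W j) (a j))) :
    T (∏ j ∈ A, v j) = T (∏ j ∈ A, w j) := by
  have key : ∀ v : C → R, beta ξ T A W v = ee (T (∏ j ∈ A, v j)) *
      av fun a : C → X → ZMod ℓ => ee (∑ I ∈ A.powerset.erase A,
        T ((∏ j ∈ I, v j) * ∏ j ∈ A \ I, vec ξ (W j) (a j))) := by
    intro v
    rw [beta, ← av_mul_left]
    congr 1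
    funext a
    rw [← ee_add]
    congr 1
    have h1 : (∏ j ∈ A, (vec ξ (W j) (a j) + v j)) = ∏ j ∈ A, (v j + vec ξ (W j) (a j)) :=
      Finset.prod_congr rfl fun j _ => add_comm _ _
    rw [h1, expand_add, ← Finset.add_sum_erase _ _ (Finset.mem_powerset_self A)]
    simp
  have hPsi : (av fun a : C → X → ZMod ℓ => ee (∑ I ∈ A.powerset.erase A,
        T ((∏ j ∈ I, v j) * ∏ j ∈ A \ I, vec ξ (W j) (a j)))) =
      av fun a : C → X → ZMod ℓ => ee (∑ I ∈ A.powerset.erase A,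
        T ((∏ j ∈ I, w j) * ∏ j ∈ A \ I, vec ξ (W j) (a j))) := by
    congr 1
    funext a
    congr 1
    refine Finset.sum_congr rfl fun I hI => ?_
    rw [Finset.mem_erase, Finset.mem_powerset] at hI
    exact h I hI.2 hI.1 a
  rw [key] at hv hw
  rw [hPsi] at hv
  set Ψ : ℂ := av fun a : C → X → ZMod ℓ => ee (∑ I ∈ A.powerset.erase A,
        T ((∏ j ∈ I, w j) * ∏ j ∈ A \ I, vec ξ (W j) (a j))) with hΨ
  set x : ZMod ℓ := T (∏ j ∈ A, v j) with hx
  set y : ZMod ℓ := T (∏ j ∈ A, w j) with hy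
  by_contra hne
  have hz : y - x ≠ 0 := by
    intro h0
    exact hne (sub_eq_zero.mp h0).symm
  have hzc := hc _ hz
  have e1 : (ee (y - x) - 1) * (b : ℂ) = (ee y * Ψ - b) - ee (y - x) * (ee x * Ψ - b) := by
    have h2 : ee (y - x) * ee x = ee y := by
      rw [← ee_add]
      congr 1
      ring
    linear_combination Ψ * h2
  have e2 : ‖(ee (y - x) - 1) * (b : ℂ)‖ ≤ 2 * c * b := by
    rw [e1]
    refine (norm_sub_le _ _).trans ?_
    rw [norm_mul, ee_norm, one_mul]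
    linarith
  rw [norm_mul, Complex.norm_real, Real.norm_of_nonneg hb.le] at e2
  have := le_of_mul_le_mul_right e2 hb
  linarith

theorem bv_pr (ξ : X → R) (T : R →+ ZMod ℓ) {A : Finset C} (hA : A.Nonempty) (W W' : C → Finset X)
    {b c η : ℝ} (hb : 0 < b) (hc : 0 < c) (hbW : b = bi T A fun j => vec (ℓ := ℓ) ξ (W j))
    (hst : (1 - η) * b ≤ (av fun h : C → X → ZMod ℓ =>
      beta ξ T A W fun j => vec ξ (W' j) (h j)).re) :
    (pr fun h : C → X → ZMod ℓ => ¬ ‖beta ξ T A W (fun j => vec ξ (W' j) (h j)) - b‖ ≤ c * b) ≤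
      2 * η / c ^ 2 := by
  set g : (C → X → ZMod ℓ) → ℂ := fun h => beta ξ T A W fun j => vec ξ (W' j) (h j) with hg
  have hn : ∀ h, ‖g h‖ ≤ b := by
    intro h
    rw [hbW]
    exact bi_shift hA T (fun j => vec (ℓ := ℓ) ξ (W j)) fun j => vec ξ (W' j) (h j)
  set f : (C → X → ZMod ℓ) → ℝ := fun h => b - (g h).re with hf
  have hf0 : ∀ h, 0 ≤ f h := by
    intro h
    have h1 := (Complex.re_le_norm (g h)).trans (hn h)
    simp only [hf]
    linarith
  have hav : (av fun h => (f h : ℂ)).re ≤ η * b := by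
    have h1 : (av fun h => (f h : ℂ)).re = b - (av g).re := by
      have h2 : (av fun h => ((f h : ℝ) : ℂ)).re = (av fun h => ((b : ℂ) + (-1) * g h)).re := by
        apply le_antisymm
        · apply av_re_mono
          intro h
          simp [hf, sub_eq_add_neg]
        · apply av_re_mono
          intro h
          simp [hf, sub_eq_add_neg]
      rw [h2, av_add, av_const, av_mul_left]
      simp [sub_eq_add_neg]
    rw [h1]
    nlinarith [hst]
  have ht : 0 < c ^ 2 * b / 2 := by positivity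
  have hmono : (pr fun h : C → X → ZMod ℓ => ¬ ‖g h - b‖ ≤ c * b) ≤
      pr fun h : C → X → ZMod ℓ => c ^ 2 * b / 2 ≤ f h := by
    apply pr_mono
    intro h hh
    rw [not_le] at hh
    have h1 : ‖g h - b‖ ^ 2 = ‖g h‖ ^ 2 - 2 * b * (g h).re + b ^ 2 := by
      rw [← Complex.normSq_eq_norm_sq, ← Complex.normSq_eq_norm_sq, Complex.normSq_apply,
        Complex.normSq_apply]
      simp
      ring
    have h2 : (c * b) ^ 2 < ‖g h - b‖ ^ 2 := by
      have : 0 ≤ c * b := by positivity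
      exact pow_lt_pow_left₀ hh this (by norm_num)
    have h3 : ‖g h‖ ^ 2 ≤ b ^ 2 := pow_le_pow_left₀ (norm_nonneg _) (hn h) 2
    have h4 : c ^ 2 * b ^ 2 < 2 * b * f h := by
      simp only [hf]
      nlinarith
    have h5 : b * (c ^ 2 * b / 2) ≤ b * f h := by nlinarith
    exact le_of_mul_le_mul_left h5 hb
  refine hmono.trans ((pr_markov hf0 ht).trans ?_)
  rw [div_le_div_iff₀ ht (by positivity)]
  have : (av fun h => (f h : ℂ)).re * c ^ 2 ≤ η * b * c ^ 2 :=
    mul_le_mul_of_nonneg_right hav (by positivity)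
  nlinarith

theorem tests_family (ξ : X → R) (T : R →+ ZMod ℓ) (A : Finset C) (W : C → Finset X) {s : ℕ}
    (hW : ∀ j ∈ A, (W j).card ≤ s) :
    ∃ (n : ℕ) (e : Fin n → ℕ) (F : Fin n → R →+ ZMod ℓ), n ≤ 2 ^ A.card * ℓ ^ (A.card * s) ∧
      (∀ κ, 1 ≤ e κ ∧ e κ < A.card) ∧
      ∀ I ⊆ A, I.Nonempty → I ≠ A → ∀ a : C → X → ZMod ℓ,
        ∃ κ, e κ = I.card ∧ F κ = cm T (∏ j ∈ A \ I, vec ξ (W j) (a j)) := by
  classical
  let ext : (↥(A.sigma W) → ZMod ℓ) → C → X → ZMod ℓ := fun g j x =>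
    if h : (⟨j, x⟩ : Σ _ : C, X) ∈ A.sigma W then g ⟨⟨j, x⟩, h⟩ else 0
  let P : Finset (Finset C × (↥(A.sigma W) → ZMod ℓ)) :=
    (A.powerset.filter fun I => I.Nonempty ∧ I ≠ A) ×ˢ univ
  let m : Finset C × (↥(A.sigma W) → ZMod ℓ) → ℕ × (R →+ ZMod ℓ) := fun q =>
    (q.1.card, cm T (∏ j ∈ A \ q.1, vec ξ (W j) (ext q.2 j)))
  let S : Finset (ℕ × (R →+ ZMod ℓ)) := P.image m
  refine ⟨S.card, fun κ => (S.equivFin.symm κ).1.1, fun κ => (S.equivFin.symm κ).1.2, ?_, ?_, ?_⟩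
  · have h1 : S.card ≤ P.card := Finset.card_image_le
    have h2 : P.card ≤ 2 ^ A.card * ℓ ^ (A.sigma W).card := by
      rw [Finset.card_product, Finset.card_univ, Fintype.card_fun, ZMod.card, Fintype.card_coe]
      refine Nat.mul_le_mul_right _ ?_
      rw [← Finset.card_powerset]
      exact Finset.card_filter_le _ _
    have h3 : (A.sigma W).card ≤ A.card * s := by
      rw [Finset.card_sigma]
      exact (Finset.sum_le_card_nsmul _ _ s hW).trans_eq (by simp)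
    have h4 : ℓ ^ (A.sigma W).card ≤ ℓ ^ (A.card * s) :=
      Nat.pow_le_pow_right (Nat.pos_of_ne_zero (NeZero.ne ℓ)) h3
    exact h1.trans (h2.trans (Nat.mul_le_mul_left _ h4))
  · intro κ
    have hS : (S.equivFin.symm κ).1 ∈ S := (S.equivFin.symm κ).2
    obtain ⟨q, hq, hqm⟩ := Finset.mem_image.mp hS
    have hq1 := (Finset.mem_product.mp hq).1
    rw [Finset.mem_filter, Finset.mem_powerset] at hq1
    simp only [← hqm]
    refine ⟨Finset.card_pos.mpr hq1.2.1, Finset.card_lt_card ?_⟩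
    exact Finset.ssubset_iff_subset_ne.mpr ⟨hq1.1, hq1.2.2⟩
  · intro I hI hne hIA a
    have hmem : m (I, fun y : ↥(A.sigma W) => a y.1.1 y.1.2) ∈ S := by
      refine Finset.mem_image_of_mem _ ?_
      rw [Finset.mem_product, Finset.mem_filter, Finset.mem_powerset]
      exact ⟨⟨hI, hne, hIA⟩, mem_univ _⟩
    refine ⟨S.equivFin ⟨_, hmem⟩, ?_, ?_⟩
    · simp [m]
    · simp only [Equiv.symm_apply_apply, m]
      congr 1
      refine Finset.prod_congr rfl fun j hj => ?_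
      refine Finset.sum_congr rfl fun x hx => ?_
      have hjx : (⟨j, x⟩ : Σ _ : C, X) ∈ A.sigma W :=
        Finset.mem_sigma.mpr ⟨(Finset.mem_sdiff.mp hj).1, hx⟩
      simp only [ext, dif_pos hjx]

end Pool.Agent.Lib.MP_3e612f_nt.DI
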