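import Pool.Agent.Lib.MP_3e612f_nt.DI.Vec

/-!
Many disjoint blocks of small bias.

PROOF of `pr_blocks`. Induction on `k` (blocks `D b`, `b < k`): the event for the last block depends only on the coordinates in `D (last)`, the others on the other coordinates;
by `av_piecewise` the probability is the product, and the event that all coordinates of `D (last)` are `0` has probability `R0 ^ (-(D last).card) ≥ R0 ^ (-N)`.
(Or: count the functions `J → Fin R0` through the restriction to the disjoint sets.)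

PROOF of `av_blocks`. If for some `b` all `a j i`, `i ∈ V b j`, are `0`, then `V b j` is contained in the set of the `i` with `col i = j`, `a j i = 0`, and `bi_vec_mono` and the hypothesis give
`bi ≤ ε'`. Otherwise `bi ≤ 1` (`bi_le_one`). So `bi ≤ ε' + [no block]`, and `pr_blocks` with `J = Fin d × ι`, `D b = {(j, i) | i ∈ V b j}`, `N = d * s` (at most `d * s` elements, pairwise disjoint).
-/

set_option autoImplicit false

namespace Pool.Agent.Lib.MP_3e612f_nt.DI

open Finset
open Pool.Agent.Lib.MP_3e612f_nt.PI (ee)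

private theorem blk_pr_av {α : Type} [Fintype α] (P : α → Prop) [DecidablePred P] :
    (pr P : ℂ) = av fun a => (if P a then 1 else 0 : ℂ) := by
  unfold pr av
  rw [Finset.sum_boole, Complex.ofReal_div, div_eq_inv_mul, Complex.ofReal_natCast,
    Complex.ofReal_natCast]
  congr!

private theorem blk_indep {C E : Type} [Fintype C] [DecidableEq C] [Fintype E] (B : Finset C)
    (P Q : (C → E) → Prop) (hP : ∀ k k' : C → E, P (B.piecewise k' k) ↔ P k')
    (hQ : ∀ k k' : C → E, Q (B.piecewise k' k) ↔ Q k) :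
    pr (fun a => P a ∧ Q a) = pr P * pr Q := by
  classical
  have h1 : ((pr fun a => P a ∧ Q a : ℝ) : ℂ) = ((pr P * pr Q : ℝ) : ℂ) := by
    have e1 : ((pr fun a => P a ∧ Q a : ℝ) : ℂ) = av fun a => (if P a ∧ Q a then 1 else 0 : ℂ) :=
      blk_pr_av _
    rw [e1, ← av_piecewise B, Complex.ofReal_mul, blk_pr_av P, blk_pr_av Q]
    have h2 : ∀ k k' : C → E, (if P (B.piecewise k' k) ∧ Q (B.piecewise k' k) then 1 else 0 : ℂ) =
        (if Q k then 1 else 0) * (if P k' then 1 else 0) := by
      intro k k'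
      rw [hP, hQ]
      by_cases h3 : P k' <;> by_cases h4 : Q k <;> simp [h3, h4]
    simp only [h2]
    have h5 : ∀ k : C → E, (av fun k' : C → E => (if Q k then 1 else 0 : ℂ) *
        (if P k' then 1 else 0)) = (av fun k' : C → E => (if P k' then 1 else 0 : ℂ)) *
        (if Q k then 1 else 0) := by
      intro k
      rw [av_mul_left, mul_comm]
    simp only [h5]
    rw [av_mul_left]
  exact_mod_cast h1

private theorem blk_zero {R0 : ℕ} [NeZero R0] {J : Type} [Fintype J] [DecidableEq J]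
    (D : Finset J) : (pr fun a : J → Fin R0 => ∀ x ∈ D, a x = 0) = ((R0 : ℝ) ^ D.card)⁻¹ := by
  classical
  have h1 : (univ.filter fun a : J → Fin R0 => ∀ x ∈ D, a x = 0) =
      Fintype.piFinset (fun x => if x ∈ D then ({0} : Finset (Fin R0)) else univ) := by
    ext a
    rw [mem_filter, Fintype.mem_piFinset]
    constructor
    · rintro ⟨-, h⟩ x
      by_cases hx : x ∈ D
      · rw [if_pos hx, mem_singleton]
        exact h x hx
      · rw [if_neg hx]
        exact mem_univ _
    · intro h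
      refine ⟨mem_univ _, fun x hx => ?_⟩
      have := h x
      rwa [if_pos hx, mem_singleton] at this
  have h2 : (univ.filter fun a : J → Fin R0 => ∀ x ∈ D, a x = 0).card * R0 ^ D.card =
      Fintype.card (J → Fin R0) := by
    rw [h1, Fintype.card_piFinset, Fintype.card_fun, Fintype.card_fin]
    have h3 : ∀ x : J, (if x ∈ D then ({0} : Finset (Fin R0)) else univ).card =
        if x ∈ D then 1 else R0 := by
      intro x
      split_ifs
      · rfl
      · rw [card_univ, Fintype.card_fin]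
    simp only [h3]
    rw [Finset.prod_ite, Finset.prod_const_one, one_mul, Finset.prod_const, ← pow_add]
    congr 1
    have h4 := Finset.card_filter_add_card_filter_not (s := (univ : Finset J)) (fun x => x ∈ D)
    have h5 : (univ.filter fun x => x ∈ D).card = D.card := by
      congr 1
      ext x
      simp
    rw [card_univ] at h4
    omega
  have hR : (0 : ℝ) < R0 := by exact_mod_cast Nat.pos_of_ne_zero (NeZero.ne R0)
  have h6 : (0 : ℝ) < Fintype.card (J → Fin R0) := by
    exact_mod_cast Fintype.card_pos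
  unfold pr
  have h7 : (((univ.filter fun a : J → Fin R0 => ∀ x ∈ D, a x = 0).card : ℕ) : ℝ) *
      (R0 : ℝ) ^ D.card = Fintype.card (J → Fin R0) := by exact_mod_cast h2
  rw [div_eq_iff h6.ne', ← h7]
  have h8 : (R0 : ℝ) ^ D.card ≠ 0 := by positivity
  rw [mul_comm (((univ.filter fun a : J → Fin R0 => ∀ x ∈ D, a x = 0).card : ℕ) : ℝ),
    inv_mul_cancel_left₀ h8]
  congr!

theorem pr_blocks {R0 : ℕ} [NeZero R0] {J : Type} [Fintype J] [DecidableEq J] {k N : ℕ}
    (D : Fin k → Finset J) (hD : ∀ b b', b ≠ b' → Disjoint (D b) (D b'))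
    (hN : ∀ b, (D b).card ≤ N) :
    (pr fun a : J → Fin R0 => ∀ b, ∃ x ∈ D b, a x ≠ 0) ≤ (1 - ((R0 : ℝ) ^ N)⁻¹) ^ k := by
  have hR : (1 : ℝ) ≤ R0 := by exact_mod_cast Nat.one_le_iff_ne_zero.2 (NeZero.ne R0)
  have hR0 : (0 : ℝ) < (R0 : ℝ) ^ N := by positivity
  have hq : (0 : ℝ) ≤ 1 - ((R0 : ℝ) ^ N)⁻¹ := by
    rw [sub_nonneg]
    exact inv_le_one_of_one_le₀ (one_le_pow₀ hR)
  induction k with
  | zero =>
    rw [pow_zero]
    exact pr_le_one _
  | succ k ih =>
    have h1 := ih (fun b => D (Fin.castSucc b))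
      (fun b b' hbb => hD _ _ fun h => hbb (Fin.castSucc_injective k h)) (fun b => hN _)
    have h2 : (pr fun a : J → Fin R0 => ∀ b, ∃ x ∈ D b, a x ≠ 0) =
        (pr fun a : J → Fin R0 => ∃ x ∈ D (Fin.last k), a x ≠ 0) *
        (pr fun a : J → Fin R0 => ∀ b : Fin k, ∃ x ∈ D (Fin.castSucc b), a x ≠ 0) := by
      rw [← blk_indep (D (Fin.last k))]
      · congr 1
        funext a
        rw [Fin.forall_fin_succ']
        exact propext and_comm
      · intro a a'
        constructor
        · rintro ⟨x, hx, h⟩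
          rw [Finset.piecewise_eq_of_mem _ _ _ hx] at h
          exact ⟨x, hx, h⟩
        · rintro ⟨x, hx, h⟩
          refine ⟨x, hx, ?_⟩
          rwa [Finset.piecewise_eq_of_mem _ _ _ hx]
      · intro a a'
        have h3 : ∀ b : Fin k, ∀ x ∈ D (Fin.castSucc b), x ∉ D (Fin.last k) := by
          intro b x hx hx'
          have h4 := hD (Fin.castSucc b) (Fin.last k) (Fin.castSucc_lt_last b).ne
          exact Finset.disjoint_left.1 h4 hx hx'
        constructor
        · intro h b
          obtain ⟨x, hx, h'⟩ := h b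
          rw [Finset.piecewise_eq_of_notMem _ _ _ (h3 b x hx)] at h'
          exact ⟨x, hx, h'⟩
        · intro h b
          obtain ⟨x, hx, h'⟩ := h b
          refine ⟨x, hx, ?_⟩
          rwa [Finset.piecewise_eq_of_notMem _ _ _ (h3 b x hx)]
    have h5 : (pr fun a : J → Fin R0 => ∃ x ∈ D (Fin.last k), a x ≠ 0) ≤
        1 - ((R0 : ℝ) ^ N)⁻¹ := by
      have h6 : (fun a : J → Fin R0 => ∃ x ∈ D (Fin.last k), a x ≠ 0) =
          fun a => ¬ ∀ x ∈ D (Fin.last k), a x = 0 := by
        funext a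
        push Not
        rfl
      rw [h6, pr_not, blk_zero]
      have h7 : ((R0 : ℝ) ^ N)⁻¹ ≤ ((R0 : ℝ) ^ (D (Fin.last k)).card)⁻¹ :=
        inv_anti₀ (by positivity) (pow_le_pow_right₀ hR (hN _))
      linarith
    rw [h2, pow_succ, mul_comm]
    exact mul_le_mul h1 h5 (pr_nonneg _) (by positivity)

theorem av_blocks {ℓ R0 d : ℕ} [NeZero ℓ] [NeZero R0] (hd : 0 < d) {ι R : Type} [Fintype ι]
    [DecidableEq ι] [CommRing R] [Algebra (ZMod ℓ) R] (col : ι → Fin d) (T : R →+ ZMod ℓ)
    (G : ι → R) {k s : ℕ} {ε' : ℝ} (hε : 0 ≤ ε') (V : Fin k → Fin d → Finset ι)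
    (hV : ∀ b b' j j', (b, j) ≠ (b', j') → Disjoint (V b j) (V b' j'))
    (hcol : ∀ b j, ∀ i ∈ V b j, col i = j) (hs : ∀ b j, (V b j).card ≤ s)
    (hb : ∀ b, bi T univ (fun j => vec (ℓ := ℓ) G (V b j)) ≤ ε') :
    (av fun a : Fin d → ι → Fin R0 => ((bi T univ fun j =>
        vec (ℓ := ℓ) G (univ.filter fun i => col i = j ∧ a j i = 0) : ℝ) : ℂ)).re ≤
      (1 - ((R0 : ℝ) ^ (d * s))⁻¹) ^ k + ε' := by
  classical
  let D : Fin k → Finset (Fin d × ι) := fun b => univ.filter fun q => q.2 ∈ V b q.1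
  have hD : ∀ b b', b ≠ b' → Disjoint (D b) (D b') := by
    intro b b' hbb
    rw [Finset.disjoint_left]
    intro q h1 h2
    have h1' := (mem_filter.1 h1).2
    have h2' := (mem_filter.1 h2).2
    exact Finset.disjoint_left.1 (hV b b' q.1 q.1 fun h => hbb (Prod.ext_iff.1 h).1) h1' h2'
  have hN : ∀ b, (D b).card ≤ d * s := by
    intro b
    have h1 : (D b).card ≤ ∑ j : Fin d, (V b j).card := by
      have h2 : D b ⊆ univ.biUnion fun j : Fin d => (V b j).image fun i => (j, i) := by
        intro q hq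
        rw [mem_biUnion]
        exact ⟨q.1, mem_univ _, mem_image.2 ⟨q.2, (mem_filter.1 hq).2, rfl⟩⟩
      refine (Finset.card_le_card h2).trans (Finset.card_biUnion_le.trans ?_)
      exact Finset.sum_le_sum fun j _ => Finset.card_image_le
    refine h1.trans ((Finset.sum_le_sum fun j _ => hs b j).trans ?_)
    rw [Finset.sum_const, card_univ, Fintype.card_fin, smul_eq_mul]
  have hne : (univ : Finset (Fin d)).Nonempty := ⟨⟨0, hd⟩, mem_univ _⟩
  let Bad : (Fin d → ι → Fin R0) → Prop := fun a => ∀ b, ∃ q ∈ D b, a q.1 q.2 ≠ 0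
  have h1 : ∀ a : Fin d → ι → Fin R0, (bi T univ fun j =>
        vec (ℓ := ℓ) G (univ.filter fun i => col i = j ∧ a j i = 0)) ≤
      ε' + (if Bad a then 1 else 0) := by
    intro a
    by_cases hB : Bad a
    · rw [if_pos hB]
      have := bi_le_one univ T fun j =>
        vec (ℓ := ℓ) G (univ.filter fun i => col i = j ∧ a j i = 0)
      linarith
    · rw [if_neg hB, add_zero]
      have hB' : ∃ b, ∀ q ∈ D b, a q.1 q.2 = 0 := by
        by_contra hcon
        push Not at hcon
        exact hB hcon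
      obtain ⟨b, hb'⟩ := hB'
      refine (bi_vec_mono hne T G fun j _ => ?_).trans (hb b)
      intro i hi
      rw [mem_filter]
      exact ⟨mem_univ _, hcol b j i hi, hb' (j, i) (mem_filter.2 ⟨mem_univ _, hi⟩)⟩
  have h2 : (av fun a : Fin d → ι → Fin R0 => (((bi T univ fun j =>
        vec (ℓ := ℓ) G (univ.filter fun i => col i = j ∧ a j i = 0)) : ℝ) : ℂ)).re ≤
      (av fun a : Fin d → ι → Fin R0 => ((ε' + (if Bad a then 1 else 0) : ℝ) : ℂ)).re := by
    refine av_re_mono fun a => ?_
    rw [Complex.ofReal_re, Complex.ofReal_re]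
    exact h1 a
  refine h2.trans ?_
  have h3 : (av fun a : Fin d → ι → Fin R0 => ((ε' + (if Bad a then 1 else 0) : ℝ) : ℂ)) =
      (ε' : ℂ) + (pr Bad : ℂ) := by
    have h4 : (fun a : Fin d → ι → Fin R0 => ((ε' + (if Bad a then 1 else 0) : ℝ) : ℂ)) =
        fun a => (ε' : ℂ) + (if Bad a then 1 else 0 : ℂ) := by
      funext a
      rw [Complex.ofReal_add]
      congr 1
      split_ifs <;> simp
    rw [h4, av_add, av_const, blk_pr_av Bad]
  have h5 : pr Bad = pr fun a : (Fin d × ι) → Fin R0 => ∀ b, ∃ x ∈ D b, a x ≠ 0 := by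
    have h6 : (pr Bad : ℂ) =
        ((pr fun a : (Fin d × ι) → Fin R0 => ∀ b, ∃ x ∈ D b, a x ≠ 0 : ℝ) : ℂ) := by
      rw [blk_pr_av Bad, blk_pr_av fun a : (Fin d × ι) → Fin R0 => ∀ b, ∃ x ∈ D b, a x ≠ 0,
        ← av_equiv (Equiv.curry (Fin d) ι (Fin R0))]
      congr!
    exact_mod_cast h6
  rw [h3, Complex.add_re, Complex.ofReal_re, Complex.ofReal_re, h5, add_comm]
  have h7 := pr_blocks (R0 := R0) D hD hN
  linarith

end Pool.Agent.Lib.MP_3e612f_nt.DI
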