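import Pool.Agent.Lib.MP_3e612f_nt.DI.Ph

/-!
Canonical form: a function of `d` windows is a phase of degree `≤ d`.

PROOF of `isP_of_dep`. Induction on `P`, for the statement: if `φ` only depends on the windows at `P` then
`φ n = ∑_{x ∈ A} (if S x ⊆ ftr q D (L + D) n then y x else 0)` (a finite sum) with `(S x).card ≤ P.card`. `P = ∅`: constant. Step
`P = insert i P'`: `φ n = ψ (wd q D i n) n` where `ψ w` only depends on the windows at `P'`: choose
`ψ w n = φ m` for some `m` with `wd q D i m = w` and the windows of `n` at `P'` (if there is one, and `0` otherwise). For `w < q ^ (D + 1)` let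
`hi u w = w - w % q ^ u`. Telescoping, `ψ w = ψ 0 + ∑_{u ≤ D} (ψ (hi u w) - ψ (hi (u + 1) w))` (`hi 0 w = w`, `hi (D + 1) w = 0`). For
`w = wd q D i n` and `c = wd q D (i + u) n`: `hi u w = q ^ u * (c % q ^ (D + 1 - u))` and `hi (u + 1) w = q ^ u * (c % q ^ (D + 1 - u) - c % q)`; so the bracket is
`∑_{c : Fin (q ^ (D + 1)), c % q ≠ 0} [wd q D (i + u) n = c] * (ψ (q ^ u * (c % q ^ (D + 1 - u))) - ψ (q ^ u * (c % q ^ (D + 1 - u) - c % q)))` (for `c % q = 0` it is `0`), and
`[wd q D (i + u) n = c]` with `c % q ≠ 0` is the indicator of `(i + u, c) ∈ ftr`, `i + u < L + D`. Apply the induction hypothesis to the functions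
`ψ w - ψ w'`, multiply by `[(i + u, c) ∈ ftr]`: `S` becomes `insert (i + u, c) S`.
`dep_feature`: `x ∈ ftr n` depends on the window of `n` at `x.1`. `Dep.mono_D`: `wd q D i n = wd q D' i n % q ^ (D + 1)`.
`IsPL.mono_D`: `FP_eq`, `dep_feature`, `Dep.mono_D`, `isP_of_dep`, `IsPL.sum`.
`isP_near`: for `S` with two near points `x, y`, `x.1 ≤ y.1 < x.1 + W`, the indicator of `S ⊆ ftr q D L n` only depends on the windows of
`D + W + 1` digits at the positions of `S \ {y}`, since `wd q D y.1 n` is a function of `wd q (D + W) x.1 n`; at most `d - 1` positions.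
-/

set_option autoImplicit false

namespace Pool.Agent.Lib.MP_3e612f_nt.DI

open Finset
open Pool.Agent.Lib.MP_3e612f_nt.PI (wd ee mc Phi)

variable {G : Type} [AddCommGroup G] {q d D L : ℕ}

private theorem can_wd_lt (hq : 2 ≤ q) (D i n : ℕ) : wd q D i n < q ^ (D + 1) :=
  Nat.mod_lt _ (Nat.pow_pos (by omega))

private theorem can_const (y : G) : IsPL q d D L fun _ => y := by
  refine ⟨fun S => if S = ∅ then y else 0, fun S hS => ?_, fun n => ?_⟩
  · beta_reduce
    rw [if_neg]
    rintro rfl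
    simp at hS
  · unfold FP
    rw [Finset.sum_ite_eq' _ ∅, if_pos (empty_mem_powerset _)]

private theorem can_neg {f : ℕ → G} (hf : IsPL q d D L f) : IsPL q d D L fun n => - f n :=
  hf.map (-(AddMonoidHom.id G))

private theorem can_sub {f h : ℕ → G} (hf : IsPL q d D L f) (hh : IsPL q d D L h) :
    IsPL q d D L fun n => f n - h n := by
  have h1 := hf.add (can_neg hh)
  simpa [sub_eq_add_neg] using h1

/-- multiplication by the indicator of a feature -/
private theorem can_ite {f : ℕ → G} (hf : IsPL q d D L f) (x : Pt q D L) :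
    IsPL q (d + 1) D L fun n => if x ∈ ftr q D L n then f n else 0 := by
  obtain ⟨t, ht, hf⟩ := hf
  refine ⟨fun U => if x ∈ U then t U + t (U.erase x) else 0, fun U hU => ?_, fun n => ?_⟩
  · beta_reduce
    split_ifs with hx
    · rw [ht U (by omega), ht (U.erase x) (by rw [card_erase_of_mem hx]; omega), add_zero]
    · rfl
  · beta_reduce
    rw [hf n]
    unfold FP
    by_cases hx : x ∈ ftr q D L n
    · rw [if_pos hx, ← Finset.insert_erase hx, Finset.sum_powerset_insert (notMem_erase x _),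
        Finset.sum_powerset_insert (notMem_erase x _)]
      have h1 : ∑ U ∈ ((ftr q D L n).erase x).powerset,
          (if x ∈ U then t U + t (U.erase x) else 0) = 0 := by
        refine Finset.sum_eq_zero fun U hU => ?_
        rw [if_neg]
        intro h
        exact notMem_erase x _ (mem_powerset.1 hU h)
      rw [h1, zero_add, ← Finset.sum_add_distrib]
      refine Finset.sum_congr rfl fun U hU => ?_
      have h2 : x ∉ U := fun h => notMem_erase x _ (mem_powerset.1 hU h)
      rw [if_pos (mem_insert_self x U), erase_insert h2, add_comm]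
    · rw [if_neg hx]
      symm
      refine Finset.sum_eq_zero fun U hU => ?_
      rw [if_neg]
      intro h
      exact hx (mem_powerset.1 hU h)

/-- the digits of a window, one after the other -/
private theorem can_window {q : ℕ} (hq : 2 ≤ q) (D i n u : ℕ) (hu : u ≤ D) :
    wd q D i n - wd q D i n % q ^ u = q ^ u * (wd q D (i + u) n % q ^ (D + 1 - u)) ∧
      wd q D i n - wd q D i n % q ^ (u + 1) =
        q ^ u * (wd q D (i + u) n % q ^ (D + 1 - u) - wd q D (i + u) n % q) := by
  have hq0 : 0 < q := by omega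
  have h1 : wd q D i n / q ^ u = wd q D (i + u) n % q ^ (D + 1 - u) := by
    unfold wd
    have e1 : q ^ (D + 1) = q ^ u * q ^ (D + 1 - u) := by
      rw [← pow_add]
      congr 1
      omega
    have e2 : q ^ (D + 1) = q ^ (D + 1 - u) * q ^ u := by rw [e1, mul_comm]
    rw [Nat.mod_mod_of_dvd _ (pow_dvd_pow q (by omega : D + 1 - u ≤ D + 1)), e1,
      Nat.mod_mul_right_div_self, pow_add, Nat.div_div_eq_div_mul]
  set w := wd q D i n with hw
  set c := wd q D (i + u) n with hc
  have h2 := Nat.div_add_mod w (q ^ u)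
  have h3 : w / q ^ u % q = c % q := by
    rw [h1, Nat.mod_mod_of_dvd _ (dvd_pow_self q (by omega : D + 1 - u ≠ 0))]
  constructor
  · rw [← h1]
    omega
  · have h4 : w % q ^ (u + 1) = w % q ^ u + q ^ u * (w / q ^ u % q) := by
      rw [pow_succ, Nat.mod_mul]
    rw [Nat.mul_sub, ← h1, ← h3, h4]
    omega

/-- functions of one window and of `n` -/
private theorem can_fun (hq : 2 ≤ q) {i : ℕ} (hi : i < L) (Ψ : ℕ → ℕ → G)
    (hΨ : ∀ w, IsPL q d D (L + D) (Ψ w)) :
    IsPL q (d + 1) D (L + D) fun n => Ψ (wd q D i n) n := by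
  have hq0 : 0 < q := by omega
  -- the coefficients
  let β : ℕ → ℕ → ℕ → G := fun u c n => Ψ (q ^ u * (c % q ^ (D + 1 - u))) n -
    Ψ (q ^ u * (c % q ^ (D + 1 - u) - c % q)) n
  let X : Fin (D + 1) → Fin (q ^ (D + 1)) → Pt q D (L + D) := fun u c =>
    (⟨i + u, by have := u.2; omega⟩, c)
  have key : ∀ n, Ψ (wd q D i n) n = Ψ 0 n + ∑ u : Fin (D + 1), ∑ c : Fin (q ^ (D + 1)),
      (if X u c ∈ ftr q D (L + D) n then β u c n else 0) := by
    intro n
    set w := wd q D i n with hw
    have hwlt : w < q ^ (D + 1) := can_wd_lt hq D i n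
    have h1 : ∑ u ∈ range (D + 1), (Ψ (w - w % q ^ u) n - Ψ (w - w % q ^ (u + 1)) n) =
        Ψ w n - Ψ 0 n := by
      rw [Finset.sum_range_sub', pow_zero, Nat.mod_one, Nat.sub_zero, Nat.mod_eq_of_lt hwlt,
        Nat.sub_self]
    rw [← sub_eq_iff_eq_add', ← h1, Finset.sum_range]
    refine Finset.sum_congr rfl fun u _ => ?_
    have hu' : (u : ℕ) ≤ D := by
      have := u.2
      omega
    obtain ⟨h2, h3⟩ := can_window hq D i n u hu'
    rw [h2, h3]
    set c := wd q D (i + u) n with hc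
    have hclt : c < q ^ (D + 1) := can_wd_lt hq D _ n
    show β u c n = _
    by_cases hc0 : c % q = 0
    · have h4 : β u c n = 0 := by
        show Ψ _ n - Ψ _ n = 0
        rw [hc0, Nat.sub_zero, sub_self]
      rw [h4]
      symm
      refine Finset.sum_eq_zero fun c' _ => ?_
      rw [if_neg]
      intro h5
      rw [mem_ftr] at h5
      have h6 : c = c' := h5.1
      exact h5.2 (h6 ▸ hc0)
    · rw [Finset.sum_eq_single ⟨c, hclt⟩]
      · rw [if_pos]
        rw [mem_ftr]
        exact ⟨rfl, hc0⟩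
      · intro c' _ hne
        rw [if_neg]
        intro h5
        rw [mem_ftr] at h5
        exact hne (Fin.ext h5.1.symm)
      · intro h5
        exact absurd (mem_univ _) h5
  have h1 : (fun n => Ψ (wd q D i n) n) = fun n => Ψ 0 n + ∑ u : Fin (D + 1),
      ∑ c : Fin (q ^ (D + 1)), (if X u c ∈ ftr q D (L + D) n then β u c n else 0) := funext key
  rw [h1]
  refine IsPL.add ((hΨ 0).mono_d (by omega)) (IsPL.sum _ fun u _ => IsPL.sum _ fun c _ => ?_)
  exact can_ite (can_sub (hΨ _) (hΨ _)) (X u c)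

private theorem can_dep (hq : 2 ≤ q) (P : Finset ℕ) :
    (∀ i ∈ P, i < L) → ∀ φ : ℕ → G, Dep q D P φ → IsPL q P.card D (L + D) φ := by
  classical
  induction P using Finset.induction_on with
  | empty =>
    intro _ φ h
    have h1 : φ = fun _ => φ 0 := funext fun n => h n 0 (by simp)
    rw [h1]
    exact can_const _
  | insert i P hi ih =>
    intro hP φ h
    rw [card_insert_of_notMem hi]
    let Ψ : ℕ → ℕ → G := fun w n =>
      if h : ∃ m, wd q D i m = w ∧ ∀ k ∈ P, wd q D k m = wd q D k n then φ h.choose else 0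
    have h1 : φ = fun n => Ψ (wd q D i n) n := by
      funext n
      have h2 : ∃ m, wd q D i m = wd q D i n ∧ ∀ k ∈ P, wd q D k m = wd q D k n :=
        ⟨n, rfl, fun _ _ => rfl⟩
      show φ n = if h : ∃ m, wd q D i m = wd q D i n ∧ ∀ k ∈ P, wd q D k m = wd q D k n
        then φ h.choose else 0
      rw [dif_pos h2]
      refine h _ _ fun k hk => ?_
      rcases mem_insert.1 hk with rfl | hk
      · exact h2.choose_spec.1.symm
      · exact (h2.choose_spec.2 k hk).symm
    rw [h1]
    refine can_fun hq (hP i (mem_insert_self i P)) Ψ fun w => ?_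
    refine ih (fun k hk => hP k (mem_insert_of_mem hk)) (Ψ w) fun n n' hn => ?_
    have h3 : (∃ m, wd q D i m = w ∧ ∀ k ∈ P, wd q D k m = wd q D k n) ↔
        (∃ m, wd q D i m = w ∧ ∀ k ∈ P, wd q D k m = wd q D k n') := by
      constructor
      · rintro ⟨m, h4, h5⟩
        exact ⟨m, h4, fun k hk => (h5 k hk).trans (hn k hk)⟩
      · rintro ⟨m, h4, h5⟩
        exact ⟨m, h4, fun k hk => (h5 k hk).trans (hn k hk).symm⟩
    show (if h : ∃ m, wd q D i m = w ∧ ∀ k ∈ P, wd q D k m = wd q D k n then φ h.choose else 0) =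
      if h : ∃ m, wd q D i m = w ∧ ∀ k ∈ P, wd q D k m = wd q D k n' then φ h.choose else 0
    by_cases h6 : ∃ m, wd q D i m = w ∧ ∀ k ∈ P, wd q D k m = wd q D k n
    · have h7 := h3.1 h6
      rw [dif_pos h6, dif_pos h7]
      refine h _ _ fun k hk => ?_
      rcases mem_insert.1 hk with rfl | hk
      · rw [h6.choose_spec.1, h7.choose_spec.1]
      · rw [h6.choose_spec.2 k hk, h7.choose_spec.2 k hk, hn k hk]
    · rw [dif_neg h6, dif_neg fun h8 => h6 (h3.2 h8)]

theorem isP_of_dep (hq : 2 ≤ q) {P : Finset ℕ} (hP : P.card ≤ d) (hL : ∀ i ∈ P, i < L)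
    {φ : ℕ → G} (h : Dep q D P φ) : IsPL q d D (L + D) φ :=
  (can_dep hq P hL φ h).mono_d hP

theorem dep_feature (S : Finset (Pt q D L)) (y : G) :
    Dep q D (S.image fun x => (x.1 : ℕ)) fun n => if S ⊆ ftr q D L n then y else 0 := by
  intro n n' h
  have h1 : S ⊆ ftr q D L n ↔ S ⊆ ftr q D L n' := by
    refine forall_congr' fun x => forall_congr' fun hx => ?_
    rw [mem_ftr, mem_ftr, h _ (mem_image_of_mem _ hx)]
  exact if_congr h1 rfl rfl

private theorem can_wd_mod {D' : ℕ} (hD : D ≤ D') (i n : ℕ) :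
    wd q D' i n % q ^ (D + 1) = wd q D i n :=
  Nat.mod_mod_of_dvd _ (pow_dvd_pow q (by omega))

/-- the window at `i + k` from the longer window at `i` -/
private theorem can_wd_shift {W k : ℕ} (hk : k ≤ W) (i n : ℕ) :
    wd q D (i + k) n = wd q (D + W) i n / q ^ k % q ^ (D + 1) := by
  unfold wd
  have e1 : q ^ (D + W + 1) = q ^ k * q ^ (D + W + 1 - k) := by
    rw [← pow_add]
    congr 1
    omega
  rw [e1, Nat.mod_mul_right_div_self, Nat.mod_mod_of_dvd _ (pow_dvd_pow q (by omega)), pow_add,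
    Nat.div_div_eq_div_mul]

theorem Dep.mono_D (hq : 2 ≤ q) {D' : ℕ} (hD : D ≤ D') {P : Finset ℕ} {φ : ℕ → G}
    (h : Dep q D P φ) : Dep q D' P φ := by
  intro n n' hn
  refine h n n' fun i hi => ?_
  rw [← can_wd_mod hD, ← can_wd_mod hD, hn i hi]

theorem IsPL.mono_D (hq : 2 ≤ q) {D' : ℕ} (hD : D ≤ D') {f : ℕ → G} (hf : IsPL q d D L f) :
    IsPL q d D' (L + D') f := by
  obtain ⟨t, ht, hf⟩ := hf
  have h1 : f = fun n => ∑ S : Finset (Pt q D L), if S ⊆ ftr q D L n then t S else 0 := by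
    funext n
    rw [hf n, FP_eq]
  rw [h1]
  refine IsPL.sum _ fun S _ => ?_
  by_cases hS : S.card ≤ d
  · refine isP_of_dep hq (P := S.image fun x => (x.1 : ℕ)) (card_image_le.trans hS) ?_
      ((dep_feature S (t S)).mono_D hq hD)
    intro i hi
    obtain ⟨x, _, rfl⟩ := mem_image.1 hi
    exact x.1.2
  · rw [ht S (by omega)]
    simp only [ite_self]
    exact can_const 0

theorem IsP.mono_D (hq : 2 ≤ q) {D' : ℕ} (hD : D ≤ D') {f : ℕ → G} (hf : IsP q d D f) :
    IsP q d D' f := by
  obtain ⟨L, hL⟩ := hf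
  exact ⟨_, hL.mono_D hq hD⟩

private theorem can_near (W : ℕ) (S : Finset (Pt q D L)) (y0 : G) {x y : Pt q D L}
    (hx : x ∈ S) (hy : y ∈ S) (hxy : x ≠ y) (h1 : (x.1 : ℕ) ≤ y.1) (h2 : (y.1 : ℕ) < x.1 + W) :
    Dep q (D + W) ((S.erase y).image fun x => (x.1 : ℕ)) fun n =>
      if S ⊆ ftr q D L n then y0 else 0 := by
  intro n n' h
  refine dep_feature S y0 n n' fun i hi => ?_
  obtain ⟨z, hz, rfl⟩ := mem_image.1 hi
  by_cases hzy : z = y
  · subst hzy
    have h3 := h _ (mem_image_of_mem (fun x : Pt q D L => (x.1 : ℕ)) (mem_erase.2 ⟨hxy, hx⟩))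
    obtain ⟨k, hk⟩ := Nat.exists_eq_add_of_le h1
    rw [hk, can_wd_shift (W := W) (by omega), can_wd_shift (W := W) (by omega), h3]
  · have h3 := h _ (mem_image_of_mem (fun x : Pt q D L => (x.1 : ℕ)) (mem_erase.2 ⟨hzy, hz⟩))
    rw [← can_wd_mod (Nat.le_add_right D W), ← can_wd_mod (Nat.le_add_right D W), h3]

/-- sums over sets with two near points have smaller degree -/
theorem isP_near (hq : 2 ≤ q) (W : ℕ) (hd : 1 ≤ d) (t : Finset (Pt q D L) → G)
    (ht : ∀ S, t S ≠ 0 → S.card ≤ d ∧ ∃ x ∈ S, ∃ y ∈ S, x ≠ y ∧ ¬ FarP W x y) :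
    IsP q (d - 1) (D + W) (FP q D L t) := by
  have h1 : FP q D L t = fun n => ∑ S : Finset (Pt q D L),
      if S ⊆ ftr q D L n then t S else 0 := by
    funext n
    rw [FP_eq]
  rw [h1]
  refine IsP.sum _ fun S _ => ?_
  by_cases hS : t S = 0
  · rw [hS]
    simp only [ite_self]
    exact isP_const 0
  · obtain ⟨h2, x, hx, y, hy, hxy, hf⟩ := ht S hS
    have hf2 : (y.1 : ℕ) < x.1 + W ∧ (x.1 : ℕ) < y.1 + W := by
      unfold FarP at hf
      push Not at hf
      exact hf
    have hpos : ∀ z : Pt q D L, ∀ i ∈ (S.erase z).image fun x => (x.1 : ℕ), i < L := by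
      intro z i hi
      obtain ⟨w, _, rfl⟩ := mem_image.1 hi
      exact w.1.2
    rcases le_total (x.1 : ℕ) y.1 with h3 | h3
    · refine ⟨L + (D + W), isP_of_dep hq ?_ (hpos y) (can_near W S (t S) hx hy hxy h3 hf2.1)⟩
      have h4 := card_image_le (s := S.erase y) (f := fun x : Pt q D L => (x.1 : ℕ))
      rw [card_erase_of_mem hy] at h4
      omega
    · refine ⟨L + (D + W), isP_of_dep hq ?_ (hpos x)
        (can_near W S (t S) hy hx hxy.symm h3 hf2.2)⟩
      have h4 := card_image_le (s := S.erase x) (f := fun x : Pt q D L => (x.1 : ℕ))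
      rw [card_erase_of_mem hx] at h4
      omega

/-- an interaction of `d` windows -/
theorem isP_tuple (hq : 2 ≤ q) (d D L : ℕ) (F : (Fin d → Fin L) → (Fin d → ℕ) → G) :
    IsPL q d D (L + D) fun n => ∑ j : Fin d → Fin L, F j fun k => wd q D (j k) n := by
  refine IsPL.sum _ fun j _ => ?_
  refine isP_of_dep hq (P := univ.image fun k => (j k : ℕ)) ?_ ?_ ?_
  · refine card_image_le.trans ?_
    rw [card_univ, Fintype.card_fin]
  · intro i hi
    obtain ⟨k, _, rfl⟩ := mem_image.1 hi
    exact (j k).2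
  · intro n n' h
    show F j _ = F j _
    congr 1
    funext k
    exact h _ (mem_image_of_mem _ (mem_univ k))

end Pool.Agent.Lib.MP_3e612f_nt.DI
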