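import Pool.Agent.Lib.MP_3e612f_nt.DI.GDefs
import Pool.Agent.Lib.MP_3e612f_nt.PI.Gad
import Pool.Agent.Lib.MP_3e612f_nt.PI.Lc
import Pool.Agent.Lib.MP_3e612f_nt.PI.LL

/-!
The features of `t n + s` when some gadgets are switched on.

PROOF of `ftr_cells`. Induction on `A` (for all `n`, or add the gadgets of `A` one after the other): the number `t (n + β q ^ (a + g + D)) + s` is
`(t n + s) + β t q ^ (a + g + D)`. For `β = 1` use `PI.wd_out` (hypothesis `hu` from `PI.carry` and `PI.ut_top`), `PI.block_add`, and `PI.wd_in` (for a position `i` of the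
cell: `A ≤ i`, `i + D < A + l`, the window of the number at `i` is the window at `i - A` of the content of the block, which is `ut` by `carry`, resp.
`ut + t q ^ D` by `block_add`). Adding `q ^ (a_j + g + D)` does not change the content `n / q ^ a_i % q ^ (g + l)` of the other gadgets `i`, because the windows are
disjoint and the content of the window `j` is `zc` with `zc + q ^ (g + D) < q ^ (g + l)` (`PI.zc_lt`), so the invariant needed for the induction is kept. The cells of different gadgets are disjoint.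
-/

set_option autoImplicit false

namespace Pool.Agent.Lib.MP_3e612f_nt.DI

open Finset
open Pool.Agent.Lib.MP_3e612f_nt.PI (wd Gad zc ut)

variable {q D g l H p r L : ℕ} {z0 x0 : ℕ → ℕ}

private theorem Cells_mem_cell {A : ℕ} {x : Pt q D L} :
    x ∈ cell q D l L A ↔ A ≤ (x.1 : ℕ) ∧ (x.1 : ℕ) + D < A + l := by
  simp [cell]

private theorem Cells_mem_ftr {n : ℕ} {x : Pt q D L} :
    x ∈ ftr q D L n ↔ wd q D x.1 n = x.2 ∧ (x.2 : ℕ) % q ≠ 0 := by
  simp [ftr]

private theorem Cells_mem_blk {A u : ℕ} {x : Pt q D L} :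
    x ∈ blk q D l L A u ↔ x ∈ cell q D l L A ∧ wd q D (x.1 - A) u = x.2 ∧ (x.2 : ℕ) % q ≠ 0 := by
  simp [blk]

/-- one gadget -/
private theorem Cells_one (hq : 2 ≤ q) (hDl : D ≤ l) (hG : Gad q D g l H p r z0 x0) {t : ℕ}
    (ht : t = p ∨ t = r) (s : ℕ) {o : ℕ × ℕ} (ho : o.2 < H) {β : ℕ} (hβ : β = 0 ∨ β = 1) {n : ℕ}
    (hn : n / q ^ o.1 % q ^ (g + l) = zc q g l z0 x0 s o) :
    ftr q D L (t * (n + β * q ^ (o.1 + g + D)) + s) =
      ((ftr q D L (t * n + s)).filter fun x => x ∉ cell q D l L (o.1 + g)) ∪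
        blk q D l L (o.1 + g) (ut q g l z0 x0 s t o + β * (t * q ^ D)) := by
  have hc := PI.carry hq hG ht s ho hn
  have hu : ((t * n + s) / q ^ (o.1 + g) % q ^ l + (β * t) * q ^ D) / q ^ (l - D) =
      (t * n + s) / q ^ (o.1 + g) % q ^ l / q ^ (l - D) := by
    rw [hc]
    rcases hβ with rfl | rfl
    · simp
    · rw [one_mul]
      exact PI.ut_top hq hDl hG ht s ho
  have hN : t * (n + β * q ^ (o.1 + g + D)) + s =
      (t * n + s) + (β * t) * q ^ (o.1 + g + D) := by ring
  have hb := (PI.block_add hq hDl hu).2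
  rw [hN]
  ext x
  rw [Finset.mem_union, Finset.mem_filter, Cells_mem_ftr, Cells_mem_ftr, Cells_mem_blk]
  by_cases hx : x ∈ cell q D l L (o.1 + g)
  · have hx' := Cells_mem_cell.1 hx
    rw [PI.wd_in hq hx'.1 hx'.2, hb, hc, mul_assoc]
    constructor
    · intro h
      exact Or.inr ⟨hx, h⟩
    · rintro (h | h)
      · exact absurd hx h.2
      · exact h.2
  · have hx' : ¬ (o.1 + g ≤ (x.1 : ℕ) ∧ (x.1 : ℕ) + D < o.1 + g + l) := fun h =>
      hx (Cells_mem_cell.2 h)
    rw [PI.wd_out hq hDl hu hx']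
    constructor
    · intro h
      exact Or.inl ⟨h, hx⟩
    · rintro (h | h)
      · exact h.1
      · exact absurd h.1 hx

/-- the contents of the other windows are not changed -/
private theorem Cells_content (hq : 2 ≤ q) (hG : Gad q D g l H p r z0 x0) (s : ℕ)
    {o : ℕ × ℕ} (ho : o.2 < H) {β : ℕ} (hβ : β = 0 ∨ β = 1) {n : ℕ}
    (hn : n / q ^ o.1 % q ^ (g + l) = zc q g l z0 x0 s o) {a : ℕ}
    (h : o.1 + (g + l) ≤ a ∨ a + (g + l) ≤ o.1) :
    (n + β * q ^ (o.1 + g + D)) / q ^ a % q ^ (g + l) = n / q ^ a % q ^ (g + l) := by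
  rcases hβ with rfl | rfl
  · simp
  rw [one_mul]
  have hq0 : 0 < q := by omega
  rcases h with h | h
  · obtain ⟨e, rfl⟩ := Nat.exists_eq_add_of_le h
    congr 1
    have hz := PI.zc_lt (z0 := z0) (x0 := x0) hq hG s ho
    rw [← hn] at hz
    have e1 : (n + q ^ (o.1 + g + D)) / q ^ o.1 = n / q ^ o.1 + q ^ (g + D) := by
      rw [add_assoc o.1, pow_add q o.1, Nat.add_mul_div_left _ _ (Nat.pow_pos hq0)]
    rw [pow_add q (o.1 + (g + l)), pow_add q o.1, ← Nat.div_div_eq_div_mul,
      ← Nat.div_div_eq_div_mul, ← Nat.div_div_eq_div_mul, ← Nat.div_div_eq_div_mul, e1]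
    congr 1
    have e2 : n / q ^ o.1 + q ^ (g + D) = (n / q ^ o.1 % q ^ (g + l) + q ^ (g + D)) +
        q ^ (g + l) * (n / q ^ o.1 / q ^ (g + l)) := by
      have := Nat.mod_add_div (n / q ^ o.1) (q ^ (g + l))
      omega
    rw [e2, Nat.add_mul_div_left _ _ (Nat.pow_pos hq0), Nat.div_eq_of_lt hz, zero_add]
  · obtain ⟨e, he⟩ := Nat.exists_eq_add_of_le h
    have e1 : q ^ (o.1 + g + D) = q ^ a * (q ^ (g + l) * q ^ (e + g + D)) := by
      rw [← pow_add, ← pow_add, he]
      congr 1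
      omega
    rw [e1, Nat.add_mul_div_left _ _ (Nat.pow_pos hq0), Nat.add_mul_mod_self_left]

theorem ftr_cells (hq : 2 ≤ q) (hDl : D ≤ l) (hG : Gad q D g l H p r z0 x0) {t : ℕ}
    (ht : t = p ∨ t = r) (s : ℕ) {ι : Type} [Fintype ι] [DecidableEq ι] (o : ι → ℕ × ℕ)
    (ho : ∀ i, (o i).2 < H)
    (hsep : ∀ i j, i ≠ j → (o i).1 + (g + l) ≤ (o j).1 ∨ (o j).1 + (g + l) ≤ (o i).1)
    (A : Finset ι) (β : ι → ℕ) (hβ : ∀ i ∈ A, β i = 0 ∨ β i = 1) {n : ℕ}
    (hn : ∀ i ∈ A, n / q ^ (o i).1 % q ^ (g + l) = zc q g l z0 x0 s (o i)) :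
    ftr q D L (t * (n + ∑ i ∈ A, β i * q ^ ((o i).1 + g + D)) + s) =
      ((ftr q D L (t * n + s)).filter fun x => ∀ i ∈ A, x ∉ cell q D l L ((o i).1 + g)) ∪
        A.biUnion fun i =>
          blk q D l L ((o i).1 + g) (ut q g l z0 x0 s t (o i) + β i * (t * q ^ D)) := by
  classical
  induction A using Finset.induction_on generalizing n with
  | empty => simp
  | insert j A hj ih =>
    have hnj := hn j (Finset.mem_insert_self j A)
    have hβj := hβ j (Finset.mem_insert_self j A)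
    set n' := n + β j * q ^ ((o j).1 + g + D) with hn'
    have hA : ∀ i ∈ A, n' / q ^ (o i).1 % q ^ (g + l) = zc q g l z0 x0 s (o i) := by
      intro i hi
      have hij : j ≠ i := fun h => hj (h ▸ hi)
      rw [hn', Cells_content hq hG s (ho j) hβj hnj (hsep j i hij)]
      exact hn i (Finset.mem_insert_of_mem hi)
    have h1 := ih (fun i hi => hβ i (Finset.mem_insert_of_mem hi)) hA
    have h2 := Cells_one (L := L) hq hDl hG ht s (ho j) hβj hnj
    rw [← hn'] at h2
    have e : n + ∑ i ∈ insert j A, β i * q ^ ((o i).1 + g + D) =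
        n' + ∑ i ∈ A, β i * q ^ ((o i).1 + g + D) := by
      rw [Finset.sum_insert hj, hn', Nat.add_assoc n]
    rw [e, h1, h2, Finset.filter_union, Finset.filter_filter, Finset.biUnion_insert,
      Finset.union_assoc]
    congr 1
    · ext x
      simp only [Finset.mem_filter, Finset.mem_insert, forall_eq_or_imp]
    · congr 1
      apply Finset.filter_true_of_mem
      intro x hx i hi
      have hij : j ≠ i := fun h => hj (h ▸ hi)
      have hd : Disjoint (cell q D l L ((o j).1 + g)) (cell q D l L ((o i).1 + g)) := by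
        rw [Finset.disjoint_left]
        intro y hy hy'
        have h3 := Cells_mem_cell.1 hy
        have h4 := Cells_mem_cell.1 hy'
        have h5 := hsep j i hij
        omega
      exact Finset.disjoint_left.1 hd (Cells_mem_blk.1 hx).1

theorem cell_disjoint {A A' : ℕ} (h : A + l ≤ A' ∨ A' + l ≤ A) :
    Disjoint (cell q D l L A) (cell q D l L A') := by
  rw [Finset.disjoint_left]
  intro x hx hx'
  have h1 := Cells_mem_cell.1 hx
  have h2 := Cells_mem_cell.1 hx'
  omega

end Pool.Agent.Lib.MP_3e612f_nt.DI
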