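import Pool.Agent.Lib.MP_3e612f_nt.DI.Alg

/-!
Multiadditive functions of the pattern of a tuple are built from the generators.

The pattern of a tuple `v` is the function `pat F v (B, κ) = F κ (∏ j ∈ B, v j)`.

PROOF of `alg_of_madd`, by induction on the cardinality of `A` (for all `γ`). `A = ∅`: `γ` is constant by `hdep`
(`Alg.smul`, `Alg.one`). Let `j0 ∈ A`. (a) By `hadd` at `j0` (and `hdep`) `γ` is additive in the entries `(B, κ)`
with `j0 ∈ B` for fixed other entries, so it vanishes if all entries with `j0 ∈ B` are `0`, and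
`γ c = ∑ γ (δ_{(B,κ)} (c (B,κ)) + c')` over the `(B, κ)` with `j0 ∈ B ⊆ A`, `B.card = e κ`, where `c'` is `c` with the entries
at sets containing `j0` replaced by `0`; additivity on the cyclic group `ZMod ℓ` gives
`γ (δ_{(B,κ)} z + c') = z * γ (δ_{(B,κ)} 1 + c')`. (b) For `j ∈ B`, `j ≠ j0`: the pattern `δ_{(B,κ)} 1 + c'` is the sum in the
colour `j` of `δ_{(B,κ)} 1 + c''` (`c''`: entries of `c'` at sets containing `j` replaced by `0`) and of `c'` (which has no
entries at sets containing `j0`, so `γ c' = 0`): so `γ (δ 1 + c') = γ (δ 1 + c'')`. Doing this for all `j ∈ B` we may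
restrict `c'` to the sets `B' ⊆ A \ B`. (c) `γ' c = γ (δ_{(B,κ)} 1 + c restricted to the subsets of A \ B)` satisfies
`hdep`, `hadd` for `A \ B` (smaller), so it is in `Alg` for the colours `A \ B`; multiply by `Alg.gen` for `B`, and sum
(`Alg.mul`, `Alg.sum`; `B ∪ (A \ B) = A`).
-/

set_option autoImplicit false

namespace Pool.Agent.Lib.MP_3e612f_nt.DI

open Finset

/-- the pattern of a tuple -/
def pat {ℓ : ℕ} {C R : Type} [CommRing R] {n : ℕ} (F : Fin n → R →+ ZMod ℓ) (v : C → R)
    (p : Finset C × Fin n) : ZMod ℓ := F p.2 (∏ j ∈ p.1, v j)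

/-- the patterns of `v` and `w` agree on the subsets of `A` -/
def EqPat {ℓ : ℕ} {C R : Type} [CommRing R] {n : ℕ} (A : Finset C) (e : Fin n → ℕ)
    (F : Fin n → R →+ ZMod ℓ) (v w : C → R) : Prop :=
  ∀ B ⊆ A, ∀ κ, B.card = e κ → F κ (∏ j ∈ B, v j) = F κ (∏ j ∈ B, w j)

section

variable {ℓ : ℕ} {C : Type} [Fintype C] [DecidableEq C] {n : ℕ}

/-- additive functions of a vector are sums -/
private theorem pat_lin {I : Type} [Fintype I] [DecidableEq I] (Φ : (I → ZMod ℓ) → ZMod ℓ)
    (h : ∀ x y : I → ZMod ℓ, Φ (x + y) = Φ x + Φ y) (x : I → ZMod ℓ) :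
    Φ x = ∑ i, x i * Φ (fun j => if i = j then 1 else 0) := by
  have h0 : Φ 0 = 0 := by
    have := h 0 0
    rw [add_zero] at this
    simpa using this
  let f : (I → ZMod ℓ) →+ ZMod ℓ := ⟨⟨Φ, h0⟩, h⟩
  have h1 : f x = ∑ i, x i * f (fun j => if i = j then 1 else 0) := by
    simpa using LinearMap.pi_apply_eq_sum_univ (AddMonoidHom.toZModLinearMap ℓ f) x
  exact h1

/-- the pattern `c` without the entries at sets containing `j0`, with `1` at `p` -/
private def pat_f (p : Finset C × Fin n) (D : Finset C) (c : Finset C × Fin n → ZMod ℓ)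
    (q : Finset C × Fin n) : ZMod ℓ :=
  if q = p then 1 else if Disjoint q.1 D then c q else 0

private def pat_g (p : Finset C × Fin n) (A : Finset C) (c : Finset C × Fin n → ZMod ℓ)
    (q : Finset C × Fin n) : ZMod ℓ :=
  if q = p then 1 else if q.1 ⊆ A \ p.1 then c q else 0

omit [Fintype C] in
/-- the additivity in the entries at sets containing `j0` -/
private theorem pat_add {A : Finset C} {γ : (Finset C × Fin n → ZMod ℓ) → ZMod ℓ}
    (hadd : ∀ j ∈ A, ∀ c c' : Finset C × Fin n → ZMod ℓ, (∀ p, j ∉ p.1 → c p = c' p) →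
      γ (fun p => if j ∈ p.1 then c p + c' p else c p) = γ c + γ c') {j0 : C} (hj0 : j0 ∈ A)
    (c x y : Finset C × Fin n → ZMod ℓ) :
    γ (fun p => if j0 ∈ p.1 then (x + y) p else c p) =
      γ (fun p => if j0 ∈ p.1 then x p else c p) +
      γ (fun p => if j0 ∈ p.1 then y p else c p) := by
  rw [← hadd j0 hj0 (fun p => if j0 ∈ p.1 then x p else c p)
    (fun p => if j0 ∈ p.1 then y p else c p) (fun p hp => by simp only [if_neg hp])]
  congr 1
  funext p
  by_cases hp : j0 ∈ p.1
  · simp only [if_pos hp, Pi.add_apply]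
  · simp only [if_neg hp]

omit [Fintype C] in
private theorem pat_zero {A : Finset C} {γ : (Finset C × Fin n → ZMod ℓ) → ZMod ℓ}
    (hadd : ∀ j ∈ A, ∀ c c' : Finset C × Fin n → ZMod ℓ, (∀ p, j ∉ p.1 → c p = c' p) →
      γ (fun p => if j ∈ p.1 then c p + c' p else c p) = γ c + γ c') {j0 : C} (hj0 : j0 ∈ A)
    (c : Finset C × Fin n → ZMod ℓ) (hc : ∀ p : Finset C × Fin n, j0 ∈ p.1 → c p = 0) :
    γ c = 0 := by
  have h := pat_add hadd hj0 c 0 0
  have e : (fun p : Finset C × Fin n => if j0 ∈ p.1 then
      (0 : Finset C × Fin n → ZMod ℓ) p else c p) = c := by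
    funext p
    by_cases hp : j0 ∈ p.1
    · rw [if_pos hp, hc p hp]
      rfl
    · rw [if_neg hp]
  rw [add_zero, e] at h
  simpa using h

omit [Fintype C] in
/-- removal of the colours of `p` -/
private theorem pat_remove {A : Finset C} {γ : (Finset C × Fin n → ZMod ℓ) → ZMod ℓ}
    (hadd : ∀ j ∈ A, ∀ c c' : Finset C × Fin n → ZMod ℓ, (∀ p, j ∉ p.1 → c p = c' p) →
      γ (fun p => if j ∈ p.1 then c p + c' p else c p) = γ c + γ c') {j0 : C} (hj0 : j0 ∈ A)
    (p : Finset C × Fin n) (hp : p.1 ⊆ A) (hjp : j0 ∈ p.1) (c : Finset C × Fin n → ZMod ℓ)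
    (D : Finset C) : D ⊆ p.1 → γ (pat_f p (insert j0 D) c) = γ (pat_f p {j0} c) := by
  induction D using Finset.induction_on with
  | empty =>
    intro _
    rfl
  | insert j D hj ih =>
    intro hD
    have hD' : D ⊆ p.1 := (subset_insert j D).trans hD
    have hjp' : j ∈ p.1 := hD (mem_insert_self j D)
    rw [← ih hD']
    have hnd : ∀ q : Finset C × Fin n, j0 ∈ q.1 → ¬ Disjoint q.1 (insert j0 D) := by
      intro q hq hd
      exact disjoint_left.1 hd hq (mem_insert_self _ _)
    have hnd' : ∀ q : Finset C × Fin n, j ∈ q.1 → ¬ Disjoint q.1 (insert j0 (insert j D)) := by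
      intro q hq hd
      exact disjoint_left.1 hd hq (mem_insert_of_mem (mem_insert_self _ _))
    have hiff : ∀ q : Finset C × Fin n, j ∉ q.1 →
        (Disjoint q.1 (insert j0 (insert j D)) ↔ Disjoint q.1 (insert j0 D)) := by
      intro q hq
      rw [Finset.insert_comm, disjoint_insert_right]
      exact ⟨fun h => h.2, fun h => ⟨hq, h⟩⟩
    set c2 : Finset C × Fin n → ZMod ℓ :=
      fun q => if Disjoint q.1 (insert j0 D) then c q else 0 with hc2
    have h0 : γ c2 = 0 := by
      refine pat_zero hadd hj0 c2 ?_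
      intro q hq
      rw [hc2]
      simp only [if_neg (hnd q hq)]
    have hne : ∀ q : Finset C × Fin n, j ∉ q.1 → q ≠ p := by
      rintro q hq rfl
      exact hq hjp'
    have h1 := hadd j (hp hjp') (pat_f p (insert j0 (insert j D)) c) c2 (by
      intro q hq
      unfold pat_f
      rw [if_neg (hne q hq), hc2]
      simp only [hiff q hq])
    rw [h0, add_zero] at h1
    rw [← h1]
    congr 1
    funext q
    by_cases hq : j ∈ q.1
    · rw [if_pos hq]
      unfold pat_f
      by_cases hqp : q = p
      · rw [if_pos hqp, if_pos hqp, hc2]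
        have : j0 ∈ q.1 := by rw [hqp]; exact hjp
        simp only [if_neg (hnd q this), add_zero]
      · rw [if_neg hqp, if_neg hqp, if_neg (hnd' q hq), zero_add]
    · rw [if_neg hq]
      unfold pat_f
      rw [if_neg (hne q hq), if_neg (hne q hq)]
      simp only [hiff q hq]

end

private theorem pat_main {ℓ : ℕ} {C R : Type} [Fintype C] [DecidableEq C] [CommRing R] {n : ℕ}
    (e : Fin n → ℕ) (F : Fin n → R →+ ZMod ℓ) (he : ∀ κ, 1 ≤ e κ) : ∀ (N : ℕ) (A : Finset C),
    A.card = N → ∀ (γ : (Finset C × Fin n → ZMod ℓ) → ZMod ℓ),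
    (∀ c c' : Finset C × Fin n → ZMod ℓ,
      (∀ B ⊆ A, ∀ κ, B.card = e κ → c (B, κ) = c' (B, κ)) → γ c = γ c') →
    (∀ j ∈ A, ∀ c c' : Finset C × Fin n → ZMod ℓ, (∀ p, j ∉ p.1 → c p = c' p) →
      γ (fun p => if j ∈ p.1 then c p + c' p else c p) = γ c + γ c') →
    Alg (gens e F) A fun v => γ (pat F v) := by
  intro N
  induction N using Nat.strong_induction_on with
  | _ N ih =>
    intro A hN γ hdep hadd
    rcases A.eq_empty_or_nonempty with hA | ⟨j0, hj0⟩
    · subst hA
      have h1 : ∀ c, γ c = γ 0 := by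
        intro c
        refine hdep c 0 ?_
        intro B hB κ hκ
        rw [subset_empty] at hB
        rw [hB, card_empty] at hκ
        have := he κ
        omega
      have h2 : (fun v => γ (pat F v)) = fun _ : C → R => γ 0 * 1 := by
        funext v
        rw [h1, mul_one]
      rw [h2]
      exact Alg.smul (γ 0) Alg.one
    · -- the index set of the sum
      set S : Finset (Finset C × Fin n) :=
        univ.filter fun p => j0 ∈ p.1 ∧ p.1 ⊆ A ∧ p.1.card = e p.2 with hS
      have key : ∀ c, γ c = ∑ p ∈ S, c p * γ (pat_g p A c) := by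
        intro c
        have hlin := pat_lin (I := Finset C × Fin n)
          (fun x => γ (fun p => if j0 ∈ p.1 then x p else c p)) (fun x y => pat_add hadd hj0 c x y) c
        have e0 : (fun p : Finset C × Fin n => if j0 ∈ p.1 then c p else c p) = c := by
          funext p
          exact ite_self _
        simp only [e0] at hlin
        rw [hlin]
        have h2 : ∀ p : Finset C × Fin n, p ∉ S → c p * γ (fun q => if j0 ∈ q.1 then
            (if p = q then 1 else 0) else c q) = 0 := by
          intro p hp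
          have h3 : γ (fun q => if j0 ∈ q.1 then (if p = q then 1 else 0) else c q) =
              γ (fun q => if j0 ∈ q.1 then 0 else c q) := by
            refine hdep _ _ ?_
            intro B hB κ hκ
            by_cases hjB : j0 ∈ B
            · simp only [if_pos hjB]
              rw [if_neg]
              rintro rfl
              exact hp (mem_filter.2 ⟨mem_univ _, hjB, hB, hκ⟩)
            · simp only [if_neg hjB]
          rw [h3, pat_zero hadd hj0 (fun q => if j0 ∈ q.1 then 0 else c q)
            (fun q hq => by simp only [if_pos hq]), mul_zero]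
        rw [← sum_subset (subset_univ S) (fun p _ hp => h2 p hp)]
        refine sum_congr rfl fun p hp => ?_
        obtain ⟨-, hjp, hpA, hpc⟩ := mem_filter.1 hp
        congr 1
        have h3 : (fun q => if j0 ∈ q.1 then (if p = q then (1 : ZMod ℓ) else 0) else c q) =
            pat_f p {j0} c := by
          funext q
          unfold pat_f
          by_cases hqp : q = p
          · rw [if_pos hqp, hqp, if_pos hjp, if_pos rfl]
          · rw [if_neg hqp]
            by_cases hq : j0 ∈ q.1
            · rw [if_pos hq, if_neg (Ne.symm hqp), if_neg]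
              rw [disjoint_singleton_right, not_not]
              exact hq
            · rw [if_neg hq, if_pos]
              rw [disjoint_singleton_right]
              exact hq
        rw [h3, ← pat_remove hadd hj0 p hpA hjp c p.1 (Subset.refl _), insert_eq_of_mem hjp]
        refine hdep _ _ ?_
        intro B hB κ hκ
        unfold pat_f pat_g
        by_cases hBp : (B, κ) = p
        · rw [if_pos hBp, if_pos hBp]
        · rw [if_neg hBp, if_neg hBp]
          have hiff : Disjoint B p.1 ↔ B ⊆ A \ p.1 := by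
            rw [subset_sdiff]
            exact ⟨fun h => ⟨hB, h⟩, fun h => h.2⟩
          simp only [hiff]
      have hfun : (fun v => γ (pat F v)) = fun v : C → R =>
          ∑ p ∈ S, F p.2 (∏ j ∈ p.1, v j) * γ (pat_g p A (pat F v)) := by
        funext v
        rw [key]
        rfl
      rw [hfun]
      refine Alg.sum S ?_
      intro p hp
      obtain ⟨-, hjp, hpA, hpc⟩ := mem_filter.1 hp
      have hlt : (A \ p.1).card < N := by
        rw [← hN]
        refine card_lt_card ?_
        rw [ssubset_iff_of_subset sdiff_subset]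
        exact ⟨j0, hj0, fun h => (mem_sdiff.1 h).2 hjp⟩
      have hne : ∀ j ∈ A \ p.1, ∀ q : Finset C × Fin n, j ∈ q.1 → q ≠ p := by
        rintro j hj q hq rfl
        exact (mem_sdiff.1 hj).2 hq
      have h1 := ih _ hlt (A \ p.1) rfl (fun c => γ (pat_g p A c)) (by
        intro c c' hcc
        refine hdep _ _ ?_
        intro B hB κ hκ
        unfold pat_g
        by_cases hBp : (B, κ) = p
        · rw [if_pos hBp, if_pos hBp]
        · rw [if_neg hBp, if_neg hBp]
          by_cases hBA : B ⊆ A \ p.1
          · simp only [if_pos hBA]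
            exact hcc B hBA κ hκ
          · simp only [if_neg hBA]) (by
        intro j hj c c' hcc
        have hjA : j ∈ A := (mem_sdiff.1 hj).1
        have h2 := hadd j hjA (pat_g p A c) (pat_g p A c') (by
          intro q hq
          unfold pat_g
          by_cases hqp : q = p
          · rw [if_pos hqp, if_pos hqp]
          · rw [if_neg hqp, if_neg hqp, hcc q hq])
        rw [← h2]
        congr 1
        funext q
        unfold pat_g
        by_cases hq : j ∈ q.1
        · rw [if_neg (hne j hj q hq), if_neg (hne j hj q hq), if_neg (hne j hj q hq)]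
          simp only [if_pos hq]
          by_cases hBA : q.1 ⊆ A \ p.1
          · simp only [if_pos hBA]
          · simp only [if_neg hBA, add_zero]
        · simp only [if_neg hq])
      have h2 : Alg (gens e F) p.1 fun v => F p.2 (∏ j ∈ p.1, v j) :=
        Alg.gen (i := e p.2) ⟨p.2, rfl⟩ hpc
      have h3 := Alg.mul disjoint_sdiff h2 h1
      rwa [union_sdiff_of_subset hpA] at h3

theorem alg_of_madd {ℓ : ℕ} {C R : Type} [Fintype C] [DecidableEq C] [CommRing R] {n : ℕ}
    (e : Fin n → ℕ) (F : Fin n → R →+ ZMod ℓ) (he : ∀ κ, 1 ≤ e κ) (A : Finset C)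
    (γ : (Finset C × Fin n → ZMod ℓ) → ZMod ℓ)
    (hdep : ∀ c c' : Finset C × Fin n → ZMod ℓ,
      (∀ B ⊆ A, ∀ κ, B.card = e κ → c (B, κ) = c' (B, κ)) → γ c = γ c')
    (hadd : ∀ j ∈ A, ∀ c c' : Finset C × Fin n → ZMod ℓ, (∀ p, j ∉ p.1 → c p = c' p) →
      γ (fun p => if j ∈ p.1 then c p + c' p else c p) = γ c + γ c') :
    Alg (gens e F) A fun v => γ (pat F v) :=
  pat_main e F he A.card A rfl γ hdep hadd

end Pool.Agent.Lib.MP_3e612f_nt.DI
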