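import Pool.Agent.Lib.MP_3e612f_nt.DI.Top
import Pool.Agent.Lib.MP_3e612f_nt.PI.Fou

/-!
Near uniform distribution, and the number of zeros of systems of multilinear equations.

PROOF of `near_uniform`. Orthogonality: `ℓ ^ |J| * 1[u = z] = ∑_c ee (∑_j c j * (u j - z j))`
(`Fou_sum` in `PI/Fou.lean`), so `pr (u = z) - ℓ ^ (-|J|) = ℓ ^ (-|J|) ∑_{c ≠ 0} ee (-∑ c j z j) av ee (∑ c j u j)`,
of absolute value `≤ ε` (fewer than `ℓ ^ |J|` terms).

PROOF of `zeros_density`. For a finite set `D` of colours let `Q D` be the claim with the equations `e` such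
that `Cs e ⊆ D` only: `ℓ ^ (-#{e | Cs e ⊆ D}) ≤ pr (k | φ e k = 0 for all e with Cs e ⊆ D)`. Induction on `D`;
`D = ∅`: no equations, `pr = 1`. Step `D ∪ {j}`, `j ∉ D`: the equations with `Cs e ⊆ D` do not depend on the
coordinate `j`. For fixed `k` satisfying them, the map `u ↦ (φ e (update k j u))_e`, `e` among the
`t` equations with `Cs e ⊆ D ∪ {j}`, `j ∈ Cs e`, is a homomorphism from `E` to `(ZMod ℓ) ^ t`, so its kernel has
at least `|E| ℓ ^ (-t)` elements. With `pr_coord` the claim follows. (`E` nonempty as a group.)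
-/

set_option autoImplicit false

namespace Pool.Agent.Lib.MP_3e612f_nt.DI

open Finset
open Pool.Agent.Lib.MP_3e612f_nt.PI (ee)

variable {ℓ : ℕ} [NeZero ℓ]

/-- the proportion as an average -/
private theorem unif_pr_av {α : Type} [Fintype α] (P : α → Prop) [DecidablePred P] :
    ((pr P : ℝ) : ℂ) = av fun a => if P a then (1 : ℂ) else 0 := by
  unfold pr av
  rw [Finset.sum_ite, Finset.sum_const_zero, add_zero, Finset.sum_const, nsmul_eq_mul, mul_one]
  push_cast
  rw [div_eq_inv_mul]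
  congr 3
  convert rfl

private theorem unif_pr_true {α : Type} [Fintype α] [Nonempty α] {P : α → Prop} (h : ∀ a, P a) :
    pr P = 1 := by
  have e : P = fun _ => True := by
    funext a
    exact eq_true (h a)
  have hc : (Fintype.card α : ℝ) ≠ 0 := by exact_mod_cast Fintype.card_ne_zero
  rw [e]
  unfold pr
  rw [Finset.filter_true, Finset.card_univ]
  exact div_self hc

private theorem unif_ee_add (x y : ZMod ℓ) : ee (x + y) = ee x * ee y := by
  unfold ee
  rw [AddChar.map_add_eq_mul]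

private theorem unif_ee_zero : ee (0 : ZMod ℓ) = 1 := by
  unfold ee
  rw [AddChar.map_zero_eq_one]

/-- an abstract form of the estimate -/
private theorem unif_erase {K : Type} [Fintype K] [DecidableEq K] (k0 : K) (g : K → ℂ) {x : ℂ}
    {ε N : ℝ} (hε : 0 ≤ ε) (hN : (Fintype.card K : ℝ) ≤ N) (h0 : g k0 = 1)
    (h : ∀ k, k ≠ k0 → ‖g k‖ ≤ ε) (hx : x = ∑ k, g k) : ‖x - 1‖ ≤ N * ε := by
  have h2 : x - 1 = ∑ k ∈ univ.erase k0, g k := by
    rw [hx, ← Finset.add_sum_erase _ _ (mem_univ k0), h0]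
    ring
  rw [h2]
  refine (norm_sum_le _ _).trans ?_
  refine (Finset.sum_le_sum (g := fun _ => ε) fun k hk => h k (Finset.ne_of_mem_erase hk)).trans ?_
  rw [Finset.sum_const, nsmul_eq_mul]
  refine mul_le_mul_of_nonneg_right ?_ hε
  refine le_trans ?_ hN
  exact_mod_cast (Finset.card_le_card (Finset.erase_subset _ _)).trans (le_of_eq Finset.card_univ)

theorem near_uniform {Ω J : Type} [Fintype Ω] [Nonempty Ω] [Fintype J] [DecidableEq J]
    (u : Ω → J → ZMod ℓ) {ε : ℝ} (hε0 : 0 ≤ ε)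
    (h : ∀ c : J → ZMod ℓ, c ≠ 0 → ‖av fun ω => ee (∑ j, c j * u ω j)‖ ≤ ε) (z : J → ZMod ℓ) :
    |pr (fun ω => u ω = z) - ((ℓ : ℝ) ^ Fintype.card J)⁻¹| ≤ ε := by
  classical
  have hℓ : (0 : ℝ) < (ℓ : ℝ) ^ Fintype.card J :=
    pow_pos (by exact_mod_cast Nat.pos_of_ne_zero (NeZero.ne ℓ)) _
  -- orthogonality
  have h1 : ((ℓ : ℂ) ^ Fintype.card J) * ((pr fun ω => u ω = z : ℝ) : ℂ) =
      ∑ c : J → ZMod ℓ, ee (-∑ j, c j * z j) * av fun ω => ee (∑ j, c j * u ω j) := by
    rw [unif_pr_av, ← av_mul_left]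
    have e1 : (fun ω => (ℓ : ℂ) ^ Fintype.card J * (if u ω = z then (1 : ℂ) else 0)) =
        fun ω => ∑ c : J → ZMod ℓ, ee (-∑ j, c j * z j) * ee (∑ j, c j * u ω j) := by
      funext ω
      have e2 := PI.Fou_sum ℓ (fun j => u ω j - z j)
      have e3 : (fun j => u ω j - z j) = 0 ↔ u ω = z := by
        constructor
        · intro hh
          funext j
          exact sub_eq_zero.1 (congrFun hh j)
        · rintro rfl
          funext j
          simp
      have e4 : ∀ c : J → ZMod ℓ, ee (-∑ j, c j * z j) * ee (∑ j, c j * u ω j) =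
          ee (∑ j, c j * (u ω j - z j)) := by
        intro c
        rw [← unif_ee_add]
        congr 1
        rw [← Finset.sum_neg_distrib, ← Finset.sum_add_distrib]
        refine Finset.sum_congr rfl fun j _ => by ring
      rw [Finset.sum_congr rfl fun c _ => e4 c, e2]
      by_cases hu : u ω = z
      · rw [if_pos hu, if_pos (e3.2 hu), mul_one]
      · rw [if_neg hu, if_neg (fun hh => hu (e3.1 hh)), mul_zero]
    rw [e1, av_sum]
    exact Finset.sum_congr rfl fun c _ => av_mul_left _ _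
  have h3 := unif_erase (K := J → ZMod ℓ) 0
    (fun c => ee (-∑ j, c j * z j) * av fun ω => ee (∑ j, c j * u ω j))
    (x := ((ℓ : ℂ) ^ Fintype.card J) * ((pr fun ω => u ω = z : ℝ) : ℂ))
    (N := (ℓ : ℝ) ^ Fintype.card J) hε0 (by
      rw [Fintype.card_fun, ZMod.card]
      push_cast
      exact le_rfl) (by
      have e5 : (fun ω : Ω => ee (∑ j, (0 : J → ZMod ℓ) j * u ω j)) = fun _ => (1 : ℂ) := by
        funext ω
        simp only [Pi.zero_apply, zero_mul, Finset.sum_const_zero, unif_ee_zero]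
      have e6 : -∑ j, (0 : J → ZMod ℓ) j * z j = 0 := by
        simp only [Pi.zero_apply, zero_mul, Finset.sum_const_zero, neg_zero]
      show ee (-∑ j, (0 : J → ZMod ℓ) j * z j) *
        (av fun ω => ee (∑ j, (0 : J → ZMod ℓ) j * u ω j)) = 1
      rw [e5, e6, unif_ee_zero, av_const, one_mul]) (by
      intro c hc
      show ‖ee (-∑ j, c j * z j) * (av fun ω => ee (∑ j, c j * u ω j))‖ ≤ ε
      rw [norm_mul, PI.Fou_norm, one_mul]
      exact h c hc) h1
  have h4 : ((ℓ : ℂ) ^ Fintype.card J) * ((pr fun ω => u ω = z : ℝ) : ℂ) - 1 =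
      (((ℓ : ℝ) ^ Fintype.card J * (pr (fun ω => u ω = z) - ((ℓ : ℝ) ^ Fintype.card J)⁻¹) : ℝ) : ℂ) := by
    rw [mul_sub, mul_inv_cancel₀ hℓ.ne']
    push_cast
    ring
  rw [h4, Complex.norm_real, Real.norm_eq_abs, abs_mul, abs_of_pos hℓ] at h3
  exact le_of_mul_le_mul_left h3 hℓ

/-- a homomorphism to a power of `ZMod ℓ` has a large kernel -/
private theorem unif_ker {E T : Type} [AddCommGroup E] [Fintype E] [Fintype T]
    (ψ : T → E → ZMod ℓ) (hψ : ∀ e u v, ψ e (u + v) = ψ e u + ψ e v) :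
    ((ℓ : ℝ) ^ Fintype.card T)⁻¹ ≤ pr fun u : E => ∀ e, ψ e u = 0 := by
  classical
  have hℓ : (0 : ℝ) < (ℓ : ℝ) ^ Fintype.card T :=
    pow_pos (by exact_mod_cast Nat.pos_of_ne_zero (NeZero.ne ℓ)) _
  have hE : (0 : ℝ) < Fintype.card E := by exact_mod_cast Fintype.card_pos (α := E)
  let F : E →+ (T → ZMod ℓ) :=
    { toFun := fun u e => ψ e u
      map_zero' := by
        funext e
        have := hψ e 0 0
        rw [add_zero] at this
        simpa using this
      map_add' := fun u v => by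
        funext e
        exact hψ e u v }
  -- every fibre of `F` has at most as many elements as the kernel
  set k := (univ.filter fun u : E => ∀ e, ψ e u = 0).card with hk
  have h1 : ∀ y : T → ZMod ℓ, (univ.filter fun u : E => F u = y).card ≤ k := by
    intro y
    rcases (univ.filter fun u : E => F u = y).eq_empty_or_nonempty with h0 | ⟨u0, hu0⟩
    · rw [h0, Finset.card_empty]
      exact Nat.zero_le _
    · refine Finset.card_le_card_of_injOn (fun u => u - u0) ?_ ?_
      · intro u hu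
        rw [Finset.mem_coe, Finset.mem_filter] at hu ⊢
        refine ⟨mem_univ _, fun e => ?_⟩
        have e1 : F (u - u0) = 0 := by
          rw [map_sub, hu.2, (Finset.mem_filter.1 hu0).2, sub_self]
        exact congrFun e1 e
      · intro u _ v _ huv
        exact sub_left_injective huv
  have h2 : Fintype.card E ≤ ℓ ^ Fintype.card T * k := by
    have e1 : Fintype.card E = ∑ y : T → ZMod ℓ, (univ.filter fun u : E => F u = y).card := by
      rw [← Finset.card_univ]
      exact Finset.card_eq_sum_card_fiberwise (fun u _ => mem_univ (F u))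
    rw [e1]
    refine (Finset.sum_le_sum fun y _ => h1 y).trans ?_
    rw [Finset.sum_const, smul_eq_mul, Finset.card_univ, Fintype.card_fun, ZMod.card]
  have h3 : pr (fun u : E => ∀ e, ψ e u = 0) = (k : ℝ) / Fintype.card E := by
    unfold pr
    rw [hk]
    congr 3
    convert rfl
  rw [h3, le_div_iff₀ hE, inv_mul_le_iff₀ hℓ]
  exact_mod_cast h2

omit [NeZero ℓ] in
/-- the update is multiaffine -/
private theorem unif_madd {C E : Type} [DecidableEq C] [AddCommGroup E] {B : Finset C}
    {φ : (C → E) → ZMod ℓ} (h : MAdd B φ) {j : C} (hj : j ∈ B) (x : C → E) (u v : E) :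
    φ (Function.update x j (u + v)) = φ (Function.update x j u) + φ (Function.update x j v) :=
  (h x j).1 hj u v

theorem zeros_density {C E 𝓔 : Type} [Fintype C] [DecidableEq C] [AddCommGroup E] [Fintype E]
    [Fintype 𝓔] (Cs : 𝓔 → Finset C) (hne : ∀ e, (Cs e).Nonempty) (φ : 𝓔 → (C → E) → ZMod ℓ)
    (hφ : ∀ e, MAdd (Cs e) (φ e)) :
    ((ℓ : ℝ) ^ Fintype.card 𝓔)⁻¹ ≤ pr fun k : C → E => ∀ e, φ e k = 0 := by
  classical
  have hℓ0 : (0 : ℝ) < ℓ := by exact_mod_cast Nat.pos_of_ne_zero (NeZero.ne ℓ)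
  have key : ∀ D : Finset C, ((ℓ : ℝ) ^ Fintype.card {e // Cs e ⊆ D})⁻¹ ≤
      pr fun k : C → E => ∀ e, Cs e ⊆ D → φ e k = 0 := by
    intro D
    induction D using Finset.induction_on with
    | empty =>
      have e1 : Fintype.card {e // Cs e ⊆ (∅ : Finset C)} = 0 := by
        rw [Fintype.card_eq_zero_iff]
        refine ⟨fun e => ?_⟩
        have := hne e.1
        rw [Finset.subset_empty.1 e.2] at this
        exact Finset.not_nonempty_empty this
      rw [e1, pow_zero, inv_one]
      have e2 : pr (fun k : C → E => ∀ e, Cs e ⊆ (∅ : Finset C) → φ e k = 0) = 1 := by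
        have hall : ∀ k : C → E, ∀ e, Cs e ⊆ (∅ : Finset C) → φ e k = 0 := by
          intro k e he
          have := hne e
          rw [Finset.subset_empty.1 he] at this
          exact absurd this Finset.not_nonempty_empty
        exact unif_pr_true hall
      rw [e2]
    | insert j D hj ih =>
      -- the new equations
      set T := {e // Cs e ⊆ insert j D ∧ j ∈ Cs e} with hT
      have hcard : Fintype.card {e // Cs e ⊆ insert j D} =
          Fintype.card {e // Cs e ⊆ D} + Fintype.card T := by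
        rw [Fintype.card_subtype, Fintype.card_subtype, Fintype.card_subtype,
          ← Finset.card_union_of_disjoint]
        · congr 1
          ext e
          simp only [mem_filter, mem_univ, true_and, mem_union]
          constructor
          · intro he
            by_cases hje : j ∈ Cs e
            · exact Or.inr ⟨he, hje⟩
            · exact Or.inl ((Finset.subset_insert_iff_of_notMem hje).1 he)
          · rintro (he | he)
            · exact he.trans (Finset.subset_insert _ _)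
            · exact he.1
        · rw [Finset.disjoint_left]
          intro e he he'
          rw [mem_filter] at he he'
          exact hj (he.2 he'.2.2)
      have hpt : ∀ x : C → E, ((ℓ : ℝ) ^ Fintype.card T)⁻¹ *
          (if ∀ e, Cs e ⊆ D → φ e x = 0 then (1 : ℝ) else 0) ≤
          pr fun u => ∀ e, Cs e ⊆ insert j D → φ e (Function.update x j u) = 0 := by
        intro x
        split_ifs with hx
        · rw [mul_one]
          refine (unif_ker (fun (e : T) (u : E) => φ e.1 (Function.update x j u))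
            fun e u v => unif_madd (hφ e.1) e.2.2 x u v).trans (pr_mono fun u hu e he => ?_)
          by_cases hje : j ∈ Cs e
          · exact hu ⟨e, he, hje⟩
          · rw [(hφ e x j).2 hje u]
            exact hx e ((Finset.subset_insert_iff_of_notMem hje).1 he)
        · rw [mul_zero]
          exact pr_nonneg _
      have h1 : ((ℓ : ℝ) ^ Fintype.card T)⁻¹ * pr (fun k : C → E => ∀ e, Cs e ⊆ D → φ e k = 0) ≤
          pr fun k : C → E => ∀ e, Cs e ⊆ insert j D → φ e k = 0 := by
        have e1 := pr_coord (E := E) j fun k : C → E => ∀ e, Cs e ⊆ insert j D → φ e k = 0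
        have e2 : ((pr fun k : C → E => ∀ e, Cs e ⊆ insert j D → φ e k = 0 : ℝ)) =
            (av fun x : C → E => ((pr fun u => ∀ e, Cs e ⊆ insert j D →
              φ e (Function.update x j u) = 0 : ℝ) : ℂ)).re := by
          rw [← e1, Complex.ofReal_re]
        have e3 : ((ℓ : ℝ) ^ Fintype.card T)⁻¹ * pr (fun k : C → E => ∀ e, Cs e ⊆ D → φ e k = 0) =
            (av fun x : C → E => ((((ℓ : ℝ) ^ Fintype.card T)⁻¹ *
              (if ∀ e, Cs e ⊆ D → φ e x = 0 then (1 : ℝ) else 0) : ℝ) : ℂ)).re := by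
          have e4 : (av fun x : C → E => ((((ℓ : ℝ) ^ Fintype.card T)⁻¹ *
              (if ∀ e, Cs e ⊆ D → φ e x = 0 then (1 : ℝ) else 0) : ℝ) : ℂ)) =
              ((((ℓ : ℝ) ^ Fintype.card T)⁻¹ *
                pr (fun k : C → E => ∀ e, Cs e ⊆ D → φ e k = 0) : ℝ) : ℂ) := by
            rw [Complex.ofReal_mul, unif_pr_av, ← av_mul_left]
            congr 1
            funext x
            rw [Complex.ofReal_mul]
            congr 1
            split_ifs <;> simp
          rw [e4, Complex.ofReal_re]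
        rw [e3, e2]
        refine av_re_mono fun x => ?_
        rw [Complex.ofReal_re, Complex.ofReal_re]
        exact hpt x
      refine le_trans ?_ h1
      rw [hcard, pow_add, mul_inv, mul_comm]
      exact mul_le_mul_of_nonneg_left ih (inv_nonneg.2 (pow_nonneg hℓ0.le _))
  have h2 := key univ
  have h3 : Fintype.card {e // Cs e ⊆ (univ : Finset C)} = Fintype.card 𝓔 := by
    rw [Fintype.card_subtype, Finset.filter_true_of_mem fun e _ => Finset.subset_univ _,
      Finset.card_univ]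
  rw [h3] at h2
  exact h2.trans (pr_mono fun k hk e => hk e (Finset.subset_univ _))

/-- two near uniform maps with large good sets have a common good value -/
theorem common_value {Ω Ω' J : Type} [Fintype Ω] [Nonempty Ω] [Fintype Ω'] [Nonempty Ω'] [Fintype J]
    [DecidableEq J] (u : Ω → J → ZMod ℓ) (u' : Ω' → J → ZMod ℓ) {ε : ℝ} (hε0 : 0 ≤ ε)
    (hε : ε ≤ 1 / 4 * ((ℓ : ℝ) ^ Fintype.card J)⁻¹)
    (h : ∀ c : J → ZMod ℓ, c ≠ 0 → ‖av fun ω => ee (∑ j, c j * u ω j)‖ ≤ ε)
    (h' : ∀ c : J → ZMod ℓ, c ≠ 0 → ‖av fun ω => ee (∑ j, c j * u' ω j)‖ ≤ ε)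
    (P : Ω → Prop) (P' : Ω' → Prop) (hP : 3 / 4 ≤ pr P) (hP' : 3 / 4 ≤ pr P') :
    ∃ ω ω', P ω ∧ P' ω' ∧ u ω = u' ω' := by
  /- Each value of `u` has proportion at most `(5/4) ℓ ^ (-|J|)`, so the set of the values of `u` on `P` has
  at least `(3/4) / (5/4) ℓ ^ |J| > ℓ ^ |J| / 2` elements, and the same for `u'`; the two sets meet. -/
  classical
  have hℓ : (0 : ℝ) < (ℓ : ℝ) ^ Fintype.card J :=
    pow_pos (by exact_mod_cast Nat.pos_of_ne_zero (NeZero.ne ℓ)) _
  have key : ∀ {Ω₁ : Type} [Fintype Ω₁] [Nonempty Ω₁] (w : Ω₁ → J → ZMod ℓ)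
      (_ : ∀ c : J → ZMod ℓ, c ≠ 0 → ‖av fun ω => ee (∑ j, c j * w ω j)‖ ≤ ε)
      (R : Ω₁ → Prop) (_ : 3 / 4 ≤ pr R),
      (3 : ℝ) / 5 * (ℓ : ℝ) ^ Fintype.card J ≤
        ((univ.filter fun z : J → ZMod ℓ => ∃ ω, R ω ∧ w ω = z).card : ℝ) := by
    intro Ω₁ _ _ w hw R hR
    set V := univ.filter fun z : J → ZMod ℓ => ∃ ω, R ω ∧ w ω = z with hV
    have h1 : pr R ≤ pr fun ω => ∃ z ∈ V, w ω = z := by
      refine pr_mono fun ω hω => ⟨w ω, ?_, rfl⟩
      rw [hV, mem_filter]
      exact ⟨mem_univ _, ω, hω, rfl⟩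
    have h2 := pr_exists_le V fun (z : J → ZMod ℓ) (ω : Ω₁) => w ω = z
    have h3 : ∑ z ∈ V, pr (fun ω => w ω = z) ≤
        ∑ _z ∈ V, (5 / 4 * ((ℓ : ℝ) ^ Fintype.card J)⁻¹) := by
      refine Finset.sum_le_sum fun z _ => ?_
      have h4 := near_uniform w hε0 hw z
      rw [abs_le] at h4
      linarith [h4.2]
    rw [Finset.sum_const, nsmul_eq_mul] at h3
    have h5 : (3 : ℝ) / 4 ≤ (V.card : ℝ) * (5 / 4 * ((ℓ : ℝ) ^ Fintype.card J)⁻¹) :=
      hR.trans (h1.trans (h2.trans h3))
    have h6 := mul_le_mul_of_nonneg_right h5 (mul_nonneg hℓ.le (by norm_num : (0 : ℝ) ≤ 4 / 5))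
    have h7 : (V.card : ℝ) * (5 / 4 * ((ℓ : ℝ) ^ Fintype.card J)⁻¹) *
        ((ℓ : ℝ) ^ Fintype.card J * (4 / 5)) = V.card := by
      field_simp
    rw [h7] at h6
    linarith
  have k1 := key u h P hP
  have k2 := key u' h' P' hP'
  set V := univ.filter fun z : J → ZMod ℓ => ∃ ω, P ω ∧ u ω = z with hV
  set V' := univ.filter fun z : J → ZMod ℓ => ∃ ω, P' ω ∧ u' ω = z with hV'
  have h1 : ¬ Disjoint V V' := by
    intro hd
    have h2 := Finset.card_le_univ (V ∪ V')
    rw [Finset.card_union_of_disjoint hd, Fintype.card_fun, ZMod.card] at h2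
    have h3 : ((V.card : ℝ) + V'.card) ≤ (ℓ : ℝ) ^ Fintype.card J := by exact_mod_cast h2
    linarith
  rw [Finset.not_disjoint_iff] at h1
  obtain ⟨z, hz, hz'⟩ := h1
  rw [hV, mem_filter] at hz
  rw [hV', mem_filter] at hz'
  obtain ⟨-, ω, hω, rfl⟩ := hz
  obtain ⟨-, ω', hω', he⟩ := hz'
  exact ⟨ω, ω', hω, hω', he.symm⟩

end Pool.Agent.Lib.MP_3e612f_nt.DI
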