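import Pool.Agent.Lib.MP_3e612f_nt.DI.Vec
import Pool.Agent.Lib.MP_3e612f_nt.DI.Unif
import Pool.Agent.Lib.MP_3e612f_nt.DI.Pat

/-!
Collecting witnesses, and realising all patterns.

PROOF of `collect`. There are at most `2 ^ A.card * ℓ ^ n` pairs `(B, c)`, `B ⊆ A`, `c : Fin n → ZMod ℓ`. By induction
on a finite set `𝒫` of pairs construct `W` with `W j = ∅` for `j ∉ A`, `SepOn Far A W`, `W j ⊆ FarFrom Far 𝒳 Z`,
`(W j).card ≤ 𝒫.card * s`, and the bound for the pairs in `𝒫`. Step: let `(B, c)` be a new admissible pair (`B ⊆ A` nonempty, …);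
`hreg` with `Y = Z ∪ ⋃_{j ∈ A} W j` (at most `Z.card + 𝒫.card * (A.card * s) ≤ m` points) gives a witness, `Wit.colour` puts
it in the colours of `B` (the coefficient condition of `Reg` holds with `i = B.card`); let `W1` be these sets and
`W j ∪ W1 j` the new ones. Far: points of `W1` are far from all points of `Y ⊇ W j` (use symmetry). Bounds: `bi_vec_mono`. (Pairs
which are not admissible cost nothing.)

PROOF of `realise`. Take `W` from `collect` with `Z = ∅`. Consider `Ω = C → (X → ZMod ℓ) × (X → ZMod ℓ)`, vectors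
`v i = vec ξ (W i) (ω i).1` for all colours and `w = vec ξ (W j) (ω j).2`, and the map `u` which sends `ω` to all the numbers
`F κ (∏_{i ∈ B} v i)` (`B ⊆ A`, `B.card = e κ`) and `F κ (w * ∏_{i ∈ B \ {j}} v i)` (`j ∈ B ⊆ A`, `B.card = e κ`); at most
`2 * 2 ^ A.card * n` numbers. For a nontrivial combination with coefficients `c, c'` let `B` be maximal
(for inclusion) with `c (B, ·) ≠ 0` or `c' (B, ·) ≠ 0`; by `avg_top` (over the colours `C`, group `E × E`, the part of the combination at `B`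
is `MAdd B`) the norm of the average is at most the average of
`ee (∑_κ c F κ (v_B) + ∑_κ c' F κ (w v_{B \ j}))`, which by `madd_restrict` (restrict to `h ↦ (h, 0)` if `c (B, ·) ≠ 0`, otherwise to
`h ↦ (h, 0)` for the colours `≠ j` and `h ↦ (0, h)` for `j`) is at most `bi (∑ c κ • F κ) B < ε`. By `near_uniform`
every value has proportion `≥ ℓ ^ (-#) - ε > 0`, so it is attained.
-/

set_option autoImplicit false

namespace Pool.Agent.Lib.MP_3e612f_nt.DI

open Finset
open Pool.Agent.Lib.MP_3e612f_nt.PI (ee)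

section
variable {ℓ : ℕ} [NeZero ℓ] {C X R : Type} [Fintype C] [DecidableEq C] [Fintype X] [DecidableEq X]
  [CommRing R] [Algebra (ZMod ℓ) R] {ξ : X → R} {Far : X → X → Prop} {𝒳 : Set X} {n : ℕ}
  {e : Fin n → ℕ} {F : Fin n → R →+ ZMod ℓ} {ε : ℝ} {m s : ℕ}

/-- the induction for `collect` -/
private theorem coll_aux (hsymm : ∀ x y, Far x y → Far y x) (hreg : Reg ξ Far 𝒳 e F ε m s)
    (A : Finset C) (Z : Finset X) (K : ℕ) (hm : Z.card + K * (A.card * s) ≤ m)
    (𝒬 : Finset (Finset C × (Fin n → ZMod ℓ))) (hK : 𝒬.card ≤ K) :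
    ∃ W : C → Finset X, (∀ j ∉ A, W j = ∅) ∧ SepOn Far A W ∧
      (∀ j, (↑(W j) : Set X) ⊆ FarFrom Far 𝒳 Z) ∧ (∀ j, (W j).card ≤ 𝒬.card * s) ∧
      ∀ p ∈ 𝒬, p.1 ⊆ A → p.1.Nonempty → (∀ κ, p.2 κ ≠ 0 → e κ = p.1.card) → (∃ κ, p.2 κ ≠ 0) →
        bi (∑ κ, p.2 κ • F κ) p.1 (fun j => vec (ℓ := ℓ) ξ (W j)) < ε := by
  classical
  induction 𝒬 using Finset.induction_on with
  | empty =>
    refine ⟨fun _ => ∅, fun _ _ => rfl, ?_, ?_, ?_, ?_⟩
    · intro i _ j _ _ x hx
      simp at hx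
    · intro j
      simp
    · intro j
      simp
    · intro p hp
      simp at hp
  | insert p 𝒬 hp ih =>
    rw [Finset.card_insert_of_notMem hp] at hK
    obtain ⟨W, hW0, hW1, hW2, hW3, hW4⟩ := ih (by omega)
    by_cases hadm : p.1 ⊆ A ∧ p.1.Nonempty ∧ (∀ κ, p.2 κ ≠ 0 → e κ = p.1.card) ∧
        (∃ κ, p.2 κ ≠ 0)
    · obtain ⟨hpA, hpne, hp1, hp2⟩ := hadm
      have hY : (Z ∪ A.biUnion W).card ≤ m := by
        have h1 : (A.biUnion W).card ≤ A.card * (𝒬.card * s) :=
          Finset.card_biUnion_le_card_mul _ _ _ fun j _ => hW3 j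
        have h2 : A.card * (𝒬.card * s) ≤ K * (A.card * s) := by
          rw [← mul_assoc, mul_comm A.card, mul_assoc]
          exact Nat.mul_le_mul_right _ (by omega)
        exact (Finset.card_union_le _ _).trans (by omega)
      obtain ⟨W1, h0, h1, h2, h3, h4⟩ := (hreg p.1.card p.2 hp1 hp2 _ hY).colour (C := C) p.1 rfl
      refine ⟨fun j => W j ∪ W1 j, ?_, ?_, ?_, ?_, ?_⟩
      · intro j hj
        beta_reduce
        rw [hW0 j hj, h0 j (fun h => hj (hpA h)), Finset.empty_union]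
      · intro i hi j hj hij x hx y hy
        rw [Finset.mem_union] at hx hy
        rcases hx with hx | hx
        · rcases hy with hy | hy
          · exact hW1 i hi j hj hij x hx y hy
          · exact hsymm _ _ ((h2 j hy).2 x
              (Finset.mem_union_right _ (Finset.mem_biUnion.2 ⟨i, hi, hx⟩)))
        · rcases hy with hy | hy
          · exact (h2 i hx).2 y (Finset.mem_union_right _ (Finset.mem_biUnion.2 ⟨j, hj, hy⟩))
          · by_cases hiB : i ∈ p.1
            · by_cases hjB : j ∈ p.1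
              · exact h1 i hiB j hjB hij x hx y hy
              · rw [h0 j hjB] at hy
                simp at hy
            · rw [h0 i hiB] at hx
              simp at hx
      · intro j x hx
        rw [Finset.mem_coe, Finset.mem_union] at hx
        rcases hx with hx | hx
        · exact hW2 j hx
        · exact ⟨(h2 j hx).1, fun y hy => (h2 j hx).2 y (Finset.mem_union_left _ hy)⟩
      · intro j
        rw [Finset.card_insert_of_notMem hp, add_mul, one_mul]
        exact (Finset.card_union_le _ _).trans (Nat.add_le_add (hW3 j) (h3 j))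
      · intro q hq hqA hqne hq1 hq2
        rw [Finset.mem_insert] at hq
        rcases hq with rfl | hq
        · exact (bi_vec_mono hqne _ ξ fun j _ => Finset.subset_union_right).trans_lt h4
        · exact (bi_vec_mono hqne _ ξ fun j _ => Finset.subset_union_left).trans_lt
            (hW4 q hq hqA hqne hq1 hq2)
    · refine ⟨W, hW0, hW1, hW2, fun j => (hW3 j).trans ?_, ?_⟩
      · rw [Finset.card_insert_of_notMem hp]
        exact Nat.mul_le_mul_right _ (Nat.le_succ _)
      · intro q hq hqA hqne hq1 hq2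
        rw [Finset.mem_insert] at hq
        rcases hq with rfl | hq
        · exact absurd ⟨hqA, hqne, hq1, hq2⟩ hadm
        · exact hW4 q hq hqA hqne hq1 hq2

theorem collect (hsymm : ∀ x y, Far x y → Far y x) (hreg : Reg ξ Far 𝒳 e F ε m s) (A : Finset C)
    (Z : Finset X) (hm : Z.card + 2 ^ A.card * ℓ ^ n * (A.card * s) ≤ m) :
    ∃ W : C → Finset X, SepOn Far A W ∧ (∀ j, (↑(W j) : Set X) ⊆ FarFrom Far 𝒳 Z) ∧
      (∀ j, (W j).card ≤ 2 ^ A.card * ℓ ^ n * s) ∧
      ∀ B ⊆ A, B.Nonempty → ∀ c : Fin n → ZMod ℓ, (∀ κ, c κ ≠ 0 → e κ = B.card) → (∃ κ, c κ ≠ 0) →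
        bi (∑ κ, c κ • F κ) B (fun j => vec (ℓ := ℓ) ξ (W j)) < ε := by
  classical
  have hcard : (A.powerset ×ˢ (univ : Finset (Fin n → ZMod ℓ))).card = 2 ^ A.card * ℓ ^ n := by
    rw [Finset.card_product, Finset.card_powerset, Finset.card_univ, Fintype.card_fun,
      ZMod.card, Fintype.card_fin]
  obtain ⟨W, -, hW1, hW2, hW3, hW4⟩ := coll_aux hsymm hreg A Z (2 ^ A.card * ℓ ^ n) hm
    (A.powerset ×ˢ (univ : Finset (Fin n → ZMod ℓ))) hcard.le
  rw [hcard] at hW3
  refine ⟨W, hW1, hW2, hW3, ?_⟩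
  intro B hB hne c hc1 hc2
  exact hW4 (B, c) (Finset.mem_product.2 ⟨Finset.mem_powerset.2 hB, Finset.mem_univ _⟩) hB hne
    hc1 hc2

/-- the vectors of the colour `i`; the second copy is used for the colour `j` if `b` is true -/
private noncomputable def coll_iota (ξ : X → R) (W : C → Finset X) (j : C) (b : Bool) (i : C) :
    (X → ZMod ℓ) × (X → ZMod ℓ) →+ R :=
  if b = true ∧ i = j then (vec ξ (W i)).comp (AddMonoidHom.snd _ _)
  else (vec ξ (W i)).comp (AddMonoidHom.fst _ _)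

private theorem coll_iota_true (ξ : X → R) (W : C → Finset X) (j : C)
    (x : (X → ZMod ℓ) × (X → ZMod ℓ)) :
    coll_iota ξ W j true j x = vec ξ (W j) x.2 := by
  unfold coll_iota
  rw [if_pos ⟨rfl, rfl⟩]
  rfl

private theorem coll_iota_ne (ξ : X → R) (W : C → Finset X) (j : C) (b : Bool) {i : C}
    (h : i ≠ j) (x : (X → ZMod ℓ) × (X → ZMod ℓ)) :
    coll_iota ξ W j b i x = vec ξ (W i) x.1 := by
  unfold coll_iota
  rw [if_neg (fun h1 => h h1.2)]
  rfl

private theorem coll_iota_false (ξ : X → R) (W : C → Finset X) (j i : C)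
    (x : (X → ZMod ℓ) × (X → ZMod ℓ)) :
    coll_iota ξ W j false i x = vec ξ (W i) x.1 := by
  unfold coll_iota
  rw [if_neg (fun h1 => by simp at h1)]
  rfl

private theorem coll_bi (T : Fin n → ZMod ℓ) (B : Finset C) (W : C → Finset X) :
    bi (∑ κ, T κ • F κ) B (fun j => vec (ℓ := ℓ) ξ (W j)) =
      (av fun h : C → X → ZMod ℓ => ee (∑ κ, T κ * F κ (∏ i ∈ B, vec ξ (W i) (h i)))).re := by
  unfold bi
  congr 2
  funext h
  rw [AddMonoidHom.finsetSum_apply]
  congr 1

/-- the bound for one nontrivial combination -/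
private theorem coll_bound (he : ∀ κ, 1 ≤ e κ) (A : Finset C) (W : C → Finset X) (j : C)
    (hW : ∀ B ⊆ A, B.Nonempty → ∀ c : Fin n → ZMod ℓ, (∀ κ, c κ ≠ 0 → e κ = B.card) →
      (∃ κ, c κ ≠ 0) → bi (∑ κ, c κ • F κ) B (fun j => vec (ℓ := ℓ) ξ (W j)) < ε)
    (a : Finset C → Fin n → Bool → ZMod ℓ)
    (ha : ∀ B κ b, a B κ b ≠ 0 → B ⊆ A ∧ B.card = e κ ∧ (b = true → j ∈ B))
    (hne : ∃ B κ b, a B κ b ≠ 0) :
    ‖av fun ω : C → (X → ZMod ℓ) × (X → ZMod ℓ) =>
      ee (∑ B, ∑ κ, ∑ b, a B κ b * F κ (∏ i ∈ B, coll_iota ξ W j b i (ω i)))‖ ≤ ε := by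
  classical
  obtain ⟨B1, κ1, b1, h1⟩ := hne
  obtain ⟨B0, hB0, hmax⟩ := Finset.exists_max_image
    (univ.filter fun B : Finset C => ∃ κ b, a B κ b ≠ 0) Finset.card
    ⟨B1, by rw [Finset.mem_filter]; exact ⟨Finset.mem_univ _, κ1, b1, h1⟩⟩
  rw [Finset.mem_filter] at hB0
  obtain ⟨-, κ0, b0, h0⟩ := hB0
  obtain ⟨hBA, hBc, -⟩ := ha B0 κ0 b0 h0
  have hBne : B0.Nonempty := by
    rw [← Finset.card_pos, hBc]
    exact he κ0
  have hmadd : ∀ B : Finset C, MAdd B fun ω : C → (X → ZMod ℓ) × (X → ZMod ℓ) =>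
      ∑ κ, ∑ b, a B κ b * F κ (∏ i ∈ B, coll_iota ξ W j b i (ω i)) := by
    intro B x i
    refine ⟨fun hi u v => ?_, fun hi u => ?_⟩
    · simp only
      rw [← Finset.sum_add_distrib]
      refine Finset.sum_congr rfl fun κ _ => ?_
      rw [← Finset.sum_add_distrib]
      refine Finset.sum_congr rfl fun b _ => ?_
      have h2 := (madd_prod (F κ) B (coll_iota ξ W j b) x i).1 hi u v
      simp only at h2
      rw [h2, mul_add]
    · simp only
      refine Finset.sum_congr rfl fun κ _ => Finset.sum_congr rfl fun b _ => ?_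
      have h2 := (madd_prod (F κ) B (coll_iota ξ W j b) x i).2 hi u
      simp only at h2
      rw [h2]
  have htop := avg_top (fun B (ω : C → (X → ZMod ℓ) × (X → ZMod ℓ)) =>
    ∑ κ, ∑ b, a B κ b * F κ (∏ i ∈ B, coll_iota ξ W j b i (ω i))) hmadd hBne (by
      intro B hB
      funext ω
      refine Finset.sum_eq_zero fun κ _ => Finset.sum_eq_zero fun b _ => ?_
      have h2 : a B κ b = 0 := by
        by_contra h3
        have h4 := hmax B (by
          rw [Finset.mem_filter]
          exact ⟨Finset.mem_univ _, κ, b, h3⟩)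
        have h5 := Finset.card_lt_card hB
        omega
      rw [h2, zero_mul])
  refine htop.trans ?_
  by_cases hcf : ∃ κ, a B0 κ false ≠ 0
  · have h2 := hW B0 hBA hBne (fun κ => a B0 κ false) (fun κ h => (ha B0 κ false h).2.1.symm) hcf
    rw [coll_bi] at h2
    have h3 := madd_restrict hBne (hmadd B0) (fun _ => AddMonoidHom.inl (X → ZMod ℓ) (X → ZMod ℓ))
    refine h3.trans (le_of_eq_of_le ?_ h2.le)
    congr 2
    funext h
    congr 1
    refine Finset.sum_congr rfl fun κ _ => ?_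
    rw [Fintype.sum_bool]
    have h4 : a B0 κ true * F κ (∏ i ∈ B0, coll_iota ξ W j true i
        ((AddMonoidHom.inl (X → ZMod ℓ) (X → ZMod ℓ)) (h i))) = 0 := by
      by_cases h5 : a B0 κ true = 0
      · rw [h5, zero_mul]
      · have hj := (ha B0 κ true h5).2.2 rfl
        rw [Finset.prod_eq_zero hj, map_zero, mul_zero]
        rw [coll_iota_true, AddMonoidHom.inl_apply, map_zero]
    rw [h4, zero_add]
    rfl
  · push Not at hcf
    have hb0 : b0 = true := by
      cases b0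
      · exact absurd (hcf κ0) h0
      · rfl
    subst hb0
    have hjB := (ha B0 κ0 true h0).2.2 rfl
    have h2 := hW B0 hBA hBne (fun κ => a B0 κ true) (fun κ h => (ha B0 κ true h).2.1.symm)
      ⟨κ0, h0⟩
    rw [coll_bi] at h2
    have h3 := madd_restrict hBne (hmadd B0) (fun i => if i = j then
      AddMonoidHom.inr (X → ZMod ℓ) (X → ZMod ℓ) else AddMonoidHom.inl (X → ZMod ℓ) (X → ZMod ℓ))
    refine h3.trans (le_of_eq_of_le ?_ h2.le)
    congr 2
    funext h
    congr 1
    refine Finset.sum_congr rfl fun κ _ => ?_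
    rw [Fintype.sum_bool, hcf κ, zero_mul, add_zero]
    congr 2
    refine Finset.prod_congr rfl fun i _ => ?_
    beta_reduce
    by_cases hij : i = j
    · subst hij
      rw [if_pos rfl, coll_iota_true, AddMonoidHom.inr_apply]
    · rw [if_neg hij, coll_iota_ne _ _ _ _ hij, AddMonoidHom.inl_apply]

theorem realise (hsymm : ∀ x y, Far x y → Far y x) (hreg : Reg ξ Far 𝒳 e F ε m s)
    (he : ∀ κ, 1 ≤ e κ) (A : Finset C) (hm : 2 ^ A.card * ℓ ^ n * (A.card * s) ≤ m) (hε0 : 0 ≤ ε)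
    (hε : ε < ((ℓ : ℝ) ^ (2 * 2 ^ A.card * n))⁻¹) {j : C} (hj : j ∈ A)
    (c c' : Finset C × Fin n → ZMod ℓ) (hcc : ∀ p, j ∉ p.1 → c p = c' p) :
    ∃ (W : C → Finset X) (h : C → X → ZMod ℓ) (h' : X → ZMod ℓ), SepOn Far A W ∧
      (∀ i, (↑(W i) : Set X) ⊆ 𝒳) ∧ (∀ i, (W i).card ≤ 2 ^ A.card * ℓ ^ n * s) ∧
      (∀ B ⊆ A, ∀ κ, B.card = e κ → F κ (∏ i ∈ B, vec ξ (W i) (h i)) = c (B, κ)) ∧
      ∀ B ⊆ A, ∀ κ, B.card = e κ →
        F κ (∏ i ∈ B, Function.update (fun i => vec ξ (W i) (h i)) j (vec ξ (W j) h') i) =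
          c' (B, κ) := by
  classical
  obtain ⟨W, hW1, hW2, hW3, hW4⟩ := collect hsymm hreg A ∅ (by
    rw [Finset.card_empty, zero_add]
    exact hm)
  let P : (Finset C × Fin n) × Bool → Prop := fun p =>
    p.1.1 ⊆ A ∧ p.1.1.card = e p.1.2 ∧ (p.2 = true → j ∈ p.1.1)
  let u : (C → (X → ZMod ℓ) × (X → ZMod ℓ)) → {p // P p} → ZMod ℓ := fun ω p =>
    F p.1.1.2 (∏ i ∈ p.1.1.1, coll_iota ξ W j p.1.2 i (ω i))
  have hcard : Fintype.card {p // P p} ≤ 2 * 2 ^ A.card * n := by
    have h1 : Fintype.card {p // P p} = (univ.filter P).card := Fintype.card_subtype P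
    rw [h1]
    have h2 : univ.filter P ⊆ (A.powerset ×ˢ (univ : Finset (Fin n))) ×ˢ (univ : Finset Bool) := by
      intro p hp
      rw [Finset.mem_filter] at hp
      rw [Finset.mem_product, Finset.mem_product, Finset.mem_powerset]
      exact ⟨⟨hp.2.1, Finset.mem_univ _⟩, Finset.mem_univ _⟩
    refine (Finset.card_le_card h2).trans (le_of_eq ?_)
    rw [Finset.card_product, Finset.card_product, Finset.card_powerset, Finset.card_univ,
      Finset.card_univ, Fintype.card_fin, Fintype.card_bool]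
    ring
  have hunif := near_uniform u hε0 (by
    intro a ha
    let a' : Finset C → Fin n → Bool → ZMod ℓ := fun B κ b =>
      if h : P ((B, κ), b) then a ⟨((B, κ), b), h⟩ else 0
    have ha' : ∀ B κ b, a' B κ b ≠ 0 → B ⊆ A ∧ B.card = e κ ∧ (b = true → j ∈ B) := by
      intro B κ b h
      by_contra h1
      exact h (dif_neg h1)
    have hne : ∃ B κ b, a' B κ b ≠ 0 := by
      by_contra hcon
      push Not at hcon
      apply ha
      funext p
      have h1 := hcon p.1.1.1 p.1.1.2 p.1.2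
      have h2 : a' p.1.1.1 p.1.1.2 p.1.2 = a p := dif_pos p.2
      rw [h2] at h1
      exact h1
    have hb := coll_bound he A W j hW4 a' ha' hne
    have hsum : ∀ ω : C → (X → ZMod ℓ) × (X → ZMod ℓ), ∑ p, a p * u ω p =
        ∑ B, ∑ κ, ∑ b, a' B κ b * F κ (∏ i ∈ B, coll_iota ξ W j b i (ω i)) := by
      intro ω
      rw [← Fintype.sum_prod_type', ← Fintype.sum_prod_type'
        (f := fun (x : Finset C × Fin n) b => a' x.1 x.2 b *
          F x.2 (∏ i ∈ x.1, coll_iota ξ W j b i (ω i)))]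
      rw [← Finset.sum_filter_of_ne (p := P)]
      · rw [Finset.sum_subtype (univ.filter P) (p := P) (by simp)]
        refine Finset.sum_congr rfl fun p _ => ?_
        have h2 : a' p.1.1.1 p.1.1.2 p.1.2 = a p := dif_pos p.2
        rw [h2]
      · intro p _ hp
        exact ha' _ _ _ (left_ne_zero_of_mul hp)
    simp only [hsum]
    exact hb) (fun p => if p.1.2 = true then c' p.1.1 else c p.1.1)
  have hpos : 0 < pr (fun ω => u ω = fun p => if p.1.2 = true then c' p.1.1 else c p.1.1) := by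
    have hℓ : (1 : ℝ) ≤ ℓ := by exact_mod_cast Nat.one_le_iff_ne_zero.2 (NeZero.ne ℓ)
    have h1 : ((ℓ : ℝ) ^ (2 * 2 ^ A.card * n))⁻¹ ≤ ((ℓ : ℝ) ^ Fintype.card {p // P p})⁻¹ :=
      inv_anti₀ (by positivity) (pow_le_pow_right₀ hℓ hcard)
    have h2 := (abs_le.1 hunif).1
    linarith
  obtain ⟨ω, hω⟩ := exists_of_pr_pos hpos
  have key : ∀ B ⊆ A, ∀ κ, B.card = e κ → F κ (∏ i ∈ B, vec ξ (W i) (ω i).1) = c (B, κ) := by
    intro B hB κ hκ
    have h1 := congrFun hω ⟨((B, κ), false), hB, hκ, fun h => by simp at h⟩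
    simp only [u, Bool.false_eq_true, if_false] at h1
    rw [← h1]
    rfl
  refine ⟨W, fun i => (ω i).1, (ω j).2, hW1, fun i => (hW2 i).trans fun x hx => hx.1, hW3,
    key, ?_⟩
  intro B hB κ hκ
  by_cases hjB : j ∈ B
  · have h1 := congrFun hω ⟨((B, κ), true), hB, hκ, fun _ => hjB⟩
    simp only [u, if_true] at h1
    rw [← h1]
    congr 1
    refine Finset.prod_congr rfl fun i _ => ?_
    by_cases hij : i = j
    · subst hij
      rw [Function.update_self, coll_iota_true]
    · rw [Function.update_of_ne hij, coll_iota_ne _ _ _ _ hij]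
  · rw [← hcc (B, κ) hjB, ← key B hB κ hκ]
    congr 1
    refine Finset.prod_congr rfl fun i hi => ?_
    rw [Function.update_of_ne]
    rintro rfl
    exact hjB hi

end

end Pool.Agent.Lib.MP_3e612f_nt.DI
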