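import Pool.Agent.Lib.MP_3e612f_nt.DI.Alt
import Pool.Agent.Lib.MP_3e612f_nt.DI.BMul
import Pool.Agent.Lib.MP_3e612f_nt.DI.G.Rig

/-!
A witness for the leading tensor gives a witness for the form of the gadgets.

PROOF of `Gv_rig`. `G.rig_coeff` with `V = R × R`, `R = MvPolynomial (Pt q D L) (ZMod ℓ)`, `e (i, c) = (pt (a + g + i, c), 0)`, `e' (i, c) = (0, pt (a + g + i, c))` if
`a + g + i < L` and `c < q ^ (D + 1)`, and `0` otherwise, at the position `a`, label `lam`, `c = x.2`: then `G.gv … p e (a, lam) + G.gv … r e' (a, lam) = Gv … (a, lam)` (the points `x` of the block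
`blk q D l L (a + g) u` are the `(a + g + i, wd q D i u)`, `i < l - D`, lowest digit `≠ 0`, `a + g + i < L`), and `e (b + D + 1, x.2) = (pt x, 0)`.

PROOF of `transfer`. `V j` = the set of the `(a, lam)` such that `a + t0` is the position of a point of `W j`; choose the coefficients `γ x` for `x ∈ ⋃ W j`. `bi_restrict` with
`ι j = vec Gv (V j)` and `α j : (Pt → ZMod ℓ) →+ (Fin P × Fin H → ZMod ℓ)`, `α j h (a, lam) = ∑_{x ∈ W j, x.1 = a + t0} h x * γ x lam`: then `vec Gv (V j) (α j h) = ∑_{x ∈ W j} h x • (pt x, 0) = (vec pt (W j) h, 0)`, and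
`T2 T η (∏_j (v_j, 0)) = T (∏_j v_j) + η T (∏_j 0) = T (∏_j v_j)` as `0 < d`.

PROOF of `class_sel`. `bi_classes` with `κ = Fin W × Fin H`, `ι j = vec G (V j)`, `ι' j k = vec G ((V j).filter (v.1 % W = k.1 ∧ v.2 = k.2))`. Two different gadgets in one class have the same label, so different positions,
congruent mod `W`.
-/

set_option autoImplicit false

namespace Pool.Agent.Lib.MP_3e612f_nt.DI

open Finset
open Pool.Agent.Lib.MP_3e612f_nt.PI (wd ee Gad zc ut)

/-- the point of the block at `A` with the relative position `x.1` and the content `x.2` -/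
private noncomputable def trfE (ℓ q D L A : ℕ) (x : ℕ × ℕ) : MvPolynomial (Pt q D L) (ZMod ℓ) :=
  if h : A + x.1 < L ∧ x.2 < q ^ (D + 1) then pt (⟨A + x.1, h.1⟩, ⟨x.2, h.2⟩) else 0

private theorem trf_blk {ℓ q D l L A u : ℕ} (hq : 2 ≤ q) :
    G.blk q D l (trfE ℓ q D L A) u =
      ∑ x ∈ blk q D l L A u, (pt x : MvPolynomial (Pt q D L) (ZMod ℓ)) := by
  classical
  have hlt : ∀ i, wd q D i u < q ^ (D + 1) := fun i => Nat.mod_lt _ (Nat.pow_pos (by omega))
  set f : ℕ → MvPolynomial (Pt q D L) (ZMod ℓ) := fun i =>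
    if wd q D i u % q = 0 then 0 else trfE ℓ q D L A (i, wd q D i u) with hf
  have hmem : ∀ x : Pt q D L, x ∈ blk q D l L A u ↔ (A ≤ (x.1 : ℕ) ∧ (x.1 : ℕ) + D < A + l) ∧
      wd q D (x.1 - A) u = x.2 ∧ (x.2 : ℕ) % q ≠ 0 := by
    intro x
    unfold blk cell
    rw [mem_filter, mem_filter]
    simp only [mem_univ, true_and]
  have h1 : ∀ x ∈ blk q D l L A u, (pt x : MvPolynomial (Pt q D L) (ZMod ℓ)) = f (x.1 - A) := by
    intro x hx
    obtain ⟨⟨h2, h3⟩, h4, h5⟩ := (hmem x).1 hx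
    have h6 : A + ((x.1 : ℕ) - A) = x.1 := by omega
    have h7 : A + ((x.1 : ℕ) - A) < L ∧ wd q D (x.1 - A) u < q ^ (D + 1) := by
      rw [h6]
      exact ⟨x.1.2, hlt _⟩
    rw [hf]
    simp only
    rw [if_neg (by rw [h4]; exact h5), trfE, dif_pos h7]
    congr 1
    refine Prod.ext (Fin.ext ?_) (Fin.ext ?_)
    · exact h6.symm
    · exact h4.symm
  rw [Finset.sum_congr rfl h1]
  have hinj : Set.InjOn (fun x : Pt q D L => (x.1 : ℕ) - A) (blk q D l L A u) := by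
    intro x hx y hy hxy
    obtain ⟨⟨h2, h3⟩, h4, h5⟩ := (hmem x).1 hx
    obtain ⟨⟨h2', h3'⟩, h4', h5'⟩ := (hmem y).1 hy
    have h6 : (x.1 : ℕ) - A = y.1 - A := hxy
    refine Prod.ext (Fin.ext (by omega)) (Fin.ext ?_)
    rw [← h4, ← h4', h6]
  rw [← Finset.sum_image (f := f) hinj]
  symm
  refine Finset.sum_subset ?_ ?_
  · intro i hi
    obtain ⟨x, hx, rfl⟩ := mem_image.1 hi
    obtain ⟨⟨h2, h3⟩, h4, h5⟩ := (hmem x).1 hx
    rw [mem_range]
    omega
  · intro i hi hi'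
    rw [mem_range] at hi
    rw [hf]
    simp only
    by_cases hz : wd q D i u % q = 0
    · rw [if_pos hz]
    · rw [if_neg hz]
      by_cases hL : A + i < L
      · exfalso
        apply hi'
        refine mem_image.2 ⟨(⟨A + i, hL⟩, ⟨wd q D i u, hlt i⟩), (hmem _).2 ⟨⟨?_, ?_⟩, ?_, hz⟩, ?_⟩
        · show A ≤ A + i
          omega
        · show A + i + D < A + l
          omega
        · show wd q D (A + i - A) u = wd q D i u
          rw [Nat.add_sub_cancel_left]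
        · show A + i - A = i
          omega
      · rw [trfE, dif_neg (fun h => hL h.1)]

private theorem trf_map {V V' : Type} [AddCommGroup V] [AddCommGroup V'] (φ : V →+ V')
    (q D l : ℕ) (e : ℕ × ℕ → V) (u : ℕ) :
    G.blk q D l (fun y => φ (e y)) u = φ (G.blk q D l e u) := by
  unfold G.blk
  rw [map_sum]
  refine Finset.sum_congr rfl fun i _ => ?_
  split_ifs
  · rw [map_zero]
  · rfl

private theorem trf_gv {ℓ q D g l L : ℕ} (hq : 2 ≤ q) (z0 x0 : ℕ → ℕ) (s t : ℕ) (o : ℕ × ℕ) :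
    ∑ x : Pt q D L, ((gv q D g l L z0 x0 s t o x : ℤ) : ZMod ℓ) •
      (pt x : MvPolynomial (Pt q D L) (ZMod ℓ)) =
    G.gv q D g l z0 x0 s t (trfE ℓ q D L (o.1 + g)) o := by
  unfold G.gv gv
  rw [trf_blk hq, trf_blk hq]
  simp only [Int.cast_sub, Int.cast_ite, Int.cast_one, Int.cast_zero, sub_smul, ite_smul, one_smul,
    zero_smul, Finset.sum_sub_distrib, Finset.sum_ite_mem, Finset.univ_inter]

theorem Gv_rig {ℓ q p r D b g l H P L : ℕ} [NeZero ℓ] {z0 x0 : ℕ → ℕ} (hq : 2 ≤ q) (hℓ : ℓ ∣ q)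
    (hp : p.Prime) (hpq : p.Coprime q) (hpr : p.Coprime r) (hr : 0 < r)
    (hb1 : 2 * p * r ≤ q ^ b) (hb2 : 2 * p * q ^ D ≤ q ^ b) (hb3 : 2 * r * q ^ D ≤ q ^ b)
    (hH : q ^ (b + 3 * D + 4) ≤ H) (hl : b + 2 * D + 2 ≤ l) (hG : Gad q D g l H p r z0 x0)
    (s : ℕ) (x : Pt q D L) (a : Fin P) (hx : (x.1 : ℕ) = a + (g + (b + D + 1)))
    (hxq : (x.2 : ℕ) % q ≠ 0) :
    ∃ γ : Fin H → ZMod ℓ, ∑ lam, γ lam • Gv ℓ q D g l L z0 x0 s p r (a, lam) = (pt x, 0) := by
  obtain ⟨γ, hγ⟩ := G.rig_coeff (ℓ := ℓ)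
    (V := MvPolynomial (Pt q D L) (ZMod ℓ) × MvPolynomial (Pt q D L) (ZMod ℓ))
    hq hℓ hp hpq hpr hr hb1 hb2 hb3 hH hl hG s a
    (fun y => AddMonoidHom.inl _ _ (trfE ℓ q D L (a + g) y))
    (fun y => AddMonoidHom.inr _ _ (trfE ℓ q D L (a + g) y)) x.2.2 hxq
  refine ⟨γ, ?_⟩
  have h1 : ∀ lam : Fin H, Gv ℓ q D g l L z0 x0 s p r (a, lam) =
      G.gv q D g l z0 x0 s p (fun y => AddMonoidHom.inl _ _ (trfE ℓ q D L (a + g) y))
        ((a : ℕ), (lam : ℕ)) +
      G.gv q D g l z0 x0 s r (fun y => AddMonoidHom.inr _ _ (trfE ℓ q D L (a + g) y))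
        ((a : ℕ), (lam : ℕ)) := by
    intro lam
    have h2 : Gv ℓ q D g l L z0 x0 s p r (a, lam) =
        (G.gv q D g l z0 x0 s p (trfE ℓ q D L (a + g)) ((a : ℕ), (lam : ℕ)),
          G.gv q D g l z0 x0 s r (trfE ℓ q D L (a + g)) ((a : ℕ), (lam : ℕ))) := by
      unfold Gv
      rw [trf_gv hq, trf_gv hq]
    rw [h2]
    unfold G.gv
    rw [trf_map, trf_map, trf_map, trf_map]
    simp only [AddMonoidHom.inl_apply, AddMonoidHom.inr_apply]
    ext1 <;> simp
  simp only [h1]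
  rw [hγ]
  have h3 : a + g + (b + D + 1) < L ∧ (x.2 : ℕ) < q ^ (D + 1) := by
    refine ⟨?_, x.2.2⟩
    have := x.1.2
    omega
  show AddMonoidHom.inl _ _ (trfE ℓ q D L (a + g) (b + D + 1, x.2)) = _
  rw [trfE, dif_pos h3, AddMonoidHom.inl_apply]
  congr 2
  refine Prod.ext (Fin.ext ?_) rfl
  show (a : ℕ) + g + (b + D + 1) = x.1
  omega

theorem transfer {ℓ q p r D b g l H P L d : ℕ} [NeZero ℓ] {z0 x0 : ℕ → ℕ} (hq : 2 ≤ q)
    (hℓ : ℓ ∣ q) (hp : p.Prime) (hpq : p.Coprime q) (hpr : p.Coprime r) (hr : 0 < r)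
    (hb1 : 2 * p * r ≤ q ^ b) (hb2 : 2 * p * q ^ D ≤ q ^ b) (hb3 : 2 * r * q ^ D ≤ q ^ b)
    (hH : q ^ (b + 3 * D + 4) ≤ H) (hl : b + 2 * D + 2 ≤ l) (hG : Gad q D g l H p r z0 x0)
    (s : ℕ) (η : ℤ) (hd : 0 < d) (T : MvPolynomial (Pt q D L) (ZMod ℓ) →+ ZMod ℓ)
    (W : Fin d → Finset (Pt q D L))
    (hW : ∀ j, ∀ x ∈ W j, g + (b + D + 1) ≤ (x.1 : ℕ) ∧ (x.1 : ℕ) - (g + (b + D + 1)) < P ∧
      (x.2 : ℕ) % q ≠ 0) :
    ∃ V : Fin d → Finset (Fin P × Fin H), (∀ j, (V j).card ≤ (W j).card * H) ∧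
      (∀ j, ∀ v ∈ V j, ∃ x ∈ W j, (x.1 : ℕ) = v.1 + (g + (b + D + 1))) ∧
      bi (T2 T η) univ (fun j => vec (ℓ := ℓ) (Gv ℓ q D g l L z0 x0 s p r) (V j)) ≤
        bi T univ fun j => vec (ℓ := ℓ) pt (W j) := by
  classical
  set t0 := g + (b + D + 1) with ht0
  -- the gadget position of a point
  set pos : Pt q D L → ℕ := fun x => (x.1 : ℕ) - t0 with hpos
  have hex : ∀ x : Pt q D L, ∃ γ : Fin H → ZMod ℓ, (∃ j, x ∈ W j) →
      ∀ a : Fin P, (x.1 : ℕ) = a + t0 →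
        ∑ lam, γ lam • Gv ℓ q D g l L z0 x0 s p r (a, lam) = (pt x, 0) := by
    intro x
    by_cases h : ∃ j, x ∈ W j
    · obtain ⟨j, hj⟩ := h
      obtain ⟨h1, h2, h3⟩ := hW j x hj
      have hx : (x.1 : ℕ) = (⟨(x.1 : ℕ) - t0, h2⟩ : Fin P) + t0 := by
        show (x.1 : ℕ) = (x.1 : ℕ) - t0 + t0
        omega
      obtain ⟨γ, hγ⟩ := Gv_rig hq hℓ hp hpq hpr hr hb1 hb2 hb3 hH hl hG s x
        (⟨(x.1 : ℕ) - t0, h2⟩ : Fin P) hx h3
      refine ⟨γ, fun _ a ha => ?_⟩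
      have : a = (⟨(x.1 : ℕ) - t0, h2⟩ : Fin P) := by
        apply Fin.ext
        show (a : ℕ) = (x.1 : ℕ) - t0
        omega
      rw [this]
      exact hγ
    · exact ⟨0, fun h' => absurd h' h⟩
  choose γ hγ using hex
  let V : Fin d → Finset (Fin P × Fin H) := fun j =>
    univ.filter fun v => ∃ x ∈ W j, (x.1 : ℕ) = v.1 + t0
  have hVmem : ∀ j v, v ∈ V j ↔ ∃ x ∈ W j, (x.1 : ℕ) = v.1 + t0 := by
    intro j v
    show v ∈ univ.filter _ ↔ _
    rw [mem_filter]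
    exact ⟨fun h => h.2, fun h => ⟨mem_univ _, h⟩⟩
  refine ⟨V, ?_, fun j v hv => (hVmem j v).1 hv, ?_⟩
  · intro j
    have h1 : (V j).card ≤ (W j ×ˢ (univ : Finset (Fin H))).card := by
      have h2 : ∀ v ∈ V j, ∃ x, x ∈ W j ∧ (x.1 : ℕ) = v.1 + t0 := by
        intro v hv
        obtain ⟨x, hx, h3⟩ := (hVmem j v).1 hv
        exact ⟨x, hx, h3⟩
      have : Nonempty (Pt q D L) ∨ V j = ∅ := by
        rcases (V j).eq_empty_or_nonempty with h | ⟨v, hv⟩
        · exact Or.inr h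
        · exact Or.inl ⟨(h2 v hv).choose⟩
      rcases this with hne | h0
      · choose! xf hxf using h2
        refine Finset.card_le_card_of_injOn (fun v => (xf v, v.2)) ?_ ?_
        · intro v hv
          exact mem_product.2 ⟨(hxf v hv).1, mem_univ _⟩
        · intro v hv w hw hvw
          have h3 := (hxf v hv).2
          have h4 := (hxf w hw).2
          have hvw' : (xf v, v.2) = (xf w, w.2) := hvw
          have h5 : xf v = xf w := (Prod.mk.inj hvw').1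
          have h6 : v.2 = w.2 := (Prod.mk.inj hvw').2
          rw [h5] at h3
          exact Prod.ext (Fin.ext (by omega)) h6
      · rw [h0, card_empty]
        exact Nat.zero_le _
    rw [card_product, card_univ, Fintype.card_fin] at h1
    exact h1
  · have hne : (univ : Finset (Fin d)).Nonempty := ⟨⟨0, hd⟩, mem_univ _⟩
    let α : Fin d → (Pt q D L → ZMod ℓ) →+ (Fin P × Fin H → ZMod ℓ) := fun j =>
      { toFun := fun h v => ∑ x ∈ W j, if (x.1 : ℕ) = v.1 + t0 then h x * γ x v.2 else 0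
        map_zero' := by
          funext v
          simp
        map_add' := by
          intro h h'
          funext v
          show _ = (∑ x ∈ W j, if (x.1 : ℕ) = v.1 + t0 then h x * γ x v.2 else 0) +
            ∑ x ∈ W j, if (x.1 : ℕ) = v.1 + t0 then h' x * γ x v.2 else 0
          rw [← Finset.sum_add_distrib]
          refine Finset.sum_congr rfl fun x _ => ?_
          split_ifs
          · rw [Pi.add_apply, add_mul]
          · rw [add_zero] }
    have hα : ∀ j h v, α j h v =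
        ∑ x ∈ W j, if (x.1 : ℕ) = v.1 + t0 then h x * γ x v.2 else 0 := fun _ _ _ => rfl
    have hvec : ∀ j (h : Pt q D L → ZMod ℓ),
        vec (ℓ := ℓ) (Gv ℓ q D g l L z0 x0 s p r) (V j) (α j h) =
          (vec (ℓ := ℓ) pt (W j) h, 0) := by
      intro j h
      show ∑ v ∈ V j, α j h v • Gv ℓ q D g l L z0 x0 s p r v =
        (∑ x ∈ W j, h x • pt x, 0)
      have h1 : ∑ v ∈ V j, α j h v • Gv ℓ q D g l L z0 x0 s p r v =
          ∑ v, α j h v • Gv ℓ q D g l L z0 x0 s p r v := by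
        refine Finset.sum_subset (subset_univ _) fun v _ hv => ?_
        have h2 : α j h v = 0 := by
          rw [hα]
          refine Finset.sum_eq_zero fun x hx => ?_
          rw [if_neg]
          intro h3
          exact hv ((hVmem j v).2 ⟨x, hx, h3⟩)
        rw [h2, zero_smul]
      rw [h1]
      simp only [hα, Finset.sum_smul]
      rw [Finset.sum_comm]
      have h3 : ∀ x ∈ W j, ∑ v : Fin P × Fin H,
          (if (x.1 : ℕ) = v.1 + t0 then h x * γ x v.2 else 0) •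
            Gv ℓ q D g l L z0 x0 s p r v = h x • ((pt x : MvPolynomial (Pt q D L) (ZMod ℓ)),
              (0 : MvPolynomial (Pt q D L) (ZMod ℓ))) := by
        intro x hx
        obtain ⟨h4, h5, -⟩ := hW j x hx
        rw [Fintype.sum_prod_type, Finset.sum_eq_single (⟨(x.1 : ℕ) - t0, h5⟩ : Fin P)]
        · have h6 : (x.1 : ℕ) = ((⟨(x.1 : ℕ) - t0, h5⟩ : Fin P) : ℕ) + t0 := by
            show (x.1 : ℕ) = (x.1 : ℕ) - t0 + t0
            omega
          rw [← hγ x ⟨j, hx⟩ _ h6, Finset.smul_sum]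
          refine Finset.sum_congr rfl fun lam _ => ?_
          rw [if_pos h6, mul_smul]
        · intro a _ ha
          refine Finset.sum_eq_zero fun lam _ => ?_
          rw [if_neg, zero_smul]
          intro h6
          have h9 : (x.1 : ℕ) = (a : ℕ) + t0 := h6
          apply ha
          apply Fin.ext
          show (a : ℕ) = (x.1 : ℕ) - t0
          omega
        · intro h
          exact absurd (mem_univ _) h
      rw [Finset.sum_congr rfl h3]
      refine Prod.ext ?_ ?_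
      · rw [Prod.fst_sum]
        rfl
      · rw [Prod.snd_sum]
        refine Finset.sum_eq_zero fun x _ => ?_
        show h x • (0 : MvPolynomial (Pt q D L) (ZMod ℓ)) = 0
        rw [smul_zero]
    refine (bi_restrict hne (T2 T η)
      (fun j => vec (ℓ := ℓ) (Gv ℓ q D g l L z0 x0 s p r) (V j)) α).trans (le_of_eq ?_)
    unfold bi
    congr 2
    funext h
    congr 1
    have h7 : ∏ j, ((vec (ℓ := ℓ) (Gv ℓ q D g l L z0 x0 s p r) (V j)).comp (α j)) (h j) =
        (∏ j, vec (ℓ := ℓ) pt (W j) (h j), 0) := by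
      have h8 : ∀ j, ((vec (ℓ := ℓ) (Gv ℓ q D g l L z0 x0 s p r) (V j)).comp (α j)) (h j) =
          (vec (ℓ := ℓ) pt (W j) (h j), 0) := fun j => hvec j (h j)
      rw [Finset.prod_congr rfl fun j _ => h8 j]
      refine Prod.ext ?_ ?_
      · rw [Prod.fst_prod]
      · rw [Prod.snd_prod]
        exact Finset.prod_eq_zero (mem_univ ⟨0, hd⟩) rfl
    rw [h7]
    show T (∏ j, vec (ℓ := ℓ) pt (W j) (h j)) + η • T 0 = _
    rw [map_zero, smul_zero, add_zero]

theorem class_sel {ℓ : ℕ} [NeZero ℓ] {R : Type} [CommRing R] [Algebra (ZMod ℓ) R]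
    {P H W d : ℕ} (hW : 1 ≤ W) (hH : 1 ≤ H) (hd : 0 < d) (T : R →+ ZMod ℓ)
    (G : Fin P × Fin H → R) (V : Fin d → Finset (Fin P × Fin H)) :
    ∃ V' : Fin d → Finset (Fin P × Fin H), (∀ j, V' j ⊆ V j) ∧
      (∀ j, ∀ v ∈ V' j, ∀ w ∈ V' j, v ≠ w → (v.1 : ℕ) + W ≤ w.1 ∨ (w.1 : ℕ) + W ≤ v.1) ∧
      bi T univ (fun j => vec (ℓ := ℓ) G (V' j)) ^ (W * H) ^ d ≤
        bi T univ fun j => vec (ℓ := ℓ) G (V j) := by
  classical
  have : Nonempty (Fin d) := ⟨⟨0, hd⟩⟩
  have : Nonempty (Fin W × Fin H) := ⟨(⟨0, hW⟩, ⟨0, hH⟩)⟩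
  let cl : Fin P × Fin H → Fin W × Fin H := fun v => (⟨(v.1 : ℕ) % W, Nat.mod_lt _ hW⟩, v.2)
  obtain ⟨τ, hτ⟩ := bi_classes T (fun j => vec (ℓ := ℓ) G (V j))
    (fun j k => vec (ℓ := ℓ) G ((V j).filter fun v => cl v = k)) (by
      intro j e
      show ∑ v ∈ V j, e v • G v = ∑ k, ∑ v ∈ (V j).filter (fun v => cl v = k), e v • G v
      exact (Finset.sum_fiberwise (V j) cl fun v => e v • G v).symm)
  refine ⟨fun j => (V j).filter fun v => cl v = τ j, fun j => filter_subset _ _, ?_, ?_⟩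
  · intro j v hv w hw hvw
    have h1 := (mem_filter.1 hv).2.trans (mem_filter.1 hw).2.symm
    have h2 : (v.1 : ℕ) % W = (w.1 : ℕ) % W := congrArg (fun y => ((y.1 : Fin W) : ℕ)) h1
    have h3 : v.2 = w.2 := congrArg (fun y : Fin W × Fin H => y.2) h1
    have h4 : (v.1 : ℕ) ≠ w.1 := fun h => hvw (Prod.ext (Fin.ext h) h3)
    have h5 := Nat.div_add_mod (v.1 : ℕ) W
    have h6 := Nat.div_add_mod (w.1 : ℕ) W
    rcases Nat.lt_or_gt_of_ne h4 with h | h
    · left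
      have h7 : (v.1 : ℕ) / W < (w.1 : ℕ) / W := by
        by_contra hcon
        have := Nat.mul_le_mul_left W (not_lt.1 hcon)
        omega
      have h8 : W * ((v.1 : ℕ) / W) + W ≤ W * ((w.1 : ℕ) / W) := by
        calc W * ((v.1 : ℕ) / W) + W = W * ((v.1 : ℕ) / W + 1) := by ring
          _ ≤ _ := Nat.mul_le_mul_left W h7
      omega
    · right
      have h7 : (w.1 : ℕ) / W < (v.1 : ℕ) / W := by
        by_contra hcon
        have := Nat.mul_le_mul_left W (not_lt.1 hcon)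
        omega
      have h8 : W * ((w.1 : ℕ) / W) + W ≤ W * ((v.1 : ℕ) / W) := by
        calc W * ((w.1 : ℕ) / W) + W = W * ((w.1 : ℕ) / W + 1) := by ring
          _ ≤ _ := Nat.mul_le_mul_left W h7
      omega
  · rw [Fintype.card_prod, Fintype.card_fin, Fintype.card_fin, Fintype.card_fin] at hτ
    exact hτ

end Pool.Agent.Lib.MP_3e612f_nt.DI
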