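import Pool.Agent.Lib.MP_3e612f_nt.DI.CorrG
import Pool.Agent.Lib.MP_3e612f_nt.DI.Trf
import Pool.Agent.Lib.MP_3e612f_nt.PI.GadA

/-!
Many witnesses for the leading tensor make the correlation small.

PROOF. Choose `b` with `2 p r`, `2 p q ^ D`, `2 r q ^ D ≤ q ^ b`, `H = q ^ (b + 3 * D + 4)`, `g, l, z0, x0` from `PI.exists_gad` with `l ≥ b + 2 * D + 2`; `W = g + l`, `t0 = g + (b + D + 1)`, `R0` from `corr_gad M q W`. We may assume
`δ ≤ 1`. `ε' = δ ^ (2 ^ d) / 2`, `ε = ε' ^ ((W * H) ^ d)`. Given `s` let `s' = s * H` and `k` with `(1 - (R0 ^ (d * s'))⁻¹) ^ k ≤ δ ^ (2 ^ d) / 2` (the base is in `[0, 1)`). For each of the `k` tuples `V b` of sets of points `transfer` gives gadget sets with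
bias `< ε` and `class_sel` gives subsets with bias `≤ ε'` (`x ^ n ≤ y < ε' ^ n` implies `x < ε'`), whose gadgets (in one colour) are `W`-separated; for different `(b, j)` they are `W`-separated because the positions of the gadgets are
the positions of the points minus `t0`. `corr_gad` gives `‖∑‖ ^ (2 ^ d) ≤ (q ^ K) ^ (2 ^ d) * δ ^ (2 ^ d)`. (`p, r > q` primes, hence coprime to `q` and to each other; `Tm d τ` is the tensor `T`.)
-/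

set_option autoImplicit false

namespace Pool.Agent.Lib.MP_3e612f_nt.DI

open Finset
open Pool.Agent.Lib.MP_3e612f_nt.PI (wd ee Phi Gad zc ut)

/-- a power of a number below `1` which is small -/
private theorem corrD_pow {R0 m : ℕ} (hR : 1 ≤ R0) {c : ℝ} (hc : 0 < c) :
    ∃ k : ℕ, (1 - ((R0 : ℝ) ^ m)⁻¹) ^ k ≤ c := by
  have h1 : (1 : ℝ) ≤ (R0 : ℝ) ^ m := one_le_pow₀ (by exact_mod_cast hR)
  have h2 : (0 : ℝ) < ((R0 : ℝ) ^ m)⁻¹ := inv_pos.2 (by linarith)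
  have h3 : ((R0 : ℝ) ^ m)⁻¹ ≤ 1 := inv_le_one_of_one_le₀ h1
  obtain ⟨k, hk⟩ := exists_pow_lt_of_lt_one hc (show 1 - ((R0 : ℝ) ^ m)⁻¹ < 1 by linarith)
  exact ⟨k, hk.le⟩

theorem corr_boxes {q : ℕ} (hq : 2 ≤ q) (D d : ℕ) (hd : 0 < d) {ℓ : ℕ} [NeZero ℓ] (hℓq : ℓ ∣ q)
    (m1 M : ℕ) [NeZero M] (hM : ℓ ∣ M) {p r : ℕ} (hp : p.Prime) (hr : r.Prime) (hqp : q < p)
    (hpr : p < r) (η : ℤ) {δ : ℝ} (hδ : 0 < δ) :
    ∃ (W t0 : ℕ) (ε : ℝ), 1 ≤ W ∧ 0 < ε ∧ ∀ s : ℕ, ∃ k : ℕ, ∀ K P : ℕ, P + W = K + 1 →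
      ∀ (L sh : ℕ) (t : Finset (Pt q D L) → ZMod M) (τ : Finset (Pt q D L) → ZMod ℓ)
        (g2 : ℕ → ZMod M), (∀ S, S.card ≠ d → t S = 0) → (∀ S, m1 • t S = emb M (τ S)) →
        IsP q (d - 1) D g2 →
      ∀ V : Fin k → Fin d → Finset (Pt q D L),
        (∀ b j, ∀ x ∈ V b j, t0 ≤ (x.1 : ℕ) ∧ (x.1 : ℕ) - t0 < P ∧ (x.2 : ℕ) % q ≠ 0) →
        (∀ b b' j j', (b, j) ≠ (b', j') → ∀ x ∈ V b j, ∀ y ∈ V b' j', FarP W x y) →
        (∀ b j, (V b j).card ≤ s) →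
        (∀ b, bi (Tm d τ) univ (fun j => vec (ℓ := ℓ) pt (V b j)) < ε) →
        ∀ u : ℕ, ‖∑ v ∈ range (q ^ K),
          ee (Phi (fun n => FP q D L t n + g2 n) η p r sh (q ^ K * u + v))‖ ≤ δ * (q : ℝ) ^ K := by
  classical
  have hp0 : 0 < p := hp.pos
  have hr0 : 0 < r := hr.pos
  have hpq : p.Coprime q := (Nat.Prime.coprime_iff_not_dvd hp).2 fun h =>
    absurd (Nat.le_of_dvd (by omega) h) (by omega)
  have hrq : r.Coprime q := (Nat.Prime.coprime_iff_not_dvd hr).2 fun h =>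
    absurd (Nat.le_of_dvd (by omega) h) (by omega)
  have hpr' : p.Coprime r := (Nat.coprime_primes hp hr).2 (by omega)
  -- the parameters
  obtain ⟨b, hb⟩ : ∃ b, 2 * p * r + 2 * p * q ^ D + 2 * r * q ^ D < q ^ b :=
    ⟨_, Nat.lt_pow_self hq⟩
  have hb1 : 2 * p * r ≤ q ^ b := by
    have := Nat.zero_le (2 * p * q ^ D)
    have := Nat.zero_le (2 * r * q ^ D)
    omega
  have hb2 : 2 * p * q ^ D ≤ q ^ b := by omega
  have hb3 : 2 * r * q ^ D ≤ q ^ b := by omega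
  obtain ⟨H, hHdef⟩ : ∃ H, H = q ^ (b + 3 * D + 4) := ⟨_, rfl⟩
  have hH1 : 1 ≤ H := by
    rw [hHdef]
    exact Nat.one_le_pow _ _ (by omega)
  obtain ⟨g, l, z0, x0, hl0, hDl, hG⟩ :=
    Pool.Agent.Lib.MP_3e612f_nt.PI.exists_gad hq hpq hrq hp0 hr0 D H (b + 2 * D + 2)
  have hW : 1 ≤ g + l := by omega
  obtain ⟨R0, hR, hcorr⟩ := corr_gad M q (g + l) hq hW
  obtain ⟨δ', hδ'⟩ : ∃ δ', δ' = δ ^ 2 ^ d / 2 := ⟨_, rfl⟩
  have hδ'0 : 0 < δ' := by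
    rw [hδ']
    positivity
  refine ⟨g + l, g + (b + D + 1), δ' ^ ((g + l) * H) ^ d, hW, by positivity, fun s => ?_⟩
  obtain ⟨k, hk⟩ := corrD_pow (m := d * (s * H)) hR hδ'0
  refine ⟨k, ?_⟩
  intro K P hPK L sh t τ g2 ht htm hg2 V hV hfar hcard hbias u
  -- gadgets
  have htr := fun b' => transfer (P := P) (H := H) hq hℓq hp hpq hpr' hr0 hb1 hb2 hb3
    (le_of_eq hHdef.symm) hl0 hG sh η hd (Tm d τ) (V b') (hV b')
  choose V1 hV1c hV1p hV1b using htr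
  have hcl := fun b' => class_sel (W := g + l) (H := H) hW hH1 hd (T2 (Tm d τ) η)
    (Gv ℓ q D g l L z0 x0 sh p r) (V1 b')
  choose V2 hV2s hV2f hV2b using hcl
  have hne : (univ : Finset (Fin d)).Nonempty := ⟨⟨0, hd⟩, mem_univ _⟩
  have hmain := hcorr D g l H p r z0 x0 rfl hDl hG ℓ m1 d hd hM L sh t τ g2 η ht htm hg2 K P k
    (s * H) δ' hPK hδ'0.le V2 (fun b' j => hV2f b' j) (by
      intro b1 b2 j1 j2 hne' v hv w hw
      obtain ⟨x, hx, hxp⟩ := hV1p b1 j1 v (hV2s b1 j1 hv)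
      obtain ⟨y, hy, hyp⟩ := hV1p b2 j2 w (hV2s b2 j2 hw)
      have h1 := hfar b1 b2 j1 j2 hne' x hx y hy
      unfold FarP at h1
      omega) (by
      intro b1 j1
      exact (card_le_card (hV2s b1 j1)).trans ((hV1c b1 j1).trans
        (Nat.mul_le_mul_right _ (hcard b1 j1)))) (by
      intro b1
      have h1 := lt_of_le_of_lt (hV2b b1) (lt_of_le_of_lt (hV1b b1) (hbias b1))
      exact (lt_of_pow_lt_pow_left₀ _ hδ'0.le h1).le) u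
  have hqK : (0 : ℝ) ≤ (q : ℝ) ^ K := by positivity
  have h2 : ((q : ℝ) ^ K) ^ 2 ^ d * ((1 - ((R0 : ℝ) ^ (d * (s * H)))⁻¹) ^ k + δ') ≤
      (δ * (q : ℝ) ^ K) ^ 2 ^ d := by
    have h3 : (1 - ((R0 : ℝ) ^ (d * (s * H)))⁻¹) ^ k + δ' ≤ δ ^ 2 ^ d := by
      rw [hδ'] at hk ⊢
      linarith
    rw [mul_pow, mul_comm (δ ^ 2 ^ d)]
    exact mul_le_mul_of_nonneg_left h3 (by positivity)
  exact le_of_pow_le_pow_left₀ (by positivity) (by positivity) (hmain.trans h2)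

end Pool.Agent.Lib.MP_3e612f_nt.DI
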