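import Pool.Agent.Lib.MP_3e612f_nt.DI.Top

/-!
Switches and colours.

`rr z z' k x`: the contents `k`, where the contents `z i`, `z' i` are replaced by `z' i` or `z i`, according to the switch `x i`.
PROOF of `av_switch`. The map `(k, x) ↦ (rr z z' k x, x°)`, `x° i` = truth value of `k i = z' i` if `k i ∈ {z i, z' i}` and `x° i = x i` otherwise, is an involution of
`(ι → Fin Q) × (ι → Bool)` (as in `PI/ProdB.lean`, `PI/ProdL.lean`), `av_equiv`, `av_prod`, `av_const`. `av_colours`: `av_comp_inj` with the injection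
`i ↦ (col i, i)` into `Fin d × ι` (and currying).
(`gcs` is in `Gcs.lean`.)
-/

set_option autoImplicit false

namespace Pool.Agent.Lib.MP_3e612f_nt.DI

open Finset
open Pool.Agent.Lib.MP_3e612f_nt.PI (ee)

/-- replace contents of active gadgets according to the switches -/
def rr {ι : Type} {Q : ℕ} (z z' k : ι → Fin Q) (x : ι → Bool) (i : ι) : Fin Q :=
  if k i = z i ∨ k i = z' i then (if x i then z' i else z i) else k i

/-- the involution of one coordinate -/
private def lawS {Q : ℕ} (z z' : Fin Q) (p : Fin Q × Bool) : Fin Q × Bool :=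
  if p.1 = z ∨ p.1 = z' then (if p.2 then z' else z, decide (p.1 = z')) else p

private theorem lawS_lawS {Q : ℕ} {z z' : Fin Q} (h : z ≠ z') (p : Fin Q × Bool) :
    lawS z z' (lawS z z' p) = p := by
  obtain ⟨k, x⟩ := p
  unfold lawS
  by_cases h1 : k = z'
  · subst h1
    cases x <;> simp [h]
  · by_cases h2 : k = z
    · subst h2
      cases x <;> simp [h]
    · simp [h1, h2]

theorem av_switch {ι : Type} [Fintype ι] [DecidableEq ι] {Q : ℕ} (z z' : ι → Fin Q)
    (hz : ∀ i, z i ≠ z' i) (f : (ι → Fin Q) → ℂ) :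
    av f = av fun k : ι → Fin Q => av fun x : ι → Bool => f (rr z z' k x) := by
  let T : (ι → Fin Q) × (ι → Bool) → (ι → Fin Q) × (ι → Bool) := fun p =>
    (fun i => (lawS (z i) (z' i) (p.1 i, p.2 i)).1, fun i => (lawS (z i) (z' i) (p.1 i, p.2 i)).2)
  have hT : Function.Involutive T := by
    rintro ⟨k, x⟩
    refine Prod.ext ?_ ?_
    · funext i
      exact congrArg Prod.fst (lawS_lawS (hz i) (k i, x i))
    · funext i
      exact congrArg Prod.snd (lawS_lawS (hz i) (k i, x i))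
  have h1 : (av fun p : (ι → Fin Q) × (ι → Bool) => f p.1) = av f := by
    rw [av_prod]
    congr 1
    funext k
    exact av_const (α := ι → Bool) (f k)
  rw [← h1, ← av_equiv hT.toPerm fun p : (ι → Fin Q) × (ι → Bool) => f p.1, av_prod]
  congr 1
  funext k
  congr 1
  funext x
  show f (T (k, x)).1 = _
  congr 1
  funext i
  show (lawS (z i) (z' i) (k i, x i)).1 = rr z z' k x i
  unfold lawS rr
  split_ifs <;> rfl

theorem av_colours {ι E : Type} [Fintype ι] [DecidableEq ι] [Fintype E] [Nonempty E] {d : ℕ}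
    (col : ι → Fin d) (f : (ι → E) → ℂ) :
    av f = av fun x : Fin d → ι → E => f fun i => x (col i) i := by
  have h1 := av_comp_inj (C' := Fin d × ι) (fun i : ι => (col i, i))
    (fun i j h => (Prod.mk.inj h).2) f
  rw [← h1, ← av_equiv (Equiv.curry (Fin d) ι E)]
  rfl

theorem norm_av_sq_le {α : Type} [Fintype α] (f : α → ℂ) :
    ‖av f‖ ^ 2 ≤ (av fun a => ((‖f a‖ ^ 2 : ℝ) : ℂ)).re := by
  have h1 : (av fun a => ((‖f a‖ ^ 2 : ℝ) : ℂ)).re = (Fintype.card α : ℝ)⁻¹ * ∑ a, ‖f a‖ ^ 2 := by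
    unfold av
    rw [← Complex.ofReal_sum, ← Complex.ofReal_natCast, ← Complex.ofReal_inv,
      ← Complex.ofReal_mul, Complex.ofReal_re]
  rw [h1]
  unfold av
  rw [norm_mul, norm_inv, Complex.norm_natCast, mul_pow]
  have h3 : ‖∑ a, f a‖ ≤ ∑ a, ‖f a‖ := norm_sum_le _ _
  have h4 : (∑ a, ‖f a‖) ^ 2 ≤ (Fintype.card α : ℝ) * ∑ a, ‖f a‖ ^ 2 := by
    have := sq_sum_le_card_mul_sum_sq (s := (univ : Finset α)) (f := fun a => ‖f a‖)
    rwa [card_univ] at this
  have h5 : ‖∑ a, f a‖ ^ 2 ≤ (Fintype.card α : ℝ) * ∑ a, ‖f a‖ ^ 2 :=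
    (pow_le_pow_left₀ (norm_nonneg _) h3 2).trans h4
  rcases Nat.eq_zero_or_pos (Fintype.card α) with h0 | h0
  · rw [h0]
    simp
  · have hc : (0 : ℝ) < Fintype.card α := by exact_mod_cast h0
    calc ((Fintype.card α : ℝ)⁻¹) ^ 2 * ‖∑ a, f a‖ ^ 2
        ≤ ((Fintype.card α : ℝ)⁻¹) ^ 2 * ((Fintype.card α : ℝ) * ∑ a, ‖f a‖ ^ 2) :=
          mul_le_mul_of_nonneg_left h5 (by positivity)
      _ = (Fintype.card α : ℝ)⁻¹ * ∑ a, ‖f a‖ ^ 2 := by
          field_simp

theorem norm_av_pow_le {α : Type} [Fintype α] (f : α → ℂ) (n : ℕ) :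
    ‖av f‖ ^ 2 ^ n ≤ (av fun a => ((‖f a‖ ^ 2 ^ n : ℝ) : ℂ)).re := by
  induction n with
  | zero => simpa using norm_av_le f
  | succ n ih =>
    have h1 := norm_av_sq_le fun a => ((‖f a‖ ^ 2 ^ n : ℝ) : ℂ)
    have h2 : (av fun a => ((‖((‖f a‖ ^ 2 ^ n : ℝ) : ℂ)‖ ^ 2 : ℝ) : ℂ)) =
        av fun a => ((‖f a‖ ^ 2 ^ (n + 1) : ℝ) : ℂ) := by
      congr 1
      funext a
      rw [Complex.norm_real, Real.norm_eq_abs, abs_of_nonneg (by positivity), ← pow_mul,
        ← pow_succ]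
    rw [h2] at h1
    refine le_trans ?_ h1
    rw [pow_succ 2 n, pow_mul]
    refine pow_le_pow_left₀ (by positivity) (ih.trans (Complex.re_le_norm _)) 2

end Pool.Agent.Lib.MP_3e612f_nt.DI
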