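import Pool.Agent.Lib.MP_3e612f_nt.DI.GDefs

/-!
Phases of bounded degree: closure properties.

PROOFS. `FP_eq`: `S ∈ powerset` iff `S ⊆ ftr`. `IsPL.mono_L`: the map `(i, c) ↦ (castLE i, c)` embeds the points with positions
`< L` into the points with positions `< L'`, and the image of `ftr q D L n` is the set of the points of `ftr q D L' n` with
position `< L`; so define `t' S` as `t` of the preimage if all points of `S` have a position `< L`, and `0` otherwise.
`IsP.add`, `IsP.sum`: take the maximum of the `L`. `isP_const`: `t ∅ = y`, other values `0`. `isP_wd`: `φ (w)` for one window, only used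
through `isP_of_dep` in `CanD.lean`. `exists_lift`: lift the coefficients, `t' S = ((t S).val : ZMod M2)`; the cast
`ZMod M2 → ZMod M` (`ZMod.castHom`) maps the lift back. `exists_emb`: `φ x = ((M2 / M * x.val : ℕ) : ZMod M2)`, e.g. through
`ZMod.lift`; `ee (φ x) = ee x` by `ZMod.stdAddChar_coe` / `ZMod.toCircle`, `exp (2 π i (M2 / M) x / M2) = exp (2 π i x / M)`. (See also
`PI/WordsA.lean` and `PI/Str.lean` on main, where the same facts are proved.)
-/

set_option autoImplicit false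

namespace Pool.Agent.Lib.MP_3e612f_nt.DI

open Finset
open Pool.Agent.Lib.MP_3e612f_nt.PI (wd ee mc Phi)

section
variable {G : Type} [AddCommGroup G] {q d D L : ℕ}

theorem mem_ftr {n : ℕ} {x : Pt q D L} :
    x ∈ ftr q D L n ↔ wd q D x.1 n = x.2 ∧ (x.2 : ℕ) % q ≠ 0 := by
  simp [ftr]

theorem FP_eq (t : Finset (Pt q D L) → G) (n : ℕ) :
    FP q D L t n = ∑ S : Finset (Pt q D L), if S ⊆ ftr q D L n then t S else 0 := by
  unfold FP
  rw [← Finset.sum_filter]
  refine Finset.sum_congr ?_ fun _ _ => rfl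
  ext S
  simp

theorem FP_add (t t' : Finset (Pt q D L) → G) (n : ℕ) :
    FP q D L (fun S => t S + t' S) n = FP q D L t n + FP q D L t' n := by
  unfold FP
  rw [Finset.sum_add_distrib]

theorem FP_map {G' : Type} [AddCommGroup G'] (φ : G →+ G') (t : Finset (Pt q D L) → G) (n : ℕ) :
    FP q D L (fun S => φ (t S)) n = φ (FP q D L t n) := by
  unfold FP
  rw [map_sum]

/-- the embedding of the points -/
private def Ph_e {q D L L' : ℕ} (hL : L ≤ L') : Pt q D L ↪ Pt q D L' where
  toFun x := (Fin.castLE hL x.1, x.2)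
  inj' x y h := by
    obtain ⟨h1, h2⟩ := Prod.mk.inj h
    exact Prod.ext (Fin.castLE_injective hL h1) h2

private theorem Ph_sub {L' : ℕ} (hL : L ≤ L') (S : Finset (Pt q D L)) (n : ℕ) :
    S.map (Ph_e hL) ⊆ ftr q D L' n ↔ S ⊆ ftr q D L n := by
  constructor
  · intro h x hx
    have h1 := h (mem_map_of_mem (Ph_e hL) hx)
    rw [mem_ftr] at h1 ⊢
    exact h1
  · intro h y hy
    obtain ⟨x, hx, rfl⟩ := mem_map.1 hy
    have h1 := h hx
    rw [mem_ftr] at h1 ⊢
    exact h1

theorem IsPL.mono_L {L' : ℕ} (hL : L ≤ L') {f : ℕ → G} (hf : IsPL q d D L f) :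
    IsPL q d D L' f := by
  classical
  obtain ⟨t, ht, hf⟩ := hf
  refine ⟨fun S' => ∑ S : Finset (Pt q D L), if S.map (Ph_e hL) = S' then t S else 0, ?_, ?_⟩
  · intro S' hS'
    refine Finset.sum_eq_zero fun S _ => ?_
    split_ifs with h
    · refine ht S ?_
      rw [← h, card_map] at hS'
      exact hS'
    · rfl
  · intro n
    rw [hf n, FP_eq, FP_eq]
    have h1 : ∀ S' : Finset (Pt q D L'), (if S' ⊆ ftr q D L' n then
        ∑ S : Finset (Pt q D L), (if S.map (Ph_e hL) = S' then t S else 0) else 0) =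
        ∑ S : Finset (Pt q D L), if S.map (Ph_e hL) = S' then
          (if S.map (Ph_e hL) ⊆ ftr q D L' n then t S else 0) else 0 := by
      intro S'
      split_ifs with h
      · refine Finset.sum_congr rfl fun S _ => ?_
        by_cases h2 : S.map (Ph_e hL) = S'
        · rw [if_pos h2, if_pos h2, h2, if_pos h]
        · rw [if_neg h2, if_neg h2]
      · symm
        refine Finset.sum_eq_zero fun S _ => ?_
        by_cases h2 : S.map (Ph_e hL) = S'
        · rw [if_pos h2, h2, if_neg h]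
        · rw [if_neg h2]
    rw [Finset.sum_congr rfl fun S' _ => h1 S', Finset.sum_comm]
    refine Finset.sum_congr rfl fun S _ => ?_
    rw [Finset.sum_ite_eq, if_pos (mem_univ _)]
    by_cases h2 : S ⊆ ftr q D L n
    · rw [if_pos h2, if_pos ((Ph_sub hL S n).2 h2)]
    · rw [if_neg h2, if_neg fun h3 => h2 ((Ph_sub hL S n).1 h3)]

theorem IsPL.mono_d {d' : ℕ} (hd : d ≤ d') {f : ℕ → G} (hf : IsPL q d D L f) :
    IsPL q d' D L f := by
  obtain ⟨t, ht, hf⟩ := hf
  exact ⟨t, fun S hS => ht S (by omega), hf⟩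

theorem IsPL.add {f h : ℕ → G} (hf : IsPL q d D L f) (hh : IsPL q d D L h) :
    IsPL q d D L fun n => f n + h n := by
  obtain ⟨t, ht, hf⟩ := hf
  obtain ⟨t', ht', hh⟩ := hh
  refine ⟨fun S => t S + t' S, fun S hS => by beta_reduce; rw [ht S hS, ht' S hS, add_zero], ?_⟩
  intro n
  beta_reduce
  rw [FP_add, hf, hh]

private theorem Ph_zeroL : IsPL q d D L fun _ => (0 : G) :=
  ⟨fun _ => 0, fun _ _ => rfl, fun n => by unfold FP; rw [Finset.sum_const_zero]⟩

theorem IsPL.sum {ι : Type} (S : Finset ι) {f : ι → ℕ → G} (hf : ∀ i ∈ S, IsPL q d D L (f i)) :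
    IsPL q d D L fun n => ∑ i ∈ S, f i n := by
  classical
  induction S using Finset.induction_on with
  | empty =>
    simp only [Finset.sum_empty]
    exact Ph_zeroL
  | insert a S ha ih =>
    have h1 := IsPL.add (hf a (mem_insert_self a S)) (ih fun i hi => hf i (mem_insert_of_mem hi))
    have h2 : (fun n => ∑ i ∈ insert a S, f i n) = fun n => f a n + ∑ i ∈ S, f i n := by
      funext n
      rw [Finset.sum_insert ha]
    rw [h2]
    exact h1

theorem IsPL.map {G' : Type} [AddCommGroup G'] (φ : G →+ G') {f : ℕ → G} (hf : IsPL q d D L f) :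
    IsPL q d D L fun n => φ (f n) := by
  obtain ⟨t, ht, hf⟩ := hf
  refine ⟨fun S => φ (t S), fun S hS => by beta_reduce; rw [ht S hS, map_zero], ?_⟩
  intro n
  beta_reduce
  rw [FP_map, hf]

theorem IsP.mono_d {d' : ℕ} (hd : d ≤ d') {f : ℕ → G} (hf : IsP q d D f) : IsP q d' D f := by
  obtain ⟨L, hf⟩ := hf
  exact ⟨L, hf.mono_d hd⟩

theorem IsP.add {f h : ℕ → G} (hf : IsP q d D f) (hh : IsP q d D h) :
    IsP q d D fun n => f n + h n := by
  obtain ⟨L, hf⟩ := hf
  obtain ⟨L', hh⟩ := hh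
  exact ⟨max L L', (hf.mono_L (le_max_left _ _)).add (hh.mono_L (le_max_right _ _))⟩

theorem IsP.sum {ι : Type} (S : Finset ι) {f : ι → ℕ → G} (hf : ∀ i ∈ S, IsP q d D (f i)) :
    IsP q d D fun n => ∑ i ∈ S, f i n := by
  classical
  induction S using Finset.induction_on with
  | empty =>
    simp only [Finset.sum_empty]
    exact ⟨0, Ph_zeroL⟩
  | insert a S ha ih =>
    have h1 := IsP.add (hf a (mem_insert_self a S)) (ih fun i hi => hf i (mem_insert_of_mem hi))
    have h2 : (fun n => ∑ i ∈ insert a S, f i n) = fun n => f a n + ∑ i ∈ S, f i n := by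
      funext n
      rw [Finset.sum_insert ha]
    rw [h2]
    exact h1

theorem IsP.map {G' : Type} [AddCommGroup G'] (φ : G →+ G') {f : ℕ → G} (hf : IsP q d D f) :
    IsP q d D fun n => φ (f n) := by
  obtain ⟨L, hf⟩ := hf
  exact ⟨L, hf.map φ⟩

theorem IsP.congr {f h : ℕ → G} (hf : IsP q d D f) (e : ∀ n, h n = f n) : IsP q d D h := by
  obtain ⟨L, t, ht, hf⟩ := hf
  exact ⟨L, t, ht, fun n => (e n).trans (hf n)⟩

/-- the coefficients of a phase of degree `≤ d` give such a phase -/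
theorem isP_FP (t : Finset (Pt q D L) → G) (ht : ∀ S, d < S.card → t S = 0) :
    IsP q d D (FP q D L t) :=
  ⟨L, t, ht, fun _ => rfl⟩

theorem isP_feature (S : Finset (Pt q D L)) (hS : S.card ≤ d) (y : G) :
    IsP q d D fun n => if S ⊆ ftr q D L n then y else 0 := by
  classical
  refine ⟨L, fun S' => if S' = S then y else 0, ?_, ?_⟩
  · intro S' hS'
    beta_reduce
    rw [if_neg]
    rintro rfl
    omega
  · intro n
    rw [FP_eq]
    have h1 : ∀ S' : Finset (Pt q D L), (if S' ⊆ ftr q D L n then (if S' = S then y else 0) else 0) =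
        if S' = S then (if S ⊆ ftr q D L n then y else 0) else 0 := by
      intro S'
      by_cases h2 : S' = S
      · subst h2
        simp
      · simp [h2]
    rw [Finset.sum_congr rfl fun S' _ => h1 S', Finset.sum_ite_eq', if_pos (mem_univ _)]

theorem isP_const (y : G) : IsP q d D fun _ => y := by
  have h := isP_feature (q := q) (d := d) (D := D) (L := 0) ∅ (by simp) y
  refine h.congr fun n => ?_
  simp

end

theorem exists_lift {q d D M M2 : ℕ} [NeZero M] [NeZero M2] (h : M ∣ M2) {f : ℕ → ZMod M}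
    (hf : IsP q d D f) :
    ∃ f' : ℕ → ZMod M2, IsP q d D f' ∧ ∀ n n', f' n = f' n' → f n = f n' := by
  obtain ⟨L, t, ht, hf⟩ := hf
  refine ⟨FP q D L fun S => (((t S).val : ℕ) : ZMod M2), isP_FP _ fun S hS => ?_, ?_⟩
  · rw [ht S hS, ZMod.val_zero, Nat.cast_zero]
  · have key : ∀ n, f n =
        ZMod.castHom h (ZMod M) (FP q D L (fun S => (((t S).val : ℕ) : ZMod M2)) n) := by
      intro n
      rw [hf n]
      unfold FP
      rw [map_sum]
      refine Finset.sum_congr rfl fun S _ => ?_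
      rw [map_natCast, ZMod.natCast_zmod_val]
    intro n n' e
    rw [key n, key n', e]

private theorem Ph_emb_add {ℓ M : ℕ} [NeZero ℓ] [NeZero M] (h : ℓ ∣ M) (x y : ZMod ℓ) :
    emb M (x + y) = emb M x + emb M y := by
  unfold emb
  rw [← Nat.cast_add, ZMod.natCast_eq_natCast_iff, ZMod.val_add, ← Nat.mul_add]
  have h2 := (Nat.mod_modEq (x.val + y.val) ℓ).mul_left' (M / ℓ)
  rw [Nat.div_mul_cancel h] at h2
  exact h2

private theorem Ph_ee_emb {ℓ M : ℕ} [NeZero ℓ] [NeZero M] (h : ℓ ∣ M) (x : ZMod ℓ) :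
    ee (emb M x) = ee x := by
  have h1 : (emb M x : ZMod M) = (((M / ℓ * x.val : ℕ) : ℤ) : ZMod M) := by
    unfold emb
    rw [Int.cast_natCast]
  have h2 : x = (((x.val : ℕ) : ℤ) : ZMod ℓ) := by
    rw [Int.cast_natCast, ZMod.natCast_zmod_val]
  unfold ee
  rw [h1]
  conv_rhs => rw [h2]
  rw [ZMod.stdAddChar_coe, ZMod.stdAddChar_coe]
  congr 1
  obtain ⟨k, hk⟩ := h
  have hl0 : (ℓ : ℂ) ≠ 0 := by exact_mod_cast NeZero.ne ℓ
  have hk0 : (k : ℂ) ≠ 0 := by
    intro h3
    have h4 : k = 0 := by exact_mod_cast h3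
    exact NeZero.ne M (by rw [hk, h4, mul_zero])
  have h5 : M / ℓ = k := by
    rw [hk, Nat.mul_div_cancel_left _ (Nat.pos_of_ne_zero (NeZero.ne ℓ))]
  have h6 : (M : ℂ) = ℓ * k := by rw [hk]; push_cast; ring
  rw [h5, h6]
  push_cast
  field_simp

theorem exists_emb {M M2 : ℕ} [NeZero M] [NeZero M2] (h : M ∣ M2) :
    ∃ φ : ZMod M →+ ZMod M2, ∀ x, ee (φ x) = ee x :=
  ⟨AddMonoidHom.mk' (emb M2) (Ph_emb_add h), Ph_ee_emb h⟩

theorem emb_add {ℓ M : ℕ} [NeZero ℓ] [NeZero M] (h : ℓ ∣ M) (x y : ZMod ℓ) :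
    emb M (x + y) = emb M x + emb M y :=
  Ph_emb_add h x y

theorem ee_emb {ℓ M : ℕ} [NeZero ℓ] [NeZero M] (h : ℓ ∣ M) (x : ZMod ℓ) :
    ee (emb M x) = ee x :=
  Ph_ee_emb h x

end Pool.Agent.Lib.MP_3e612f_nt.DI
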