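import Pool.Agent.Lib.MP_3e612f_nt.DI.Vec
import Pool.Agent.Lib.MP_3e612f_nt.DI.Ph

/-!
Replacement of the law of the switches by a law which is uniform on `ZMod ℓ` with small probability.

PROOF of `av_add_hom`. `Ψ y = ∑ i, y i • Ψ (Pi.single i 1)`, so the average of `ee (Ψ (δ ∘ ω))` is `∏ i, av (ω ↦ ee (δ i ω • Ψ (Pi.single i 1)))`
(`Finset.prod_univ_sum`, `Fintype.piFinset_univ`; `ee` of a sum is the product).
`av_unif`: the average over `u : ZMod ℓ` of `ee (u.val • y)`, `ℓ • y = 0`, is `1` if `y = 0` and `0` otherwise (`u ↦ u.val • y` is additive).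

PROOF of `col_nonneg`. Average over one colour `j` first (`av_coord`): for fixed other colours the exponent is additive in the colour `j`, so by `av_add_hom` the average is a product of
real numbers `≥ 0`.

PROOF of `rep`. Let `𝔅' δ = 𝔅 (fun j i => if col i = j then δ j i else 0)`, `MAdd univ`. For a set `J` of colours, `j0 = 0 : Fin d` (`0 < d`) in `J` or `J = ∅`, consider the average `X_J` over
`(ω, a) : Fin d → ι → Ω × (Fin R0 × ZMod ℓ)` of `ee (𝔅' (fun j i => if j ∈ J then (if (a j i).1 = 0 then w j * (a j i).2.val else 0) else δ i (ω j i)))`, `w j = m1` for `j = j0` and `1` otherwise. Claim: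
`X_J` is real, `≥ 0`, and `X_J ≤ X_{insert j J}` for `j ∉ J` (`j = j0` if `J = ∅`). Average over the colour `j` first (`av_coord`): for fixed other colours the exponent is `Ψ y`, `Ψ` additive in the
colour `j`; by `av_add_hom` the average is `∏_i av ee (δ i ω • Y_i)`, `Y_i = Ψ (Pi.single i 1)`, all factors are real and in `[0, 1]`, `≤ 1 - 1 / R0` if `Y_i ≠ 0`. The average for the new law is
`∏_i (1 - 1 / R0 + (1 / R0) * [w j • Y_i = 0])` by `av_unif`: if `j = j0`, `ℓ • (m1 • Y_i) = 0` by the hypothesis `(ℓ * m1) • 𝔅 = 0`; if `j0 ∈ J`, `j ≠ j0`, then the colour `j0` of the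
argument is `m1` times some integer vector, so `Y_i = m1 • (value of 𝔅')` and `ℓ • Y_i = 0`. So `X_∅ ≤ X_univ`. In `X_univ` fix the activities `(a j i).1`: by additivity in the colour `j0` the exponent is
`m1 • 𝔅' (active values) = emb M (T (∏_j ∑_i [active] (a j i).2 • G i))`, whose average over the second components is `bi T univ (vec G (V j))`, `V j` the set of the active `i` with `col i = j`
(`ee_emb`). (`av_equiv` to separate the components of `Fin R0 × ZMod ℓ`.)
-/

set_option autoImplicit false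

namespace Pool.Agent.Lib.MP_3e612f_nt.DI

open Finset
open Pool.Agent.Lib.MP_3e612f_nt.PI (ee)

private theorem repG_ee_sum {M : ℕ} [NeZero M] {ι : Type} (s : Finset ι) (f : ι → ZMod M) :
    ee (∑ i ∈ s, f i) = ∏ i ∈ s, ee (f i) := by
  classical
  unfold ee
  induction s using Finset.induction_on with
  | empty => rw [Finset.sum_empty, Finset.prod_empty, AddChar.map_zero_eq_one]
  | insert a s ha ih => rw [Finset.sum_insert ha, Finset.prod_insert ha, AddChar.map_add_eq_mul, ih]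

private theorem repG_ee_zero {M : ℕ} [NeZero M] : ee (0 : ZMod M) = 1 := by
  unfold ee
  exact AddChar.map_zero_eq_one _

theorem av_add_hom {M : ℕ} [NeZero M] {ι Ω : Type} [Fintype ι] [DecidableEq ι] [Fintype Ω]
    (Ψ : (ι → ℤ) →+ ZMod M) (δ : ι → Ω → ℤ) :
    (av fun ω : ι → Ω => ee (Ψ fun i => δ i (ω i))) =
      ∏ i, av fun ω : Ω => ee (δ i ω • Ψ (Pi.single i 1)) := by
  have h1 : ∀ y : ι → ℤ, Ψ y = ∑ i, y i • Ψ (Pi.single i 1) := by
    intro y
    have h2 : y = ∑ i, y i • (Pi.single i 1 : ι → ℤ) := by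
      funext i
      rw [Finset.sum_apply, Finset.sum_eq_single i]
      · simp
      · intro j _ hj
        simp [hj.symm]
      · intro hi
        exact absurd (mem_univ i) hi
    conv_lhs => rw [h2]
    rw [map_sum]
    refine Finset.sum_congr rfl fun i _ => ?_
    rw [map_zsmul]
  have h3 : ∀ ω : ι → Ω, ee (Ψ fun i => δ i (ω i)) =
      ∏ i, ee (δ i (ω i) • Ψ (Pi.single i 1)) := by
    intro ω
    rw [h1, repG_ee_sum]
  unfold av
  simp only [h3]
  rw [Finset.prod_mul_distrib, Finset.prod_univ_sum, Fintype.piFinset_univ, Finset.prod_const,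
    card_univ, Fintype.card_fun]
  push_cast
  rw [inv_pow]

theorem av_unif {M ℓ : ℕ} [NeZero M] [NeZero ℓ] {y : ZMod M} (hy : ℓ • y = 0) :
    (av fun u : ZMod ℓ => ee (u.val • y)) = if y = 0 then 1 else 0 := by
  have hz : (zmultiplesHom (ZMod M) y) ((ℓ : ℕ) : ℤ) = 0 := by
    rw [zmultiplesHom_apply, natCast_zsmul]
    exact hy
  set φ : ZMod ℓ →+ ZMod M := ZMod.lift ℓ ⟨zmultiplesHom (ZMod M) y, hz⟩ with hφ
  have h1 : ∀ u : ZMod ℓ, φ u = u.val • y := by
    intro u
    conv_lhs => rw [← ZMod.natCast_zmod_val u]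
    have h2 := ZMod.lift_coe ℓ ⟨zmultiplesHom (ZMod M) y, hz⟩ ((u.val : ℕ) : ℤ)
    rw [Int.cast_natCast] at h2
    rw [hφ, h2]
    change (zmultiplesHom (ZMod M) y) ((u.val : ℕ) : ℤ) = _
    rw [zmultiplesHom_apply, natCast_zsmul]
  set ψ : AddChar (ZMod ℓ) ℂ := (ZMod.stdAddChar (N := M)).compAddMonoidHom φ with hψ
  have h2 : ∀ u : ZMod ℓ, ee (u.val • y) = ψ u := by
    intro u
    rw [← h1]
    rfl
  have h3 : φ 1 = y := by
    have h4 := ZMod.lift_coe ℓ ⟨zmultiplesHom (ZMod M) y, hz⟩ 1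
    rw [Int.cast_one] at h4
    rw [hφ, h4]
    change (zmultiplesHom (ZMod M) y) 1 = _
    rw [zmultiplesHom_apply, one_zsmul]
  have hc : (Fintype.card (ZMod ℓ) : ℂ) ≠ 0 := by
    exact_mod_cast Fintype.card_ne_zero
  unfold av
  simp only [h2]
  split_ifs with h0
  · have h4 : ∀ u, ψ u = 1 := by
      intro u
      rw [← h2, h0, smul_zero, repG_ee_zero]
    simp only [h4]
    rw [Finset.sum_const, card_univ, nsmul_eq_mul, mul_one, inv_mul_cancel₀ hc]
  · have h4 : ψ ≠ 1 := by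
      intro h5
      have h6 : ψ 1 = 1 := by
        rw [h5]
        rfl
      have h7 : ψ 1 = ZMod.stdAddChar (N := M) y := by
        rw [hψ, AddChar.compAddMonoidHom_apply, h3]
      rw [h7, ← AddChar.map_zero_eq_one (ZMod.stdAddChar (N := M))] at h6
      exact h0 (ZMod.injective_stdAddChar h6)
    rw [AddChar.sum_eq_zero_of_ne_one h4, mul_zero]

section
variable {M d : ℕ} [NeZero M] {ι W : Type} [Fintype ι] [DecidableEq ι] [Fintype W]

/-- the argument of the form -/
private def repGx (col : ι → Fin d) (F : Fin d → ι → W → ℤ) (ω : Fin d → ι → W) :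
    Fin d → ι → ℤ := fun j i => if col i = j then F j i (ω j i) else 0

/-- the form as an additive function of the colour `j` -/
private def repGΨ (𝔅 : (Fin d → ι → ℤ) → ZMod M) (h𝔅 : MAdd univ 𝔅) (col : ι → Fin d)
    (x : Fin d → ι → ℤ) (j : Fin d) : (ι → ℤ) →+ ZMod M where
  toFun y := 𝔅 (Function.update x j fun i => if col i = j then y i else 0)
  map_zero' := by
    have h1 := (h𝔅 x j).1 (mem_univ _) 0 0
    rw [add_zero] at h1
    have h2 : (fun i => if col i = j then (0 : ι → ℤ) i else 0) = (0 : ι → ℤ) := by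
      funext i
      simp
    rw [h2]
    exact left_eq_add.1 h1
  map_add' y y' := by
    rw [← (h𝔅 x j).1 (mem_univ _)]
    congr 2
    funext i
    simp only [Pi.add_apply]
    split_ifs
    · rfl
    · rw [add_zero]

private theorem repGΨ_apply (𝔅 : (Fin d → ι → ℤ) → ZMod M) (h𝔅 : MAdd univ 𝔅)
    (col : ι → Fin d) (x : Fin d → ι → ℤ) (j : Fin d) (y : ι → ℤ) :
    repGΨ 𝔅 h𝔅 col x j y = 𝔅 (Function.update x j fun i => if col i = j then y i else 0) := rfl

/-- average over one colour -/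
private theorem repG_colour (𝔅 : (Fin d → ι → ℤ) → ZMod M) (h𝔅 : MAdd univ 𝔅)
    (col : ι → Fin d) (F : Fin d → ι → W → ℤ) (j : Fin d) :
    (av fun ω : Fin d → ι → W => ee (𝔅 (repGx col F ω))) =
      av fun ω : Fin d → ι → W => ∏ i, av fun w : W =>
        ee (F j i w • repGΨ 𝔅 h𝔅 col (repGx col F ω) j (Pi.single i 1)) := by
  rw [av_coord j]
  congr 1
  funext ω
  rw [← av_add_hom]
  congr 1
  funext u
  rw [repGΨ_apply]
  congr 2
  funext j' i
  unfold repGx
  by_cases hj : j' = j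
  · subst hj
    simp only [Function.update_self]
  · simp only [Function.update_of_ne hj]

private theorem repG_prod_real {S : Finset ι} {f : ι → ℂ}
    (h : ∀ i, (f i).im = 0 ∧ 0 ≤ (f i).re) :
    (∏ i ∈ S, f i).im = 0 ∧ (∏ i ∈ S, f i).re = ∏ i ∈ S, (f i).re := by
  have h1 : ∀ i, f i = (((f i).re : ℝ) : ℂ) := by
    intro i
    apply Complex.ext
    · rw [Complex.ofReal_re]
    · rw [Complex.ofReal_im, (h i).1]
  have h2 : ∏ i ∈ S, f i = ((∏ i ∈ S, (f i).re : ℝ) : ℂ) := by
    rw [Complex.ofReal_prod]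
    exact Finset.prod_congr rfl fun i _ => h1 i
  rw [h2]
  exact ⟨Complex.ofReal_im _, Complex.ofReal_re _⟩

end

private theorem repG_av_real {α : Type} [Fintype α] {f : α → ℂ}
    (h : ∀ a, (f a).im = 0 ∧ 0 ≤ (f a).re) : (av f).im = 0 ∧ 0 ≤ (av f).re := by
  have h0 : ((Fintype.card α : ℂ)⁻¹) = (((Fintype.card α : ℝ)⁻¹ : ℝ) : ℂ) := by
    push_cast
    rfl
  unfold av
  rw [h0, Complex.im_ofReal_mul, Complex.re_ofReal_mul, Complex.im_sum, Complex.re_sum]
  constructor
  · rw [Finset.sum_eq_zero fun a _ => (h a).1, mul_zero]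
  · exact mul_nonneg (by positivity) (Finset.sum_nonneg fun a _ => (h a).2)

/-- positivity for one law -/
theorem col_nonneg {M d : ℕ} [NeZero M] (hd : 0 < d) {ι Ω : Type} [Fintype ι] [DecidableEq ι]
    [Fintype Ω] [Nonempty Ω] (col : ι → Fin d) (δ : ι → Ω → ℤ)
    (h0 : ∀ i (y : ZMod M), (av fun ω => ee (δ i ω • y)).im = 0 ∧
      0 ≤ (av fun ω => ee (δ i ω • y)).re)
    (𝔅 : (Fin d → ι → ℤ) → ZMod M) (h𝔅 : MAdd univ 𝔅) :
    (av fun ω : Fin d → ι → Ω => ee (𝔅 fun j i => if col i = j then δ i (ω j i) else 0)).im = 0 ∧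
    0 ≤ (av fun ω : Fin d → ι → Ω =>
      ee (𝔅 fun j i => if col i = j then δ i (ω j i) else 0)).re := by
  have h1 := repG_colour 𝔅 h𝔅 col (fun _ i w => δ i w) ⟨0, hd⟩
  have h2 : (av fun ω : Fin d → ι → Ω => ee (𝔅 fun j i => if col i = j then δ i (ω j i) else 0)) =
      av fun ω : Fin d → ι → Ω => ee (𝔅 (repGx col (fun _ i w => δ i w) ω)) := rfl
  rw [h2, h1]
  refine repG_av_real fun ω => ?_
  obtain ⟨h3, h4⟩ := repG_prod_real (S := univ) (f := fun i => av fun w : Ω =>
    ee (δ i w • repGΨ 𝔅 h𝔅 col (repGx col (fun _ i w => δ i w) ω) ⟨0, hd⟩ (Pi.single i 1)))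
    fun i => h0 i _
  refine ⟨h3, ?_⟩
  rw [h4]
  exact Finset.prod_nonneg fun i _ => (h0 i _).2

/-- the average of the new law -/
private theorem repG_new {M ℓ R0 : ℕ} [NeZero M] [NeZero ℓ] [NeZero R0] {y : ZMod M} {w : ℕ}
    (hy : ℓ • (w • y) = 0) :
    (av fun a : Fin R0 × ZMod ℓ => ee ((if a.1 = 0 then ((w * a.2.val : ℕ) : ℤ) else 0) • y)) =
      ((1 - (R0 : ℝ)⁻¹ + (R0 : ℝ)⁻¹ * (if w • y = 0 then 1 else 0) : ℝ) : ℂ) := by
  rw [av_prod]
  have h1 : ∀ a : Fin R0, (av fun b : ZMod ℓ =>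
      ee ((if (a, b).1 = 0 then ((w * (a, b).2.val : ℕ) : ℤ) else 0) • y)) =
      if a = 0 then (if w • y = 0 then 1 else 0) else 1 := by
    intro a
    by_cases ha : a = 0
    · simp only [ha, if_true]
      rw [← av_unif hy]
      congr 1
      funext u
      rw [natCast_zsmul, mul_comm, mul_smul]
    · simp only [ha, if_false, zero_smul]
      rw [repG_ee_zero]
      exact av_const _
  simp only [h1]
  unfold av
  have h2 : ∀ c : ℂ, ∑ a : Fin R0, (if a = 0 then c else 1) = (R0 : ℂ) - 1 + c := by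
    intro c
    rw [← Finset.add_sum_erase univ _ (mem_univ (0 : Fin R0)), if_pos rfl,
      Finset.sum_congr rfl (g := fun _ => (1 : ℂ))
        (fun a ha => if_neg (Finset.ne_of_mem_erase ha)), Finset.sum_const,
      Finset.card_erase_of_mem (mem_univ _), card_univ, Fintype.card_fin, nsmul_eq_mul, mul_one,
      Nat.cast_sub (Nat.pos_of_ne_zero (NeZero.ne R0)), Nat.cast_one]
    ring
  rw [h2, Fintype.card_fin]
  have h3 : (R0 : ℂ) ≠ 0 := by
    exact_mod_cast NeZero.ne R0
  push_cast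
  field_simp
  split_ifs
  · push_cast
    ring
  · push_cast
    ring

private theorem repG_av_fst {α β : Type} [Fintype α] [Fintype β] [Nonempty β] (f : α → ℂ) :
    (av fun w : α × β => f w.1) = av f := by
  rw [av_prod]
  congr 1
  funext a
  exact av_const (α := β) (f a)

private theorem repG_av_snd {α β : Type} [Fintype α] [Fintype β] [Nonempty α] (f : β → ℂ) :
    (av fun w : α × β => f w.2) = av f := by
  rw [av_prod]
  exact av_const (α := α) (av f)

private theorem repG_av_pair {C ι A B : Type} [Fintype C] [DecidableEq C] [Fintype ι]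
    [DecidableEq ι] [Fintype A] [Fintype B] (f : (C → ι → A) → (C → ι → B) → ℂ) :
    (av fun ω : C → ι → A × B => f (fun j i => (ω j i).1) fun j i => (ω j i).2) =
      av fun a : C → ι → A => av fun b : C → ι → B => f a b := by
  let σ : (C → ι → A × B) ≃ (C → ι → A) × (C → ι → B) :=
    { toFun := fun ω => (fun j i => (ω j i).1, fun j i => (ω j i).2)
      invFun := fun p j i => (p.1 j i, p.2 j i)
      left_inv := fun _ => rfl
      right_inv := fun _ => rfl }
  have h1 := av_equiv σ (fun p : (C → ι → A) × (C → ι → B) => f p.1 p.2)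
  rw [av_prod] at h1
  exact h1

section
variable {M ℓ m1 R0 d : ℕ} [NeZero M] [NeZero ℓ] [NeZero R0] {ι Ω : Type} [Fintype ι]
  [DecidableEq ι] [Fintype Ω] [Nonempty Ω]

private def repGL (δ : ι → Ω → ℤ) (m1 t : ℕ) (j : Fin d) (i : ι) (w : Ω × (Fin R0 × ZMod ℓ)) : ℤ :=
  if (j : ℕ) < t then (if w.2.1 = 0 then (((if (j : ℕ) = 0 then m1 else 1) * w.2.2.val : ℕ) : ℤ)
    else 0) else δ i w.1

omit [NeZero M] [Fintype ι] [DecidableEq ι] in
private theorem repG_smul (𝔅 : (Fin d → ι → ℤ) → ZMod M) (h𝔅 : MAdd univ 𝔅)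
    (x : Fin d → ι → ℤ) (j : Fin d) (m : ℕ) (y : ι → ℤ) :
    𝔅 (Function.update x j (m • y)) = m • 𝔅 (Function.update x j y) := by
  induction m with
  | zero =>
    have h1 := (h𝔅 x j).1 (mem_univ _) 0 0
    rw [add_zero] at h1
    rw [zero_smul, zero_smul]
    exact left_eq_add.1 h1
  | succ m ih => rw [add_smul, one_smul, (h𝔅 x j).1 (mem_univ _), ih, add_smul, one_smul]

private theorem repG_step (hd : 0 < d) (col : ι → Fin d) (δ : ι → Ω → ℤ)
    (h0 : ∀ i (y : ZMod M), (av fun ω => ee (δ i ω • y)).im = 0 ∧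
      0 ≤ (av fun ω => ee (δ i ω • y)).re)
    (h1 : ∀ i (y : ZMod M), y ≠ 0 → (av fun ω => ee (δ i ω • y)).re ≤ 1 - (R0 : ℝ)⁻¹)
    (𝔅 : (Fin d → ι → ℤ) → ZMod M) (h𝔅 : MAdd univ 𝔅) (hm1 : ∀ x, (ℓ * m1) • 𝔅 x = 0)
    {t : ℕ} (ht : t < d) :
    (av fun ω : Fin d → ι → Ω × (Fin R0 × ZMod ℓ) =>
      ee (𝔅 (repGx col (repGL δ m1 t) ω))).re ≤
    (av fun ω : Fin d → ι → Ω × (Fin R0 × ZMod ℓ) =>
      ee (𝔅 (repGx col (repGL δ m1 (t + 1)) ω))).re := by
  rw [repG_colour 𝔅 h𝔅 col _ ⟨t, ht⟩, repG_colour 𝔅 h𝔅 col (repGL δ m1 (t + 1)) ⟨t, ht⟩]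
  refine av_re_mono fun ω => ?_
  set j : Fin d := ⟨t, ht⟩ with hj
  have hΨ : repGΨ 𝔅 h𝔅 col (repGx col (repGL δ m1 (t + 1)) ω) j =
      repGΨ 𝔅 h𝔅 col (repGx col (repGL δ m1 t) ω) j := by
    ext i
    simp only [AddMonoidHom.coe_comp, Function.comp_apply]
    rw [repGΨ_apply, repGΨ_apply]
    congr 1
    funext j' i'
    by_cases hjj : j' = j
    · subst hjj
      simp only [Function.update_self]
    · simp only [Function.update_of_ne hjj]
      unfold repGx repGL
      have h3 : (j' : ℕ) ≠ t := by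
        intro h4
        exact hjj (Fin.ext h4)
      have h4 : ((j' : ℕ) < t + 1) ↔ (j' : ℕ) < t := by omega
      simp only [h4]
  rw [hΨ]
  set Y : ι → ZMod M := fun i =>
    repGΨ 𝔅 h𝔅 col (repGx col (repGL δ m1 t) ω) j (Pi.single i 1) with hY
  have hlY : ∀ i, ℓ • ((if t = 0 then m1 else 1) • Y i) = 0 := by
    intro i
    by_cases h3 : t = 0
    · rw [if_pos h3, ← mul_smul]
      exact hm1 _
    · rw [if_neg h3, one_smul]
      let j0 : Fin d := ⟨0, hd⟩
      have hj0 : j0 ≠ j := by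
        intro h4
        exact h3 (congrArg Fin.val h4).symm
      set x : Fin d → ι → ℤ := Function.update (repGx col (repGL δ m1 t) ω) j
        (fun i' => if col i' = j then (Pi.single i 1 : ι → ℤ) i' else 0) with hx
      have h5 : Y i = 𝔅 x := rfl
      have h6 : x j0 = m1 • (fun i' => if col i' = j0 then
          (if (ω j0 i').2.1 = 0 then (((ω j0 i').2.2.val : ℕ) : ℤ) else 0) else 0) := by
        rw [hx, Function.update_of_ne hj0]
        funext i'
        unfold repGx repGL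
        have h7 : ((j0 : Fin d) : ℕ) < t := Nat.pos_of_ne_zero h3
        have h8 : ((j0 : Fin d) : ℕ) = 0 := rfl
        rw [if_pos h7, if_pos h8, Pi.smul_apply]
        split_ifs
        · push_cast
          rw [nsmul_eq_mul]
        · rw [smul_zero]
        · rw [smul_zero]
      have h7 : 𝔅 x = m1 • 𝔅 (Function.update x j0 (fun i' => if col i' = j0 then
          (if (ω j0 i').2.1 = 0 then (((ω j0 i').2.2.val : ℕ) : ℤ) else 0) else 0)) := by
        rw [← repG_smul 𝔅 h𝔅, ← h6, Function.update_eq_self]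
      rw [h5, h7, ← mul_smul]
      exact hm1 _
  have e1 : ∀ i, (av fun w : Ω × (Fin R0 × ZMod ℓ) => ee (repGL δ m1 t j i w • Y i)) =
      av fun ω' : Ω => ee (δ i ω' • Y i) := by
    intro i
    refine Eq.trans ?_ (repG_av_fst (β := Fin R0 × ZMod ℓ) fun ω' : Ω => ee (δ i ω' • Y i))
    congr 1
    funext w
    unfold repGL
    rw [if_neg (by rw [hj]; exact lt_irrefl t)]
  have e2 : ∀ i, (av fun w : Ω × (Fin R0 × ZMod ℓ) => ee (repGL δ m1 (t + 1) j i w • Y i)) =
      ((1 - (R0 : ℝ)⁻¹ + (R0 : ℝ)⁻¹ *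
        (if (if t = 0 then m1 else 1) • Y i = 0 then 1 else 0) : ℝ) : ℂ) := by
    intro i
    rw [← repG_new (hlY i)]
    refine Eq.trans ?_ (repG_av_snd (α := Ω) fun a : Fin R0 × ZMod ℓ => ee ((if a.1 = 0 then
      (((if t = 0 then m1 else 1) * a.2.val : ℕ) : ℤ) else 0) • Y i))
    congr 1
    funext w
    unfold repGL
    rw [if_pos (by rw [hj]; exact Nat.lt_succ_self t)]
  have hR : 0 ≤ 1 - (R0 : ℝ)⁻¹ := by
    have h3 : (1 : ℝ) ≤ R0 := by
      exact_mod_cast Nat.pos_of_ne_zero (NeZero.ne R0)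
    have h4 := inv_le_one_of_one_le₀ h3
    linarith
  have hR' : 0 ≤ (R0 : ℝ)⁻¹ := by positivity
  change (∏ i, av fun w : Ω × (Fin R0 × ZMod ℓ) => ee (repGL δ m1 t j i w • Y i)).re ≤
    (∏ i, av fun w : Ω × (Fin R0 × ZMod ℓ) => ee (repGL δ m1 (t + 1) j i w • Y i)).re
  simp only [e1, e2]
  rw [(repG_prod_real (S := univ) fun i => h0 i (Y i)).2, ← Complex.ofReal_prod,
    Complex.ofReal_re]
  refine Finset.prod_le_prod (fun i _ => (h0 i _).2) fun i _ => ?_
  by_cases h3 : Y i = 0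
  · rw [h3, smul_zero, if_pos rfl]
    simp only [smul_zero, repG_ee_zero]
    rw [av_const]
    norm_num
  · refine (h1 i _ h3).trans ?_
    have h4 : (0 : ℝ) ≤ (if (if t = 0 then m1 else 1) • Y i = 0 then 1 else 0) := by
      split_ifs <;> norm_num
    have h5 := mul_nonneg hR' h4
    linarith

end

theorem rep {M ℓ m1 R0 d : ℕ} [NeZero M] [NeZero ℓ] [NeZero R0] (hd : 0 < d) (hm : ℓ ∣ M)
    {ι Ω R : Type} [Fintype ι] [DecidableEq ι] [Fintype Ω] [Nonempty Ω] [CommRing R]
    [Algebra (ZMod ℓ) R] (col : ι → Fin d) (δ : ι → Ω → ℤ)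
    (h0 : ∀ i (y : ZMod M), (av fun ω => ee (δ i ω • y)).im = 0 ∧
      0 ≤ (av fun ω => ee (δ i ω • y)).re)
    (h1 : ∀ i (y : ZMod M), y ≠ 0 → (av fun ω => ee (δ i ω • y)).re ≤ 1 - (R0 : ℝ)⁻¹)
    (𝔅 : (Fin d → ι → ℤ) → ZMod M) (h𝔅 : MAdd univ 𝔅) (hm1 : ∀ x, (ℓ * m1) • 𝔅 x = 0)
    (T : R →+ ZMod ℓ) (G : ι → R)
    (hT : ∀ x, m1 • 𝔅 x = emb M (T (∏ j, ∑ i, (x j i : ZMod ℓ) • G i))) :
    (av fun ω : Fin d → ι → Ω => ee (𝔅 fun j i => if col i = j then δ i (ω j i) else 0)).re ≤
      (av fun a : Fin d → ι → Fin R0 => ((bi T univ fun j =>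
        vec (ℓ := ℓ) G (univ.filter fun i => col i = j ∧ a j i = 0) : ℝ) : ℂ)).re := by
  have hstart : (av fun ω : Fin d → ι → Ω × (Fin R0 × ZMod ℓ) =>
      ee (𝔅 (repGx col (repGL δ m1 0) ω))) =
      av fun ω : Fin d → ι → Ω => ee (𝔅 fun j i => if col i = j then δ i (ω j i) else 0) := by
    have h2 := repG_av_pair (C := Fin d) (ι := ι) (A := Ω) (B := Fin R0 × ZMod ℓ)
      (fun a _ => ee (𝔅 fun j i => if col i = j then δ i (a j i) else 0))
    have h3 : ∀ a : Fin d → ι → Ω, (av fun _ : Fin d → ι → Fin R0 × ZMod ℓ =>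
        ee (𝔅 fun j i => if col i = j then δ i (a j i) else 0)) =
        ee (𝔅 fun j i => if col i = j then δ i (a j i) else 0) := fun a => av_const _
    simp only [h3] at h2
    rw [← h2]
    congr 1
  have hchain : ∀ t, t ≤ d → (av fun ω : Fin d → ι → Ω × (Fin R0 × ZMod ℓ) =>
      ee (𝔅 (repGx col (repGL δ m1 0) ω))).re ≤
      (av fun ω : Fin d → ι → Ω × (Fin R0 × ZMod ℓ) =>
        ee (𝔅 (repGx col (repGL δ m1 t) ω))).re := by
    intro t
    induction t with
    | zero => intro _; exact le_rfl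
    | succ t ih =>
      intro ht
      exact (ih (by omega)).trans (repG_step hd col δ h0 h1 𝔅 h𝔅 hm1 ht)
  have hend : (av fun ω : Fin d → ι → Ω × (Fin R0 × ZMod ℓ) =>
      ee (𝔅 (repGx col (repGL δ m1 d) ω))) =
      av fun a : Fin d → ι → Fin R0 => ((bi T univ fun j =>
        vec (ℓ := ℓ) G (univ.filter fun i => col i = j ∧ a j i = 0) : ℝ) : ℂ) := by
    have h2 := repG_av_pair (C := Fin d) (ι := ι) (A := Ω) (B := Fin R0 × ZMod ℓ)
      (fun _ b => ee (𝔅 fun j i => if col i = j then (if (b j i).1 = 0 then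
        (((if (j : ℕ) = 0 then m1 else 1) * (b j i).2.val : ℕ) : ℤ) else 0) else 0))
    have h3 : (av fun ω : Fin d → ι → Ω × (Fin R0 × ZMod ℓ) =>
        ee (𝔅 (repGx col (repGL δ m1 d) ω))) =
        av fun ω : Fin d → ι → Ω × (Fin R0 × ZMod ℓ) => ee (𝔅 fun j i => if col i = j then
          (if (ω j i).2.1 = 0 then
            (((if (j : ℕ) = 0 then m1 else 1) * (ω j i).2.2.val : ℕ) : ℤ) else 0) else 0) := by
      congr 1
      funext ω
      congr 2
      funext j i
      unfold repGx repGL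
      rw [if_pos j.2]
    rw [h3, h2, av_const]
    have h4 := repG_av_pair (C := Fin d) (ι := ι) (A := Fin R0) (B := ZMod ℓ)
      (fun a h => ee (𝔅 fun j i => if col i = j then (if a j i = 0 then
        (((if (j : ℕ) = 0 then m1 else 1) * (h j i).val : ℕ) : ℤ) else 0) else 0))
    rw [h4]
    congr 1
    funext a
    rw [← bi_real (B := (univ : Finset (Fin d))) ⟨⟨0, hd⟩, mem_univ _⟩]
    congr 1
    funext h
    let j0 : Fin d := ⟨0, hd⟩
    set x : Fin d → ι → ℤ := fun j i => if col i = j then (if a j i = 0 then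
      (((h j i).val : ℕ) : ℤ) else 0) else 0 with hx
    have h5 : (fun j i => if col i = j then (if a j i = 0 then
        (((if (j : ℕ) = 0 then m1 else 1) * (h j i).val : ℕ) : ℤ) else 0) else 0) =
        Function.update x j0 (m1 • x j0) := by
      funext j i
      by_cases hj : j = j0
      · subst hj
        rw [Function.update_self, Pi.smul_apply, hx]
        have h8 : ((j0 : Fin d) : ℕ) = 0 := rfl
        simp only [h8, if_true]
        split_ifs
        · push_cast
          rw [nsmul_eq_mul]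
        · rw [smul_zero]
        · rw [smul_zero]
      · rw [Function.update_of_ne hj, hx]
        have h8 : ((j : Fin d) : ℕ) ≠ 0 := by
          intro h9
          exact hj (Fin.ext h9)
        simp only [h8, if_false, one_mul]
    rw [h5, repG_smul 𝔅 h𝔅, Function.update_eq_self, hT, ee_emb hm]
    congr 2
    refine Finset.prod_congr rfl fun j _ => ?_
    change _ = ∑ i ∈ univ.filter (fun i => col i = j ∧ a j i = 0), h j i • G i
    rw [Finset.sum_filter]
    refine Finset.sum_congr rfl fun i _ => ?_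
    rw [hx]
    by_cases h6 : col i = j
    · by_cases h7 : a j i = 0
      · simp only [h6, h7, if_true, and_self, Int.cast_natCast, ZMod.natCast_zmod_val]
      · simp only [h6, h7, if_true, if_false, and_false, Int.cast_zero, zero_smul]
    · simp only [h6, if_false, false_and, Int.cast_zero, zero_smul]
  rw [← hstart, ← hend]
  exact hchain d le_rfl

end Pool.Agent.Lib.MP_3e612f_nt.DI
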