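import Pool.Agent.Lib.MP_3e612f_nt.DI.Gcs
import Pool.Agent.Lib.MP_3e612f_nt.DI.LawG
import Pool.Agent.Lib.MP_3e612f_nt.DI.RepG
import Pool.Agent.Lib.MP_3e612f_nt.DI.BlkG

/-!
Product spaces: many blocks of gadgets of small bias make the character sum small.

PROOF of `prod_cube`. State space `Ω = Fin Q × Bool × Bool`, `δ i (k, x, y) = [k = z i ∨ k = z' i] * ([x] - [y])`. For `y ∈ ZMod M`:
`av_ω ee (δ i ω • y) = 1 - (2 / Q) * (1 / 2) * (1 - Re (ee y)) = 1 - (1 - Re (ee y)) / Q` (`2` of the `Q` values of `k` are active; `δ = ±1` with probability `1/4` each on the active states), real, `≥ 0` as `Q ≥ 2`, and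
`≤ 1 - 1 / R0` for `y ≠ 0` if `R0 ≥ Q / (1 - Re (ee y))` for all `y ≠ 0` (`Re (ee y) < 1` for `y ≠ 0`). So `R0` depends on `M, Q` only.
`‖av_c ee (Φ c)‖ ^ (2 ^ d) = ‖av_k av_x ee (Φ (rr k x))‖ ^ (2 ^ d) ≤ av_k ‖av_x ee (Φ (rr k x))‖ ^ (2 ^ d)` (`av_switch`, `norm_av_pow_le`). For fixed `k` write `av_x` as an average over
`x : Fin d → ι → Bool` (`av_colours`), of `Φ' x = Φ (rr k (fun i => x (col i) i))`, and apply `gcs` with `A = univ`, `E = ι → Bool`. By the cube identity `hcube` (with `c = rr k (x_{col i} i)`, `c' = rr k (y_{col i} i)`; for inactive `i` they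
agree) the exponent is `𝔅 (fun j i => if col i = j then [active k i] ([x j i] - [y j i]) else 0)`; note `rr … = z' i` iff the switch is on, for active `i`, and for inactive `i` both indicators are `0`.
So `‖av_c ee (Φ c)‖ ^ (2 ^ d) ≤ av_k ‖av_{x, y} ee (…)‖`. For fixed `k` the inner average is real and `≥ 0` (`col_nonneg` with `Ω = Bool × Bool`, `δ i (x, y) = [active k i] ([x] - [y])`, for which the averages
`1` resp. `(1 + Re (ee y)) / 2` are real and `≥ 0`). Hence `av_k ‖…‖ = Re av_k av_{x,y} ee (…)`, which is the average over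
`ω : Fin d → ι → Ω` of `rep` (`av_colours` for `k`, `av_equiv`). Conclude with `rep` and `av_blocks`.
-/

set_option autoImplicit false

namespace Pool.Agent.Lib.MP_3e612f_nt.DI

open Finset
open Pool.Agent.Lib.MP_3e612f_nt.PI (ee)

/-- the difference of the two switches of an active gadget -/
def ProdC_dl {ι : Type} {Q : ℕ} (z z' : ι → Fin Q) (i : ι) (p : Fin Q × Bool × Bool) : ℤ :=
  if p.1 = z i ∨ p.1 = z' i then
    (if p.2.1 = true then 1 else 0) - (if p.2.2 = true then 1 else 0) else 0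

theorem ProdC_zero {M : ℕ} [NeZero M] : ee (0 : ZMod M) = 1 := by
  unfold Pool.Agent.Lib.MP_3e612f_nt.PI.ee
  exact AddChar.map_zero_eq_one _

theorem ProdC_norm {M : ℕ} [NeZero M] (y : ZMod M) : ‖ee y‖ = 1 := by
  unfold Pool.Agent.Lib.MP_3e612f_nt.PI.ee
  exact AddChar.norm_apply _ _

theorem ProdC_re_le {M : ℕ} [NeZero M] (y : ZMod M) : (ee y).re ≤ 1 :=
  (Complex.re_le_norm _).trans (ProdC_norm y).le

theorem ProdC_neg_le {M : ℕ} [NeZero M] (y : ZMod M) : -1 ≤ (ee y).re := by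
  have h := Complex.abs_re_le_norm (ee y)
  rw [ProdC_norm] at h
  exact (abs_le.1 h).1

theorem ProdC_re_lt {M : ℕ} [NeZero M] {y : ZMod M} (hy : y ≠ 0) : (ee y).re < 1 := by
  refine lt_of_le_of_ne (ProdC_re_le y) fun h => hy ?_
  have h1 : (ee y).re * (ee y).re + (ee y).im * (ee y).im = 1 := by
    have h2 := Complex.normSq_eq_norm_sq (ee y)
    rw [ProdC_norm, Complex.normSq_apply] at h2
    rw [h2]
    norm_num
  have h3 : (ee y).im = 0 := by
    rw [h] at h1
    have h4 : (ee y).im * (ee y).im = 0 := by linarith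
    exact mul_self_eq_zero.1 h4
  have h5 : ee y = 1 := by
    apply Complex.ext
    · rw [h, Complex.one_re]
    · rw [h3, Complex.one_im]
  have h6 : ZMod.stdAddChar (N := M) y = ZMod.stdAddChar (N := M) 0 := by
    rw [AddChar.map_zero_eq_one]
    exact h5
  exact ZMod.injective_stdAddChar h6

theorem ProdC_conj {M : ℕ} [NeZero M] (y : ZMod M) : ee y + ee (-y) = ((2 * (ee y).re : ℝ) : ℂ) := by
  rw [Gcs_ee_neg]
  exact Complex.add_conj _

/-- the law of the two switches -/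
theorem ProdC_bb {M : ℕ} [NeZero M] (y : ZMod M) :
    (av fun p : Bool × Bool =>
      ee (((if p.1 = true then 1 else 0) - (if p.2 = true then 1 else 0) : ℤ) • y)) =
      (((1 + (ee y).re) / 2 : ℝ) : ℂ) := by
  have h := ProdC_conj y
  have h0 : (ee (0 : ZMod M)) = 1 := ProdC_zero
  unfold av
  rw [Fintype.card_prod, Fintype.card_bool, Fintype.sum_prod_type, Fintype.sum_bool,
    Fintype.sum_bool, Fintype.sum_bool]
  have h2 : (1 + ee y + (ee (-y) + 1)) = (2 : ℂ) + ((2 * (ee y).re : ℝ) : ℂ) := by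
    rw [← h]
    ring
  have h3 : ∀ a b c e : ZMod M, a = 0 → b = y → c = -y → e = 0 →
      (((2 * 2 : ℕ) : ℂ))⁻¹ * (ee a + ee b + (ee c + ee e)) = (((1 + (ee y).re) / 2 : ℝ) : ℂ) := by
    rintro a b c e rfl rfl rfl rfl
    rw [h0, h2]
    push_cast
    ring
  apply h3 <;> simp

theorem ProdC_fin {Q : ℕ} (hQ : 2 ≤ Q) {a b : Fin Q} (hab : a ≠ b) (c : ℂ) :
    (av fun k : Fin Q => if k = a ∨ k = b then c else 1) = 1 + 2 * (c - 1) / Q := by
  unfold av
  have h1 : ∀ k : Fin Q, (if k = a ∨ k = b then c else 1) =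
      1 + ((if k = a then (c - 1) else 0) + (if k = b then (c - 1) else 0)) := by
    intro k
    by_cases hka : k = a
    · have hkb : k ≠ b := fun h => hab (hka.symm.trans h)
      simp [hka, hab]
    · by_cases hkb : k = b
      · simp [hkb, hab.symm]
      · simp [hka, hkb]
  simp only [h1]
  rw [sum_add_distrib, sum_add_distrib, sum_const, sum_ite_eq' univ a, sum_ite_eq' univ b,
    if_pos (mem_univ _), if_pos (mem_univ _), card_univ, Fintype.card_fin, nsmul_eq_mul, mul_one]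
  have hQ0 : (Q : ℂ) ≠ 0 := by
    have : 0 < Q := by omega
    exact_mod_cast this.ne'
  field_simp
  ring

/-- the law of the gadget -/
theorem ProdC_law {M Q : ℕ} [NeZero M] (hQ : 2 ≤ Q) {ι : Type} (z z' : ι → Fin Q)
    (hz : ∀ i, z i ≠ z' i) (i : ι) (y : ZMod M) :
    (av fun ω : Fin Q × Bool × Bool => ee (ProdC_dl z z' i ω • y)) =
      ((1 - (1 - (ee y).re) / Q : ℝ) : ℂ) := by
  rw [av_prod]
  have h1 : ∀ k : Fin Q, (av fun p : Bool × Bool => ee (ProdC_dl z z' i (k, p) • y)) =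
      if k = z i ∨ k = z' i then (((1 + (ee y).re) / 2 : ℝ) : ℂ) else 1 := by
    intro k
    by_cases hk : k = z i ∨ k = z' i
    · rw [if_pos hk, ← ProdC_bb]
      congr 1
      funext p
      unfold ProdC_dl
      rw [if_pos hk]
    · rw [if_neg hk]
      have h2 : (fun p : Bool × Bool => ee (ProdC_dl z z' i (k, p) • y)) = fun _ => 1 := by
        funext p
        unfold ProdC_dl
        rw [if_neg hk, zero_smul, ProdC_zero]
      rw [h2]
      exact av_const _
  simp only [h1]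
  rw [ProdC_fin hQ (hz i)]
  push_cast
  ring

/-- the cube identity for the switches -/
theorem ProdC_cube {M Q d : ℕ} {ι : Type} (z z' : ι → Fin Q) (hz : ∀ i, z i ≠ z' i)
    (col : ι → Fin d) (Φ : (ι → Fin Q) → ZMod M) (𝔅 : (Fin d → ι → ℤ) → ZMod M)
    (hc : ∀ c c' : ι → Fin Q,
        (∀ i, c i = c' i ∨ ((c i = z i ∨ c i = z' i) ∧ (c' i = z i ∨ c' i = z' i))) →
        ∑ I : Finset (Fin d), (-1 : ℤ) ^ I.card • Φ (fun i => if col i ∈ I then c' i else c i) =
          𝔅 fun j i => if col i = j then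
            (if c i = z' i then 1 else 0) - (if c' i = z' i then 1 else 0) else 0)
    (k : ι → Fin Q) (X Y : Fin d → ι → Bool) :
    ∑ I : Finset (Fin d), (-1 : ℤ) ^ I.card •
      Φ (rr z z' k fun i => (I.piecewise Y X) (col i) i) =
      𝔅 fun j i => if col i = j then ProdC_dl z z' i (k i, X j i, Y j i) else 0 := by
  have h1 := hc (rr z z' k fun i => X (col i) i) (rr z z' k fun i => Y (col i) i) (by
    intro i
    by_cases hk : k i = z i ∨ k i = z' i
    · right
      unfold rr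
      rw [if_pos hk]
      constructor
      · by_cases hX : X (col i) i = true
        · rw [if_pos hX]
          exact Or.inr rfl
        · rw [if_neg hX]
          exact Or.inl rfl
      · by_cases hY : Y (col i) i = true
        · rw [if_pos hk, if_pos hY]
          exact Or.inr rfl
        · rw [if_pos hk, if_neg hY]
          exact Or.inl rfl
    · left
      unfold rr
      rw [if_neg hk, if_neg hk])
  have h2 : ∀ I : Finset (Fin d), (fun i => if col i ∈ I then rr z z' k (fun i => Y (col i) i) i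
      else rr z z' k (fun i => X (col i) i) i) =
      rr z z' k fun i => (I.piecewise Y X) (col i) i := by
    intro I
    funext i
    by_cases hi : col i ∈ I
    · rw [if_pos hi]
      unfold rr
      simp only [piecewise_eq_of_mem _ _ _ hi]
    · rw [if_neg hi]
      unfold rr
      simp only [piecewise_eq_of_notMem _ _ _ hi]
  simp only [h2] at h1
  rw [h1]
  congr 1
  funext j i
  by_cases hj : col i = j
  · rw [if_pos hj, if_pos hj]
    unfold ProdC_dl
    unfold rr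
    subst hj
    by_cases hk : k i = z i ∨ k i = z' i
    · rw [if_pos hk, if_pos hk, if_pos hk]
      congr 1
      · by_cases hX : X (col i) i = true
        · simp [hX]
        · simp [hX, hz i]
      · by_cases hY : Y (col i) i = true
        · simp [hY]
        · simp [hY, hz i]
    · have hk2 : k i ≠ z' i := fun h => hk (Or.inr h)
      rw [if_neg hk, if_neg hk, if_neg hk, if_neg hk2]
      simp
  · rw [if_neg hj, if_neg hj]

/-- the components of a tuple of states -/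
def ProdC_eq (d Q : ℕ) (ι : Type) : (Fin d → ι → Fin Q × Bool × Bool) ≃
    (Fin d → ι → Fin Q) × (Fin d → ι → Bool) × (Fin d → ι → Bool) where
  toFun ω := (fun j i => (ω j i).1, fun j i => (ω j i).2.1, fun j i => (ω j i).2.2)
  invFun p := fun j i => (p.1 j i, p.2.1 j i, p.2.2 j i)
  left_inv _ := rfl
  right_inv _ := rfl

theorem ProdC_main {M Q d : ℕ} [NeZero M] (hQ : 2 ≤ Q) (hd : 0 < d) {ι : Type} [Fintype ι]
    [DecidableEq ι] (z z' : ι → Fin Q) (hz : ∀ i, z i ≠ z' i)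
    (col : ι → Fin d) (Φ : (ι → Fin Q) → ZMod M) (𝔅 : (Fin d → ι → ℤ) → ZMod M)
    (hc : ∀ c c' : ι → Fin Q,
        (∀ i, c i = c' i ∨ ((c i = z i ∨ c i = z' i) ∧ (c' i = z i ∨ c' i = z' i))) →
        ∑ I : Finset (Fin d), (-1 : ℤ) ^ I.card • Φ (fun i => if col i ∈ I then c' i else c i) =
          𝔅 fun j i => if col i = j then
            (if c i = z' i then 1 else 0) - (if c' i = z' i then 1 else 0) else 0) :
    ‖av fun c => ee (Φ c)‖ ^ 2 ^ d ≤ (av fun ω : Fin d → ι → Fin Q × Bool × Bool =>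
      ee (𝔅 fun j i => if col i = j then ProdC_dl z z' i (ω j i) else 0)).re := by
  haveI : Nonempty (Fin d) := ⟨⟨0, hd⟩⟩
  haveI : Nonempty (Fin Q) := ⟨⟨0, by omega⟩⟩
  rw [av_switch z z' hz]
  refine (norm_av_pow_le _ d).trans ?_
  have h1 : ∀ k : ι → Fin Q, ‖av fun x : ι → Bool => ee (Φ (rr z z' k x))‖ ^ 2 ^ d ≤
      (av fun X : Fin d → ι → Bool => av fun Y : Fin d → ι → Bool =>
        ee (𝔅 fun j i => if col i = j then ProdC_dl z z' i (k i, X j i, Y j i) else 0)).re := by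
    intro k
    rw [av_colours col (fun x => ee (Φ (rr z z' k x)))]
    have h2 := gcs (C := Fin d) (β := ι → Bool) (fun X => Φ (rr z z' k fun i => X (col i) i))
    rw [Fintype.card_fin] at h2
    refine h2.trans (le_of_eq ?_)
    congr 1
    congr 1
    funext X
    congr 1
    funext Y
    rw [← ProdC_cube z z' hz col Φ 𝔅 hc k X Y]
  refine (av_re_mono (g := fun k : ι → Fin Q => av fun X : Fin d → ι → Bool =>
    av fun Y : Fin d → ι → Bool => ee (𝔅 fun j i => if col i = j then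
      ProdC_dl z z' i (k i, X j i, Y j i) else 0)) fun k => ?_).trans (le_of_eq ?_)
  · rw [Complex.ofReal_re]
    exact h1 k
  · congr 1
    rw [av_colours col]
    have h3 := av_equiv (ProdC_eq d Q ι) (fun p => ee (𝔅 fun j i => if col i = j then
      ProdC_dl z z' i (p.1 j i, p.2.1 j i, p.2.2 j i) else 0))
    have h4 : (fun a : Fin d → ι → Fin Q × Bool × Bool =>
        (fun p : (Fin d → ι → Fin Q) × (Fin d → ι → Bool) × (Fin d → ι → Bool) =>
          ee (𝔅 fun j i => if col i = j then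
          ProdC_dl z z' i (p.1 j i, p.2.1 j i, p.2.2 j i) else 0)) (ProdC_eq d Q ι a)) =
        fun ω => ee (𝔅 fun j i => if col i = j then ProdC_dl z z' i (ω j i) else 0) := by
      funext ω
      rfl
    rw [h4] at h3
    rw [h3, av_prod]
    congr 1
    funext K
    rw [av_prod]
    congr 1
    funext X
    congr 1
    funext Y
    congr 2
    funext j i
    by_cases hj : col i = j
    · rw [if_pos hj, if_pos hj]
      subst hj
      rfl
    · rw [if_neg hj, if_neg hj]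

theorem prod_cube (M Q : ℕ) [NeZero M] (hQ : 2 ≤ Q) : ∃ R0 : ℕ, 1 ≤ R0 ∧
    ∀ (ℓ m1 d : ℕ) [NeZero ℓ], 0 < d → ℓ ∣ M → ∀ (ι R : Type) [Fintype ι] [DecidableEq ι]
      [CommRing R] [Algebra (ZMod ℓ) R] (z z' : ι → Fin Q) (col : ι → Fin d)
      (Φ : (ι → Fin Q) → ZMod M) (𝔅 : (Fin d → ι → ℤ) → ZMod M) (T : R →+ ZMod ℓ) (G : ι → R),
      (∀ i, z i ≠ z' i) → MAdd univ 𝔅 → (∀ x, (ℓ * m1) • 𝔅 x = 0) →
      (∀ x, m1 • 𝔅 x = emb M (T (∏ j, ∑ i, (x j i : ZMod ℓ) • G i))) →
      (∀ c c' : ι → Fin Q,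
        (∀ i, c i = c' i ∨ ((c i = z i ∨ c i = z' i) ∧ (c' i = z i ∨ c' i = z' i))) →
        ∑ I : Finset (Fin d), (-1 : ℤ) ^ I.card • Φ (fun i => if col i ∈ I then c' i else c i) =
          𝔅 fun j i => if col i = j then
            (if c i = z' i then 1 else 0) - (if c' i = z' i then 1 else 0) else 0) →
      ∀ (k s : ℕ) (ε' : ℝ), 0 ≤ ε' → ∀ V : Fin k → Fin d → Finset ι,
        (∀ b b' j j', (b, j) ≠ (b', j') → Disjoint (V b j) (V b' j')) →
        (∀ b j, ∀ i ∈ V b j, col i = j) → (∀ b j, (V b j).card ≤ s) →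
        (∀ b, bi T univ (fun j => vec (ℓ := ℓ) G (V b j)) ≤ ε') →
        ‖av fun c => ee (Φ c)‖ ^ 2 ^ d ≤ (1 - ((R0 : ℝ) ^ (d * s))⁻¹) ^ k + ε' := by
  have hQ0 : (0 : ℝ) < Q := by
    have : 0 < Q := by omega
    exact_mod_cast this
  have hR : ∃ R0 : ℕ, 1 ≤ R0 ∧ ∀ y : ZMod M, y ≠ 0 → (Q : ℝ) / (1 - (ee y).re) ≤ R0 := by
    refine ⟨1 + ∑ y : ZMod M, ⌈(Q : ℝ) / (1 - (ee y).re)⌉₊, by omega, fun y _ => ?_⟩
    have h1 : ⌈(Q : ℝ) / (1 - (ee y).re)⌉₊ ≤ ∑ y : ZMod M, ⌈(Q : ℝ) / (1 - (ee y).re)⌉₊ :=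
      Finset.single_le_sum (f := fun y : ZMod M => ⌈(Q : ℝ) / (1 - (ee y).re)⌉₊)
        (fun _ _ => Nat.zero_le _) (mem_univ y)
    have h2 : ⌈(Q : ℝ) / (1 - (ee y).re)⌉₊ ≤
        1 + ∑ y : ZMod M, ⌈(Q : ℝ) / (1 - (ee y).re)⌉₊ := by omega
    exact (Nat.le_ceil _).trans (by exact_mod_cast h2)
  obtain ⟨R0, hR1, hR2⟩ := hR
  refine ⟨R0, hR1, ?_⟩
  intro ℓ m1 d _ hd hℓ ι R _ _ _ _ z z' col Φ 𝔅 T G hz h𝔅 hm1 hT hc k s ε' hε V hV hcol hs hb
  haveI : NeZero R0 := ⟨by omega⟩
  haveI : Nonempty (Fin Q) := ⟨⟨0, by omega⟩⟩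
  have hR0 : (0 : ℝ) < R0 := by exact_mod_cast hR1
  refine (ProdC_main hQ hd z z' hz col Φ 𝔅 hc).trans ?_
  refine (rep (R0 := R0) hd hℓ col (ProdC_dl z z') ?_ ?_ 𝔅 h𝔅 hm1 T G hT).trans ?_
  · intro i y
    rw [ProdC_law hQ z z' hz, Complex.ofReal_im, Complex.ofReal_re]
    refine ⟨rfl, ?_⟩
    have h1 : (1 - (ee y).re) / Q ≤ 1 := by
      rw [div_le_one hQ0]
      have h2 : (2 : ℝ) ≤ Q := by exact_mod_cast hQ
      linarith [ProdC_neg_le y]
    linarith
  · intro i y hy
    rw [ProdC_law hQ z z' hz, Complex.ofReal_re]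
    have h1 : 0 < 1 - (ee y).re := by linarith [ProdC_re_lt hy]
    have h2 := hR2 y hy
    have h3 : (R0 : ℝ)⁻¹ ≤ (1 - (ee y).re) / Q := by
      rw [div_le_iff₀ h1] at h2
      rw [inv_le_iff_one_le_mul₀ hR0, div_mul_eq_mul_div, le_div_iff₀ hQ0, one_mul]
      linarith
    linarith
  · exact av_blocks hd col T G hε V hV hcol hs hb

end Pool.Agent.Lib.MP_3e612f_nt.DI
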