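import Pool.Agent.Lib.MP_3e612f_nt.DI.CubeP
import Pool.Agent.Lib.MP_3e612f_nt.DI.ProdC
import Pool.Agent.Lib.MP_3e612f_nt.DI.BMul
import Pool.Agent.Lib.MP_3e612f_nt.PI.Corr

/-!
Many boxes of gadgets of small bias make the correlation small.

PROOF. `R0` from `prod_cube M (q ^ W)` (or helper65's `prod_deg`). Index type `ι = (b : Fin k) × (j : Fin d) × ↥(V b j)`, `o i = (position, label)`, `col i = j`; different elements of `ι` have positions at distance at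
least `W` (`hsep1`, `hsep2`). `PI.avg_exists q W K` with `a i = (o i).1` (`a i + W ≤ K` as `(o i).1 < P`, `P + W = K + 1`) gives `S`. For fixed `u, v` apply `prod_cube` to
`Φ c = Phi (…) η p r s (q ^ K * u + S v c)`, `z i = zc (o i)`, `z' i = zc (o i) + q ^ (g + D)` (`< q ^ W`, `PI.zc_lt`), `𝔅 = BB … o t`, `T = T2 (Tm d τ) η`, `G i = Gv … (gadget i)`:
* `MAdd`: `madd_mlt` and `h ↦ ∑_i δ j i * gv (o i) x` is additive in `δ j`;
* `(ℓ * m1) • t S = 0`, as `m1 • t S = emb M (τ S)` and `ℓ • emb M x = 0` (`ℓ ∣ M`); so `(ℓ * m1) • 𝔅 δ = 0` (`mlt_map`);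
* `m1 • 𝔅 δ = emb M (T2 (Tm d τ) η (∏_j ∑_i δ j i • G i))`: `mlt_map` for the homomorphism `emb M` (`emb_add`), `Tm_mlt`, `∑_i δ j i • ∑_x gv_i x • pt x = ∑_x (∑_i δ j i * gv_i x) • pt x`;
* the cube identity is `cube_Phi`;
* blocks: `V' b j` = the set of the `i ∈ ι` with first components `b, j`; its bias is at most that of `V b j` by `bi_restrict` with `α h i = h (gadget i)`.
So `‖av_c ee (Φ c)‖ ^ (2 ^ d) ≤ X`, `X = (1 - (R0 ^ (d * s'))⁻¹) ^ k + ε'`; by the averaging identity `q ^ K * …`: `‖∑_v …‖ ≤ ∑_v ‖av_c …‖ ≤ q ^ K * X ^ (1 / 2 ^ d)`, i.e. the claim (compare the powers: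
`‖∑_v a_v‖ ^ n ≤ (q ^ K) ^ n * X` if `‖a_v‖ ^ n ≤ X` for all `v`, e.g. by `norm_av_pow_le` or with the maximum of the `‖a_v‖`).
-/

set_option autoImplicit false

namespace Pool.Agent.Lib.MP_3e612f_nt.DI

open Finset
open Pool.Agent.Lib.MP_3e612f_nt.PI (wd ee Phi Gad zc ut)

set_option linter.unusedSectionVars false

section
variable {q D g l L : ℕ} {z0 x0 : ℕ → ℕ} {s : ℕ} {ι : Type} [Fintype ι]

/-- the combination of the gadget vectors, as a homomorphism -/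
def CorrG_hom (q D g l L : ℕ) (z0 x0 : ℕ → ℕ) (s t : ℕ) (o : ι → ℕ × ℕ) :
    (ι → ℤ) →+ (Pt q D L → ℤ) where
  toFun δ x := ∑ i, δ i * gv q D g l L z0 x0 s t (o i) x
  map_zero' := by
    funext x
    simp
  map_add' δ δ' := by
    funext x
    simp only [Pi.add_apply, add_mul, sum_add_distrib]

theorem CorrG_zsmul {C E G : Type} [DecidableEq C] [AddCommGroup E] [AddCommGroup G]
    {A : Finset C} {φ : (C → E) → G} (h : MAdd A φ) (η : ℤ) : MAdd A fun x => η • φ x := by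
  intro x j
  refine ⟨fun hj u v => ?_, fun hj u => ?_⟩
  · simp only
    rw [(h x j).1 hj, smul_add]
  · simp only
    rw [(h x j).2 hj]

theorem CorrG_madd {G : Type} [AddCommGroup G] {d : ℕ} (p r : ℕ) (η : ℤ) (o : ι → ℕ × ℕ)
    (t : Finset (Pt q D L) → G) :
    MAdd univ (BB q D g l L z0 x0 s p r η (d := d) o t) := by
  refine MAdd.add ?_ (CorrG_zsmul ?_ η)
  · exact (madd_mlt t).comp fun _ => CorrG_hom q D g l L z0 x0 s p o
  · exact (madd_mlt t).comp fun _ => CorrG_hom q D g l L z0 x0 s r o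

/-- the embedding as a homomorphism -/
def CorrG_emb {ℓ M : ℕ} [NeZero ℓ] [NeZero M] (h : ℓ ∣ M) : ZMod ℓ →+ ZMod M :=
  AddMonoidHom.mk' (emb M) (emb_add h)

theorem CorrG_BB {M ℓ m1 d : ℕ} [NeZero ℓ] [NeZero M] (hℓ : ℓ ∣ M) (p r : ℕ) (η : ℤ)
    {P H : ℕ} (v : ι → Fin P × Fin H) (t : Finset (Pt q D L) → ZMod M)
    (τ : Finset (Pt q D L) → ZMod ℓ) (ht : ∀ S, m1 • t S = emb M (τ S)) (x : Fin d → ι → ℤ) :
    m1 • BB q D g l L z0 x0 s p r η (fun i => ((v i).1, (v i).2)) t x =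
      emb M (T2 (Tm d τ) η (∏ j, ∑ i, (x j i : ZMod ℓ) • Gv ℓ q D g l L z0 x0 s p r (v i))) := by
  have h1 : ∀ h : Fin d → Pt q D L → ℤ, m1 • mlt t h =
      CorrG_emb hℓ (Tm d τ (∏ j, ∑ y, (h j y : ZMod ℓ) • pt y)) := by
    intro h
    rw [Tm_mlt (by simp), ← mlt_map]
    have h2 : m1 • mlt t h = nsmulAddMonoidHom m1 (mlt t h) := rfl
    rw [h2, ← mlt_map]
    congr 1
    funext S
    exact ht S
  have h3 : ∀ u : ℕ, ∀ j, (∑ i, (x j i : ZMod ℓ) •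
      ∑ y, (gv q D g l L z0 x0 s u ((v i).1, (v i).2) y : ZMod ℓ) • pt y) =
      ∑ y, ((∑ i, x j i * gv q D g l L z0 x0 s u ((v i).1, (v i).2) y : ℤ) : ZMod ℓ) •
        (pt y : MvPolynomial (Pt q D L) (ZMod ℓ)) := by
    intro u j
    simp only [smul_sum, smul_smul]
    rw [sum_comm]
    refine sum_congr rfl fun y _ => ?_
    rw [← sum_smul]
    push_cast
    rfl
  have hfst : (∏ j, ∑ i, (x j i : ZMod ℓ) • Gv ℓ q D g l L z0 x0 s p r (v i)).1 =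
      ∏ j, ∑ y, ((∑ i, x j i * gv q D g l L z0 x0 s p ((v i).1, (v i).2) y : ℤ) : ZMod ℓ) •
        (pt y : MvPolynomial (Pt q D L) (ZMod ℓ)) := by
    rw [Prod.fst_prod]
    refine prod_congr rfl fun j _ => ?_
    rw [Prod.fst_sum, ← h3 p j]
    rfl
  have hsnd : (∏ j, ∑ i, (x j i : ZMod ℓ) • Gv ℓ q D g l L z0 x0 s p r (v i)).2 =
      ∏ j, ∑ y, ((∑ i, x j i * gv q D g l L z0 x0 s r ((v i).1, (v i).2) y : ℤ) : ZMod ℓ) •
        (pt y : MvPolynomial (Pt q D L) (ZMod ℓ)) := by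
    rw [Prod.snd_prod]
    refine prod_congr rfl fun j _ => ?_
    rw [Prod.snd_sum, ← h3 r j]
    rfl
  have h4 : emb M (T2 (Tm d τ) η (∏ j, ∑ i, (x j i : ZMod ℓ) •
      Gv ℓ q D g l L z0 x0 s p r (v i))) = CorrG_emb hℓ
        (Tm d τ (∏ j, ∑ i, (x j i : ZMod ℓ) • Gv ℓ q D g l L z0 x0 s p r (v i)).1 +
          η • Tm d τ (∏ j, ∑ i, (x j i : ZMod ℓ) • Gv ℓ q D g l L z0 x0 s p r (v i)).2) := rfl
  rw [h4, hfst, hsnd, map_add, map_zsmul, ← h1, ← h1]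
  unfold BB
  rw [smul_add, smul_comm m1 η]

end

theorem CorrG_sum {N : ℕ} (hN : 0 < N) {a : ℕ → ℂ} {n : ℕ} {X : ℝ}
    (h : ∀ v ∈ range N, ‖a v‖ ^ n ≤ X) : ‖∑ v ∈ range N, a v‖ ^ n ≤ (N : ℝ) ^ n * X := by
  obtain ⟨v0, hv0, hmax⟩ := exists_max_image (range N) (fun v => ‖a v‖) ⟨0, mem_range.2 hN⟩
  have h1 : ‖∑ v ∈ range N, a v‖ ≤ N * ‖a v0‖ := by
    refine (norm_sum_le _ _).trans ((sum_le_card_nsmul _ _ _ hmax).trans ?_)
    rw [card_range, nsmul_eq_mul]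
  calc _ ≤ ((N : ℝ) * ‖a v0‖) ^ n := pow_le_pow_left₀ (norm_nonneg _) h1 n
    _ = (N : ℝ) ^ n * ‖a v0‖ ^ n := mul_pow _ _ _
    _ ≤ (N : ℝ) ^ n * X := mul_le_mul_of_nonneg_left (h v0 hv0) (by positivity)

/-- composition with a map of the index sets -/
def CorrG_pull {ℓ : ℕ} {ι X : Type} (f : ι → X) : (X → ZMod ℓ) →+ (ι → ZMod ℓ) where
  toFun h i := h (f i)
  map_zero' := rfl
  map_add' _ _ := rfl

theorem corr_gad (M q W : ℕ) [NeZero M] (hq : 2 ≤ q) (hW : 1 ≤ W) : ∃ R0 : ℕ, 1 ≤ R0 ∧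
    ∀ (D g l H p r : ℕ) (z0 x0 : ℕ → ℕ), g + l = W → D ≤ l → Gad q D g l H p r z0 x0 →
    ∀ (ℓ m1 d : ℕ) [NeZero ℓ], 0 < d → ℓ ∣ M → ∀ (L s : ℕ) (t : Finset (Pt q D L) → ZMod M)
      (τ : Finset (Pt q D L) → ZMod ℓ) (g2 : ℕ → ZMod M) (η : ℤ), (∀ S, S.card ≠ d → t S = 0) →
      (∀ S, m1 • t S = emb M (τ S)) → IsP q (d - 1) D g2 →
      ∀ (K P k s' : ℕ) (ε' : ℝ), P + W = K + 1 → 0 ≤ ε' →
      ∀ V : Fin k → Fin d → Finset (Fin P × Fin H),
        (∀ b j, ∀ v ∈ V b j, ∀ w ∈ V b j, v ≠ w → (v.1 : ℕ) + W ≤ w.1 ∨ (w.1 : ℕ) + W ≤ v.1) →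
        (∀ b b' j j', (b, j) ≠ (b', j') → ∀ v ∈ V b j, ∀ w ∈ V b' j',
          (v.1 : ℕ) + W ≤ w.1 ∨ (w.1 : ℕ) + W ≤ v.1) →
        (∀ b j, (V b j).card ≤ s') →
        (∀ b, bi (T2 (Tm d τ) η) univ
          (fun j => vec (ℓ := ℓ) (Gv ℓ q D g l L z0 x0 s p r) (V b j)) ≤ ε') →
        ∀ u : ℕ, ‖∑ v ∈ range (q ^ K),
            ee (Phi (fun n => FP q D L t n + g2 n) η p r s (q ^ K * u + v))‖ ^ 2 ^ d ≤
          ((q : ℝ) ^ K) ^ 2 ^ d * ((1 - ((R0 : ℝ) ^ (d * s'))⁻¹) ^ k + ε') := by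
  classical
  have hQ : 2 ≤ q ^ W := by
    calc 2 ≤ q := hq
      _ = q ^ 1 := (pow_one q).symm
      _ ≤ q ^ W := Nat.pow_le_pow_right (by omega) hW
  obtain ⟨R0, hR, hprod⟩ := prod_cube M (q ^ W) hQ
  refine ⟨R0, hR, ?_⟩
  intro D g l H p r z0 x0 hgl hDl hG ℓ m1 d _ hd hℓ L s t τ g2 η ht htm hg2 K P k s' ε' hPK hε V
    hsep1 hsep2 hcard hbias u
  subst hgl
  let ι := {x : Fin k × Fin d × (Fin P × Fin H) // x.2.2 ∈ V x.1 x.2.1}
  let gad : ι → Fin P × Fin H := fun i => i.1.2.2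
  let o : ι → ℕ × ℕ := fun i => ((gad i).1, (gad i).2)
  let col : ι → Fin d := fun i => i.1.2.1
  have ho : ∀ i, (o i).2 < H := fun i => (gad i).2.2
  have hsep : ∀ i j, i ≠ j → (o i).1 + (g + l) ≤ (o j).1 ∨ (o j).1 + (g + l) ≤ (o i).1 := by
    rintro ⟨⟨b, j, v⟩, hv⟩ ⟨⟨b', j', w⟩, hw⟩ hne
    by_cases h : (b, j) = (b', j')
    · rw [Prod.mk.injEq] at h
      obtain ⟨rfl, rfl⟩ := h
      have hvw : v ≠ w := fun e => hne (by subst e; rfl)
      exact hsep1 b j v hv w hw hvw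
    · exact hsep2 b b' j j' h v hv w hw
  have ha : ∀ i, (o i).1 + (g + l) ≤ K := fun i => by
    have h1 := (gad i).1.2
    change ((gad i).1 : ℕ) + (g + l) ≤ K
    omega
  obtain ⟨S, hS1, hS2, hS3, hS4⟩ := Pool.Agent.Lib.MP_3e612f_nt.PI.avg_exists q (g + l) K hq
    (fun i => (o i).1) hsep ha
  have hz1 : ∀ i, zc q g l z0 x0 s (o i) + q ^ (g + D) < q ^ (g + l) := fun i =>
    Pool.Agent.Lib.MP_3e612f_nt.PI.zc_lt hq hG s (ho i)
  have hz0 : ∀ i, zc q g l z0 x0 s (o i) < q ^ (g + l) := fun i =>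
    lt_of_le_of_lt (Nat.le_add_right _ _) (hz1 i)
  have hgD : 0 < q ^ (g + D) := pow_pos (by omega) _
  let z : ι → Fin (q ^ (g + l)) := fun i => ⟨zc q g l z0 x0 s (o i), hz0 i⟩
  let z' : ι → Fin (q ^ (g + l)) := fun i => ⟨zc q g l z0 x0 s (o i) + q ^ (g + D), hz1 i⟩
  have hzz : ∀ i, z i ≠ z' i := by
    intro i h
    have h1 := congrArg Fin.val h
    simp only [z, z'] at h1
    omega
  have hze : ∀ (c : ι → Fin (q ^ (g + l))) i, (c i = z i) ↔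
      (c i : ℕ) = zc q g l z0 x0 s (o i) := fun c i => Fin.ext_iff
  have hze' : ∀ (c : ι → Fin (q ^ (g + l))) i, (c i = z' i) ↔
      (c i : ℕ) = zc q g l z0 x0 s (o i) + q ^ (g + D) := fun c i => Fin.ext_iff
  have hBB := CorrG_BB (q := q) (D := D) (g := g) (l := l) (L := L) (z0 := z0) (x0 := x0) (s := s)
    (m1 := m1) (d := d) hℓ p r η gad t τ htm
  have hkill : ∀ x : Fin d → ι → ℤ, (ℓ * m1) • BB q D g l L z0 x0 s p r η o t x = 0 := by
    intro x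
    rw [mul_smul]
    have h1 : m1 • BB q D g l L z0 x0 s p r η o t x = CorrG_emb hℓ (T2 (Tm d τ) η
      (∏ j, ∑ i, (x j i : ZMod ℓ) • Gv ℓ q D g l L z0 x0 s p r (gad i))) := hBB x
    rw [h1, ← map_nsmul, nsmul_eq_mul, CharP.cast_eq_zero, zero_mul, map_zero]
  let V' : Fin k → Fin d → Finset ι := fun b j => univ.filter fun i => i.1.1 = b ∧ i.1.2.1 = j
  have hV' : ∀ b j (i : ι), i ∈ V' b j ↔ i.1.1 = b ∧ i.1.2.1 = j := fun b j i => by
    simp [V']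
  have hgadV : ∀ b j (i : ι), i ∈ V' b j → gad i ∈ V b j := fun b j i hi => by
    obtain ⟨h1, h2⟩ := (hV' b j i).1 hi
    have h3 := i.2
    rw [h1, h2] at h3
    exact h3
  have hginj : ∀ b j, Set.InjOn gad (V' b j) := by
    intro b j x hx y hy hxy
    obtain ⟨h1, h2⟩ := (hV' b j x).1 (mem_coe.1 hx)
    obtain ⟨h3, h4⟩ := (hV' b j y).1 (mem_coe.1 hy)
    apply Subtype.ext
    refine Prod.ext (h1.trans h3.symm) (Prod.ext (h2.trans h4.symm) hxy)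
  have hgsurj : ∀ b j, Set.SurjOn gad (V' b j) (V b j) := by
    intro b j v hv
    exact ⟨⟨(b, j, v), mem_coe.1 hv⟩, mem_coe.2 ((hV' b j _).2 ⟨rfl, rfl⟩), rfl⟩
  have hbias' : ∀ b, bi (T2 (Tm d τ) η) univ (fun j => vec (ℓ := ℓ)
      (fun i => Gv ℓ q D g l L z0 x0 s p r (gad i)) (V' b j)) ≤ ε' := by
    intro b
    have hne : (univ : Finset (Fin d)).Nonempty := ⟨⟨0, hd⟩, mem_univ _⟩
    refine (bi_restrict hne (T2 (Tm d τ) η) _ fun _ => CorrG_pull gad).trans ?_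
    refine le_trans (le_of_eq ?_) (hbias b)
    congr 1
    funext j
    refine AddMonoidHom.ext fun h => ?_
    change ∑ i ∈ V' b j, h (gad i) • Gv ℓ q D g l L z0 x0 s p r (gad i) =
      ∑ v ∈ V b j, h v • Gv ℓ q D g l L z0 x0 s p r v
    exact sum_nbij gad (hgadV b j) (hginj b j) (hgsurj b j) fun _ _ => rfl
  have hone : ∀ v, ‖av fun c : ι → Fin (q ^ (g + l)) => ee (Phi (fun n => FP q D L t n + g2 n) η
      p r s (q ^ K * u + S v c))‖ ^ 2 ^ d ≤ (1 - ((R0 : ℝ) ^ (d * s'))⁻¹) ^ k + ε' := by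
    intro v
    refine hprod ℓ m1 d hd hℓ ι (MvPolynomial (Pt q D L) (ZMod ℓ) × MvPolynomial (Pt q D L) (ZMod ℓ))
      z z' col (fun c => Phi (fun n => FP q D L t n + g2 n) η p r s (q ^ K * u + S v c))
      (BB q D g l L z0 x0 s p r η o t) (T2 (Tm d τ) η)
      (fun i => Gv ℓ q D g l L z0 x0 s p r (gad i)) hzz (CorrG_madd p r η o t) hkill hBB ?_
      k s' ε' hε V' ?_ ?_ ?_ hbias'
    · intro c c' hcc
      simp only [hze, hze'] at hcc
      simp only [hze']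
      exact cube_Phi hq hDl hG hd L s t ht g2 hg2 η o ho hsep ha S hS2 hS3 col u v c c' hcc
    · intro b b' j j' hne
      rw [disjoint_left]
      intro i hi hi'
      obtain ⟨h1, h2⟩ := (hV' b j i).1 hi
      obtain ⟨h3, h4⟩ := (hV' b' j' i).1 hi'
      exact hne (by rw [← h1, ← h2, ← h3, ← h4])
    · intro b j i hi
      exact ((hV' b j i).1 hi).2
    · intro b j
      exact (card_le_card_of_injOn gad (hgadV b j) (hginj b j)).trans (hcard b j)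
  have hqK : 0 < q ^ K := pow_pos (by omega) _
  have hsum : ∑ v ∈ range (q ^ K), ee (Phi (fun n => FP q D L t n + g2 n) η p r s
      (q ^ K * u + v)) = ∑ v ∈ range (q ^ K), av fun c : ι → Fin (q ^ (g + l)) =>
        ee (Phi (fun n => FP q D L t n + g2 n) η p r s (q ^ K * u + S v c)) := by
    have h1 := hS4 fun v => ee (Phi (fun n => FP q D L t n + g2 n) η p r s (q ^ K * u + v))
    have h2 : (((q ^ (g + l)) ^ Fintype.card ι : ℕ) : ℂ) ≠ 0 := by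
      have : 0 < (q ^ (g + l)) ^ Fintype.card ι := pow_pos (pow_pos (by omega) _) _
      exact_mod_cast this.ne'
    apply mul_left_cancel₀ h2
    rw [h1, mul_sum]
    refine sum_congr rfl fun v _ => ?_
    unfold av
    rw [Fintype.card_fun, Fintype.card_fin, ← mul_assoc, mul_inv_cancel₀ h2, one_mul]
  rw [hsum]
  have h3 := CorrG_sum hqK (n := 2 ^ d) fun v _ => hone v
  refine h3.trans (le_of_eq ?_)
  push_cast
  rfl

end Pool.Agent.Lib.MP_3e612f_nt.DI
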