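import Mathlib

/-!
# Mixed differences of products of binomials (part F)

A function `F` on the subsets of a finite set of slots (`F I` = value when the slots of `I` are switched)
has the mixed differences `dl F J = ∑_{I ⊆ J} (-1)^|J \ I| F I`.

`cube_top`: if `dl (Q κ) J = 0` for `|J| > e κ` (`e κ ≥ 1`) then the mixed difference over `S` of
`∏_κ binom(Q κ, a κ)` is `0` for `∑ a κ * e κ < |S|`, and for `∑ a κ * e κ = |S|` it is the sum over the
partitions of `S` into labelled blocks, `a κ` blocks with the label `κ` and `e κ` elements, of the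
products of the `dl (Q κ) (block)`.

PROOF. `Q κ I = ∑_{J ⊆ I} dl (Q κ) J` (`dl_inv`); Vandermonde (`choose_sum`); the mixed difference of
`I ↦ [U ⊆ I]` is `[U = S]` (`dl_ind`); so the difference is the sum over all `m κ J` with
`∑_J m κ J = a κ` and union of the `J` with `m κ J > 0` equal to `S` of `∏ binom(dl (Q κ) J, m κ J)`,
and `|S| ≤ ∑ |J| [m > 0] ≤ ∑ m e = ∑ a e`.
-/

set_option autoImplicit false

namespace Pool.Agent.Lib.MP_3e612f_nt.DI

open Finset

/-- the mixed difference of a function on the cube -/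
def dl {C G : Type} [DecidableEq C] [AddCommGroup G] (F : Finset C → G) (J : Finset C) : G :=
  ∑ I ∈ J.powerset, (-1 : ℤ) ^ (J \ I).card • F I

section
variable {C G : Type} [DecidableEq C] [AddCommGroup G]

@[simp] theorem dl_empty (F : Finset C → G) : dl F ∅ = F ∅ := by
  simp [dl]

theorem dl_congr {F F' : Finset C → G} {J : Finset C} (h : ∀ I ⊆ J, F I = F' I) :
    dl F J = dl F' J := by
  unfold dl
  refine Finset.sum_congr rfl fun I hI => ?_
  rw [h I (Finset.mem_powerset.1 hI)]

theorem dl_zero' (J : Finset C) : dl (fun _ => (0 : G)) J = 0 := by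
  simp [dl]

theorem dl_add (F F' : Finset C → G) (J : Finset C) :
    dl (fun I => F I + F' I) J = dl F J + dl F' J := by
  simp only [dl, smul_add, Finset.sum_add_distrib]

theorem dl_sum {ι : Type} (s : Finset ι) (F : ι → Finset C → G) (J : Finset C) :
    dl (fun I => ∑ i ∈ s, F i I) J = ∑ i ∈ s, dl (F i) J := by
  simp only [dl, Finset.smul_sum]
  rw [Finset.sum_comm]

theorem dl_map {H : Type} [AddCommGroup H] (φ : G →+ H) (F : Finset C → G) (J : Finset C) :
    dl (fun I => φ (F I)) J = φ (dl F J) := by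
  simp only [dl, map_sum, map_zsmul]

theorem dl_insert (F : Finset C → G) {j : C} {J : Finset C} (hj : j ∉ J) :
    dl F (insert j J) = dl (fun I => F (insert j I)) J - dl F J := by
  unfold dl
  rw [Finset.sum_powerset_insert hj, add_comm, sub_eq_add_neg, ← Finset.sum_neg_distrib]
  congr 1
  · refine Finset.sum_congr rfl fun I hI => ?_
    have h1 : insert j J \ insert j I = J \ I := by
      ext x
      simp only [Finset.mem_sdiff, Finset.mem_insert]
      constructor
      · rintro ⟨h1, h2⟩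
        push Not at h2
        exact ⟨h1.resolve_left h2.1, h2.2⟩
      · rintro ⟨h1, h2⟩
        refine ⟨Or.inr h1, ?_⟩
        rintro (h3 | h3)
        · exact hj (h3 ▸ h1)
        · exact h2 h3
    rw [h1]
  · refine Finset.sum_congr rfl fun I hI => ?_
    have hI' := Finset.mem_powerset.1 hI
    have h1 : insert j J \ I = insert j (J \ I) :=
      Finset.insert_sdiff_of_notMem _ fun h => hj (hI' h)
    have h2 : j ∉ J \ I := fun h => hj (Finset.mem_sdiff.1 h).1
    rw [h1, Finset.card_insert_of_notMem h2, pow_succ, mul_neg_one, neg_smul]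

theorem dl_inv (I : Finset C) : ∀ F : Finset C → G, F I = ∑ J ∈ I.powerset, dl F J := by
  induction I using Finset.induction_on with
  | empty => intro F; simp
  | insert j I hj ih =>
    intro F
    rw [Finset.sum_powerset_insert hj, ← Finset.sum_add_distrib]
    have h1 : ∀ J ∈ I.powerset, dl F J + dl F (insert j J) = dl (fun K => F (insert j K)) J := by
      intro J hJ
      rw [dl_insert F fun h => hj (Finset.mem_powerset.1 hJ h)]
      abel
    rw [Finset.sum_congr rfl h1, ← ih fun K => F (insert j K)]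

theorem dl_ind (w : G) (S : Finset C) : ∀ U ⊆ S,
    dl (fun I => if U ⊆ I then w else 0) S = if U = S then w else 0 := by
  induction S using Finset.induction_on with
  | empty =>
    intro U hU
    rw [Finset.subset_empty] at hU
    simp [hU]
  | insert j S hj ih =>
    intro U hU
    rw [dl_insert _ hj]
    by_cases hjU : j ∈ U
    · have h1 : dl (fun I => if U ⊆ I then w else 0) S = 0 := by
        rw [dl_congr (F' := fun _ => 0), dl_zero']
        intro I hI
        rw [if_neg fun h => hj (hI (h hjU))]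
      have h2 : U.erase j ⊆ S := by
        intro x hx
        rw [Finset.mem_erase] at hx
        exact (Finset.mem_insert.1 (hU hx.2)).resolve_left hx.1
      have h3 : dl (fun I => if U ⊆ insert j I then w else 0) S =
          dl (fun I => if U.erase j ⊆ I then w else 0) S := by
        congr 1
        funext I
        congr 1
        rw [eq_iff_iff, Finset.subset_insert_iff]
      have h4 : U.erase j = S ↔ U = insert j S := by
        constructor
        · intro h
          rw [← h, Finset.insert_erase hjU]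
        · intro h
          rw [h, Finset.erase_insert hj]
      rw [h3, ih _ h2, h1, sub_zero]
      simp only [h4]
    · have h2 : U ⊆ S := by
        intro x hx
        refine (Finset.mem_insert.1 (hU hx)).resolve_left ?_
        rintro rfl
        exact hjU hx
      have h3 : (fun I => if U ⊆ insert j I then w else 0) = fun I => if U ⊆ I then w else 0 := by
        funext I
        congr 1
        rw [eq_iff_iff, Finset.subset_insert_iff_of_notMem hjU]
      rw [h3, sub_self, if_neg]
      rintro rfl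
      exact hjU (Finset.mem_insert_self _ _)

end

/-- Vandermonde for finite sums -/
theorem choose_sum {T : Type} [DecidableEq T] (s : Finset T) (x : T → ℤ) (a : ℕ) :
    Ring.choose (∑ t ∈ s, x t) a =
      ∑ m ∈ s.finsuppAntidiag a, ∏ t ∈ s, Ring.choose (x t) (m t) := by
  have h1 : PowerSeries.binomialSeries ℤ (∑ t ∈ s, x t) =
      ∏ t ∈ s, PowerSeries.binomialSeries ℤ (x t) := by
    induction s using Finset.induction_on with
    | empty => simp
    | insert t s ht ih =>
      rw [Finset.sum_insert ht, Finset.prod_insert ht, PowerSeries.binomialSeries_add, ih]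
  have h2 := congrArg (PowerSeries.coeff a) h1
  rw [PowerSeries.binomialSeries_coeff, PowerSeries.coeff_prod] at h2
  simpa [PowerSeries.binomialSeries_coeff] using h2

section
variable {C : Type} [DecidableEq C] {n : ℕ}

/-- the union of the blocks which occur in `m` -/
private def cubeU (S : Finset C) (m : Fin n → Finset C →₀ ℕ) : Finset C :=
  (univ : Finset (Fin n)).biUnion fun κ => (S.powerset.filter fun J => m κ J ≠ 0).biUnion id

private theorem cube_expand (Q : Fin n → Finset C → ℤ) (a : Fin n → ℕ) (S : Finset C) :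
    dl (fun I => ∏ κ, Ring.choose (Q κ I) (a κ)) S =
      ∑ m ∈ Fintype.piFinset fun κ => S.powerset.finsuppAntidiag (a κ),
        if cubeU S m = S then ∏ κ, ∏ J ∈ S.powerset, Ring.choose (dl (Q κ) J) (m κ J) else 0 := by
  have h1 : ∀ I ⊆ S, ∏ κ, Ring.choose (Q κ I) (a κ) =
      ∑ m ∈ Fintype.piFinset fun κ => S.powerset.finsuppAntidiag (a κ),
        if cubeU S m ⊆ I then ∏ κ, ∏ J ∈ S.powerset, Ring.choose (dl (Q κ) J) (m κ J) else 0 := by
    intro I hI
    have h2 : ∀ κ, Q κ I = ∑ J ∈ S.powerset, if J ⊆ I then dl (Q κ) J else 0 := by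
      intro κ
      rw [dl_inv I (Q κ), ← Finset.sum_filter]
      refine Finset.sum_congr ?_ fun _ _ => rfl
      ext J
      rw [Finset.mem_filter, Finset.mem_powerset, Finset.mem_powerset]
      exact ⟨fun h => ⟨h.trans hI, h⟩, fun h => h.2⟩
    have h3 : ∀ κ, Ring.choose (Q κ I) (a κ) = ∑ m ∈ S.powerset.finsuppAntidiag (a κ),
        ∏ J ∈ S.powerset, Ring.choose (if J ⊆ I then dl (Q κ) J else 0) (m J) := by
      intro κ
      rw [h2 κ, choose_sum]
    rw [Finset.prod_congr rfl fun κ _ => h3 κ, Finset.prod_univ_sum]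
    refine Finset.sum_congr rfl fun m hm => ?_
    split_ifs with hU
    · refine Finset.prod_congr rfl fun κ _ => Finset.prod_congr rfl fun J hJ => ?_
      by_cases hmJ : m κ J = 0
      · rw [hmJ, Ring.choose_zero_right, Ring.choose_zero_right]
      · have h4 : J ⊆ I := by
          refine subset_trans (fun x hx => ?_) hU
          unfold cubeU
          rw [Finset.mem_biUnion]
          refine ⟨κ, Finset.mem_univ _, ?_⟩
          rw [Finset.mem_biUnion]
          exact ⟨J, Finset.mem_filter.2 ⟨hJ, hmJ⟩, hx⟩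
        rw [if_pos h4]
    · have h4 : ∃ κ, ∃ J ∈ S.powerset, m κ J ≠ 0 ∧ ¬ J ⊆ I := by
        by_contra hcon
        push Not at hcon
        apply hU
        intro x hx
        unfold cubeU at hx
        rw [Finset.mem_biUnion] at hx
        obtain ⟨κ, -, hx⟩ := hx
        rw [Finset.mem_biUnion] at hx
        obtain ⟨J, hJ, hx⟩ := hx
        rw [Finset.mem_filter] at hJ
        exact hcon κ J hJ.1 hJ.2 hx
      obtain ⟨κ, J, hJ, h5, h6⟩ := h4
      refine Finset.prod_eq_zero (Finset.mem_univ κ) (Finset.prod_eq_zero hJ ?_)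
      rw [if_neg h6]
      exact Ring.choose_zero_pos ℤ (Nat.pos_of_ne_zero h5)
  rw [dl_congr h1, dl_sum]
  refine Finset.sum_congr rfl fun m _ => ?_
  refine dl_ind _ S _ ?_
  intro x hx
  unfold cubeU at hx
  rw [Finset.mem_biUnion] at hx
  obtain ⟨κ, -, hx⟩ := hx
  rw [Finset.mem_biUnion] at hx
  obtain ⟨J, hJ, hx⟩ := hx
  rw [Finset.mem_filter, Finset.mem_powerset] at hJ
  exact hJ.1 hx

/-- the blocks of `m` -/
private def cubeN (S : Finset C) (m : Fin n → Finset C →₀ ℕ) : Finset (Finset C × Fin n) :=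
  (S.powerset ×ˢ (univ : Finset (Fin n))).filter fun p => m p.2 p.1 ≠ 0

omit [DecidableEq C] in
private theorem mem_cubeN {S : Finset C} {m : Fin n → Finset C →₀ ℕ} {p : Finset C × Fin n} :
    p ∈ cubeN S m ↔ p.1 ⊆ S ∧ m p.2 p.1 ≠ 0 := by
  unfold cubeN
  rw [Finset.mem_filter, Finset.mem_product, Finset.mem_powerset]
  simp

private theorem cubeU_eq (S : Finset C) (m : Fin n → Finset C →₀ ℕ) :
    cubeU S m = (cubeN S m).biUnion fun p => p.1 := by
  ext x
  unfold cubeU
  simp only [Finset.mem_biUnion, Finset.mem_univ, true_and, Finset.mem_filter,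
    Finset.mem_powerset, id, mem_cubeN, Prod.exists]
  constructor
  · rintro ⟨κ, J, ⟨h1, h2⟩, h3⟩
    exact ⟨J, κ, ⟨h1, h2⟩, h3⟩
  · rintro ⟨J, κ, ⟨h1, h2⟩, h3⟩
    exact ⟨κ, J, ⟨h1, h2⟩, h3⟩

private theorem cube_weight {e a : Fin n → ℕ} {S : Finset C} {m : Fin n → Finset C →₀ ℕ}
    (hm : m ∈ Fintype.piFinset fun κ => S.powerset.finsuppAntidiag (a κ)) :
    ∑ p ∈ cubeN S m, m p.2 p.1 * e p.2 = ∑ κ, a κ * e κ := by
  rw [Fintype.mem_piFinset] at hm
  unfold cubeN
  rw [Finset.sum_filter, Finset.sum_product_right]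
  refine Finset.sum_congr rfl fun κ _ => ?_
  have h1 := (Finset.mem_finsuppAntidiag.1 (hm κ)).1
  rw [← h1, Finset.sum_mul]
  refine Finset.sum_congr rfl fun J _ => ?_
  by_cases h : m κ J = 0
  · simp [h]
  · simp [h]

private theorem cube_card {e a : Fin n → ℕ} {S : Finset C} {m : Fin n → Finset C →₀ ℕ}
    (hm : m ∈ Fintype.piFinset fun κ => S.powerset.finsuppAntidiag (a κ))
    (hU : (cubeN S m).biUnion (fun p => p.1) = S)
    (hc : ∀ p ∈ cubeN S m, p.1.card ≤ e p.2) :
    S.card ≤ ∑ κ, a κ * e κ := by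
  calc S.card = ((cubeN S m).biUnion fun p => p.1).card := by rw [hU]
    _ ≤ ∑ p ∈ cubeN S m, p.1.card := Finset.card_biUnion_le
    _ ≤ ∑ p ∈ cubeN S m, m p.2 p.1 * e p.2 := by
        refine Finset.sum_le_sum fun p hp => (hc p hp).trans ?_
        exact Nat.le_mul_of_pos_left _ (Nat.pos_of_ne_zero (mem_cubeN.1 hp).2)
    _ = ∑ κ, a κ * e κ := cube_weight hm

private theorem cube_card_eq {e a : Fin n → ℕ} (he : ∀ κ, 1 ≤ e κ) {S : Finset C}
    {m : Fin n → Finset C →₀ ℕ}
    (hm : m ∈ Fintype.piFinset fun κ => S.powerset.finsuppAntidiag (a κ))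
    (hU : (cubeN S m).biUnion (fun p => p.1) = S)
    (hc : ∀ p ∈ cubeN S m, p.1.card ≤ e p.2) (hS : S.card = ∑ κ, a κ * e κ) :
    (∀ p ∈ cubeN S m, p.1.card = e p.2 ∧ m p.2 p.1 = 1) ∧
      ∀ p ∈ cubeN S m, ∀ p' ∈ cubeN S m, p ≠ p' → Disjoint p.1 p'.1 := by
  have h1 : S.card ≤ ∑ p ∈ cubeN S m, p.1.card := by
    calc S.card = ((cubeN S m).biUnion fun p => p.1).card := by rw [hU]
      _ ≤ _ := Finset.card_biUnion_le
  have h2 : ∀ p ∈ cubeN S m, p.1.card ≤ m p.2 p.1 * e p.2 := fun p hp => (hc p hp).trans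
    (Nat.le_mul_of_pos_left _ (Nat.pos_of_ne_zero (mem_cubeN.1 hp).2))
  have h3 : ∑ p ∈ cubeN S m, p.1.card = ∑ p ∈ cubeN S m, m p.2 p.1 * e p.2 := by
    refine le_antisymm (Finset.sum_le_sum h2) ?_
    rw [cube_weight hm, ← hS]
    exact h1
  have h4 := (Finset.sum_eq_sum_iff_of_le h2).1 h3
  refine ⟨fun p hp => ?_, fun p hp p' hp' hne => ?_⟩
  · have h5 := h4 p hp
    have h6 := hc p hp
    have h7 := Nat.pos_of_ne_zero (mem_cubeN.1 hp).2
    have h8 := he p.2
    have h9 : m p.2 p.1 = 1 := by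
      by_contra hcon
      have h10 : 2 ≤ m p.2 p.1 := by omega
      nlinarith
    refine ⟨?_, h9⟩
    rw [h5, h9, one_mul]
  · rw [Finset.disjoint_iff_inter_eq_empty]
    by_contra hcon
    have hne' : 0 < (p'.1 ∩ p.1).card := by
      rw [Finset.card_pos, Finset.nonempty_iff_ne_empty, Finset.inter_comm]
      exact hcon
    have h5 : S ⊆ ((cubeN S m).erase p').biUnion (fun p => p.1) ∪ (p'.1 \ p.1) := by
      intro x hx
      rw [← hU, Finset.mem_biUnion] at hx
      obtain ⟨p'', hp'', hx⟩ := hx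
      rw [Finset.mem_union]
      by_cases h6 : p'' = p'
      · subst h6
        by_cases h7 : x ∈ p.1
        · left
          rw [Finset.mem_biUnion]
          exact ⟨p, Finset.mem_erase.2 ⟨hne, hp⟩, h7⟩
        · right
          exact Finset.mem_sdiff.2 ⟨hx, h7⟩
      · left
        rw [Finset.mem_biUnion]
        exact ⟨p'', Finset.mem_erase.2 ⟨h6, hp''⟩, hx⟩
    have h6 := (Finset.card_le_card h5).trans (Finset.card_union_le _ _)
    have h7 : (((cubeN S m).erase p').biUnion fun p => p.1).card ≤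
        ∑ p ∈ (cubeN S m).erase p', p.1.card := Finset.card_biUnion_le
    have h8 := Finset.add_sum_erase (cubeN S m) (fun p => p.1.card) hp'
    have h9 := Finset.card_sdiff_add_card_inter p'.1 p.1
    have h10 : ∑ p ∈ cubeN S m, p.1.card = S.card := by
      rw [h3, cube_weight hm, hS]
    omega

private theorem cube_prod {Q : Fin n → Finset C → ℤ} {S : Finset C} {m : Fin n → Finset C →₀ ℕ}
    (h1 : ∀ p ∈ cubeN S m, m p.2 p.1 = 1) :
    ∏ κ, ∏ J ∈ S.powerset, Ring.choose (dl (Q κ) J) (m κ J) =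
      ∏ p ∈ cubeN S m, dl (Q p.2) p.1 := by
  unfold cubeN
  rw [Finset.prod_filter, Finset.prod_product_right]
  refine Finset.prod_congr rfl fun κ _ => Finset.prod_congr rfl fun J hJ => ?_
  by_cases h : m κ J = 0
  · simp [h]
  · have h2 : m κ J = 1 := h1 (J, κ) (mem_cubeN.2 ⟨Finset.mem_powerset.1 hJ, h⟩)
    simp [h2]

private theorem cube_small {e : Fin n → ℕ} {Q : Fin n → Finset C → ℤ} {S : Finset C}
    (hQ : ∀ κ, ∀ J ⊆ S, e κ < J.card → dl (Q κ) J = 0) {m : Fin n → Finset C →₀ ℕ}
    (hw : ∏ κ, ∏ J ∈ S.powerset, Ring.choose (dl (Q κ) J) (m κ J) ≠ 0) :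
    ∀ p ∈ cubeN S m, p.1.card ≤ e p.2 := by
  intro p hp
  by_contra hcon
  push Not at hcon
  obtain ⟨h1, h2⟩ := mem_cubeN.1 hp
  apply hw
  refine Finset.prod_eq_zero (Finset.mem_univ p.2)
    (Finset.prod_eq_zero (Finset.mem_powerset.2 h1) ?_)
  rw [hQ p.2 p.1 h1 hcon]
  exact Ring.choose_zero_pos ℤ (Nat.pos_of_ne_zero h2)

/-- products of binomials of small total degree have no mixed differences -/
theorem cube_low (e : Fin n → ℕ) (Q : Fin n → Finset C → ℤ) (a : Fin n → ℕ) (S : Finset C)
    (hQ : ∀ κ, ∀ J ⊆ S, e κ < J.card → dl (Q κ) J = 0) (hS : ∑ κ, a κ * e κ < S.card) :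
    dl (fun I => ∏ κ, Ring.choose (Q κ I) (a κ)) S = 0 := by
  rw [cube_expand]
  refine Finset.sum_eq_zero fun m hm => ?_
  split_ifs with hU
  · by_contra hw
    rw [cubeU_eq] at hU
    have := cube_card hm hU (cube_small hQ hw)
    omega
  · rfl

/-- the labelled partitions of `S` with `a κ` blocks with the label `κ`, of `e κ` elements -/
def LPa (e a : Fin n → ℕ) (S : Finset C) : Finset (Finset (Finset C × Fin n)) :=
  (S.powerset ×ˢ (univ : Finset (Fin n))).powerset.filter fun N =>
    ((∀ p ∈ N, p.1.card = e p.2) ∧ (∀ p ∈ N, ∀ p' ∈ N, p ≠ p' → Disjoint p.1 p'.1) ∧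
      N.biUnion (fun p => p.1) = S) ∧ ∀ κ, (N.filter fun p => p.2 = κ).card = a κ

/-- **the top mixed difference of a product of binomials** -/
theorem cube_top (e : Fin n → ℕ) (he : ∀ κ, 1 ≤ e κ) (Q : Fin n → Finset C → ℤ) (a : Fin n → ℕ)
    (S : Finset C) (hQ : ∀ κ, ∀ J ⊆ S, e κ < J.card → dl (Q κ) J = 0)
    (hS : S.card = ∑ κ, a κ * e κ) :
    dl (fun I => ∏ κ, Ring.choose (Q κ I) (a κ)) S =
      ∑ N ∈ LPa e a S, ∏ p ∈ N, dl (Q p.2) p.1 := by
  rw [cube_expand]
  refine Finset.sum_bij_ne_zero (fun m _ _ => cubeN S m) ?_ ?_ ?_ ?_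
  · intro m hm hw
    rw [ite_ne_right_iff] at hw
    obtain ⟨hU, hw⟩ := hw
    rw [cubeU_eq] at hU
    obtain ⟨h1, h2⟩ := cube_card_eq he hm hU (cube_small hQ hw) hS
    unfold LPa
    rw [Finset.mem_filter, Finset.mem_powerset]
    refine ⟨Finset.filter_subset _ _, ⟨fun p hp => (h1 p hp).1, h2, hU⟩, fun κ => ?_⟩
    rw [Fintype.mem_piFinset] at hm
    rw [← (Finset.mem_finsuppAntidiag.1 (hm κ)).1]
    have h3 : (cubeN S m).filter (fun p => p.2 = κ) =
        (S.powerset.filter fun J => m κ J ≠ 0).image fun J => (J, κ) := by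
      ext ⟨J, κ'⟩
      simp only [Finset.mem_filter, mem_cubeN, Finset.mem_image, Finset.mem_powerset,
        Prod.mk.injEq]
      constructor
      · rintro ⟨⟨h3, h4⟩, rfl⟩
        exact ⟨J, ⟨h3, h4⟩, rfl, rfl⟩
      · rintro ⟨J', ⟨h3, h4⟩, rfl, rfl⟩
        exact ⟨⟨h3, h4⟩, rfl⟩
    rw [h3, Finset.card_image_of_injective _ fun J J' h => (Prod.mk.inj h).1, Finset.card_filter]
    refine Finset.sum_congr rfl fun J hJ => ?_
    split_ifs with h4
    · exact ((h1 (J, κ) (mem_cubeN.2 ⟨Finset.mem_powerset.1 hJ, h4⟩)).2).symm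
    · push Not at h4
      exact h4.symm
  · intro m hm hw m' hm' hw' hmm
    have h : cubeN S m = cubeN S m' := hmm
    rw [ite_ne_right_iff] at hw hw'
    obtain ⟨hU, hw⟩ := hw
    obtain ⟨hU', hw'⟩ := hw'
    rw [cubeU_eq] at hU hU'
    obtain ⟨h1, -⟩ := cube_card_eq he hm hU (cube_small hQ hw) hS
    obtain ⟨h1', -⟩ := cube_card_eq he hm' hU' (cube_small hQ hw') hS
    rw [Fintype.mem_piFinset] at hm hm'
    funext κ
    ext J
    by_cases hJ : J ⊆ S
    · by_cases h3 : m κ J = 0
      · by_cases h4 : m' κ J = 0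
        · rw [h3, h4]
        · have h5 : (J, κ) ∈ cubeN S m' := mem_cubeN.2 ⟨hJ, h4⟩
          rw [← h] at h5
          exact absurd h3 (mem_cubeN.1 h5).2
      · have h5 : (J, κ) ∈ cubeN S m := mem_cubeN.2 ⟨hJ, h3⟩
        have h6 := (h1 _ h5).2
        rw [h] at h5
        have h7 := (h1' _ h5).2
        simp only at h6 h7
        rw [h6, h7]
    · have h3 : m κ J = 0 := by
        by_contra h3
        exact hJ (Finset.mem_powerset.1 ((Finset.mem_finsuppAntidiag.1 (hm κ)).2
          (Finsupp.mem_support_iff.2 h3)))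
      have h4 : m' κ J = 0 := by
        by_contra h4
        exact hJ (Finset.mem_powerset.1 ((Finset.mem_finsuppAntidiag.1 (hm' κ)).2
          (Finsupp.mem_support_iff.2 h4)))
      rw [h3, h4]
  · intro N hN hgN
    unfold LPa at hN
    rw [Finset.mem_filter, Finset.mem_powerset] at hN
    obtain ⟨hNsub, ⟨hN1, hN2, hN3⟩, hN4⟩ := hN
    classical
    let m : Fin n → Finset C →₀ ℕ := fun κ =>
      Finsupp.onFinset S.powerset (fun J => if (J, κ) ∈ N then 1 else 0) (by
        intro J hJ
        rw [ite_ne_right_iff] at hJ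
        exact (Finset.mem_product.1 (hNsub hJ.1)).1)
    have hmv : ∀ κ J, m κ J = if (J, κ) ∈ N then 1 else 0 := fun κ J => rfl
    have hNm : cubeN S m = N := by
      ext ⟨J, κ⟩
      rw [mem_cubeN]
      simp only [hmv]
      constructor
      · rintro ⟨-, h⟩
        rw [ite_ne_right_iff] at h
        exact h.1
      · intro h
        refine ⟨Finset.mem_powerset.1 (Finset.mem_product.1 (hNsub h)).1, ?_⟩
        rw [if_pos h]
        exact one_ne_zero
    have hmem : m ∈ Fintype.piFinset fun κ => S.powerset.finsuppAntidiag (a κ) := by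
      rw [Fintype.mem_piFinset]
      intro κ
      rw [Finset.mem_finsuppAntidiag]
      constructor
      · rw [← hN4 κ, Finset.card_filter]
        simp only [hmv]
        rw [← Finset.card_filter, ← Finset.card_filter]
        refine Finset.card_bij (fun J _ => (J, κ)) ?_ ?_ ?_
        · intro J hJ
          rw [Finset.mem_filter] at hJ
          exact Finset.mem_filter.2 ⟨hJ.2, rfl⟩
        · intro J _ J' _ h
          exact (Prod.mk.inj h).1
        · rintro ⟨J, κ'⟩ h
          rw [Finset.mem_filter] at h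
          obtain ⟨h1, rfl⟩ := h
          exact ⟨J, Finset.mem_filter.2 ⟨(Finset.mem_product.1 (hNsub h1)).1, h1⟩, rfl⟩
      · intro J hJ
        rw [Finsupp.mem_support_iff, hmv, ite_ne_right_iff] at hJ
        exact (Finset.mem_product.1 (hNsub hJ.1)).1
    have hval : (if cubeU S m = S then
        ∏ κ, ∏ J ∈ S.powerset, Ring.choose (dl (Q κ) J) (m κ J) else 0) =
          ∏ p ∈ N, dl (Q p.2) p.1 := by
      rw [if_pos (by rw [cubeU_eq, hNm, hN3]), cube_prod, hNm]
      intro p hp
      rw [hNm] at hp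
      rw [hmv, if_pos hp]
    exact ⟨m, hmem, by rw [hval]; exact hgN, hNm⟩
  · intro m hm hw
    have hw0 := hw
    rw [ite_ne_right_iff] at hw
    obtain ⟨hU, hw⟩ := hw
    rw [if_pos hU]
    rw [cubeU_eq] at hU
    obtain ⟨h1, -⟩ := cube_card_eq he hm hU (cube_small hQ hw) hS
    exact cube_prod fun p hp => (h1 p hp).2

end

end Pool.Agent.Lib.MP_3e612f_nt.DI
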