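import Pool.Agent.Lib.MP_3e612f_nt.DI.Ph
import Pool.Agent.Lib.MP_3e612f_nt.DI.Alt
import Pool.Agent.Lib.MP_3e612f_nt.DI.Cells

/-!
The alternating sum of the phase of a pair correlation over a cube of gadgets.

PROOF of `cube_Phi`. Let `A` be the set of the `i` with `c i ≠ c' i` (then `c i` and `c' i` are the two contents of the gadget), and `c0 i = zc (o i)` for `i ∈ A`,
`c0 i = c i` for `i ∉ A`; `n0 = q ^ K * u + S v c0`. By `hS3` (one coordinate after the other), for every `c''` which is `c i = c' i` off `A` and has values in the two contents on `A`,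
`q ^ K * u + S v c'' = n0 + ∑_{i ∈ A} β_i q ^ (a_i + g + D)`, `β_i = 1` if `c'' i = zc (o i) + q ^ (g + D)` and `0` otherwise. The content of `n0` at `a_i` is `c0 i` by `hS2` and
`a_i + (g + l) ≤ K` (the multiple `q ^ K * u` does not matter). By `ftr_cells`, for `t = p, r` the feature set of `t n + s`, `n = q ^ K u + S v c''`, is `base_t ∪ ⋃_{j : Fin d} A_t^j`, where
`A_t^j` is the union of the `blk` of the `i ∈ A` of colour `j`, computed from `c'' i`. For `c'' = ` (`c'` on the colours in `I`, `c` otherwise) this is the form of `alt_sum` with `A j`, `A' j` the unions of the `blk` for `c`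
and for `c'`. The function `[x ∈ A j] - [x ∈ A' j]` is `∑_i δ j i * gv (o i) x` with `δ j i = [col i = j] ([c i = z' i] - [c' i = z' i])`: for `i ∉ A` the coefficient is `0` as `c i = c' i`; for `i ∈ A` it is
`± gv` (the blocks of different gadgets are disjoint). For the part `g2` of degree `< d` use `alt_zero` (with its own `L`).
-/

set_option autoImplicit false

namespace Pool.Agent.Lib.MP_3e612f_nt.DI

open Finset
open Pool.Agent.Lib.MP_3e612f_nt.PI (wd ee mc Phi Gad zc ut)

private theorem cubeP_S {Q q g D : ℕ} {ι : Type} [DecidableEq ι] (o : ι → ℕ × ℕ)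
    (S : (ι → Fin Q) → ℕ)
    (hS3 : ∀ c i (x : Fin Q), (c i : ℕ) ≤ x →
      S (Function.update c i x) = S c + ((x : ℕ) - c i) * q ^ (o i).1)
    (β : ι → ℕ) (c0 : ι → Fin Q) (A : Finset ι) : ∀ c : ι → Fin Q,
    (∀ i, i ∉ A → c i = c0 i) → (∀ i ∈ A, (c i : ℕ) = c0 i + β i * q ^ (g + D)) →
    S c = S c0 + ∑ i ∈ A, β i * q ^ ((o i).1 + g + D) := by
  induction A using Finset.induction_on with
  | empty =>
    intro c h1 _
    rw [sum_empty, add_zero]
    congr 1
    funext i
    exact h1 i (notMem_empty i)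
  | insert i A hi ih =>
    intro c h1 h2
    have h3 := ih (Function.update c i (c0 i)) (by
      intro j hj
      by_cases hji : j = i
      · rw [hji, Function.update_self]
      · rw [Function.update_of_ne hji]
        exact h1 j (by
          rw [mem_insert, not_or]
          exact ⟨hji, hj⟩)) (by
      intro j hj
      have hji : j ≠ i := by
        rintro rfl
        exact hi hj
      rw [Function.update_of_ne hji]
      exact h2 j (mem_insert_of_mem hj))
    have h4 := h2 i (mem_insert_self i A)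
    have h5 := hS3 (Function.update c i (c0 i)) i (c i) (by
      rw [Function.update_self, h4]
      exact Nat.le_add_right _ _)
    rw [Function.update_idem, Function.update_eq_self, Function.update_self, h3, h4,
      Nat.add_sub_cancel_left] at h5
    rw [h5, sum_insert hi]
    have h6 : β i * q ^ (g + D) * q ^ (o i).1 = β i * q ^ ((o i).1 + g + D) := by
      rw [mul_assoc, ← pow_add]
      congr 2
      omega
    rw [h6]
    omega

private theorem cubeP_mod {q : ℕ} (hq : 2 ≤ q) {a w K : ℕ} (h : a + w ≤ K) (u x : ℕ) :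
    (q ^ K * u + x) / q ^ a % q ^ w = x / q ^ a % q ^ w := by
  have h1 : q ^ K = q ^ a * (q ^ w * q ^ (K - a - w)) := by
    rw [← pow_add, ← pow_add]
    congr 1
    omega
  have ha : 0 < q ^ a := by positivity
  rw [h1, mul_assoc, add_comm, Nat.add_mul_div_left _ _ ha, mul_assoc, Nat.add_mul_mod_self_left]

/-- the features of colour `j` -/
private def cubeP_set (q D g l L : ℕ) (z0 x0 : ℕ → ℕ) (s t : ℕ) {ι : Type} (o : ι → ℕ × ℕ)
    {d : ℕ} (col : ι → Fin d) (A : Finset ι) (β : ι → ℕ) (j : Fin d) : Finset (Pt q D L) :=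
  (A.filter fun i => col i = j).biUnion fun i =>
    blk q D l L ((o i).1 + g) (ut q g l z0 x0 s t (o i) + β i * (t * q ^ D))

private theorem cubeP_cell {q D l L A u : ℕ} : blk q D l L A u ⊆ cell q D l L A :=
  filter_subset _ _

section

variable {q D g l L : ℕ} {z0 x0 : ℕ → ℕ} {s t : ℕ} {ι : Type} {o : ι → ℕ × ℕ} {d : ℕ}
  {col : ι → Fin d} {A : Finset ι}

private theorem cubeP_mem {β : ι → ℕ} {j : Fin d} {x : Pt q D L} :
    x ∈ cubeP_set q D g l L z0 x0 s t o col A β j ↔ ∃ i ∈ A, col i = j ∧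
      x ∈ blk q D l L ((o i).1 + g) (ut q g l z0 x0 s t (o i) + β i * (t * q ^ D)) := by
  unfold cubeP_set
  rw [mem_biUnion]
  constructor
  · rintro ⟨i, hi, hx⟩
    obtain ⟨h1, h2⟩ := mem_filter.1 hi
    exact ⟨i, h1, h2, hx⟩
  · rintro ⟨i, h1, h2, hx⟩
    exact ⟨i, mem_filter.2 ⟨h1, h2⟩, hx⟩

private theorem cubeP_uniq
    (hsep : ∀ i j, i ≠ j → (o i).1 + (g + l) ≤ (o j).1 ∨ (o j).1 + (g + l) ≤ (o i).1)
    {i j : ι} {x : Pt q D L} (hi : x ∈ cell q D l L ((o i).1 + g))
    (hj : x ∈ cell q D l L ((o j).1 + g)) : i = j := by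
  by_contra hne
  have h : (o i).1 + g + l ≤ (o j).1 + g ∨ (o j).1 + g + l ≤ (o i).1 + g := by
    rcases hsep i j hne with h | h
    · left
      omega
    · right
      omega
  exact disjoint_left.1 (cell_disjoint h) hi hj

private theorem cubeP_dis
    (hsep : ∀ i j, i ≠ j → (o i).1 + (g + l) ≤ (o j).1 ∨ (o j).1 + (g + l) ≤ (o i).1)
    (β β' : ι → ℕ) {j j' : Fin d} (hj : j ≠ j') :
    Disjoint (cubeP_set q D g l L z0 x0 s t o col A β j ∪
        cubeP_set q D g l L z0 x0 s t o col A β' j)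
      (cubeP_set q D g l L z0 x0 s t o col A β j' ∪
        cubeP_set q D g l L z0 x0 s t o col A β' j') := by
  have key : ∀ (j : Fin d) (x : Pt q D L), x ∈ cubeP_set q D g l L z0 x0 s t o col A β j ∪
      cubeP_set q D g l L z0 x0 s t o col A β' j → ∃ i, col i = j ∧
        x ∈ cell q D l L ((o i).1 + g) := by
    intro j x hx
    rcases mem_union.1 hx with hx | hx
    · obtain ⟨i, -, h2, h3⟩ := cubeP_mem.1 hx
      exact ⟨i, h2, cubeP_cell h3⟩
    · obtain ⟨i, -, h2, h3⟩ := cubeP_mem.1 hx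
      exact ⟨i, h2, cubeP_cell h3⟩
  rw [disjoint_left]
  intro x h1 h2
  obtain ⟨i, hi, hx⟩ := key j x h1
  obtain ⟨i', hi', hx'⟩ := key j' x h2
  have := cubeP_uniq hsep hx hx'
  rw [← this, hi] at hi'
  exact hj hi'

private theorem cubeP_base (β β' : ι → ℕ) (T : Finset (Pt q D L))
    (hT : ∀ x ∈ T, ∀ i ∈ A, x ∉ cell q D l L ((o i).1 + g)) (j : Fin d) :
    Disjoint T
      (cubeP_set q D g l L z0 x0 s t o col A β j ∪
        cubeP_set q D g l L z0 x0 s t o col A β' j) := by
  rw [disjoint_left]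
  intro x h1 h2
  have h3 := hT x h1
  rcases mem_union.1 h2 with hx | hx
  · obtain ⟨i, h4, -, h5⟩ := cubeP_mem.1 hx
    exact h3 i h4 (cubeP_cell h5)
  · obtain ⟨i, h4, -, h5⟩ := cubeP_mem.1 hx
    exact h3 i h4 (cubeP_cell h5)

private theorem cubeP_union [DecidableEq ι] (β β' : ι → ℕ) (I : Finset (Fin d)) :
    (A.biUnion fun i => blk q D l L ((o i).1 + g)
      (ut q g l z0 x0 s t (o i) + (if col i ∈ I then β' i else β i) * (t * q ^ D))) =
      univ.biUnion fun j => if j ∈ I then cubeP_set q D g l L z0 x0 s t o col A β' j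
        else cubeP_set q D g l L z0 x0 s t o col A β j := by
  ext x
  simp only [mem_biUnion, mem_univ, true_and]
  constructor
  · rintro ⟨i, hi, hx⟩
    refine ⟨col i, ?_⟩
    by_cases h : col i ∈ I
    · rw [if_pos h] at hx ⊢
      exact cubeP_mem.2 ⟨i, hi, rfl, hx⟩
    · rw [if_neg h] at hx ⊢
      exact cubeP_mem.2 ⟨i, hi, rfl, hx⟩
  · rintro ⟨j, hx⟩
    by_cases h : j ∈ I
    · rw [if_pos h] at hx
      obtain ⟨i, h1, h2, h3⟩ := cubeP_mem.1 hx
      refine ⟨i, h1, ?_⟩
      rw [h2, if_pos h]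
      exact h3
    · rw [if_neg h] at hx
      obtain ⟨i, h1, h2, h3⟩ := cubeP_mem.1 hx
      refine ⟨i, h1, ?_⟩
      rw [h2, if_neg h]
      exact h3

private theorem cubeP_ind [Fintype ι] [DecidableEq ι]
    (hsep : ∀ i j, i ≠ j → (o i).1 + (g + l) ≤ (o j).1 ∨ (o j).1 + (g + l) ≤ (o i).1)
    (β : ι → ℕ) (j : Fin d) (x : Pt q D L) :
    (if x ∈ cubeP_set q D g l L z0 x0 s t o col A β j then (1 : ℤ) else 0) =
      ∑ i, if i ∈ A ∧ col i = j then
        (if x ∈ blk q D l L ((o i).1 + g) (ut q g l z0 x0 s t (o i) + β i * (t * q ^ D))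
          then (1 : ℤ) else 0) else 0 := by
  by_cases hx : x ∈ cubeP_set q D g l L z0 x0 s t o col A β j
  · rw [if_pos hx]
    obtain ⟨i, h1, h2, h3⟩ := cubeP_mem.1 hx
    rw [sum_eq_single i]
    · rw [if_pos ⟨h1, h2⟩, if_pos h3]
    · intro i' _ hi'
      by_cases h : i' ∈ A ∧ col i' = j
      · rw [if_pos h, if_neg]
        intro h4
        exact hi' (cubeP_uniq hsep (cubeP_cell h4) (cubeP_cell h3))
      · rw [if_neg h]
    · intro h
      exact absurd (mem_univ i) h
  · rw [if_neg hx]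
    symm
    refine sum_eq_zero fun i _ => ?_
    by_cases h : i ∈ A ∧ col i = j
    · rw [if_pos h, if_neg]
      intro h4
      exact hx (cubeP_mem.2 ⟨i, h.1, h.2, h4⟩)
    · rw [if_neg h]

private theorem cubeP_gv {A : ℕ × ℕ} {b b' : ℕ} (hb : b = 0 ∨ b = 1) (hb' : b' = 0 ∨ b' = 1)
    (x : Pt q D L) :
    (if x ∈ blk q D l L (A.1 + g) (ut q g l z0 x0 s t A + b * (t * q ^ D)) then (1 : ℤ) else 0) -
      (if x ∈ blk q D l L (A.1 + g) (ut q g l z0 x0 s t A + b' * (t * q ^ D))
        then (1 : ℤ) else 0) =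
      ((b : ℤ) - b') * gv q D g l L z0 x0 s t A x := by
  unfold gv
  rcases hb with rfl | rfl <;> rcases hb' with rfl | rfl
  · simp
  · simp
  · simp
  · simp

end

/-- one multiplier -/
private theorem cubeP_one {q D g l H p r : ℕ} {z0 x0 : ℕ → ℕ} (hq : 2 ≤ q) (hDl : D ≤ l)
    (hG : Gad q D g l H p r z0 x0) {d : ℕ} (L s : ℕ) {ι : Type} [Fintype ι] [DecidableEq ι]
    (o : ι → ℕ × ℕ) (ho : ∀ i, (o i).2 < H)
    (hsep : ∀ i j, i ≠ j → (o i).1 + (g + l) ≤ (o j).1 ∨ (o j).1 + (g + l) ≤ (o i).1)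
    {K : ℕ} (hK : ∀ i, (o i).1 + (g + l) ≤ K) (S : ℕ → (ι → Fin (q ^ (g + l))) → ℕ)
    (hS2 : ∀ v c i, S v c / q ^ (o i).1 % q ^ (g + l) = (c i : ℕ))
    (hS3 : ∀ v c i (x : Fin (q ^ (g + l))), (c i : ℕ) ≤ x →
      S v (Function.update c i x) = S v c + ((x : ℕ) - c i) * q ^ (o i).1)
    (col : ι → Fin d) (u v : ℕ) (c c' : ι → Fin (q ^ (g + l)))
    (hcc : ∀ i, c i = c' i ∨ (((c i : ℕ) = zc q g l z0 x0 s (o i) ∨
      (c i : ℕ) = zc q g l z0 x0 s (o i) + q ^ (g + D)) ∧
      ((c' i : ℕ) = zc q g l z0 x0 s (o i) ∨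
        (c' i : ℕ) = zc q g l z0 x0 s (o i) + q ^ (g + D)))) {t : ℕ} (ht : t = p ∨ t = r) :
    ∃ (base : Finset (Pt q D L)) (A A' : Fin d → Finset (Pt q D L)),
      (∀ i j, i ≠ j → Disjoint (A i ∪ A' i) (A j ∪ A' j)) ∧
      (∀ j, Disjoint base (A j ∪ A' j)) ∧
      (∀ I : Finset (Fin d), ftr q D L (t * (q ^ K * u + S v fun i => if col i ∈ I then c' i
        else c i) + s) = base ∪ univ.biUnion fun j => if j ∈ I then A' j else A j) ∧
      ∀ j x, ((if x ∈ A j then (1 : ℤ) else 0) - if x ∈ A' j then 1 else 0) =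
        ∑ i, (if col i = j then
          ((if (c i : ℕ) = zc q g l z0 x0 s (o i) + q ^ (g + D) then 1 else 0) -
          (if (c' i : ℕ) = zc q g l z0 x0 s (o i) + q ^ (g + D) then 1 else 0) : ℤ) else 0) *
          gv q D g l L z0 x0 s t (o i) x := by
  have hpos : 0 < q ^ (g + D) := by positivity
  -- the set of the active gadgets
  set A0 : Finset ι := univ.filter fun i => c i ≠ c' i with hA0
  have memA : ∀ i, i ∈ A0 ↔ c i ≠ c' i := by
    intro i
    rw [hA0, mem_filter]
    exact ⟨fun h => h.2, fun h => ⟨mem_univ _, h⟩⟩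
  have hz : ∀ i, zc q g l z0 x0 s (o i) < q ^ (g + l) := by
    intro i
    have := PI.zc_lt hq hG s (ho i)
    omega
  set c0 : ι → Fin (q ^ (g + l)) := fun i => if i ∈ A0 then ⟨zc q g l z0 x0 s (o i), hz i⟩ else c i
    with hc0
  set b : ι → ℕ := fun i => if (c i : ℕ) = zc q g l z0 x0 s (o i) + q ^ (g + D) then 1 else 0
    with hb
  set b' : ι → ℕ := fun i => if (c' i : ℕ) = zc q g l z0 x0 s (o i) + q ^ (g + D) then 1 else 0
    with hb'
  have hb01 : ∀ i, b i = 0 ∨ b i = 1 := by
    intro i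
    rw [hb]
    by_cases h : (c i : ℕ) = zc q g l z0 x0 s (o i) + q ^ (g + D)
    · right
      simp only [if_pos h]
    · left
      simp only [if_neg h]
  have hb01' : ∀ i, b' i = 0 ∨ b' i = 1 := by
    intro i
    rw [hb']
    by_cases h : (c' i : ℕ) = zc q g l z0 x0 s (o i) + q ^ (g + D)
    · right
      simp only [if_pos h]
    · left
      simp only [if_neg h]
  have hcA : ∀ i ∈ A0, (c i : ℕ) = c0 i + b i * q ^ (g + D) := by
    intro i hi
    have h1 := (memA i).1 hi
    have h0 : (c0 i : ℕ) = zc q g l z0 x0 s (o i) := by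
      rw [hc0]
      simp only [if_pos hi]
    rcases hcc i with h | ⟨h, -⟩
    · exact absurd h h1
    · rw [h0, hb]
      rcases h with h | h
      · have h2 : ¬ ((c i : ℕ) = zc q g l z0 x0 s (o i) + q ^ (g + D)) := by omega
        simp only [if_neg h2]
        omega
      · simp only [if_pos h]
        omega
  have hcA' : ∀ i ∈ A0, (c' i : ℕ) = c0 i + b' i * q ^ (g + D) := by
    intro i hi
    have h1 := (memA i).1 hi
    have h0 : (c0 i : ℕ) = zc q g l z0 x0 s (o i) := by
      rw [hc0]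
      simp only [if_pos hi]
    rcases hcc i with h | ⟨-, h⟩
    · exact absurd h h1
    · rw [h0, hb']
      rcases h with h | h
      · have h2 : ¬ ((c' i : ℕ) = zc q g l z0 x0 s (o i) + q ^ (g + D)) := by omega
        simp only [if_neg h2]
        omega
      · simp only [if_pos h]
        omega
  set n0 := q ^ K * u + S v c0 with hn0
  have hn : ∀ i ∈ A0, n0 / q ^ (o i).1 % q ^ (g + l) = zc q g l z0 x0 s (o i) := by
    intro i hi
    rw [hn0, cubeP_mod hq (hK i), hS2, hc0]
    simp only [if_pos hi]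
  clear_value A0 c0 b b' n0
  have k1 := fun (i j : Fin d) (hij : i ≠ j) => cubeP_dis (q := q) (D := D) (L := L) (z0 := z0)
    (x0 := x0) (s := s) (t := t) (col := col) (A := A0) hsep b b' hij
  have k2 := fun j => cubeP_base (q := q) (D := D) (g := g) (l := l) (L := L) (z0 := z0)
    (x0 := x0) (s := s) (t := t) (o := o) (col := col) (A := A0) b b'
    ((ftr q D L (t * n0 + s)).filter fun x => ∀ i ∈ A0, x ∉ cell q D l L ((o i).1 + g))
    (fun x hx => (mem_filter.1 hx).2) j
  refine ⟨_, _, _, k1, k2, ?_, ?_⟩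
  · intro I
    have h1 := cubeP_S (g := g) (D := D) o (S v) (fun c i x h => hS3 v c i x h)
      (fun i => if col i ∈ I then b' i else b i) c0 A0
      (fun i => if col i ∈ I then c' i else c i) (by
        intro i hi
        have h2 : c i = c' i := by
          by_contra h
          exact hi ((memA i).2 h)
        rw [hc0]
        simp only [if_neg hi]
        by_cases h : col i ∈ I
        · rw [if_pos h, h2]
        · rw [if_neg h]) (by
        intro i hi
        by_cases h : col i ∈ I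
        · simp only [if_pos h]
          exact hcA' i hi
        · simp only [if_neg h]
          exact hcA i hi)
    rw [h1, ← add_assoc, ← hn0, ftr_cells hq hDl hG ht s o ho hsep A0
      (fun i => if col i ∈ I then b' i else b i) (by
        intro i _
        by_cases h : col i ∈ I
        · simp only [if_pos h]
          exact hb01' i
        · simp only [if_neg h]
          exact hb01 i) hn, cubeP_union b b' I]
  · intro j x
    rw [cubeP_ind hsep b j x, cubeP_ind hsep b' j x, ← sum_sub_distrib]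
    refine sum_congr rfl fun i _ => ?_
    have hcast : ((if (c i : ℕ) = zc q g l z0 x0 s (o i) + q ^ (g + D) then 1 else 0) -
          (if (c' i : ℕ) = zc q g l z0 x0 s (o i) + q ^ (g + D) then 1 else 0) : ℤ) =
          (b i : ℤ) - b' i := by
      rw [hb, hb']
      push_cast
      rfl
    rw [hcast]
    by_cases hj : col i = j
    · rw [if_pos hj]
      by_cases hi : i ∈ A0
      · simp only [if_pos (show i ∈ A0 ∧ col i = j from ⟨hi, hj⟩)]
        exact cubeP_gv (hb01 i) (hb01' i) x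
      · simp only [if_neg (show ¬ (i ∈ A0 ∧ col i = j) from fun h => hi h.1)]
        have h2 : c i = c' i := by
          by_contra h
          exact hi ((memA i).2 h)
        have h3 : b i = b' i := by
          rw [hb, hb']
          simp only [h2]
        rw [h3, sub_self, sub_self, zero_mul]
    · simp only [if_neg (show ¬ (i ∈ A0 ∧ col i = j) from fun h => hj h.2), if_neg hj]
      rw [sub_self, zero_mul]

theorem cube_Phi {q D g l H p r : ℕ} {z0 x0 : ℕ → ℕ} (hq : 2 ≤ q) (hDl : D ≤ l)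
    (hG : Gad q D g l H p r z0 x0) {G : Type} [AddCommGroup G] {d : ℕ} (hd : 1 ≤ d) (L s : ℕ)
    (t : Finset (Pt q D L) → G) (ht : ∀ S, S.card ≠ d → t S = 0) (g2 : ℕ → G)
    (hg2 : IsP q (d - 1) D g2) (η : ℤ) {ι : Type} [Fintype ι] [DecidableEq ι] (o : ι → ℕ × ℕ)
    (ho : ∀ i, (o i).2 < H)
    (hsep : ∀ i j, i ≠ j → (o i).1 + (g + l) ≤ (o j).1 ∨ (o j).1 + (g + l) ≤ (o i).1)
    {K : ℕ} (hK : ∀ i, (o i).1 + (g + l) ≤ K) (S : ℕ → (ι → Fin (q ^ (g + l))) → ℕ)
    (hS2 : ∀ v c i, S v c / q ^ (o i).1 % q ^ (g + l) = (c i : ℕ))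
    (hS3 : ∀ v c i (x : Fin (q ^ (g + l))), (c i : ℕ) ≤ x →
      S v (Function.update c i x) = S v c + ((x : ℕ) - c i) * q ^ (o i).1)
    (col : ι → Fin d) (u v : ℕ) (c c' : ι → Fin (q ^ (g + l)))
    (hcc : ∀ i, c i = c' i ∨ (((c i : ℕ) = zc q g l z0 x0 s (o i) ∨
      (c i : ℕ) = zc q g l z0 x0 s (o i) + q ^ (g + D)) ∧
      ((c' i : ℕ) = zc q g l z0 x0 s (o i) ∨
        (c' i : ℕ) = zc q g l z0 x0 s (o i) + q ^ (g + D)))) :
    ∑ I : Finset (Fin d), (-1 : ℤ) ^ I.card •
        Phi (fun n => FP q D L t n + g2 n) η p r s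
          (q ^ K * u + S v fun i => if col i ∈ I then c' i else c i) =
      BB q D g l L z0 x0 s p r η o t fun j i => if col i = j then
        (if (c i : ℕ) = zc q g l z0 x0 s (o i) + q ^ (g + D) then 1 else 0) -
          (if (c' i : ℕ) = zc q g l z0 x0 s (o i) + q ^ (g + D) then 1 else 0) else 0 := by
  obtain ⟨L2, t2, ht2, hg2'⟩ := hg2
  -- one multiplier, both phases
  have key : ∀ {τ : ℕ}, τ = p ∨ τ = r →
      ∑ I : Finset (Fin d), (-1 : ℤ) ^ I.card •
        (FP q D L t (τ * (q ^ K * u + S v fun i => if col i ∈ I then c' i else c i) + s) +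
          g2 (τ * (q ^ K * u + S v fun i => if col i ∈ I then c' i else c i) + s)) =
        mlt t fun j x => ∑ i, (if col i = j then
          ((if (c i : ℕ) = zc q g l z0 x0 s (o i) + q ^ (g + D) then 1 else 0) -
          (if (c' i : ℕ) = zc q g l z0 x0 s (o i) + q ^ (g + D) then 1 else 0) : ℤ) else 0) *
          gv q D g l L z0 x0 s τ (o i) x := by
    intro τ hτ
    obtain ⟨base, A, A', h1, h2, h3, h4⟩ := cubeP_one hq hDl hG (d := d) L s o ho hsep hK S hS2
      hS3 col u v c c' hcc hτ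
    obtain ⟨base2, B, B', k1, k2, k3, -⟩ := cubeP_one hq hDl hG (d := d) L2 s o ho hsep hK S hS2
      hS3 col u v c c' hcc hτ
    have e1 := alt_sum t (fun S hS => ht S (by
      rw [Fintype.card_fin] at hS
      exact hS.ne')) base A A' h1 h2
    have e2 := alt_zero t2 (fun S hS => ht2 S (by
      rw [Fintype.card_fin] at hS
      omega)) base2 B B' k1 k2
    have e3 : (fun j x => ∑ i, (if col i = j then
          ((if (c i : ℕ) = zc q g l z0 x0 s (o i) + q ^ (g + D) then 1 else 0) -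
          (if (c' i : ℕ) = zc q g l z0 x0 s (o i) + q ^ (g + D) then 1 else 0) : ℤ) else 0) *
          gv q D g l L z0 x0 s τ (o i) x) =
        fun (j : Fin d) (x : Pt q D L) => ((if x ∈ A j then (1 : ℤ) else 0) -
          if x ∈ A' j then 1 else 0) := by
      funext j x
      exact (h4 j x).symm
    rw [e3, ← e1]
    simp only [smul_add, sum_add_distrib]
    have e4 : ∑ I : Finset (Fin d), (-1 : ℤ) ^ I.card •
        g2 (τ * (q ^ K * u + S v fun i => if col i ∈ I then c' i else c i) + s) = 0 := by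
      rw [← e2]
      refine sum_congr rfl fun I _ => ?_
      rw [hg2', FP, k3 I]
    rw [e4, add_zero]
    refine sum_congr rfl fun I _ => ?_
    rw [FP, h3 I]
  have kp := key (τ := p) (Or.inl rfl)
  have kr := key (τ := r) (Or.inr rfl)
  unfold BB Phi
  rw [← kp, ← kr, smul_sum, ← sum_add_distrib]
  refine sum_congr rfl fun I _ => ?_
  rw [smul_add ((-1 : ℤ) ^ I.card), smul_comm η]

end Pool.Agent.Lib.MP_3e612f_nt.DI
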