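import Pool.Agent.Lib.MP_3e612f_nt.PI.Defs

/-!
# Moebius orthogonality for phases with interactions of every order: definitions, part S

Part S is the structure theorem for symmetric tensors which are only controlled on tuples of pairwise
far points. `X` is the set of points, `ξ : X → R` a map to a commutative ring, a tensor is an additive
map `T : R → ZMod ℓ`, its value at the points `x_1, …, x_d` is `T (ξ x_1 ⋯ ξ x_d)`, and its value at
vectors `v_j = ∑_x h_j(x) ξ x` is `T (v_1 ⋯ v_d)`. Tuples are indexed by finite sets of colours.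
-/

set_option autoImplicit false

namespace Pool.Agent.Lib.MP_3e612f_nt.DI

open Finset
open Pool.Agent.Lib.MP_3e612f_nt.PI (ee)

/-! ### Averages -/

/-- the average of a complex function on a finite type -/
noncomputable def av {α : Type} [Fintype α] (f : α → ℂ) : ℂ :=
  (Fintype.card α : ℂ)⁻¹ * ∑ a, f a

/-- the proportion of the elements which satisfy `P` -/
noncomputable def pr {α : Type} [Fintype α] (P : α → Prop) : ℝ := by
  classical
  exact ((Finset.univ.filter P).card : ℝ) / Fintype.card α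

/-- `φ` is additive in each of the colours of `B` and does not depend on the other colours -/
def MAdd {C E G : Type} [DecidableEq C] [AddCommGroup E] [AddCommGroup G] (B : Finset C)
    (φ : (C → E) → G) : Prop :=
  ∀ (x : C → E) (j : C),
    (j ∈ B → ∀ u v : E, φ (Function.update x j (u + v)) =
      φ (Function.update x j u) + φ (Function.update x j v)) ∧
    (j ∉ B → ∀ u : E, φ (Function.update x j u) = φ x)

section
variable {ℓ : ℕ}

/-- the vector with the coefficients `h x`, `x ∈ W` -/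
noncomputable def vec {X R : Type} [CommRing R] [Algebra (ZMod ℓ) R] (ξ : X → R) (W : Finset X) :
    (X → ZMod ℓ) →+ R where
  toFun h := ∑ x ∈ W, h x • ξ x
  map_zero' := by simp
  map_add' h h' := by simp [add_smul, Finset.sum_add_distrib]

/-- the functional `r ↦ T (a * r)` -/
def cm {R : Type} [CommRing R] (T : R →+ ZMod ℓ) (a : R) : R →+ ZMod ℓ :=
  T.comp (AddMonoidHom.mulLeft a)

/-- the bias of `T` on the products of the vectors `ι j (h j)`, `j ∈ B` -/
noncomputable def bi [NeZero ℓ] {C E R : Type} [Fintype C] [DecidableEq C] [AddCommGroup E]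
    [Fintype E] [CommRing R] (T : R →+ ZMod ℓ) (B : Finset C) (ι : C → E →+ R) : ℝ :=
  (av fun h : C → E => ee (T (∏ j ∈ B, ι j (h j)))).re

/-! ### Far sets -/

/-- the finite sets `W j`, `j ∈ B`, are pairwise far -/
def SepOn {C X : Type} (Far : X → X → Prop) (B : Finset C) (W : C → Finset X) : Prop :=
  ∀ i ∈ B, ∀ j ∈ B, i ≠ j → ∀ x ∈ W i, ∀ y ∈ W j, Far x y

/-- the points of `𝒳` which are far from all points of `Y` -/
def FarFrom {X : Type} (Far : X → X → Prop) (𝒳 : Set X) (Y : Finset X) : Set X :=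
  {x | x ∈ 𝒳 ∧ ∀ y ∈ Y, Far x y}

/-- `v j`, `j ∈ B`, are vectors supported by pairwise far finite subsets of `𝒳`, of at most `M`
elements -/
def GoodM (ℓ : ℕ) {C X R : Type} [CommRing R] [Algebra (ZMod ℓ) R] (ξ : X → R) (Far : X → X → Prop)
    (𝒳 : Set X) (M : ℕ) (B : Finset C) (v : C → R) : Prop :=
  ∃ W : C → Finset X, SepOn Far B W ∧ (∀ j ∈ B, (↑(W j) : Set X) ⊆ 𝒳) ∧
    (∀ j ∈ B, (W j).card ≤ M) ∧ ∀ j ∈ B, ∃ h : X → ZMod ℓ, v j = vec ξ (W j) h

/-- `v j`, `j ∈ B`, are vectors supported by pairwise far finite subsets of `𝒳` -/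
def Good (ℓ : ℕ) {C X R : Type} [CommRing R] [Algebra (ZMod ℓ) R] (ξ : X → R) (Far : X → X → Prop)
    (𝒳 : Set X) (B : Finset C) (v : C → R) : Prop :=
  ∃ W : C → Finset X, SepOn Far B W ∧ (∀ j ∈ B, (↑(W j) : Set X) ⊆ 𝒳) ∧
    ∀ j ∈ B, ∃ h : X → ZMod ℓ, v j = vec ξ (W j) h

/-- there are far sets of at most `s` points of `𝒳` on which the tensor `T` of order `i` has a bias
smaller than `ε` -/
def Wit [NeZero ℓ] {X R : Type} [Fintype X] [DecidableEq X] [CommRing R] [Algebra (ZMod ℓ) R]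
    (ξ : X → R) (Far : X → X → Prop) (𝒳 : Set X) (i : ℕ) (T : R →+ ZMod ℓ) (s : ℕ) (ε : ℝ) : Prop :=
  ∃ W : Fin i → Finset X, SepOn Far univ W ∧ (∀ j, (↑(W j) : Set X) ⊆ 𝒳) ∧
    (∀ j, (W j).card ≤ s) ∧ bi T univ (fun j => vec (ℓ := ℓ) ξ (W j)) < ε

/-! ### Structured tensors -/

/-- the functions of a tuple `v` with colours in `B` which are built from the values of the tensors of
`𝓖` (pairs order, tensor) at disjoint subtuples -/
inductive Alg {C R : Type} [DecidableEq C] [CommRing R] (𝓖 : Set (ℕ × (R →+ ZMod ℓ))) :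
    Finset C → ((C → R) → ZMod ℓ) → Prop
  | zero (B : Finset C) : Alg 𝓖 B fun _ => 0
  | one : Alg 𝓖 ∅ fun _ => 1
  | add {B : Finset C} {φ ψ : (C → R) → ZMod ℓ} :
      Alg 𝓖 B φ → Alg 𝓖 B ψ → Alg 𝓖 B fun v => φ v + ψ v
  | smul {B : Finset C} {φ : (C → R) → ZMod ℓ} (c : ZMod ℓ) :
      Alg 𝓖 B φ → Alg 𝓖 B fun v => c * φ v
  | gen {B : Finset C} {i : ℕ} {F : R →+ ZMod ℓ} :
      (i, F) ∈ 𝓖 → B.card = i → Alg 𝓖 B fun v => F (∏ j ∈ B, v j)
  | mul {B B' : Finset C} {φ ψ : (C → R) → ZMod ℓ} :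
      Disjoint B B' → Alg 𝓖 B φ → Alg 𝓖 B' ψ → Alg 𝓖 (B ∪ B') fun v => φ v * ψ v

/-- the tensor `T` of order `i` is built from the tensors of `𝓖`, on far tuples of vectors supported
by `𝒳` -/
def Str {X R : Type} [CommRing R] [Algebra (ZMod ℓ) R] (ξ : X → R) (Far : X → X → Prop)
    (𝒳 : Set X) (i : ℕ) (T : R →+ ZMod ℓ) (𝓖 : Set (ℕ × (R →+ ZMod ℓ))) : Prop :=
  ∀ (C : Type) [DecidableEq C] (B : Finset C), B.card = i →
    ∃ φ : (C → R) → ZMod ℓ, Alg 𝓖 B φ ∧
      ∀ v : C → R, Good ℓ ξ Far 𝒳 B v → T (∏ j ∈ B, v j) = φ v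

/-- the set of the pairs (order, tensor) of a family -/
def gens {R : Type} [CommRing R] {n : ℕ} (e : Fin n → ℕ) (F : Fin n → R →+ ZMod ℓ) :
    Set (ℕ × (R →+ ZMod ℓ)) :=
  Set.range fun κ => (e κ, F κ)

/-- the family is regular: every nontrivial linear combination of its tensors of order `i` has, far
from any `m` points, far sets of at most `s` points with bias smaller than `ε` -/
def Reg [NeZero ℓ] {X R : Type} [Fintype X] [DecidableEq X] [CommRing R] [Algebra (ZMod ℓ) R]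
    (ξ : X → R) (Far : X → X → Prop) (𝒳 : Set X) {n : ℕ} (e : Fin n → ℕ)
    (F : Fin n → R →+ ZMod ℓ) (ε : ℝ) (m s : ℕ) : Prop :=
  ∀ (i : ℕ) (c : Fin n → ZMod ℓ), (∀ κ, c κ ≠ 0 → e κ = i) → (∃ κ, c κ ≠ 0) →
    ∀ Y : Finset X, Y.card ≤ m → Wit ξ Far (FarFrom Far 𝒳 Y) i (∑ κ, c κ • F κ) s ε

/-- the structure theorem for tensors of order `i` -/
def SThm (ℓ : ℕ) [NeZero ℓ] (i : ℕ) : Prop :=
  ∀ ε : ℝ, 0 < ε → ∃ s K : ℕ, ∀ (X R : Type) [Fintype X] [DecidableEq X] [CommRing R]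
    [Algebra (ZMod ℓ) R] (ξ : X → R) (Far : X → X → Prop), (∀ x y, Far x y → Far y x) →
    ∀ (𝒳 : Set X) (T : R →+ ZMod ℓ), Wit ξ Far 𝒳 i T s ε ∨
      ∃ (Y : Finset X) (n : ℕ) (e : Fin n → ℕ) (F : Fin n → R →+ ZMod ℓ),
        Y.card ≤ K ∧ n ≤ K ∧ (∀ κ, 1 ≤ e κ ∧ e κ < i) ∧
        Str ξ Far (FarFrom Far 𝒳 Y) i T (gens e F)

end

end Pool.Agent.Lib.MP_3e612f_nt.DI
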