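import Pool.Agent.Lib.MP_3e612f_nt.DI.Cube

/-!
# (F3), (F4): products of binomials of the values `Q κ`

`QF e Fh κ U = ∑_{B ⊆ U, |B| = e κ} Fh κ B`, a function of the set `U` of the features. `Theta` are the
coefficients of `∏_κ binom(Q κ, m κ)`: `choose_feature`, `Theta_high`, `Theta_top`. `choose_mod`:
`binom(Q, m)` modulo `q ^ κ` only depends on `Q` modulo `q ^ (κ + m)`.
-/

set_option autoImplicit false

namespace Pool.Agent.Lib.MP_3e612f_nt.DI

open Finset

section
variable {X : Type} [DecidableEq X]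

/-- Moebius inversion, second form -/
theorem dl_of_sum {G : Type} [AddCommGroup G] (c : Finset X → G) (J : Finset X) :
    dl (fun I => ∑ B ∈ I.powerset, c B) J = c J := by
  have h1 : ∀ I ⊆ J, ∑ B ∈ I.powerset, c B = ∑ B ∈ J.powerset, if B ⊆ I then c B else 0 := by
    intro I hI
    rw [← Finset.sum_filter]
    refine Finset.sum_congr ?_ fun _ _ => rfl
    ext B
    rw [Finset.mem_filter, Finset.mem_powerset, Finset.mem_powerset]
    exact ⟨fun h => ⟨h.trans hI, h⟩, fun h => h.2⟩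
  rw [dl_congr h1, dl_sum, Finset.sum_congr rfl fun B hB =>
    dl_ind (c B) J B (Finset.mem_powerset.1 hB), Finset.sum_ite_eq',
    if_pos (Finset.mem_powerset_self J)]

variable {n : ℕ}

/-- the values `Q κ` as a function of the set of features -/
def QF (e : Fin n → ℕ) (Fh : Fin n → Finset X → ℕ) (κ : Fin n) (U : Finset X) : ℕ :=
  ∑ B ∈ U.powersetCard (e κ), Fh κ B

/-- the coefficients of the product of the binomials -/
def Theta (e : Fin n → ℕ) (Fh : Fin n → Finset X → ℕ) (m : Fin n → ℕ) (U : Finset X) : ℤ :=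
  dl (fun I => ((∏ κ, (QF e Fh κ I).choose (m κ) : ℕ) : ℤ)) U

omit [DecidableEq X] in
theorem QF_eq (e : Fin n → ℕ) (Fh : Fin n → Finset X → ℕ) (κ : Fin n) (U : Finset X) :
    (QF e Fh κ U : ℤ) = ∑ B ∈ U.powerset, if B.card = e κ then (Fh κ B : ℤ) else 0 := by
  rw [← Finset.sum_filter, QF, Nat.cast_sum]
  refine Finset.sum_congr ?_ fun _ _ => rfl
  ext B
  rw [Finset.mem_filter, Finset.mem_powersetCard, Finset.mem_powerset]

theorem dl_QF (e : Fin n → ℕ) (Fh : Fin n → Finset X → ℕ) (κ : Fin n) (J : Finset X) :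
    dl (fun U => (QF e Fh κ U : ℤ)) J = if J.card = e κ then (Fh κ J : ℤ) else 0 := by
  rw [← dl_of_sum (fun B : Finset X => if B.card = e κ then (Fh κ B : ℤ) else 0) J]
  congr 1
  funext U
  exact QF_eq e Fh κ U

theorem choose_feature (e : Fin n → ℕ) (Fh : Fin n → Finset X → ℕ) (m : Fin n → ℕ)
    (U : Finset X) : ((∏ κ, (QF e Fh κ U).choose (m κ) : ℕ) : ℤ) =
      ∑ V ∈ U.powerset, Theta e Fh m V :=
  dl_inv U fun I => ((∏ κ, (QF e Fh κ I).choose (m κ) : ℕ) : ℤ)

private theorem Theta_ring (e : Fin n → ℕ) (Fh : Fin n → Finset X → ℕ) (m : Fin n → ℕ)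
    (U : Finset X) : Theta e Fh m U =
      dl (fun I => ∏ κ, Ring.choose ((QF e Fh κ I : ℕ) : ℤ) (m κ)) U := by
  unfold Theta
  congr 1
  funext I
  push_cast
  refine Finset.prod_congr rfl fun κ _ => ?_
  rw [Ring.choose_natCast]

private theorem dl_QF_zero (e : Fin n → ℕ) (Fh : Fin n → Finset X → ℕ) (S : Finset X) :
    ∀ κ, ∀ J ⊆ S, e κ < J.card → dl (fun U => (QF e Fh κ U : ℤ)) J = 0 := by
  intro κ J _ hJ
  rw [dl_QF, if_neg]
  omega

theorem Theta_high (e : Fin n → ℕ) (Fh : Fin n → Finset X → ℕ) (m : Fin n → ℕ) (U : Finset X)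
    (h : ∑ κ, m κ * e κ < U.card) : Theta e Fh m U = 0 := by
  rw [Theta_ring]
  exact cube_low e (fun κ I => (QF e Fh κ I : ℤ)) m U (dl_QF_zero e Fh U) h

theorem Theta_top (e : Fin n → ℕ) (he : ∀ κ, 1 ≤ e κ) (Fh : Fin n → Finset X → ℕ)
    (m : Fin n → ℕ) (U : Finset X) (h : U.card = ∑ κ, m κ * e κ) :
    Theta e Fh m U = ∑ N ∈ LPa e m U, ∏ p ∈ N, (Fh p.2 p.1 : ℤ) := by
  rw [Theta_ring, cube_top e he (fun κ I => (QF e Fh κ I : ℤ)) m U (dl_QF_zero e Fh U) h]
  refine Finset.sum_congr rfl fun N hN => Finset.prod_congr rfl fun p hp => ?_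
  have h1 : p.1.card = e p.2 := by
    unfold LPa at hN
    exact (Finset.mem_filter.1 hN).2.1.1 p hp
  show dl (fun I => (QF e Fh p.2 I : ℤ)) p.1 = _
  rw [dl_QF, if_pos h1]

end

/-! ### periodicity of binomials -/

theorem pow_dvd_choose {q κ m y j : ℕ} (hq : 2 ≤ q) (hj : 1 ≤ j) (hjm : j ≤ m) :
    q ^ κ ∣ (q ^ (κ + m) * y).choose j := by
  set N := q ^ (κ + m) * y with hN
  rcases Nat.eq_zero_or_pos (N.choose j) with hC | hC
  · rw [hC]
    exact dvd_zero _
  have hN0 : 1 ≤ N := by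
    by_contra hcon
    have : N = 0 := by omega
    rw [this, Nat.choose_eq_zero_of_lt (by omega)] at hC
    exact lt_irrefl _ hC
  have h1 : q ^ (κ + m) ∣ N.choose j * j := by
    have h2 := Nat.add_one_mul_choose_eq (N - 1) (j - 1)
    rw [Nat.sub_add_cancel hN0, Nat.sub_add_cancel hj] at h2
    rw [← h2, hN, mul_assoc]
    exact dvd_mul_right _ _
  have hq0 : q ≠ 0 := by omega
  rw [← Nat.factorization_le_iff_dvd (pow_ne_zero _ hq0) hC.ne']
  intro p
  have h2 := (Nat.factorization_le_iff_dvd (pow_ne_zero _ hq0)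
    (mul_ne_zero hC.ne' (by omega))).2 h1 p
  rw [Nat.factorization_mul hC.ne' (by omega), Nat.factorization_pow, Finsupp.add_apply,
    Finsupp.smul_apply, smul_eq_mul] at h2
  rw [Nat.factorization_pow, Finsupp.smul_apply, smul_eq_mul]
  have h3 : j.factorization p < j := Nat.factorization_lt p (by omega)
  rcases Nat.eq_zero_or_pos (q.factorization p) with h4 | h4
  · rw [h4]
    omega
  · nlinarith

theorem choose_mod {q κ m Q Q' : ℕ} (hq : 2 ≤ q) (h : Q ≡ Q' [MOD q ^ (κ + m)]) :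
    Q.choose m ≡ Q'.choose m [MOD q ^ κ] := by
  have key : ∀ Q y : ℕ, (Q + q ^ (κ + m) * y).choose m ≡ Q.choose m [MOD q ^ κ] := by
    intro Q y
    rw [Nat.add_choose_eq]
    have h1 : (m, 0) ∈ HasAntidiagonal.antidiagonal m := by
      rw [HasAntidiagonal.mem_antidiagonal]
      simp
    rw [← Finset.add_sum_erase _ _ h1]
    simp only [Nat.choose_zero_right, mul_one]
    have h2 : q ^ κ ∣ ∑ x ∈ (HasAntidiagonal.antidiagonal m).erase (m, 0),
        Q.choose x.1 * (q ^ (κ + m) * y).choose x.2 := by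
      refine Finset.dvd_sum fun x hx => ?_
      rw [Finset.mem_erase, HasAntidiagonal.mem_antidiagonal] at hx
      refine Dvd.dvd.mul_left (pow_dvd_choose hq ?_ (by omega)) _
      by_contra hcon
      refine hx.1 (Prod.ext ?_ ?_)
      · show x.1 = m
        omega
      · show x.2 = 0
        omega
    have h3 := (Nat.modEq_zero_iff_dvd.2 h2)
    have h4 := Nat.ModEq.add_left (Q.choose m) h3
    simpa using h4
  rcases le_total Q Q' with hle | hle
  · obtain ⟨y, hy⟩ := (Nat.modEq_iff_dvd' hle).1 h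
    have h1 : Q' = Q + q ^ (κ + m) * y := by omega
    rw [h1]
    exact (key Q y).symm
  · obtain ⟨y, hy⟩ := (Nat.modEq_iff_dvd' hle).1 h.symm
    have h1 : Q = Q' + q ^ (κ + m) * y := by omega
    rw [h1]
    exact key Q' y

end Pool.Agent.Lib.MP_3e612f_nt.DI
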