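import Pool.Agent.Lib.MP_3e612f_nt.DI.StabV

/-!
The structure theorem in symmetric, explicit form.

`LP e S`: the labelled partitions of the finite set `S`: finite sets of pairs `(B, κ)` with `B ⊆ S`, `B.card = e κ`, the
blocks `B` pairwise disjoint with union `S`. `mul N κ`: the number of the blocks with the label `κ`.

PROOF of `alg_explicit`: induction on `Alg`; `zero`: `0`; `one`: coefficient `1` at `∅`; `add`, `smul`: clear; `gen`: the
coefficient `1` at the single block `{(B, κ)}` (`(i, F) ∈ gens e F` gives `κ`; `e κ ≥ 1`); `mul`: the product of the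
coefficients of `N ∩ (pairs in B)` and `N ∩ (pairs in B')` if every block of `N` is contained in `B` or in `B'`, otherwise `0`
(the map `(N1, N2) ↦ N1 ∪ N2` is injective on `LP e B ×ˢ LP e B'`, as blocks are nonempty and `B, B'` disjoint).

PROOF of `sym_coeff`. By `alg_explicit` (colours `Fin d`) `T (∏ v) = ∑_{N ∈ LP e univ} lam N * ∏_{p ∈ N} F p.2 (∏_{j ∈ p.1} v j)` for
`Good` tuples. Let `c` be any pattern (function on pairs); by `realise` (with `c' = c`; `𝒳` in the place of `𝒳`) there is a far tuple `v` of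
vectors with this pattern, so `T (∏ v) = P c`, `P c = ∑_N lam N ∏_{p ∈ N} c p`. For a permutation `π` of `Fin d` the tuple `v ∘ π` is also
good, has the same product, and the pattern `c ∘ π`, `(c ∘ π) (B, κ) = c (B.image π, κ)`: so `P c = P (c ∘ π)`. For the indicator
`c` of `N0 ∈ LP e univ`: `P c = ∑_{N ⊆ N0} lam N = lam N0` (a partition contained in a partition of the same set, with nonempty blocks, is equal),
and `P (c ∘ π) = lam (π⁻¹ N0)`. If `mul N0 = mul N1` there is `π` with `N1 = π N0` (match the blocks with equal labels, which have equal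
cardinalities `e κ`). So `lam N` depends only on `mul N`.

PROOF of `sthm_sym`. `sthm` for `T` gives `Y0, e0, F0` (or the witness); `regularise` with `N0 = K0`, `lev n = (ℓ ^ (2 * 2 ^ d * n + 1))⁻¹`,
`m n = 2 ^ d * ℓ ^ n * (d * σ (lev n))` on `FarFrom 𝒳 Y0`; `Str.trans`; `sym_coeff`. For a finite far set `S` with `d` points take a
bijection `b : Fin d → S`, `v = ξ ∘ b` (good: a point is `vec ξ {x} 1`), and transport `LP e univ` to `LP e S` by the image under `b`.
-/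

set_option autoImplicit false

namespace Pool.Agent.Lib.MP_3e612f_nt.DI

open Finset

/-- the labelled partitions of `S` -/
noncomputable def LP {C : Type} [DecidableEq C] {n : ℕ} (e : Fin n → ℕ) (S : Finset C) :
    Finset (Finset (Finset C × Fin n)) := by
  classical
  exact (S.powerset ×ˢ (univ : Finset (Fin n))).powerset.filter fun N =>
    (∀ p ∈ N, p.1.card = e p.2) ∧ (∀ p ∈ N, ∀ p' ∈ N, p ≠ p' → Disjoint p.1 p'.1) ∧
      N.biUnion (fun p => p.1) = S

/-- the number of the blocks with the label `κ` -/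
def mul {C : Type} {n : ℕ} (N : Finset (Finset C × Fin n)) (κ : Fin n) : ℕ :=
  (N.filter fun p => p.2 = κ).card

private theorem mem_LP {C : Type} [DecidableEq C] {n : ℕ} {e : Fin n → ℕ} {S : Finset C}
    {N : Finset (Finset C × Fin n)} : N ∈ LP e S ↔
      (∀ p ∈ N, p.1 ⊆ S) ∧ (∀ p ∈ N, p.1.card = e p.2) ∧
      (∀ p ∈ N, ∀ p' ∈ N, p ≠ p' → Disjoint p.1 p'.1) ∧ ∀ x ∈ S, ∃ p ∈ N, x ∈ p.1 := by
  classical
  unfold LP
  rw [mem_filter, mem_powerset]
  constructor
  · rintro ⟨h1, h2, h3, h4⟩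
    have h5 : ∀ x, x ∈ S ↔ ∃ p ∈ N, x ∈ p.1 := by
      intro x
      rw [← mem_biUnion, h4]
    exact ⟨fun p hp x hx => (h5 x).2 ⟨p, hp, hx⟩, h2, h3, fun x hx => (h5 x).1 hx⟩
  · rintro ⟨h1, h2, h3, h4⟩
    refine ⟨fun p hp => ?_, h2, h3, ?_⟩
    · rw [mem_product, mem_powerset]
      exact ⟨h1 p hp, mem_univ _⟩
    · ext x
      rw [mem_biUnion]
      exact ⟨fun ⟨p, hp, hx⟩ => h1 p hp hx, h4 x⟩

/-- the blocks are nonempty -/
private theorem LP_nonempty {C : Type} [DecidableEq C] {n : ℕ} {e : Fin n → ℕ} (he : ∀ κ, 1 ≤ e κ)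
    {S : Finset C} {N : Finset (Finset C × Fin n)} (hN : N ∈ LP e S) {p : Finset C × Fin n}
    (hp : p ∈ N) : p.1.Nonempty := by
  rw [← card_pos, (mem_LP.1 hN).2.1 p hp]
  exact he p.2

theorem alg_explicit {ℓ : ℕ} {C R : Type} [DecidableEq C] [CommRing R] {n : ℕ} {e : Fin n → ℕ}
    {F : Fin n → R →+ ZMod ℓ} (he : ∀ κ, 1 ≤ e κ) {B : Finset C} {φ : (C → R) → ZMod ℓ}
    (h : Alg (gens e F) B φ) :
    ∃ lam : Finset (Finset C × Fin n) → ZMod ℓ, ∀ v : C → R,
      φ v = ∑ N ∈ LP e B, lam N * ∏ p ∈ N, F p.2 (∏ j ∈ p.1, v j) := by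
  classical
  induction h with
  | zero B => exact ⟨fun _ => 0, fun v => by simp⟩
  | one =>
    refine ⟨fun _ => 1, fun v => ?_⟩
    have h1 : LP (C := C) e ∅ = {∅} := by
      ext N
      rw [mem_singleton]
      constructor
      · intro hN
        rw [eq_empty_iff_forall_notMem]
        intro p hp
        obtain ⟨x, hx⟩ := LP_nonempty he hN hp
        exact notMem_empty x ((mem_LP.1 hN).1 p hp hx)
      · rintro rfl
        rw [mem_LP]
        simp
    rw [h1]
    simp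
  | add _ _ h1 h2 =>
    obtain ⟨l1, k1⟩ := h1
    obtain ⟨l2, k2⟩ := h2
    refine ⟨fun N => l1 N + l2 N, fun v => ?_⟩
    beta_reduce
    rw [k1 v, k2 v, ← sum_add_distrib]
    exact sum_congr rfl fun N _ => by ring
  | smul c _ h1 =>
    obtain ⟨l1, k1⟩ := h1
    refine ⟨fun N => c * l1 N, fun v => ?_⟩
    beta_reduce
    rw [k1 v, mul_sum]
    exact sum_congr rfl fun N _ => by ring
  | @gen B i F' hm hB =>
    obtain ⟨κ, hκ⟩ := hm
    have e1 : e κ = i := congrArg Prod.fst hκ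
    have e2 : F κ = F' := congrArg Prod.snd hκ
    refine ⟨fun N => if N = {(B, κ)} then 1 else 0, fun v => ?_⟩
    have hmem : ({(B, κ)} : Finset (Finset C × Fin n)) ∈ LP e B := by
      rw [mem_LP]
      refine ⟨fun p hp => ?_, fun p hp => ?_, fun p hp p' hp' hne => ?_, fun x hx => ?_⟩
      · rw [mem_singleton.1 hp]
      · rw [mem_singleton.1 hp]
        exact hB.trans e1.symm
      · exact absurd ((mem_singleton.1 hp).trans (mem_singleton.1 hp').symm) hne
      · exact ⟨_, mem_singleton_self _, hx⟩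
    rw [sum_eq_single_of_mem _ hmem]
    · beta_reduce
      rw [if_pos rfl, one_mul, prod_singleton, e2]
    · intro N _ hne
      beta_reduce
      rw [if_neg hne, zero_mul]
  | @mul B B' φ ψ hd _ _ h1 h2 =>
    obtain ⟨l1, k1⟩ := h1
    obtain ⟨l2, k2⟩ := h2
    have hdis : ∀ N1 ∈ LP e B, ∀ N2 ∈ LP e B', ∀ p ∈ N1, ∀ p' ∈ N2, Disjoint p.1 p'.1 :=
      fun N1 hN1 N2 hN2 p hp p' hp' =>
        (hd.mono_left ((mem_LP.1 hN1).1 p hp)).mono_right ((mem_LP.1 hN2).1 p' hp')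
    have hdis2 : ∀ N1 ∈ LP e B, ∀ N2 ∈ LP e B', Disjoint N1 N2 := by
      intro N1 hN1 N2 hN2
      rw [Finset.disjoint_left]
      intro p hp hp'
      obtain ⟨x, hx⟩ := LP_nonempty he hN1 hp
      exact Finset.disjoint_left.1 (hdis N1 hN1 N2 hN2 p hp p hp') hx hx
    have hmap : ∀ q ∈ LP e B ×ˢ LP e B', q.1 ∪ q.2 ∈ LP e (B ∪ B') := by
      intro q hq
      rw [mem_product] at hq
      obtain ⟨a1, a2, a3, a4⟩ := mem_LP.1 hq.1
      obtain ⟨b1, b2, b3, b4⟩ := mem_LP.1 hq.2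
      rw [mem_LP]
      refine ⟨fun p hp => ?_, fun p hp => ?_, fun p hp p' hp' hne => ?_, fun x hx => ?_⟩
      · rcases mem_union.1 hp with h | h
        · exact (a1 p h).trans subset_union_left
        · exact (b1 p h).trans subset_union_right
      · rcases mem_union.1 hp with h | h
        · exact a2 p h
        · exact b2 p h
      · rcases mem_union.1 hp with h | h <;> rcases mem_union.1 hp' with h' | h'
        · exact a3 p h p' h' hne
        · exact hdis _ hq.1 _ hq.2 p h p' h'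
        · exact (hdis _ hq.1 _ hq.2 p' h' p h).symm
        · exact b3 p h p' h' hne
      · rcases mem_union.1 hx with h | h
        · obtain ⟨p, hp, hxp⟩ := a4 x h
          exact ⟨p, mem_union_left _ hp, hxp⟩
        · obtain ⟨p, hp, hxp⟩ := b4 x h
          exact ⟨p, mem_union_right _ hp, hxp⟩
    refine ⟨fun N => ∑ q ∈ (LP e B ×ˢ LP e B').filter (fun q => q.1 ∪ q.2 = N), l1 q.1 * l2 q.2,
      fun v => ?_⟩
    show φ v * ψ v = _
    rw [k1 v, k2 v, sum_mul_sum, ← sum_product']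
    rw [← sum_fiberwise_of_maps_to hmap]
    refine sum_congr rfl fun N _ => ?_
    rw [sum_mul]
    refine sum_congr rfl fun q hq => ?_
    rw [mem_filter, mem_product] at hq
    rw [← hq.2, prod_union (hdis2 _ hq.1.1 _ hq.1.2)]
    ring

/-! ### Transport -/

section
variable {C D : Type} {n : ℕ}

/-- the image of a labelled block -/
private def mp (g : C ↪ D) : Finset C × Fin n ↪ Finset D × Fin n where
  toFun p := (p.1.map g, p.2)
  inj' := by
    rintro ⟨a, i⟩ ⟨b, j⟩ h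
    have h1 : a.map g = b.map g := congrArg Prod.fst h
    have h2 : i = j := congrArg Prod.snd h
    rw [Prod.mk.injEq]
    exact ⟨map_injective g h1, h2⟩

private theorem mp_apply (g : C ↪ D) (p : Finset C × Fin n) : mp g p = (p.1.map g, p.2) := rfl

private theorem map_mem_LP [DecidableEq C] [DecidableEq D] (g : C ↪ D) {e : Fin n → ℕ}
    {S : Finset C} {N : Finset (Finset C × Fin n)} :
    N.map (mp g) ∈ LP e (S.map g) ↔ N ∈ LP e S := by
  rw [mem_LP, mem_LP]
  simp only [forall_mem_map, mp_apply, map_subset_map, card_map]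
  refine and_congr_right fun _ => and_congr_right fun _ => and_congr ?_ ?_
  · constructor
    · intro h p hp p' hp' hne
      have := h p hp p' hp' fun he => hne ((mp g).injective he)
      rwa [disjoint_map] at this
    · intro h p hp p' hp' hne
      rw [disjoint_map]
      exact h p hp p' hp' fun he => hne (by rw [he])
  · constructor
    · intro h x hx
      obtain ⟨q, hq, hxq⟩ := h x hx
      obtain ⟨p, hp, rfl⟩ := mem_map.1 hq
      exact ⟨p, hp, (mem_map' g).1 hxq⟩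
    · intro h x hx
      obtain ⟨p, hp, hxp⟩ := h x hx
      exact ⟨mp g p, mem_map_of_mem _ hp, (mem_map' g).2 hxp⟩

private theorem exists_map [DecidableEq C] [DecidableEq D] (g : C ↪ D) {e : Fin n → ℕ}
    {S : Finset C} {M : Finset (Finset D × Fin n)} (hM : M ∈ LP e (S.map g)) :
    ∃ N ∈ LP e S, N.map (mp g) = M := by
  have h1 : M ⊆ (S.powerset ×ˢ (univ : Finset (Fin n))).map (mp g) := by
    intro p hp
    obtain ⟨u, hu, hup⟩ := subset_map_iff.1 ((mem_LP.1 hM).1 p hp)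
    rw [mem_map]
    refine ⟨(u, p.2), ?_, ?_⟩
    · rw [mem_product, mem_powerset]
      exact ⟨hu, mem_univ _⟩
    · rw [mp_apply, ← hup]
  obtain ⟨N, _, rfl⟩ := subset_map_iff.1 h1
  exact ⟨N, (map_mem_LP g).1 hM, rfl⟩

/-- transport of sums -/
private theorem sum_LP_map [DecidableEq C] [DecidableEq D] {A : Type} [AddCommMonoid A]
    (g : C ↪ D) (e : Fin n → ℕ) (S : Finset C) (f : Finset (Finset D × Fin n) → A) :
    ∑ N ∈ LP e (S.map g), f N = ∑ N ∈ LP e S, f (N.map (mp g)) := by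
  symm
  refine sum_bij (fun N _ => N.map (mp g)) (fun N hN => (map_mem_LP g).2 hN)
    (fun N _ N' _ h => map_injective _ h) (fun M hM => ?_) (fun _ _ => rfl)
  obtain ⟨N, hN, h⟩ := exists_map g hM
  exact ⟨N, hN, h⟩

private theorem mul_map (g : C ↪ D) (N : Finset (Finset C × Fin n)) :
    mul (N.map (mp g)) = mul N := by
  funext κ
  unfold mul
  rw [filter_map, card_map]
  rfl

/-- a partition which is contained in a partition of the same set -/
private theorem LP_eq_of_subset [DecidableEq C] {e : Fin n → ℕ} (he : ∀ κ, 1 ≤ e κ) {S : Finset C}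
    {N N' : Finset (Finset C × Fin n)} (hN : N ∈ LP e S) (hN' : N' ∈ LP e S) (h : N ⊆ N') :
    N = N' := by
  refine Subset.antisymm h fun p hp => ?_
  obtain ⟨x, hx⟩ := LP_nonempty he hN' hp
  obtain ⟨q, hq, hxq⟩ := (mem_LP.1 hN).2.2.2 x ((mem_LP.1 hN').1 p hp hx)
  by_cases hpq : p = q
  · rw [hpq]
    exact hq
  · exact absurd hxq (Finset.disjoint_left.1 ((mem_LP.1 hN').2.2.1 p hp q (h hq) hpq) hx)

/-- two partitions with the same multiplicities are related by a permutation -/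
private theorem exists_perm {d : ℕ} {e : Fin n → ℕ} {N N' : Finset (Finset (Fin d) × Fin n)}
    (hN : N ∈ LP e univ) (hN' : N' ∈ LP e univ) (h : mul N = mul N') :
    ∃ π : Equiv.Perm (Fin d), N.map (mp π.toEmbedding) = N' := by
  classical
  -- the labels
  have hfib : ∀ κ : Fin n, Nonempty ({x : {p // p ∈ N} // x.1.2 = κ} ≃
      {x : {p // p ∈ N'} // x.1.2 = κ}) := by
    intro κ
    have hc : ∀ M : Finset (Finset (Fin d) × Fin n),
        Fintype.card {x : {p // p ∈ M} // x.1.2 = κ} = mul M κ := by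
      intro M
      unfold mul
      rw [Fintype.card_subtype, ← card_map (Function.Embedding.subtype (· ∈ M))]
      congr 1
      ext p
      simp only [mem_map, mem_filter, mem_univ, true_and, Function.Embedding.coe_subtype,
        Subtype.exists, exists_and_right, exists_eq_right]
      constructor
      · rintro ⟨hp, hk⟩
        exact ⟨hp, hk⟩
      · rintro ⟨hp, hk⟩
        exact ⟨hp, hk⟩
    exact ⟨Fintype.equivOfCardEq (by rw [hc, hc, h])⟩
  let τ : ∀ κ : Fin n, {x : {p // p ∈ N} // x.1.2 = κ} ≃ {x : {p // p ∈ N'} // x.1.2 = κ} :=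
    fun κ => (hfib κ).some
  let σ : {p // p ∈ N} ≃ {p // p ∈ N'} :=
    (Equiv.sigmaFiberEquiv fun x : {p // p ∈ N} => x.1.2).symm.trans
      ((Equiv.sigmaCongrRight τ).trans (Equiv.sigmaFiberEquiv fun x : {p // p ∈ N'} => x.1.2))
  have hσ : ∀ x, (σ x).1.2 = x.1.2 := fun x => (τ x.1.2 ⟨x, rfl⟩).2
  -- the blocks
  have hcard : ∀ x : {p // p ∈ N}, x.1.1.card = (σ x).1.1.card := by
    intro x
    rw [(mem_LP.1 hN).2.1 x.1 x.2, (mem_LP.1 hN').2.1 (σ x).1 (σ x).2, hσ]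
  let β : ∀ x : {p // p ∈ N}, x.1.1 ≃ (σ x).1.1 := fun x => Finset.equivOfCardEq (hcard x)
  have hE : ∀ M ∈ LP e (univ : Finset (Fin d)),
      Function.Bijective fun y : (Σ x : {p // p ∈ M}, x.1.1) => (y.2 : Fin d) := by
    intro M hM
    obtain ⟨_, _, h3, h4⟩ := mem_LP.1 hM
    constructor
    · rintro ⟨⟨p, hp⟩, ⟨x, hx⟩⟩ ⟨⟨p', hp'⟩, ⟨x', hx'⟩⟩ hxx
      have hxx' : x = x' := hxx
      subst hxx'
      have hpp : p = p' := by
        by_contra hne
        exact Finset.disjoint_left.1 (h3 p hp p' hp' hne) hx hx'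
      subst hpp
      rfl
    · intro x
      obtain ⟨p, hp, hx⟩ := h4 x (mem_univ x)
      exact ⟨⟨⟨p, hp⟩, ⟨x, hx⟩⟩, rfl⟩
  let E1 := Equiv.ofBijective _ (hE N hN)
  let E2 := Equiv.ofBijective _ (hE N' hN')
  let π : Equiv.Perm (Fin d) := E1.symm.trans ((Equiv.sigmaCongr σ β).trans E2)
  have hπ : ∀ (x : {p // p ∈ N}) (y : x.1.1), π y = β x y := by
    intro x y
    have h1 : E1.symm (y : Fin d) = ⟨x, y⟩ := by
      rw [Equiv.symm_apply_eq]
      rfl
    show E2 (Equiv.sigmaCongr σ β (E1.symm (y : Fin d))) = _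
    rw [h1]
    rfl
  have hblock : ∀ x : {p // p ∈ N}, x.1.1.map π.toEmbedding = (σ x).1.1 := by
    intro x
    refine eq_of_subset_of_card_le ?_ ?_
    · intro z hz
      obtain ⟨y, hy, rfl⟩ := mem_map.1 hz
      show π y ∈ _
      rw [hπ x ⟨y, hy⟩]
      exact (β x ⟨y, hy⟩).2
    · rw [card_map, hcard]
  refine ⟨π, ?_⟩
  ext q
  rw [mem_map]
  constructor
  · rintro ⟨p, hp, rfl⟩
    have h1 : mp π.toEmbedding p = (σ ⟨p, hp⟩).1 := by
      rw [mp_apply]
      exact Prod.ext (hblock ⟨p, hp⟩) (hσ ⟨p, hp⟩).symm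
    rw [h1]
    exact (σ ⟨p, hp⟩).2
  · intro hq
    obtain ⟨x, hx⟩ := σ.surjective ⟨q, hq⟩
    refine ⟨x.1, x.2, ?_⟩
    have h1 : (σ x).1 = q := by rw [hx]
    rw [mp_apply, ← h1]
    exact Prod.ext (hblock x) (hσ x).symm

end

theorem sym_coeff {ℓ : ℕ} [NeZero ℓ] {X R : Type} [Fintype X] [DecidableEq X]
    [CommRing R] [Algebra (ZMod ℓ) R] {n : ℕ} {ξ : X → R} {Far : X → X → Prop} {𝒳 : Set X}
    {e : Fin n → ℕ} {F : Fin n → R →+ ZMod ℓ} (hsymm : ∀ x y, Far x y → Far y x)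
    (he : ∀ κ, 1 ≤ e κ) {ε : ℝ} {m s : ℕ} (hreg : Reg ξ Far 𝒳 e F ε m s) {d : ℕ} (hd : 1 ≤ d)
    (hm : 2 ^ d * ℓ ^ n * (d * s) ≤ m) (hε0 : 0 ≤ ε) (hε : ε < ((ℓ : ℝ) ^ (2 * 2 ^ d * n))⁻¹)
    (T : R →+ ZMod ℓ) (hT : Str ξ Far 𝒳 d T (gens e F)) :
    ∃ lam : (Fin n → ℕ) → ZMod ℓ, ∀ v : Fin d → R, Good ℓ ξ Far 𝒳 univ v →
      T (∏ j, v j) = ∑ N ∈ LP e univ, lam (mul N) * ∏ p ∈ N, F p.2 (∏ j ∈ p.1, v j) := by
  classical
  have hcard : (univ : Finset (Fin d)).card = d := by rw [card_univ, Fintype.card_fin]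
  obtain ⟨φ, h1, h2⟩ := hT (Fin d) univ hcard
  obtain ⟨lam0, h3⟩ := alg_explicit he h1
  -- all patterns
  have h4 : ∀ (c : Finset (Fin d) × Fin n → ZMod ℓ) (π : Equiv.Perm (Fin d)),
      ∑ N ∈ LP e univ, lam0 N * ∏ p ∈ N, c p =
        ∑ N ∈ LP e univ, lam0 N * ∏ p ∈ N, c (mp π.toEmbedding p) := by
    intro c π
    obtain ⟨W, h, h', k1, k2, _, k4, _⟩ := realise (C := Fin d) hsymm hreg he univ
      (by rw [hcard]; exact hm) hε0 (by rw [hcard]; exact hε) (mem_univ (⟨0, hd⟩ : Fin d)) c c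
      fun _ _ => rfl
    set v : Fin d → R := fun i => vec ξ (W i) (h i) with hv
    have g1 : Good ℓ ξ Far 𝒳 univ v := ⟨W, k1, fun j _ => k2 j, fun j _ => ⟨h j, rfl⟩⟩
    have g2 : Good ℓ ξ Far 𝒳 univ (v ∘ π) :=
      ⟨W ∘ π, fun i _ j _ hij => k1 (π i) (mem_univ _) (π j) (mem_univ _) fun hc =>
        hij (π.injective hc), fun j _ => k2 (π j), fun j _ => ⟨h (π j), rfl⟩⟩
    have e1 := h2 v g1
    have e2 := h2 (v ∘ π) g2
    have e3 : ∏ j, (v ∘ π) j = ∏ j, v j := Equiv.prod_comp π v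
    rw [e3, e1, h3 v, h3 (v ∘ π)] at e2
    have e4 : ∀ N ∈ LP e (univ : Finset (Fin d)),
        ∏ p ∈ N, F p.2 (∏ j ∈ p.1, v j) = ∏ p ∈ N, c p := by
      intro N hN
      refine prod_congr rfl fun p hp => ?_
      exact k4 p.1 (subset_univ _) p.2 ((mem_LP.1 hN).2.1 p hp)
    have e5 : ∀ N ∈ LP e (univ : Finset (Fin d)),
        ∏ p ∈ N, F p.2 (∏ j ∈ p.1, (v ∘ π) j) = ∏ p ∈ N, c (mp π.toEmbedding p) := by
      intro N hN
      refine prod_congr rfl fun p hp => ?_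
      have := k4 (p.1.map π.toEmbedding) (subset_univ _) p.2
        (by rw [card_map]; exact (mem_LP.1 hN).2.1 p hp)
      rw [prod_map] at this
      exact this
    calc ∑ N ∈ LP e univ, lam0 N * ∏ p ∈ N, c p
        = ∑ N ∈ LP e univ, lam0 N * ∏ p ∈ N, F p.2 (∏ j ∈ p.1, v j) :=
          sum_congr rfl fun N hN => by rw [e4 N hN]
      _ = ∑ N ∈ LP e univ, lam0 N * ∏ p ∈ N, F p.2 (∏ j ∈ p.1, (v ∘ π) j) := e2
      _ = ∑ N ∈ LP e univ, lam0 N * ∏ p ∈ N, c (mp π.toEmbedding p) :=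
          sum_congr rfl fun N hN => by rw [e5 N hN]
  -- the coefficients are invariant
  have h5 : ∀ N ∈ LP e (univ : Finset (Fin d)), ∀ π : Equiv.Perm (Fin d),
      lam0 (N.map (mp π.toEmbedding)) = lam0 N := by
    intro N hN π
    have hu : (univ : Finset (Fin d)).map π.toEmbedding = univ := by
      rw [map_univ_equiv]
    have hN2 : N.map (mp π.toEmbedding) ∈ LP e (univ : Finset (Fin d)) := by
      have := (map_mem_LP π.toEmbedding (e := e)).2 hN
      rwa [hu] at this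
    have ind : ∀ (N0 N' : Finset (Finset (Fin d) × Fin n)), ∏ p ∈ N', (if p ∈ N0 then (1 : ZMod ℓ)
        else 0) = if N' ⊆ N0 then 1 else 0 := by
      intro N0 N'
      by_cases hs : N' ⊆ N0
      · rw [if_pos hs]
        exact prod_eq_one fun p hp => if_pos (hs hp)
      · rw [if_neg hs]
        obtain ⟨p, hp, hp'⟩ := Finset.not_subset.1 hs
        exact prod_eq_zero hp (if_neg hp')
    have key := h4 (fun p => if p ∈ N.map (mp π.toEmbedding) then 1 else 0) π
    have l1 : ∀ N' ∈ LP e (univ : Finset (Fin d)), lam0 N' * ∏ p ∈ N',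
        (if p ∈ N.map (mp π.toEmbedding) then (1 : ZMod ℓ) else 0) =
        if N' = N.map (mp π.toEmbedding) then lam0 N' else 0 := by
      intro N' hN'
      rw [ind]
      by_cases hs : N' ⊆ N.map (mp π.toEmbedding)
      · rw [if_pos hs, if_pos (LP_eq_of_subset he hN' hN2 hs), mul_one]
      · rw [if_neg hs, if_neg fun hc => hs (by rw [hc]), mul_zero]
    have l2 : ∀ N' ∈ LP e (univ : Finset (Fin d)), lam0 N' * ∏ p ∈ N',
        (if mp π.toEmbedding p ∈ N.map (mp π.toEmbedding) then (1 : ZMod ℓ) else 0) =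
        if N' = N then lam0 N' else 0 := by
      intro N' hN'
      have : ∀ p, (mp π.toEmbedding p ∈ N.map (mp π.toEmbedding)) = (p ∈ N) := fun p =>
        propext (mem_map' _)
      simp only [this]
      rw [ind]
      by_cases hs : N' ⊆ N
      · rw [if_pos hs, if_pos (LP_eq_of_subset he hN' hN hs), mul_one]
      · rw [if_neg hs, if_neg fun hc => hs (by rw [hc]), mul_zero]
    rw [sum_congr rfl l1, sum_congr rfl l2, sum_ite_eq' , sum_ite_eq', if_pos hN2, if_pos hN] at key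
    exact key
  have h6 : ∀ N ∈ LP e (univ : Finset (Fin d)), ∀ N' ∈ LP e (univ : Finset (Fin d)),
      mul N = mul N' → lam0 N = lam0 N' := by
    intro N hN N' hN' h
    obtain ⟨π, rfl⟩ := exists_perm hN hN' h
    exact (h5 N hN π).symm
  refine ⟨fun f => if hf : ∃ N ∈ LP e (univ : Finset (Fin d)), mul N = f then lam0 hf.choose
    else 0, fun v hv => ?_⟩
  rw [h2 v hv, h3 v]
  refine sum_congr rfl fun N hN => ?_
  have hf : ∃ N' ∈ LP e (univ : Finset (Fin d)), mul N' = mul N := ⟨N, hN, rfl⟩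
  beta_reduce
  rw [dif_pos hf, h6 _ hf.choose_spec.1 N hN hf.choose_spec.2]

/-- the structure theorem, symmetric form -/
theorem sthm_sym {ℓ : ℕ} [NeZero ℓ] (hℓ : ℓ.Prime) (d : ℕ) (hd : 1 ≤ d) (ε : ℝ) (hε : 0 < ε) :
    ∃ s K : ℕ, ∀ (X R : Type) [Fintype X] [DecidableEq X] [CommRing R] [Algebra (ZMod ℓ) R]
      (ξ : X → R) (Far : X → X → Prop), (∀ x y, Far x y → Far y x) →
      ∀ (𝒳 : Set X) (T : R →+ ZMod ℓ), Wit ξ Far 𝒳 d T s ε ∨
        ∃ (Y : Finset X) (n : ℕ) (e : Fin n → ℕ) (F : Fin n → R →+ ZMod ℓ)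
          (lam : (Fin n → ℕ) → ZMod ℓ), Y.card ≤ K ∧ n ≤ K ∧ (∀ κ, 1 ≤ e κ ∧ e κ < d) ∧
          ∀ S : Finset X, S.card = d → (↑S : Set X) ⊆ FarFrom Far 𝒳 Y →
            (∀ x ∈ S, ∀ y ∈ S, x ≠ y → Far x y) →
            T (∏ x ∈ S, ξ x) =
              ∑ N ∈ LP e S, lam (mul N) * ∏ p ∈ N, F p.2 (∏ x ∈ p.1, ξ x) := by
  have hl1 : (1 : ℝ) < ℓ := by exact_mod_cast hℓ.one_lt
  have hl0 : (0 : ℝ) < ℓ := by linarith
  obtain ⟨s, K0, hS⟩ := sthmV hℓ d hd ε hε
  obtain ⟨σ, hσ⟩ := regularise hℓ d fun i hi _ => sthmV hℓ i hi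
  obtain ⟨K1, hK1⟩ := hσ (fun n => ((ℓ : ℝ) ^ (2 * 2 ^ d * n + 1))⁻¹)
    (fun n => inv_pos.2 (pow_pos hl0 _))
    (fun n => 2 ^ d * ℓ ^ n * (d * σ ((ℓ : ℝ) ^ (2 * 2 ^ d * n + 1))⁻¹)) K0
  refine ⟨s, K0 + K1, ?_⟩
  intro X R _ _ _ _ ξ Far hsymm 𝒳 T
  rcases hS X R ξ Far hsymm 𝒳 T with h | ⟨Y0, n0, e0, F0, c1, c2, c3, c4⟩
  · exact Or.inl h
  obtain ⟨Y1, n, e, F, d1, d2, d3, d4, d5⟩ := hK1 X R ξ Far hsymm (FarFrom Far 𝒳 Y0) n0 e0 F0 c2 c3
  have hsub : FarFrom Far (FarFrom Far 𝒳 Y0) Y1 ⊆ FarFrom Far 𝒳 Y0 := fun x hx => hx.1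
  have hT : Str ξ Far (FarFrom Far (FarFrom Far 𝒳 Y0) Y1) d T (gens e F) := by
    refine (c4.mono hsub (Set.Subset.refl _)).trans ?_
    rintro p ⟨κ, rfl⟩
    exact d5 κ
  obtain ⟨lam, hlam⟩ := sym_coeff hsymm (fun κ => (d3 κ).1) d4 hd le_rfl
    (inv_pos.2 (pow_pos hl0 _)).le (inv_strictAnti₀ (pow_pos hl0 _)
      (pow_lt_pow_right₀ hl1 (Nat.lt_succ_self _))) T hT
  right
  refine ⟨Y0 ∪ Y1, n, e, F, lam, ?_, d2.trans (by omega), d3, ?_⟩
  · exact (card_union_le _ _).trans (by omega)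
  intro S hS1 hS2 hS3
  have hmem : ∀ x ∈ S, x ∈ FarFrom Far (FarFrom Far 𝒳 Y0) Y1 := by
    intro x hx
    obtain ⟨a1, a2⟩ := hS2 hx
    exact ⟨⟨a1, fun y hy => a2 y (mem_union_left _ hy)⟩, fun y hy => a2 y (mem_union_right _ hy)⟩
  let b : Fin d ≃ S := (S.equivFinOfCardEq hS1).symm
  let g : Fin d ↪ X := b.toEmbedding.trans (Function.Embedding.subtype _)
  have hg : ∀ j, g j ∈ S := fun j => (b j).2
  have hgS : (univ : Finset (Fin d)).map g = S := by
    refine eq_of_subset_of_card_le ?_ ?_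
    · intro x hx
      obtain ⟨j, _, rfl⟩ := mem_map.1 hx
      exact hg j
    · rw [card_map, card_univ, Fintype.card_fin, hS1]
  have hgood : Good ℓ ξ Far (FarFrom Far (FarFrom Far 𝒳 Y0) Y1) univ fun j => ξ (g j) := by
    refine ⟨fun j => {g j}, ?_, ?_, ?_⟩
    · intro i _ j _ hij x hx y hy
      rw [mem_singleton.1 hx, mem_singleton.1 hy]
      exact hS3 _ (hg i) _ (hg j) fun hc => hij (g.injective hc)
    · intro j _ x hx
      have hx' : x ∈ ({g j} : Finset X) := hx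
      rw [mem_singleton.1 hx']
      exact hmem _ (hg j)
    · intro j _
      refine ⟨fun _ => 1, ?_⟩
      show ξ (g j) = ∑ x ∈ ({g j} : Finset X), (1 : ZMod ℓ) • ξ x
      rw [sum_singleton, one_smul]
  have key := hlam _ hgood
  have e1 : ∏ x ∈ S, ξ x = ∏ j, ξ (g j) := by
    rw [← hgS, prod_map]
  rw [e1, key]
  conv_rhs => rw [← hgS]
  rw [sum_LP_map]
  refine sum_congr rfl fun N _ => ?_
  rw [mul_map, prod_map]
  congr 1
  refine prod_congr rfl fun p _ => ?_
  rw [mp_apply, prod_map]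

end Pool.Agent.Lib.MP_3e612f_nt.DI
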