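import Pool.Agent.Lib.MP_3e612f_nt.DI.F3
import Pool.Agent.Lib.MP_3e612f_nt.DI.Sym

/-!
# (F3) in terms of `LP` and `mul`
-/

set_option autoImplicit false

namespace Pool.Agent.Lib.MP_3e612f_nt.DI

open Finset

theorem mem_LP {C : Type} [DecidableEq C] {n : ℕ} (e : Fin n → ℕ) (S : Finset C)
    (N : Finset (Finset C × Fin n)) : N ∈ LP e S ↔ (∀ p ∈ N, p.1 ⊆ S) ∧
      (∀ p ∈ N, p.1.card = e p.2) ∧ (∀ p ∈ N, ∀ p' ∈ N, p ≠ p' → Disjoint p.1 p'.1) ∧
      N.biUnion (fun p => p.1) = S := by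
  unfold LP
  rw [Finset.mem_filter, Finset.mem_powerset]
  constructor
  · rintro ⟨h1, h2, h3, h4⟩
    refine ⟨fun p hp => Finset.mem_powerset.1 (Finset.mem_product.1 (h1 hp)).1, h2, h3, ?_⟩
    rw [← h4]
  · rintro ⟨h1, h2, h3, h4⟩
    refine ⟨fun p hp => Finset.mem_product.2
      ⟨Finset.mem_powerset.2 (h1 p hp), Finset.mem_univ _⟩, h2, h3, ?_⟩
    rw [← h4]

theorem mem_LPa {C : Type} [DecidableEq C] {n : ℕ} (e a : Fin n → ℕ) (S : Finset C)
    (N : Finset (Finset C × Fin n)) : N ∈ LPa e a S ↔ N ∈ LP e S ∧ mul N = a := by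
  rw [mem_LP]
  unfold LPa
  rw [Finset.mem_filter, Finset.mem_powerset]
  constructor
  · rintro ⟨h1, ⟨h2, h3, h4⟩, h5⟩
    exact ⟨⟨fun p hp => Finset.mem_powerset.1 (Finset.mem_product.1 (h1 hp)).1, h2, h3, h4⟩,
      funext h5⟩
  · rintro ⟨⟨h1, h2, h3, h4⟩, h5⟩
    exact ⟨fun p hp => Finset.mem_product.2 ⟨Finset.mem_powerset.2 (h1 p hp), Finset.mem_univ _⟩,
      ⟨h2, h3, h4⟩, fun κ => congrFun h5 κ⟩

/-- the multiplicities of a labelled partition -/
theorem sum_mul {C : Type} [DecidableEq C] {n : ℕ} {e : Fin n → ℕ} {S : Finset C}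
    {N : Finset (Finset C × Fin n)} (hN : N ∈ LP e S) : ∑ κ, mul N κ * e κ = S.card := by
  rw [mem_LP] at hN
  obtain ⟨-, h2, h3, h4⟩ := hN
  rw [← h4, Finset.card_biUnion fun p hp p' hp' hne => h3 p hp p' hp' hne,
    Finset.sum_congr rfl h2,
    ← Finset.sum_fiberwise_of_maps_to (g := fun p : Finset C × Fin n => p.2)
      (t := (univ : Finset (Fin n))) (s := N) (fun p _ => Finset.mem_univ p.2)
      (fun p : Finset C × Fin n => e p.2)]
  refine Finset.sum_congr rfl fun κ _ => ?_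
  rw [Finset.sum_congr rfl (g := fun _ => e κ) fun p hp => by rw [(Finset.mem_filter.1 hp).2],
    Finset.sum_const, smul_eq_mul]
  rfl

/-- the types of order `d` -/
def types {n : ℕ} (e : Fin n → ℕ) (d : ℕ) : Finset (Fin n → ℕ) :=
  (Fintype.piFinset fun _ => Finset.range (d + 1)).filter fun a => ∑ κ, a κ * e κ = d

theorem mem_types {n : ℕ} {e : Fin n → ℕ} (he : ∀ κ, 1 ≤ e κ) {d : ℕ} {a : Fin n → ℕ} :
    a ∈ types e d ↔ ∑ κ, a κ * e κ = d := by
  unfold types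
  rw [Finset.mem_filter, Fintype.mem_piFinset]
  refine ⟨fun h => h.2, fun h => ⟨fun κ => ?_, h⟩⟩
  rw [Finset.mem_range, ← h]
  have h1 : a κ * e κ ≤ ∑ κ, a κ * e κ :=
    Finset.single_le_sum (f := fun κ => a κ * e κ) (fun _ _ => Nat.zero_le _) (Finset.mem_univ κ)
  have h2 : a κ ≤ a κ * e κ := Nat.le_mul_of_pos_right _ (he κ)
  omega

/-- the structured sum over all labelled partitions, by types -/
theorem sum_LP {C G : Type} [DecidableEq C] [AddCommGroup G] {n : ℕ} {e : Fin n → ℕ}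
    (he : ∀ κ, 1 ≤ e κ) (S : Finset C) (g : Finset (Finset C × Fin n) → G) :
    ∑ N ∈ LP e S, g N = ∑ a ∈ types e S.card, ∑ N ∈ LPa e a S, g N := by
  classical
  rw [← Finset.sum_fiberwise_of_maps_to (g := fun N => mul N) (t := types e S.card)
    (fun N hN => (mem_types he).2 (sum_mul hN))]
  refine Finset.sum_congr rfl fun a _ => Finset.sum_congr ?_ fun _ _ => rfl
  ext N
  rw [Finset.mem_filter, mem_LPa]

end Pool.Agent.Lib.MP_3e612f_nt.DI
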