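import Pool.Agent.Lib.MP_3e612f_nt.DI.F3b
import Pool.Agent.Lib.MP_3e612f_nt.PI.Fou
import Pool.Agent.Lib.MP_3e612f_nt.PI.Kat

/-!
# (F5), (F6): reduction of a structured phase, finite form

`U` is an arbitrary finite set of features. The phase `f U = ∑_{S ⊆ U} t S` has leading coefficients
`t S = (M / (l m1)) tint S`, `|S| = d`; for far sets `S` which do not meet `E` the residue of `tint S`
modulo `l` is given by the structure theorem. Then `ee (f U)` is a combination of boundedly many
`ee (∑_{S ⊆ U} t' S)` with values in `ZMod (q ^ (kap + d))`, whose leading coefficients vanish for the sets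
which meet `E` and are killed by `m1` for the far sets.
-/

set_option autoImplicit false

namespace Pool.Agent.Lib.MP_3e612f_nt.DI

open Finset
open Pool.Agent.Lib.MP_3e612f_nt.PI (ee)

/-! ### embedding of `ZMod M` in `ZMod M2` -/

/-- multiplication by `M2 / M` -/
noncomputable def embM {M M2 : ℕ} (h : M ∣ M2) : ZMod M →+ ZMod M2 :=
  ZMod.lift M ⟨zmultiplesHom (ZMod M2) ((M2 / M : ℕ) : ZMod M2), by
    rw [zmultiplesHom_apply, natCast_zsmul, nsmul_eq_mul, ← Nat.cast_mul, Nat.mul_div_cancel' h,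
      ZMod.natCast_self]⟩

theorem embM_intCast {M M2 : ℕ} (h : M ∣ M2) (z : ℤ) :
    embM h (z : ZMod M) = ((z * (M2 / M : ℕ) : ℤ) : ZMod M2) := by
  unfold embM
  rw [ZMod.lift_coe, zmultiplesHom_apply, zsmul_eq_mul, Int.cast_mul, Int.cast_natCast]

theorem ee_embM {M M2 : ℕ} [NeZero M] [NeZero M2] (h : M ∣ M2) (x : ZMod M) :
    ee (embM h x) = ee x := by
  obtain ⟨z, rfl⟩ := ZMod.intCast_surjective x
  rw [embM_intCast]
  unfold ee
  rw [ZMod.stdAddChar_coe, ZMod.stdAddChar_coe]
  congr 1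
  obtain ⟨k, hk⟩ := h
  have hM : M ≠ 0 := NeZero.ne M
  have hM2 : M2 ≠ 0 := NeZero.ne M2
  have hk0 : k ≠ 0 := by
    rintro rfl
    exact hM2 (by rw [hk, mul_zero])
  have h1 : M2 / M = k := by
    rw [hk, Nat.mul_div_cancel_left _ (Nat.pos_of_ne_zero hM)]
  rw [h1]
  have h2 : (M : ℂ) ≠ 0 := by exact_mod_cast hM
  have h3 : (k : ℂ) ≠ 0 := by exact_mod_cast hk0
  rw [hk]
  push_cast
  field_simp

/-! ### the structured part -/

section
variable {X : Type} [DecidableEq X] {n : ℕ}

/-- the coefficients of the structured part -/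
noncomputable def pcf (M l : ℕ) (c : ℕ) (e : Fin n → ℕ) (Fh : Fin n → Finset X → ℕ) (d : ℕ)
    (lam : (Fin n → ℕ) → ZMod l) (V : Finset X) : ZMod M :=
  (((c : ℤ) * ∑ a ∈ types e d, ((lam a).val : ℤ) * Theta e Fh a V : ℤ) : ZMod M)

/-- the structured part as a function of the values `Q κ` -/
noncomputable def Pst (M l : ℕ) (c : ℕ) (e : Fin n → ℕ) (d : ℕ)
    (lam : (Fin n → ℕ) → ZMod l) (Q : Fin n → ℕ) : ZMod M :=
  ((c * ∑ a ∈ types e d, (lam a).val * ∏ κ, (Q κ).choose (a κ) : ℕ) : ZMod M)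

theorem Pst_eq (M l : ℕ) (c : ℕ) (e : Fin n → ℕ) (Fh : Fin n → Finset X → ℕ) (d : ℕ)
    (lam : (Fin n → ℕ) → ZMod l) (U : Finset X) :
    Pst M l c e d lam (fun κ => QF e Fh κ U) = ∑ V ∈ U.powerset, pcf M l c e Fh d lam V := by
  unfold Pst pcf
  rw [← Int.cast_natCast, ← Int.cast_sum]
  congr 1
  rw [Nat.cast_mul, Nat.cast_sum, ← Finset.mul_sum, Finset.sum_comm]
  congr 1
  refine Finset.sum_congr rfl fun a _ => ?_
  rw [Nat.cast_mul, choose_feature, Finset.mul_sum]

theorem Pst_congr {q kap M l c d : ℕ} (hq : 2 ≤ q) (hM : M ∣ q ^ kap) {e : Fin n → ℕ}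
    (he : ∀ κ, 1 ≤ e κ) (lam : (Fin n → ℕ) → ZMod l) {Q Q' : Fin n → ℕ}
    (h : ∀ κ, Q κ ≡ Q' κ [MOD q ^ (kap + d)]) :
    Pst M l c e d lam Q = Pst M l c e d lam Q' := by
  unfold Pst
  rw [ZMod.natCast_eq_natCast_iff]
  refine Nat.ModEq.of_dvd hM (Nat.ModEq.mul_left c ?_)
  refine Nat.ModEq.sum fun a ha => Nat.ModEq.mul_left _ ?_
  refine Nat.ModEq.prod fun κ _ => ?_
  refine choose_mod hq (Nat.ModEq.of_dvd (pow_dvd_pow q ?_) (h κ))
  have h1 := (mem_types he).1 ha
  have h2 : a κ * e κ ≤ ∑ κ, a κ * e κ :=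
    Finset.single_le_sum (f := fun κ => a κ * e κ) (fun _ _ => Nat.zero_le _) (Finset.mem_univ κ)
  have h3 : a κ ≤ a κ * e κ := Nat.le_mul_of_pos_right _ (he κ)
  omega

theorem pcf_high {M l c d : ℕ} {e : Fin n → ℕ} (he : ∀ κ, 1 ≤ e κ) (Fh : Fin n → Finset X → ℕ)
    (lam : (Fin n → ℕ) → ZMod l) {V : Finset X} (hV : d < V.card) :
    pcf M l c e Fh d lam V = 0 := by
  unfold pcf
  rw [Finset.sum_eq_zero, mul_zero, Int.cast_zero]
  intro a ha
  rw [Theta_high e Fh a V (by rw [(mem_types he).1 ha]; exact hV), mul_zero]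

/-- the leading coefficients modulo `l` -/
theorem pcf_top {l : ℕ} [NeZero l] {d : ℕ} {e : Fin n → ℕ} (he : ∀ κ, 1 ≤ e κ)
    (Fl : Fin n → Finset X → ZMod l) (lam : (Fin n → ℕ) → ZMod l) {V : Finset X}
    (hV : V.card = d) :
    ((∑ a ∈ types e d, ((lam a).val : ℤ) * Theta e (fun κ B => (Fl κ B).val) a V : ℤ) : ZMod l) =
      ∑ N ∈ LP e V, lam (mul N) * ∏ p ∈ N, Fl p.2 p.1 := by
  rw [sum_LP he, hV, Int.cast_sum]
  refine Finset.sum_congr rfl fun a ha => ?_
  rw [Theta_top e he _ a V (by rw [(mem_types he).1 ha, hV]), Int.cast_mul, Int.cast_sum,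
    Finset.mul_sum]
  refine Finset.sum_congr rfl fun N hN => ?_
  rw [((mem_LPa e a V N).1 hN).2, Int.cast_prod]
  simp

end

/-! ### the sets which meet `E` -/

theorem sum_meet {X G : Type} [DecidableEq X] [AddCommGroup G] (E : Finset X) (d : ℕ)
    (g : Finset X → G) (U : Finset X) :
    (∑ S ∈ U.powerset, if S.card = d ∧ ¬ Disjoint S E then g S else 0) =
      ∑ W ∈ E.powerset, if W ≠ ∅ ∧ W ⊆ U then
        ∑ S ∈ U.powerset, (if Disjoint S E ∧ S.card + W.card = d then g (W ∪ S) else 0) else 0 := by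
  rw [← Finset.sum_filter, ← Finset.sum_fiberwise_of_maps_to (g := fun S : Finset X => S ∩ E)
    (t := E.powerset) (fun S _ => Finset.mem_powerset.2 Finset.inter_subset_right)]
  refine Finset.sum_congr rfl fun W hW => ?_
  rw [Finset.mem_powerset] at hW
  split_ifs with h
  · obtain ⟨hW0, hWU⟩ := h
    rw [← Finset.sum_filter]
    refine Finset.sum_nbij' (fun S => S \ E) (fun S => W ∪ S) ?_ ?_ ?_ ?_ ?_
    · intro S hS
      rw [Finset.mem_filter, Finset.mem_filter, Finset.mem_powerset] at hS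
      obtain ⟨⟨h1, h2, h3⟩, h4⟩ := hS
      rw [Finset.mem_filter, Finset.mem_powerset]
      refine ⟨Finset.sdiff_subset.trans h1, Finset.sdiff_disjoint, ?_⟩
      rw [← h4, ← h2]
      exact Finset.card_sdiff_add_card_inter S E
    · intro S hS
      rw [Finset.mem_filter, Finset.mem_powerset] at hS
      obtain ⟨h1, h2, h3⟩ := hS
      have h5 : (W ∪ S) ∩ E = W := by
        rw [Finset.union_inter_distrib_right, Finset.disjoint_iff_inter_eq_empty.1 h2,
          Finset.union_empty, Finset.inter_eq_left.2 hW]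
      rw [Finset.mem_filter, Finset.mem_filter, Finset.mem_powerset]
      refine ⟨⟨Finset.union_subset hWU h1, ?_, ?_⟩, h5⟩
      · rw [Finset.card_union_of_disjoint (Finset.disjoint_of_subset_left hW h2.symm), ← h3,
          add_comm]
      · rw [Finset.disjoint_iff_inter_eq_empty, h5]
        exact hW0
    · intro S hS
      rw [Finset.mem_filter, Finset.mem_filter, Finset.mem_powerset] at hS
      obtain ⟨-, h4⟩ := hS
      rw [← h4, Finset.union_comm]
      exact Finset.sdiff_union_inter S E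
    · intro S hS
      rw [Finset.mem_filter, Finset.mem_powerset] at hS
      obtain ⟨h1, h2, h3⟩ := hS
      rw [Finset.union_sdiff_distrib, Finset.sdiff_eq_empty_iff_subset.2 hW, Finset.empty_union,
        Finset.sdiff_eq_self_of_disjoint h2]
    · intro S hS
      rw [Finset.mem_filter, Finset.mem_filter, Finset.mem_powerset] at hS
      obtain ⟨-, h4⟩ := hS
      rw [← h4, Finset.union_comm, Finset.sdiff_union_inter S E]
  · refine Finset.sum_eq_zero fun S hS => ?_
    rw [Finset.mem_filter, Finset.mem_filter, Finset.mem_powerset] at hS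
    obtain ⟨⟨h1, h2, h3⟩, h4⟩ := hS
    exfalso
    apply h
    refine ⟨?_, ?_⟩
    · rw [← h4]
      rwa [Finset.disjoint_iff_inter_eq_empty] at h3
    · rw [← h4]
      exact Finset.inter_subset_left.trans h1

/-- **Reduction of a structured phase.** -/
theorem f_reduce {X : Type} [DecidableEq X] {q kap M M2 l m1 d n : ℕ} [NeZero M] [NeZero M2]
    [NeZero l] (hq : 2 ≤ q) (hd : 2 ≤ d) (hM : M ∣ q ^ kap) (hM2 : M2 = q ^ (kap + d))
    (hl : l * m1 ∣ M) (t : Finset X → ZMod M) (ht : ∀ S, d < S.card → t S = 0)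
    (tint : Finset X → ℤ)
    (htint : ∀ S, S.card = d → t S = (((M / (l * m1) : ℕ) * tint S : ℤ) : ZMod M))
    (E : Finset X) (Far : Finset X → Prop) (e : Fin n → ℕ) (he : ∀ κ, 1 ≤ e κ ∧ e κ < d)
    (Fl : Fin n → Finset X → ZMod l) (lam : (Fin n → ℕ) → ZMod l)
    (hstr : ∀ S, S.card = d → Disjoint S E → Far S →
      (tint S : ZMod l) = ∑ N ∈ LP e S, lam (mul N) * ∏ p ∈ N, Fl p.2 p.1) :
    ∃ (T : Type) (_ : Fintype T) (a : T → ℂ) (t' : T → Finset X → ZMod M2),
      Fintype.card T = M2 ^ (n + (E.card + 2 ^ E.card)) ∧ (∀ τ, ‖a τ‖ ≤ 1) ∧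
      (∀ τ S, d < S.card → t' τ S = 0) ∧
      (∀ τ S, S.card = d → t' τ S ≠ 0 → Disjoint S E ∧ (Far S → m1 • t' τ S = 0)) ∧
      ∀ U : Finset X, ee (∑ S ∈ U.powerset, t S) =
        ∑ τ, a τ * ee (∑ S ∈ U.powerset, t' τ S) := by
  classical
  have he1 : ∀ κ, 1 ≤ e κ := fun κ => (he κ).1
  have hMM2 : M ∣ M2 := hM.trans (by rw [hM2]; exact pow_dvd_pow q (by omega))
  have hM21 : 1 < M2 := by
    rw [hM2]
    exact Nat.one_lt_pow (by omega) (by omega)
  set c : ℕ := M / (l * m1) with hc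
  have hcM : c * (l * m1) = M := Nat.div_mul_cancel hl
  set Fh : Fin n → Finset X → ℕ := fun κ B => (Fl κ B).val with hFh
  set p : Finset X → ZMod M := pcf M l c e Fh d lam with hp
  set t1 : Finset X → ZMod M := fun S =>
    if S.card = d ∧ ¬ Disjoint S E then 0 else t S - p S with ht1
  set gt : Finset X → Finset X → ZMod M := fun W S =>
    if W ≠ ∅ ∧ Disjoint S E ∧ S.card + W.card = d then t (W ∪ S) - p (W ∪ S) else 0 with hgt
  let ρ : Type := Fin n ⊕ ({x // x ∈ E} ⊕ {W // W ∈ E.powerset})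
  let th : ρ → Finset X → ZMod M2 := fun k S => match k with
    | Sum.inl κ => if S.card = e κ then (Fh κ S : ZMod M2) else 0
    | Sum.inr (Sum.inl x) => if S = {x.1} then 1 else 0
    | Sum.inr (Sum.inr W) => embM hMM2 (gt W.1 S)
  let y : Finset X → ρ → ZMod M2 := fun U k => ∑ S ∈ U.powerset, th k S
  let Ψ : (ρ → ZMod M2) → ℂ := fun z =>
    ee (Pst M l c e d lam fun κ => (z (Sum.inl κ)).val) *
      ee (∑ W : {W // W ∈ E.powerset}, if (∀ x : {x // x ∈ E}, x.1 ∈ W.1 →
        z (Sum.inr (Sum.inl x)) = 1) then z (Sum.inr (Sum.inr W)) else 0)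
  have hΨ : ∀ z, ‖Ψ z‖ ≤ 1 := by
    intro z
    show ‖ee _ * ee _‖ ≤ 1
    rw [norm_mul, PI.Fou_norm, PI.Fou_norm, one_mul]
  obtain ⟨a, ha, hexp⟩ := PI.fourier_exists M2 Ψ hΨ
  -- the values of the phases
  have hyQ : ∀ U κ, y U (Sum.inl κ) = (QF e Fh κ U : ZMod M2) := by
    intro U κ
    show (∑ S ∈ U.powerset, if S.card = e κ then (Fh κ S : ZMod M2) else 0) = _
    have h1 := congrArg (fun z : ℤ => (z : ZMod M2)) (QF_eq e Fh κ U)
    simp only [Int.cast_sum, Int.cast_natCast] at h1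
    rw [h1]
    refine Finset.sum_congr rfl fun S _ => ?_
    split_ifs <;> simp
  have hyx : ∀ U (x : {x // x ∈ E}), y U (Sum.inr (Sum.inl x)) = if x.1 ∈ U then 1 else 0 := by
    intro U x
    show (∑ S ∈ U.powerset, if S = {x.1} then (1 : ZMod M2) else 0) = _
    rw [Finset.sum_ite_eq']
    simp only [Finset.mem_powerset, Finset.singleton_subset_iff]
  have hyW : ∀ U (W : {W // W ∈ E.powerset}), y U (Sum.inr (Sum.inr W)) =
      embM hMM2 (∑ S ∈ U.powerset, gt W.1 S) := by
    intro U W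
    show (∑ S ∈ U.powerset, embM hMM2 (gt W.1 S)) = _
    rw [map_sum]
  -- the main identity
  have hmain : ∀ U : Finset X, ee (∑ S ∈ U.powerset, t S) =
      Ψ (y U) * ee (embM hMM2 (∑ S ∈ U.powerset, t1 S)) := by
    intro U
    have h1 : ∑ S ∈ U.powerset, t S = Pst M l c e d lam (fun κ => QF e Fh κ U) +
        ((∑ S ∈ U.powerset, if S.card = d ∧ ¬ Disjoint S E then t S - p S else 0) +
          ∑ S ∈ U.powerset, t1 S) := by
      rw [Pst_eq M l c e Fh d lam U, ← Finset.sum_add_distrib, ← Finset.sum_add_distrib]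
      refine Finset.sum_congr rfl fun S _ => ?_
      simp only [ht1]
      split_ifs
      · rw [← hp]
        ring
      · rw [← hp]
        ring
    have h2 : Pst M l c e d lam (fun κ => QF e Fh κ U) =
        Pst M l c e d lam (fun κ => (y U (Sum.inl κ)).val) := by
      refine Pst_congr hq hM he1 lam fun κ => ?_
      rw [hyQ, ← hM2, ZMod.val_natCast]
      exact (Nat.mod_modEq _ _).symm
    have h3 : embM hMM2 (∑ S ∈ U.powerset,
        if S.card = d ∧ ¬ Disjoint S E then t S - p S else 0) =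
        ∑ W : {W // W ∈ E.powerset}, if (∀ x : {x // x ∈ E}, x.1 ∈ W.1 →
          y U (Sum.inr (Sum.inl x)) = 1) then y U (Sum.inr (Sum.inr W)) else 0 := by
      rw [sum_meet E d (fun S => t S - p S) U, map_sum, ← Finset.sum_coe_sort E.powerset]
      refine Finset.sum_congr rfl fun W _ => ?_
      have hne : (0 : ZMod M2) ≠ 1 := by
        have : Fact (1 < M2) := ⟨hM21⟩
        exact zero_ne_one
      have h4 : (∀ x : {x // x ∈ E}, x.1 ∈ W.1 → y U (Sum.inr (Sum.inl x)) = 1) ↔
          W.1 ⊆ U := by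
        constructor
        · intro h x hx
          have h5 := h ⟨x, Finset.mem_powerset.1 W.2 hx⟩ hx
          rw [hyx] at h5
          by_contra h6
          rw [if_neg h6] at h5
          exact hne h5
        · intro h x hx
          rw [hyx, if_pos (h hx)]
      by_cases hWU : W.1 ⊆ U
      · rw [if_pos (h4.2 hWU), hyW]
        by_cases hW0 : W.1 = ∅
        · rw [if_neg (by rintro ⟨h5, -⟩; exact h5 hW0), map_zero, Finset.sum_eq_zero, map_zero]
          intro S _
          simp only [hgt]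
          rw [if_neg]
          rintro ⟨h5, -⟩
          exact h5 hW0
        · rw [if_pos ⟨hW0, hWU⟩]
          congr 1
          refine Finset.sum_congr rfl fun S _ => ?_
          simp only [hgt]
          by_cases h5 : Disjoint S E ∧ S.card + W.1.card = d
          · rw [if_pos h5, if_pos ⟨hW0, h5⟩]
          · rw [if_neg h5, if_neg (fun h6 => h5 h6.2)]
      · rw [if_neg (fun h => hWU (h4.1 h)), if_neg (fun h => hWU h.2), map_zero]
    rw [h1, PI.Kat_ee_add, PI.Kat_ee_add, ← ee_embM hMM2 (∑ S ∈ U.powerset, t1 S),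
      ← ee_embM hMM2 (∑ S ∈ U.powerset, if S.card = d ∧ ¬ Disjoint S E then t S - p S else 0),
      h3, h2, mul_assoc]
  refine ⟨ρ → ZMod M2, inferInstance, a, fun τ S => (∑ k, τ k * th k S) + embM hMM2 (t1 S), ?_,
    ha, ?_, ?_, ?_⟩
  · rw [Fintype.card_fun, ZMod.card, Fintype.card_sum, Fintype.card_sum, Fintype.card_fin,
      Fintype.card_coe, Fintype.card_coe, Finset.card_powerset]
  · intro τ S hS
    have h1 : ∀ k, th k S = 0 := by
      rintro (κ | x | W)
      · show (if S.card = e κ then (Fh κ S : ZMod M2) else 0) = 0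
        rw [if_neg]
        have := (he κ).2
        omega
      · show (if S = {x.1} then (1 : ZMod M2) else 0) = 0
        rw [if_neg]
        rintro rfl
        rw [Finset.card_singleton] at hS
        omega
      · show embM hMM2 (gt W.1 S) = 0
        simp only [hgt]
        rw [if_neg, map_zero]
        rintro ⟨-, -, h2⟩
        omega
    have h2 : t1 S = 0 := by
      simp only [ht1]
      rw [if_neg (fun h => by omega), ht S hS, hp, pcf_high he1 Fh lam hS, sub_zero]
    simp only [h1, mul_zero, Finset.sum_const_zero, h2, map_zero, add_zero]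
  · intro τ S hS hne
    have h1 : ∀ k, th k S = 0 := by
      rintro (κ | x | W)
      · show (if S.card = e κ then (Fh κ S : ZMod M2) else 0) = 0
        rw [if_neg]
        have := (he κ).2
        omega
      · show (if S = {x.1} then (1 : ZMod M2) else 0) = 0
        rw [if_neg]
        rintro rfl
        rw [Finset.card_singleton] at hS
        omega
      · show embM hMM2 (gt W.1 S) = 0
        simp only [hgt]
        rw [if_neg, map_zero]
        rintro ⟨h2, -, h3⟩
        have h4 := Finset.card_pos.2 (Finset.nonempty_iff_ne_empty.2 h2)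
        omega
    simp only [h1, mul_zero, Finset.sum_const_zero, zero_add] at hne ⊢
    by_cases hdis : Disjoint S E
    · refine ⟨hdis, fun hfar => ?_⟩
      have h2 : t1 S = t S - p S := by
        simp only [ht1]
        rw [if_neg (fun h => h.2 hdis)]
      have h3 := pcf_top he1 Fl lam hS
      rw [← hstr S hS hdis hfar, ZMod.intCast_eq_intCast_iff] at h3
      obtain ⟨k, hk⟩ := h3.dvd
      have h4 : t1 S = ((c * (l * k) : ℤ) : ZMod M) := by
        rw [h2, htint S hS, hp]
        unfold pcf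
        rw [← Int.cast_sub, ← mul_sub, hk]
      rw [← map_nsmul, h4, nsmul_eq_mul, ← Int.cast_natCast m1, ← Int.cast_mul]
      have h5 : ((m1 : ℤ) * (c * (l * k))) = (M : ℤ) * k := by
        rw [← hcM]
        push_cast
        ring
      rw [h5, Int.cast_mul, Int.cast_natCast, ZMod.natCast_self, zero_mul, map_zero]
    · exfalso
      apply hne
      simp only [ht1]
      rw [if_pos ⟨hS, hdis⟩, map_zero]
  · intro U
    rw [hmain U, hexp (y U), Finset.sum_mul]
    refine Finset.sum_congr rfl fun τ _ => ?_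
    rw [mul_assoc, ← PI.Kat_ee_add]
    congr 2
    rw [Finset.sum_add_distrib, Finset.sum_comm, map_sum]
    congr 1
    refine Finset.sum_congr rfl fun k _ => ?_
    rw [Finset.mul_sum]

end Pool.Agent.Lib.MP_3e612f_nt.DI
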