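import Pool.Agent.Lib.MP_3e612f_nt.DI.Ind
import Pool.Agent.Lib.MP_3e612f_nt.DI.U.Ind

/-!
The theorem for phases of every degree.
-/

set_option autoImplicit false

namespace Pool.Agent.Lib.MP_3e612f_nt.DI

theorem po_all {q : ℕ} (hq : 2 ≤ q) (d : ℕ) (hd : 1 ≤ d) : PO q d := by
  induction d, hd using Nat.le_induction with
  | base => exact PO_one hq
  | succ d hd ih =>
    exact PO_of_OR hq (by omega) fun M κ hM1 _ =>
      or_all hq (by omega) (by simpa using ih) M (by omega)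

theorem po_all' {q : ℕ} (hq : 2 ≤ q) (d : ℕ) : PO q d := by
  rcases Nat.eq_zero_or_pos d with rfl | hd
  · intro D κ M _ hM ε hε
    obtain ⟨N0, h0⟩ := po_all hq 1 le_rfl D κ M hM ε hε
    exact ⟨N0, fun N hN s f hf => h0 N hN s f (hf.mono_d (Nat.zero_le 1))⟩
  · exact po_all hq d hd

end Pool.Agent.Lib.MP_3e612f_nt.DI
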