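import Pool.Agent.Lib.MP_3e612f_nt.DI.Vec

/-!
# Moebius orthogonality for phases with interactions of every order: definitions, parts G and F

`ftr n`: the features of `n`, the pairs `(i, c)` such that the window of `n` at `i` is `c` and its lowest
digit is not `0`. `FP t n = ∑_{S ⊆ ftr n} t S`. `IsP q d D f`: `f = FP t` with `t S = 0` for `S.card > d`.
Paper proof: /team-store/h7_DI_GF.md
-/

set_option autoImplicit false

namespace Pool.Agent.Lib.MP_3e612f_nt.DI

open Finset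
open Pool.Agent.Lib.MP_3e612f_nt.PI (wd ee mc Phi ut)

/-- pairs (position, content of a window) -/
abbrev Pt (q D L : ℕ) : Type := Fin L × Fin (q ^ (D + 1))

/-- the features of `n` -/
def ftr (q D L n : ℕ) : Finset (Pt q D L) :=
  univ.filter fun x => wd q D x.1 n = x.2 ∧ (x.2 : ℕ) % q ≠ 0

section
variable {G : Type} [AddCommGroup G]

/-- the phase with the coefficients `t` -/
def FP (q D L : ℕ) (t : Finset (Pt q D L) → G) (n : ℕ) : G :=
  ∑ S ∈ (ftr q D L n).powerset, t S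

/-- being a phase of degree `≤ d` with windows at the positions `< L` -/
def IsPL (q d D L : ℕ) (f : ℕ → G) : Prop :=
  ∃ t : Finset (Pt q D L) → G, (∀ S, d < S.card → t S = 0) ∧ ∀ n, f n = FP q D L t n

/-- being a phase of degree `≤ d` -/
def IsP (q d D : ℕ) (f : ℕ → G) : Prop := ∃ L, IsPL q d D L f

/-- `φ` only depends on the windows at the positions `P` -/
def Dep (q D : ℕ) (P : Finset ℕ) (φ : ℕ → G) : Prop :=
  ∀ n n', (∀ i ∈ P, wd q D i n = wd q D i n') → φ n = φ n'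

/-- the multilinear extension of a function on sets -/
def mlt {C X : Type} [Fintype C] [DecidableEq C] [Fintype X] [DecidableEq X] (t : Finset X → G)
    (h : C → X → ℤ) : G :=
  ∑ x : C → X, if Function.Injective x then (∏ j, h j (x j)) • t (univ.image x) else 0

end

/-- the positions have distance at least `W` -/
def FarP (W : ℕ) {q D L : ℕ} (x y : Pt q D L) : Prop :=
  (x.1 : ℕ) + W ≤ y.1 ∨ (y.1 : ℕ) + W ≤ x.1

/-! ### Statements on Moebius sums -/

/-- the theorem for phases of degree `≤ d`, all moduli dividing a power of `q` -/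
def PO (q d : ℕ) : Prop :=
  ∀ (D κ M : ℕ) [NeZero M], M ∣ q ^ κ → ∀ ε : ℝ, 0 < ε → ∃ N0 : ℕ, ∀ N ≥ N0,
    ∀ (s : ℕ) (f : ℕ → ZMod M), IsP q d D f → ‖∑ n ∈ Icc 1 N, mc n * ee (f (n + s))‖ ≤ ε * N

/-- the theorem for phases of degree `≤ d` with boundedly many positions above `log_q N` whose leading
coefficients are killed by `m'` -/
def OR (q d m' : ℕ) : Prop :=
  ∀ (D κ M w0 : ℕ) [NeZero M], M ∣ q ^ κ → m' ∣ M → ∀ ε : ℝ, 0 < ε → ∃ N0 : ℕ, ∀ N ≥ N0,
    ∀ K1 L s : ℕ, N ≤ q ^ K1 → q ^ K1 ≤ q * N → L ≤ K1 + w0 →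
    ∀ (t : Finset (Pt q D L) → ZMod M) (g : ℕ → ZMod M), (∀ S, m' • t S = 0) →
      (∀ S, S.card ≠ d → t S = 0) → IsP q (d - 1) D g →
      ‖∑ n ∈ Icc 1 N, mc n * ee (FP q D L t (n + s) + g (n + s))‖ ≤ ε * N

/-! ### Tensors modulo a prime -/

/-- the embedding of `ℤ/ℓ` into `ℤ/M` -/
def emb {ℓ : ℕ} (M : ℕ) (x : ZMod ℓ) : ZMod M := ((M / ℓ * x.val : ℕ) : ZMod M)

section
variable {ℓ : ℕ} {X : Type} [Fintype X] [DecidableEq X]

/-- the tensor of order `d` with the values `τ S` at the sets `S` with `d` elements -/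
noncomputable def Tm (d : ℕ) (τ : Finset X → ZMod ℓ) : MvPolynomial X (ZMod ℓ) →+ ZMod ℓ where
  toFun f := ∑ S ∈ univ.powersetCard d, MvPolynomial.coeff (∑ x ∈ S, Finsupp.single x 1) f * τ S
  map_zero' := by simp
  map_add' f g := by simp [add_mul, Finset.sum_add_distrib]

/-- the point `x` as an element of the polynomial ring -/
noncomputable def pt (x : X) : MvPolynomial X (ZMod ℓ) := MvPolynomial.X x

/-- the two copies of a tensor, for the dilations by `p` and by `r` -/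
noncomputable def T2 {R : Type} [CommRing R] (T : R →+ ZMod ℓ) (η : ℤ) : R × R →+ ZMod ℓ :=
  T.comp (AddMonoidHom.fst R R) + η • T.comp (AddMonoidHom.snd R R)

end

/-! ### Gadgets -/

/-- the positions whose windows are inside the block `[A, A + l)` -/
def cell (q D l L A : ℕ) : Finset (Pt q D L) :=
  univ.filter fun x => A ≤ (x.1 : ℕ) ∧ (x.1 : ℕ) + D < A + l

/-- the features of a number with the content `u` of the block `[A, A + l)` -/
def blk (q D l L A u : ℕ) : Finset (Pt q D L) :=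
  (cell q D l L A).filter fun x => wd q D (x.1 - A) u = x.2 ∧ (x.2 : ℕ) % q ≠ 0

/-- the change of the features of `t n + s` when the gadget `o` is switched on -/
def gv (q D g l L : ℕ) (z0 x0 : ℕ → ℕ) (s t : ℕ) (o : ℕ × ℕ) (x : Pt q D L) : ℤ :=
  (if x ∈ blk q D l L (o.1 + g) (ut q g l z0 x0 s t o + t * q ^ D) then 1 else 0) -
    if x ∈ blk q D l L (o.1 + g) (ut q g l z0 x0 s t o) then 1 else 0

/-- the gadget as a vector -/
noncomputable def Gv (ℓ q D g l L : ℕ) (z0 x0 : ℕ → ℕ) (s p r : ℕ) {P H : ℕ} (v : Fin P × Fin H) :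
    MvPolynomial (Pt q D L) (ZMod ℓ) × MvPolynomial (Pt q D L) (ZMod ℓ) :=
  (∑ x, (gv q D g l L z0 x0 s p (v.1, v.2) x : ZMod ℓ) • pt x,
    ∑ x, (gv q D g l L z0 x0 s r (v.1, v.2) x : ZMod ℓ) • pt x)

/-- the multilinear form of the gadgets `o i` -/
def BB {G : Type} [AddCommGroup G] (q D g l L : ℕ) (z0 x0 : ℕ → ℕ) (s p r : ℕ) (η : ℤ) {d : ℕ}
    {ι : Type} [Fintype ι] (o : ι → ℕ × ℕ) (t : Finset (Pt q D L) → G) (δ : Fin d → ι → ℤ) : G :=
  mlt t (fun j x => ∑ i, δ j i * gv q D g l L z0 x0 s p (o i) x) +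
    η • mlt t fun j x => ∑ i, δ j i * gv q D g l L z0 x0 s r (o i) x

end Pool.Agent.Lib.MP_3e612f_nt.DI
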