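import Pool.Agent.Lib.MP_3e612f_nt.DI.Av

/-!
The inequality of Gowers, Cauchy and Schwarz for phases on a product of finite sets: the colours are
doubled one after the other.
-/

set_option autoImplicit false

namespace Pool.Agent.Lib.MP_3e612f_nt.DI

open Finset
open Pool.Agent.Lib.MP_3e612f_nt.PI (ee)

theorem Gcs_norm_ee {M : ℕ} [NeZero M] (z : ZMod M) : ‖ee z‖ = 1 := by
  unfold Pool.Agent.Lib.MP_3e612f_nt.PI.ee
  exact AddChar.norm_apply _ _

theorem Gcs_ee_add {M : ℕ} [NeZero M] (z w : ZMod M) : ee (z + w) = ee z * ee w := by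
  unfold Pool.Agent.Lib.MP_3e612f_nt.PI.ee
  exact AddChar.map_add_eq_mul _ _ _

theorem Gcs_ee_neg {M : ℕ} [NeZero M] (z : ZMod M) : ee (-z) = (starRingEnd ℂ) (ee z) := by
  have h1 : ee z * ee (-z) = 1 := by
    rw [← Gcs_ee_add, add_neg_cancel]
    unfold Pool.Agent.Lib.MP_3e612f_nt.PI.ee
    exact AddChar.map_zero_eq_one _
  have h2 : ee z * (starRingEnd ℂ) (ee z) = 1 := by
    rw [Complex.mul_conj, Complex.normSq_eq_norm_sq, Gcs_norm_ee]
    simp
  have h3 : ee z ≠ 0 := by
    intro h
    rw [h, zero_mul] at h1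
    exact zero_ne_one h1
  exact mul_left_cancel₀ h3 (h1.trans h2.symm)

theorem Gcs_ee_sub {M : ℕ} [NeZero M] (z w : ZMod M) :
    ee (z - w) = ee z * (starRingEnd ℂ) (ee w) := by
  rw [sub_eq_add_neg, Gcs_ee_add, Gcs_ee_neg]

/-- Cauchy and Schwarz for an average -/
theorem norm_av_sq {α : Type} [Fintype α] (h : α → ℂ) :
    ‖av h‖ ^ 2 ≤ (av fun a => h a * (starRingEnd ℂ) (h a)).re := by
  have h1 : (av fun a => h a * (starRingEnd ℂ) (h a)).re =
      (Fintype.card α : ℝ)⁻¹ * ∑ a, ‖h a‖ ^ 2 := by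
    unfold av
    have h2 : (∑ a, h a * (starRingEnd ℂ) (h a)) = ((∑ a, ‖h a‖ ^ 2 : ℝ) : ℂ) := by
      push_cast
      refine sum_congr rfl fun a _ => ?_
      rw [Complex.mul_conj, Complex.normSq_eq_norm_sq]
      push_cast
      rfl
    rw [h2, ← Complex.ofReal_natCast, ← Complex.ofReal_inv, ← Complex.ofReal_mul,
      Complex.ofReal_re]
  rw [h1]
  unfold av
  rw [norm_mul, norm_inv, Complex.norm_natCast, mul_pow]
  have h3 : ‖∑ a, h a‖ ≤ ∑ a, ‖h a‖ := norm_sum_le _ _
  have h4 : (∑ a, ‖h a‖) ^ 2 ≤ (Fintype.card α : ℝ) * ∑ a, ‖h a‖ ^ 2 := by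
    have := sq_sum_le_card_mul_sum_sq (s := (univ : Finset α)) (f := fun a => ‖h a‖)
    rwa [card_univ] at this
  have h5 : ‖∑ a, h a‖ ^ 2 ≤ (Fintype.card α : ℝ) * ∑ a, ‖h a‖ ^ 2 :=
    (pow_le_pow_left₀ (norm_nonneg _) h3 2).trans h4
  rcases Nat.eq_zero_or_pos (Fintype.card α) with h0 | h0
  · rw [h0]
    simp
  · have hc : (0 : ℝ) < Fintype.card α := by exact_mod_cast h0
    calc ((Fintype.card α : ℝ)⁻¹) ^ 2 * ‖∑ a, h a‖ ^ 2
        ≤ ((Fintype.card α : ℝ)⁻¹) ^ 2 * ((Fintype.card α : ℝ) * ∑ a, ‖h a‖ ^ 2) :=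
          mul_le_mul_of_nonneg_left h5 (by positivity)
      _ = (Fintype.card α : ℝ)⁻¹ * ∑ a, ‖h a‖ ^ 2 := by
          field_simp

section
variable {C β : Type} [Fintype C] [DecidableEq C] [Fintype β] {M : ℕ} [NeZero M]

/-- the alternating sum over the colours of `A`: `x` is replaced by `y` in the colours of `I` -/
def altS (A : Finset C) (Φ : (C → β) → ZMod M) (x y : C → β) : ZMod M :=
  ∑ I ∈ A.powerset, (-1 : ℤ) ^ I.card • Φ (I.piecewise y x)

omit [Fintype C] [Fintype β] [NeZero M] in
theorem altS_insert {A : Finset C} {j : C} (hj : j ∉ A) (Φ : (C → β) → ZMod M) (x y : C → β) :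
    altS (insert j A) Φ x y = altS A Φ x y - altS A Φ (Function.update x j (y j)) y := by
  unfold altS
  rw [sum_powerset_insert hj, sub_eq_add_neg, ← sum_neg_distrib]
  congr 1
  refine sum_congr rfl fun I hI => ?_
  have hjI : j ∉ I := fun h => hj (mem_powerset.1 hI h)
  rw [card_insert_of_notMem hjI, piecewise_insert, update_piecewise_of_notMem _ _ _ hjI, pow_succ]
  simp

omit [Fintype C] [Fintype β] [NeZero M] in
theorem altS_update {A : Finset C} {j : C} (hj : j ∉ A) (Φ : (C → β) → ZMod M) (x y : C → β)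
    (w : β) : altS A Φ x (Function.update y j w) = altS A Φ x y := by
  unfold altS
  refine sum_congr rfl fun I hI => ?_
  have hjI : j ∉ I := fun h => hj (mem_powerset.1 hI h)
  congr 2
  funext i
  by_cases hi : i ∈ I
  · rw [piecewise_eq_of_mem _ _ _ hi, piecewise_eq_of_mem _ _ _ hi,
      Function.update_of_ne (ne_of_mem_of_not_mem hi hjI)]
  · rw [piecewise_eq_of_notMem _ _ _ hi, piecewise_eq_of_notMem _ _ _ hi]

theorem gcs_step {A : Finset C} {j : C} (hj : j ∉ A) (Φ : (C → β) → ZMod M) :
    ‖av fun x : C → β => av fun y : C → β => ee (altS A Φ x y)‖ ^ 2 ≤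
      (av fun x : C → β => av fun y : C → β => ee (altS (insert j A) Φ x y)).re := by
  have h1 : (av fun x : C → β => av fun y : C → β => ee (altS A Φ x y)) =
      av fun p : (C → β) × (C → β) => av fun u : β =>
        ee (altS A Φ (Function.update p.2 j u) p.1) := by
    rw [av_comm, av_prod]
    congr 1
    funext y
    exact av_coord j _
  rw [h1]
  refine (norm_av_sq _).trans (le_of_eq ?_)
  congr 1
  have h2 : (av fun x : C → β => av fun y : C → β => ee (altS (insert j A) Φ x y)) =
      av fun y : C → β => av fun x : C → β => av fun u : β => av fun w : β =>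
        ee (altS A Φ (Function.update x j u) y - altS A Φ (Function.update x j w) y) := by
    have h3 : ∀ x : C → β, (av fun y : C → β => ee (altS (insert j A) Φ x y)) =
        av fun y : C → β => av fun w : β =>
          ee (altS A Φ x y - altS A Φ (Function.update x j w) y) := fun x => by
      rw [av_coord j]
      congr 1
      funext y
      congr 1
      funext w
      rw [altS_insert hj, altS_update hj, altS_update hj, Function.update_self]
    simp only [h3]
    rw [av_comm]
    congr 1
    funext y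
    rw [av_coord j]
    congr 1
    funext x
    congr 1
    funext u
    congr 1
    funext w
    rw [Function.update_idem]
  rw [h2, av_prod]
  congr 1
  funext y
  congr 1
  funext x
  rw [av_conj]
  simp only [Gcs_ee_sub, av_mul_left]
  rw [mul_comm, ← av_mul_left]
  congr 1
  funext u
  exact mul_comm _ _

theorem gcs_aux (A : Finset C) [Nonempty β] (Φ : (C → β) → ZMod M) :
    ‖av fun x : C → β => ee (Φ x)‖ ^ 2 ^ A.card ≤
      ‖av fun x : C → β => av fun y : C → β => ee (altS A Φ x y)‖ := by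
  induction A using Finset.induction_on with
  | empty =>
    have h1 : (fun x : C → β => av fun y : C → β => ee (altS ∅ Φ x y)) = fun x => ee (Φ x) := by
      funext x
      have h2 : ∀ y : C → β, altS ∅ Φ x y = Φ x := fun y => by
        unfold altS
        simp
      simp only [h2]
      exact av_const _
    rw [h1]
    simp
  | insert j A hj ih =>
    rw [card_insert_of_notMem hj, pow_succ, pow_mul]
    refine (pow_le_pow_left₀ (by positivity) ih 2).trans ?_
    exact (gcs_step hj Φ).trans (Complex.re_le_norm _)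

/-- the inequality of Gowers, Cauchy and Schwarz -/
theorem gcs [Nonempty C] [Nonempty β] (Φ : (C → β) → ZMod M) :
    ‖av fun x : C → β => ee (Φ x)‖ ^ 2 ^ Fintype.card C ≤
      (av fun x : C → β => av fun y : C → β =>
        ee (∑ I : Finset C, (-1 : ℤ) ^ I.card • Φ (I.piecewise y x))).re := by
  classical
  have h0 : ∀ x y : C → β, (∑ I : Finset C, (-1 : ℤ) ^ I.card • Φ (I.piecewise y x)) =
      altS univ Φ x y := fun x y => by
    unfold altS
    rw [powerset_univ]
  simp only [h0]
  obtain ⟨j⟩ := ‹Nonempty C›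
  have hj : insert j (univ.erase j) = (univ : Finset C) := insert_erase (mem_univ j)
  have h1 := gcs_aux (univ.erase j) Φ
  have h2 := gcs_step (notMem_erase j univ) Φ
  rw [hj] at h2
  refine le_trans ?_ h2
  have h3 : Fintype.card C = (univ.erase j : Finset C).card + 1 := by
    rw [card_erase_of_mem (mem_univ j), card_univ]
    have : 0 < Fintype.card C := Fintype.card_pos_iff.2 ⟨j⟩
    omega
  rw [h3, pow_succ, pow_mul]
  exact pow_le_pow_left₀ (by positivity) h1 2

end

end Pool.Agent.Lib.MP_3e612f_nt.DI
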