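import Pool.Agent.Lib.MP_3e612f_nt.DI.Alg
import Mathlib.Logic.Hydra

/-!
Regularisation of a family of tensors.

PROOF of `regularise`. By `hS` choose `s i ε, K i ε` for `1 ≤ i < d`, `ε > 0`; `σ ε = ∑_{i < d} s i ε` (witness sets of
at most `s i ε ≤ σ ε` points), `κ ε = ∑_{i < d} K i ε`. Let `Q M`, `M` a multiset of natural numbers, be the
statement: there is `K` such that for all data and all families whose multiset of orders is `M` (`univ.val.map e`)
the conclusion of the theorem holds with this `K`. `Q M` is proved by well-founded induction on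
`Relation.CutExpand (· < ·)` (`Mathlib.Logic.Hydra`, `WellFounded.cutExpand`). Let `N = card M`, `ε = lev N`, `μ = m N`.
If the family is `Reg … ε μ (σ ε)` take `Y = ∅` and the family itself (`Str.self`; `FarFrom` with `∅` is `𝒳`). Otherwise there are
`i`, `c` with `c κ₀ ≠ 0` for some `κ₀` (so `i = e κ₀`, `1 ≤ i < d`), all `κ` with `c κ ≠ 0` have order `i`, and `Y0` with at most
`μ` points such that there is no witness for `∑ c κ • F κ` in `FarFrom Far 𝒳 Y0`. By `hS i` for `FarFrom Far 𝒳 Y0` there are `Y1`,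
at most `κ ε` points, and a family `F1` of at most `κ ε` tensors of orders in `[1, i)` with
`Str … i (∑ c κ • F κ) (gens e1 F1)` on `FarFrom (FarFrom 𝒳 Y0) Y1 ⊇ FarFrom 𝒳 (Y0 ∪ Y1)`. Let `F2` be the family `F` without
the member `κ₀`, together with `F1`: its multiset of orders is `M2 = M.erase i + t`, where `t` is a multiset of at
most `κ ε` numbers `< i`; so `CutExpand (· < ·) M2 M`. There are finitely many such `M2` (given `M`: `i ∈ M`, `i < d`, `t`), so the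
constants of `Q M2` are bounded by one `K'`. `Str.solve` and `Str.self`, `Str.mono`: all members of `F` are `Str` over
`gens` of `F2` on `FarFrom 𝒳 (Y0 ∪ Y1)`; apply `Q M2` with this set in the place of `𝒳`, and `Str.trans`.
`K = K' + μ + κ ε + N`. Finally a family with `n ≤ N0` members of orders in `[1, d)` has one of finitely many multisets
of orders; take the maximum of the constants.
-/

set_option autoImplicit false

namespace Pool.Agent.Lib.MP_3e612f_nt.DI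

open Finset

private theorem farFrom_empty {X : Type} (Far : X → X → Prop) (𝒳 : Set X) :
    FarFrom Far 𝒳 ∅ = 𝒳 := by
  ext x
  simp [FarFrom]

private theorem farFrom_farFrom {X : Type} [DecidableEq X] (Far : X → X → Prop) (𝒳 : Set X)
    (Y Z : Finset X) : FarFrom Far (FarFrom Far 𝒳 Y) Z = FarFrom Far 𝒳 (Y ∪ Z) := by
  ext x
  simp only [FarFrom, Set.mem_ofPred_eq, mem_union]
  constructor
  · rintro ⟨⟨h1, h2⟩, h3⟩
    exact ⟨h1, fun y hy => hy.elim (h2 y) (h3 y)⟩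
  · rintro ⟨h1, h2⟩
    exact ⟨⟨h1, fun y hy => h2 y (Or.inl hy)⟩, fun y hy => h2 y (Or.inr hy)⟩

private theorem farFrom_subset {X : Type} (Far : X → X → Prop) (𝒳 : Set X) (Y : Finset X) :
    FarFrom Far 𝒳 Y ⊆ 𝒳 := fun _ hx => hx.1

private theorem wit_mono {ℓ : ℕ} [NeZero ℓ] {X R : Type} [Fintype X] [DecidableEq X] [CommRing R]
    [Algebra (ZMod ℓ) R] {ξ : X → R} {Far : X → X → Prop} {𝒳 : Set X} {i : ℕ}
    {T : R →+ ZMod ℓ} {s s' : ℕ} {ε : ℝ} (hs : s ≤ s') (h : Wit ξ Far 𝒳 i T s ε) :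
    Wit ξ Far 𝒳 i T s' ε := by
  obtain ⟨W, h1, h2, h3, h4⟩ := h
  exact ⟨W, h1, h2, fun j => (h3 j).trans hs, h4⟩

/-- the set of the multisets of at most `B` numbers smaller than `d` is finite -/
private theorem finite_msets (d B : ℕ) :
    {M : Multiset ℕ | M.card ≤ B ∧ ∀ a ∈ M, a < d}.Finite := by
  refine (Set.finite_Iic (B • Multiset.range d)).subset ?_
  rintro M ⟨h1, h2⟩
  rw [Set.mem_Iic, Multiset.le_iff_count]
  intro a
  by_cases ha : a ∈ M
  · rw [Multiset.count_nsmul]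
    have h3 : 1 ≤ Multiset.count a (Multiset.range d) :=
      Multiset.one_le_count_iff_mem.2 (Multiset.mem_range.2 (h2 a ha))
    calc Multiset.count a M ≤ M.card := Multiset.count_le_card a M
      _ ≤ B := h1
      _ = B * 1 := (mul_one B).symm
      _ ≤ B * Multiset.count a (Multiset.range d) := Nat.mul_le_mul_left B h3
  · rw [Multiset.count_eq_zero_of_notMem ha]
    exact Nat.zero_le _

/-- a uniform constant for finitely many multisets -/
private theorem fin_bound (d B : ℕ) (P : Multiset ℕ → Prop) (Q : Multiset ℕ → ℕ → Prop)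
    (mono : ∀ M K K', K ≤ K' → Q M K → Q M K') (h : ∀ M, P M → ∃ K, Q M K) :
    ∃ K, ∀ M, P M → M.card ≤ B → (∀ a ∈ M, a < d) → Q M K := by
  classical
  have h1 : ∀ M, ∃ K, P M → Q M K := by
    intro M
    by_cases hM : P M
    · obtain ⟨K, hK⟩ := h M hM
      exact ⟨K, fun _ => hK⟩
    · exact ⟨0, fun hM' => absurd hM' hM⟩
  choose f hf using h1
  refine ⟨(finite_msets d B).toFinset.sup f, fun M hM h2 h3 => ?_⟩
  refine mono M (f M) _ (Finset.le_sup (f := f) ?_) (hf M hM)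
  rw [Set.Finite.mem_toFinset]
  exact ⟨h2, h3⟩

/-- the multiset of the orders of a family -/
private def ords {n : ℕ} (e : Fin n → ℕ) : Multiset ℕ := ∑ κ, {e κ}

private theorem card_ords {n : ℕ} (e : Fin n → ℕ) : (ords e).card = n := by
  simp [ords]

private theorem mem_ords {n : ℕ} (e : Fin n → ℕ) (a : ℕ) : a ∈ ords e ↔ ∃ κ, e κ = a := by
  simp only [ords, Multiset.mem_sum, mem_univ, true_and, Multiset.mem_singleton]
  exact ⟨fun ⟨κ, h⟩ => ⟨κ, h.symm⟩, fun ⟨κ, h⟩ => ⟨κ, h.symm⟩⟩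

/-- the conclusion of the regularisation theorem, with the constant `K` -/
private def Concl (ℓ : ℕ) [NeZero ℓ] (d : ℕ) (σ : ℝ → ℕ) (lev : ℕ → ℝ) (m : ℕ → ℕ)
    (M : Multiset ℕ) (K : ℕ) : Prop :=
  ∀ (X R : Type) [Fintype X] [DecidableEq X] [CommRing R] [Algebra (ZMod ℓ) R] (ξ : X → R)
    (Far : X → X → Prop), (∀ x y, Far x y → Far y x) → ∀ (𝒳 : Set X) (n : ℕ) (e : Fin n → ℕ)
    (F : Fin n → R →+ ZMod ℓ), ords e = M → (∀ κ, 1 ≤ e κ ∧ e κ < d) →
    ∃ (Y : Finset X) (n' : ℕ) (e' : Fin n' → ℕ) (F' : Fin n' → R →+ ZMod ℓ),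
      Y.card ≤ K ∧ n' ≤ K ∧ (∀ κ, 1 ≤ e' κ ∧ e' κ < d) ∧
      Reg ξ Far (FarFrom Far 𝒳 Y) e' F' (lev n') (m n') (σ (lev n')) ∧
      ∀ κ, Str ξ Far (FarFrom Far 𝒳 Y) (e κ) (F κ) (gens e' F')

private theorem Concl.mono {ℓ : ℕ} [NeZero ℓ] {d : ℕ} {σ : ℝ → ℕ} {lev : ℕ → ℝ} {m : ℕ → ℕ}
    (M : Multiset ℕ) (K K' : ℕ) (hK : K ≤ K') (h : Concl ℓ d σ lev m M K) :
    Concl ℓ d σ lev m M K' := by
  intro X R _ _ _ _ ξ Far hF 𝒳 n e F hM he
  obtain ⟨Y, n', e', F', h1, h2, h3, h4, h5⟩ := h X R ξ Far hF 𝒳 n e F hM he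
  exact ⟨Y, n', e', F', h1.trans hK, h2.trans hK, h3, h4, h5⟩

/-- one step of the regularisation: the family without the member `κ₀` and with the family `e1, F1` -/
private theorem str_step {ℓ : ℕ} (hℓ : ℓ.Prime) {X R : Type} [CommRing R] [Algebra (ZMod ℓ) R]
    {ξ : X → R} {Far : X → X → Prop} {𝒳 : Set X} {k n1 : ℕ} {e : Fin (k + 1) → ℕ}
    {F : Fin (k + 1) → R →+ ZMod ℓ} {e1 : Fin n1 → ℕ} {F1 : Fin n1 → R →+ ZMod ℓ} {i : ℕ}
    {c : Fin (k + 1) → ZMod ℓ} (hc : ∀ κ, c κ ≠ 0 → e κ = i) {κ₀ : Fin (k + 1)} (hκ₀ : c κ₀ ≠ 0)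
    (h : Str ξ Far 𝒳 i (∑ κ, c κ • F κ) (gens e1 F1)) (κ : Fin (k + 1)) :
    Str ξ Far 𝒳 (e κ) (F κ) (gens (Fin.append (fun j => e (κ₀.succAbove j)) e1)
      (Fin.append (fun j => F (κ₀.succAbove j)) F1)) := by
  have hmem : ∀ κ, κ ≠ κ₀ → (e κ, F κ) ∈ gens (Fin.append (fun j => e (κ₀.succAbove j)) e1)
      (Fin.append (fun j => F (κ₀.succAbove j)) F1) := by
    intro κ hκ
    obtain ⟨j, rfl⟩ := Fin.exists_succAbove_eq hκ
    exact ⟨Fin.castAdd n1 j, by simp only [Fin.append_left]⟩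
  by_cases hκ : κ = κ₀
  · subst hκ
    rw [hc κ hκ₀]
    refine (Str.solve hℓ hc hκ₀ hmem h).mono (Set.Subset.refl _) ?_
    rintro p (hp | ⟨j, rfl⟩)
    · exact hp
    · exact ⟨Fin.natAdd k j, by simp only [Fin.append_right]⟩
  · exact Str.self (hmem κ hκ)

private theorem ords_step {k n1 : ℕ} (e : Fin (k + 1) → ℕ) (e1 : Fin n1 → ℕ) (κ₀ : Fin (k + 1)) :
    ords (Fin.append (fun j => e (κ₀.succAbove j)) e1) + {e κ₀} = ords e + ords e1 := by
  simp only [ords]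
  rw [Fin.sum_univ_add, Fin.sum_univ_succAbove (fun κ => ({e κ} : Multiset ℕ)) κ₀]
  simp only [Fin.append_left, Fin.append_right]
  abel

theorem regularise {ℓ : ℕ} [NeZero ℓ] (hℓ : ℓ.Prime) (d : ℕ)
    (hS : ∀ i, 1 ≤ i → i < d → SThm ℓ i) :
    ∃ σ : ℝ → ℕ, ∀ (lev : ℕ → ℝ), (∀ n, 0 < lev n) → ∀ (m : ℕ → ℕ) (N0 : ℕ), ∃ K : ℕ,
      ∀ (X R : Type) [Fintype X] [DecidableEq X] [CommRing R] [Algebra (ZMod ℓ) R] (ξ : X → R)
        (Far : X → X → Prop), (∀ x y, Far x y → Far y x) → ∀ (𝒳 : Set X) (n : ℕ) (e : Fin n → ℕ)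
        (F : Fin n → R →+ ZMod ℓ), n ≤ N0 → (∀ κ, 1 ≤ e κ ∧ e κ < d) →
        ∃ (Y : Finset X) (n' : ℕ) (e' : Fin n' → ℕ) (F' : Fin n' → R →+ ZMod ℓ),
          Y.card ≤ K ∧ n' ≤ K ∧ (∀ κ, 1 ≤ e' κ ∧ e' κ < d) ∧
          Reg ξ Far (FarFrom Far 𝒳 Y) e' F' (lev n') (m n') (σ (lev n')) ∧
          ∀ κ, Str ξ Far (FarFrom Far 𝒳 Y) (e κ) (F κ) (gens e' F') := by
  classical
  have hS' : ∀ (i : ℕ) (ε : ℝ), ∃ s K : ℕ, 1 ≤ i → i < d → 0 < ε →
      ∀ (X R : Type) [Fintype X] [DecidableEq X] [CommRing R]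
      [Algebra (ZMod ℓ) R] (ξ : X → R) (Far : X → X → Prop), (∀ x y, Far x y → Far y x) →
      ∀ (𝒳 : Set X) (T : R →+ ZMod ℓ), Wit ξ Far 𝒳 i T s ε ∨
        ∃ (Y : Finset X) (n : ℕ) (e : Fin n → ℕ) (F : Fin n → R →+ ZMod ℓ),
          Y.card ≤ K ∧ n ≤ K ∧ (∀ κ, 1 ≤ e κ ∧ e κ < i) ∧
          Str ξ Far (FarFrom Far 𝒳 Y) i T (gens e F) := by
    intro i ε
    by_cases h : 1 ≤ i ∧ i < d ∧ 0 < ε
    · obtain ⟨s, K, hsK⟩ := hS i h.1 h.2.1 ε h.2.2
      exact ⟨s, K, fun _ _ _ => hsK⟩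
    · exact ⟨0, 0, fun h1 h2 h3 => absurd ⟨h1, h2, h3⟩ h⟩
  choose s K hsK using hS'
  refine ⟨fun ε => ∑ i ∈ range d, s i ε, fun lev hlev m N0 => ?_⟩
  set σ : ℝ → ℕ := fun ε => ∑ i ∈ range d, s i ε with hσ
  have hs : ∀ i ε, i < d → s i ε ≤ σ ε := fun i ε hi =>
    Finset.single_le_sum (f := fun i => s i ε) (fun _ _ => Nat.zero_le _) (mem_range.2 hi)
  have hK : ∀ i ε, i < d → K i ε ≤ ∑ i ∈ range d, K i ε := fun i ε hi =>
    Finset.single_le_sum (f := fun i => K i ε) (fun _ _ => Nat.zero_le _) (mem_range.2 hi)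
  have hQ : ∀ M : Multiset ℕ, ∃ K, Concl ℓ d σ lev m M K := by
    intro M
    refine (wellFounded_lt (α := ℕ)).cutExpand.induction
      (C := fun M => ∃ K, Concl ℓ d σ lev m M K) M fun M ih => ?_
    obtain ⟨K', hK'⟩ := fin_bound d (M.card + ∑ i ∈ range d, K i (lev M.card))
      (fun M' => Relation.CutExpand (fun x y : ℕ => x < y) M' M) (Concl ℓ d σ lev m) Concl.mono ih
    refine ⟨K' + m M.card + ∑ i ∈ range d, K i (lev M.card) + M.card, ?_⟩
    intro X R _ _ _ _ ξ Far hF 𝒳 n e F hM he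
    have hcard : M.card = n := by rw [← hM, card_ords]
    rw [hcard] at hK' ⊢
    by_cases hreg : Reg ξ Far 𝒳 e F (lev n) (m n) (σ (lev n))
    · refine ⟨∅, n, e, F, by simp, by omega, he, ?_, fun κ => ?_⟩
      · rw [farFrom_empty]
        exact hreg
      · exact Str.self ⟨κ, rfl⟩
    · unfold Reg at hreg
      push Not at hreg
      obtain ⟨i, c, hc, ⟨κ₀, hκ₀⟩, Y0, hY0, hwit⟩ := hreg
      have hi := he κ₀
      rw [hc κ₀ hκ₀] at hi
      obtain ⟨k, rfl⟩ : ∃ k, n = k + 1 := Nat.exists_eq_succ_of_ne_zero (by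
        rintro rfl
        exact κ₀.elim0)
      rcases hsK i (lev (k + 1)) hi.1 hi.2 (hlev _) X R ξ Far hF (FarFrom Far 𝒳 Y0)
        (∑ κ, c κ • F κ) with h1 | ⟨Y1, n1, e1, F1, hY1, hn1, he1, hstr⟩
      · exact absurd (wit_mono (hs i _ hi.2) h1) hwit
      · rw [farFrom_farFrom] at hstr
        have hY1' := hY1.trans (hK i (lev (k + 1)) hi.2)
        have hn1' := hn1.trans (hK i (lev (k + 1)) hi.2)
        have hst := str_step hℓ hc hκ₀ hstr
        have hord := ords_step e e1 κ₀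
        have hcut : Relation.CutExpand (fun x y : ℕ => x < y)
            (ords (Fin.append (fun j => e (κ₀.succAbove j)) e1)) M := by
          refine ⟨ords e1, e κ₀, fun a ha => ?_, by rw [hord, hM]⟩
          obtain ⟨κ, rfl⟩ := (mem_ords e1 a).1 ha
          rw [hc κ₀ hκ₀]
          exact (he1 κ).2
        have he2 : ∀ κ, 1 ≤ Fin.append (fun j => e (κ₀.succAbove j)) e1 κ ∧
            Fin.append (fun j => e (κ₀.succAbove j)) e1 κ < d := by
          intro κ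
          refine Fin.addCases (fun j => ?_) (fun j => ?_) κ
          · rw [Fin.append_left]
            exact he _
          · rw [Fin.append_right]
            exact ⟨(he1 j).1, (he1 j).2.trans hi.2⟩
        obtain ⟨Y2, n', e', F', h1, h2, h3, h4, h5⟩ := hK' _ hcut (by
            rw [card_ords]
            omega) (fun a ha => by
            obtain ⟨κ, rfl⟩ := (mem_ords _ a).1 ha
            exact (he2 κ).2) X R ξ Far hF (FarFrom Far 𝒳 (Y0 ∪ Y1)) _ _
          (Fin.append (fun j => F (κ₀.succAbove j)) F1) rfl he2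
        rw [farFrom_farFrom] at h4 h5
        refine ⟨Y0 ∪ Y1 ∪ Y2, n', e', F', ?_, by omega, h3, h4, fun κ => ?_⟩
        · have h6 := card_union_le (Y0 ∪ Y1) Y2
          have h7 := card_union_le Y0 Y1
          omega
        · refine ((hst κ).mono ?_ (Set.Subset.refl _)).trans ?_
          · rw [← farFrom_farFrom]
            exact farFrom_subset _ _ _
          · rintro p ⟨κ', rfl⟩
            exact h5 κ'
  obtain ⟨K1, hK1⟩ := fin_bound d N0 (fun _ => True) (Concl ℓ d σ lev m) Concl.mono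
    fun M _ => hQ M
  refine ⟨K1, fun X R _ _ _ _ ξ Far hF 𝒳 n e F hn he => ?_⟩
  refine hK1 (ords e) trivial ((card_ords e).le.trans hn) (fun a ha => ?_) X R ξ Far hF 𝒳 n e F
    rfl he
  obtain ⟨κ, rfl⟩ := (mem_ords e a).1 ha
  exact (he κ).2

end Pool.Agent.Lib.MP_3e612f_nt.DI
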