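import Pool.Agent.Lib.MP_3e612f_nt.DI.Sym

/-!
Many far witnesses, or structure.

By induction on `k`: if there are `k` pairwise far witness tuples, apply `sthm_sym` to the points which are
far from all their points.
-/

set_option autoImplicit false

namespace Pool.Agent.Lib.MP_3e612f_nt.DI

open Finset

theorem Many_farFrom {X : Type} [DecidableEq X] (Far : X → X → Prop) (𝒳 : Set X) (Y Y' : Finset X) :
    FarFrom Far 𝒳 (Y ∪ Y') ⊆ FarFrom Far (FarFrom Far 𝒳 Y) Y' := by
  intro x hx
  obtain ⟨h1, h2⟩ := hx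
  exact ⟨⟨h1, fun y hy => h2 y (mem_union_left _ hy)⟩, fun y hy => h2 y (mem_union_right _ hy)⟩

/-- many pairwise far witnesses, or the structure theorem outside a bounded set -/
theorem many_or_struct {ℓ : ℕ} [NeZero ℓ] (hℓ : ℓ.Prime) (d : ℕ) (hd : 1 ≤ d) (ε : ℝ)
    (hε : 0 < ε) :
    ∃ s : ℕ, ∀ k : ℕ, ∃ K : ℕ, ∀ (X R : Type) [Fintype X] [DecidableEq X] [CommRing R]
      [Algebra (ZMod ℓ) R] (ξ : X → R) (Far : X → X → Prop), (∀ x y, Far x y → Far y x) →
      ∀ (𝒳 : Set X) (T : R →+ ZMod ℓ),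
        (∃ W : Fin k → Fin d → Finset X, (∀ b, SepOn Far univ (W b)) ∧
          (∀ b j, (↑(W b j) : Set X) ⊆ 𝒳) ∧ (∀ b j, (W b j).card ≤ s) ∧
          (∀ b b', b ≠ b' → ∀ j j', ∀ x ∈ W b j, ∀ y ∈ W b' j', Far x y) ∧
          ∀ b, bi T univ (fun j => vec (ℓ := ℓ) ξ (W b j)) < ε) ∨
        ∃ (Y : Finset X) (n : ℕ) (e : Fin n → ℕ) (F : Fin n → R →+ ZMod ℓ)
          (lam : (Fin n → ℕ) → ZMod ℓ), Y.card ≤ K ∧ n ≤ K ∧ (∀ κ, 1 ≤ e κ ∧ e κ < d) ∧
          ∀ S : Finset X, S.card = d → (↑S : Set X) ⊆ FarFrom Far 𝒳 Y →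
            (∀ x ∈ S, ∀ y ∈ S, x ≠ y → Far x y) →
            T (∏ x ∈ S, ξ x) =
              ∑ N ∈ LP e S, lam (mul N) * ∏ p ∈ N, F p.2 (∏ x ∈ p.1, ξ x) := by
  obtain ⟨s, K0, hsK⟩ := sthm_sym hℓ d hd ε hε
  refine ⟨s, fun k => ?_⟩
  induction k with
  | zero =>
    refine ⟨0, fun X R _ _ _ _ ξ Far hsymm 𝒳 T => Or.inl ⟨fun b => b.elim0, ?_, ?_, ?_, ?_, ?_⟩⟩
    · exact fun b => b.elim0
    · exact fun b => b.elim0
    · exact fun b => b.elim0
    · exact fun b => b.elim0
    · exact fun b => b.elim0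
  | succ k ih =>
    obtain ⟨K, hK⟩ := ih
    refine ⟨K + (k * (d * s) + K0), fun X R _ _ _ _ ξ Far hsymm 𝒳 T => ?_⟩
    rcases hK X R ξ Far hsymm 𝒳 T with ⟨W, hW1, hW2, hW3, hW4, hW5⟩ | h
    · set Y0 : Finset X := (univ : Finset (Fin k × Fin d)).biUnion (fun p => W p.1 p.2) with hY0
      have hYcard : Y0.card ≤ k * (d * s) := by
        refine (card_biUnion_le).trans ?_
        calc ∑ p : Fin k × Fin d, (W p.1 p.2).card ≤ ∑ _p : Fin k × Fin d, s :=
              Finset.sum_le_sum fun p _ => hW3 p.1 p.2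
          _ = k * (d * s) := by
              rw [Finset.sum_const, card_univ, Fintype.card_prod, Fintype.card_fin,
                Fintype.card_fin, smul_eq_mul, mul_assoc]
      have hmem : ∀ b j, ∀ x ∈ W b j, x ∈ Y0 := by
        intro b j x hx
        rw [hY0, mem_biUnion]
        exact ⟨(b, j), mem_univ _, hx⟩
      rcases hsK X R ξ Far hsymm (FarFrom Far 𝒳 Y0) T with ⟨V, hV1, hV2, hV3, hV4⟩ | h
      · left
        refine ⟨Fin.cons V W, ?_, ?_, ?_, ?_, ?_⟩
        · intro b
          refine Fin.cases ?_ (fun b => ?_) b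
          · exact hV1
          · exact hW1 b
        · intro b
          refine Fin.cases ?_ (fun b => ?_) b
          · intro j x hx
            exact (hV2 j hx).1
          · exact hW2 b
        · intro b
          refine Fin.cases ?_ (fun b => ?_) b
          · exact hV3
          · exact hW3 b
        · intro b b'
          refine Fin.cases ?_ (fun b => ?_) b
          · refine Fin.cases ?_ (fun b' => ?_) b'
            · intro h
              exact absurd rfl h
            · intro _ j j' x hx y hy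
              exact (hV2 j hx).2 y (hmem b' j' y hy)
          · refine Fin.cases ?_ (fun b' => ?_) b'
            · intro _ j j' x hx y hy
              exact hsymm _ _ ((hV2 j' hy).2 x (hmem b j x hx))
            · intro h j j' x hx y hy
              exact hW4 b b' (fun hb => h (by rw [hb])) j j' x hx y hy
        · intro b
          refine Fin.cases ?_ (fun b => ?_) b
          · exact hV4
          · exact hW5 b
      · right
        obtain ⟨Y, n, e, F, lam, hY, hn, he, hS⟩ := h
        refine ⟨Y0 ∪ Y, n, e, F, lam, ?_, by omega, he, fun S hSd hSX hSF => ?_⟩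
        · exact (card_union_le _ _).trans (by omega)
        · exact hS S hSd (hSX.trans (Many_farFrom Far 𝒳 Y0 Y)) hSF
    · right
      obtain ⟨Y, n, e, F, lam, hY, hn, he, hS⟩ := h
      exact ⟨Y, n, e, F, lam, by omega, by omega, he, hS⟩

end Pool.Agent.Lib.MP_3e612f_nt.DI
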