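import Pool.Agent.Lib.MP_3e612f_nt.DI.CanD

/-!
Leading parts: wider windows, and splitting off the near sets.

PROOF of `FP_widen`. Let `pr (i, c') = (i, c' % q ^ (D + 1))`. It maps `ftr q D' L n` bijectively onto `ftr q D L n` (a set of
features of `n` has at most one point at every position). Put `t' S' = t (S'.image pr)` if `pr` is injective on `S'`, and `0`
otherwise. `lead_split`: `t' = A + B + C` on the sets of features, `C` the sets with fewer than `d` points, `A` the far sets.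
-/

set_option autoImplicit false

namespace Pool.Agent.Lib.MP_3e612f_nt.DI

open Finset
open Pool.Agent.Lib.MP_3e612f_nt.PI (wd ee mc Phi)

section
variable {G : Type} [AddCommGroup G] {q d D L : ℕ}

/-- shorten the window of a point -/
def Wid_pr (hq : 0 < q) (D' : ℕ) (x : Pt q D' L) : Pt q D L :=
  (x.1, ⟨(x.2 : ℕ) % q ^ (D + 1), Nat.mod_lt _ (Nat.pow_pos hq)⟩)

theorem Wid_wd {D' : ℕ} (hD : D ≤ D') (i n : ℕ) : wd q D' i n % q ^ (D + 1) = wd q D i n := by
  unfold wd
  exact Nat.mod_mod_of_dvd _ (pow_dvd_pow q (by omega))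

theorem Wid_mod {D : ℕ} (c : ℕ) : c % q ^ (D + 1) % q = c % q :=
  Nat.mod_mod_of_dvd _ (dvd_pow_self q (by omega))

theorem Wid_injOn (hq : 0 < q) (D' n : ℕ) :
    Set.InjOn (Wid_pr (D := D) (L := L) hq D') (ftr q D' L n : Set (Pt q D' L)) := by
  intro x hx y hy hxy
  rw [mem_coe, mem_ftr] at hx hy
  have h1 : x.1 = y.1 := (Prod.ext_iff.1 hxy).1
  refine Prod.ext h1 (Fin.ext ?_)
  rw [← hx.1, ← hy.1, h1]

theorem Wid_image (hq : 0 < q) {D' : ℕ} (hD : D ≤ D') (n : ℕ) :
    (ftr q D' L n).image (Wid_pr (D := D) hq D') = ftr q D L n := by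
  ext x
  rw [mem_image]
  constructor
  · rintro ⟨y, hy, rfl⟩
    rw [mem_ftr] at hy ⊢
    refine ⟨?_, ?_⟩
    · show wd q D y.1 n = (y.2 : ℕ) % q ^ (D + 1)
      rw [← hy.1, Wid_wd hD]
    · show (y.2 : ℕ) % q ^ (D + 1) % q ≠ 0
      rw [Wid_mod]
      exact hy.2
  · intro hx
    rw [mem_ftr] at hx
    refine ⟨(x.1, ⟨wd q D' x.1 n, Nat.mod_lt _ (Nat.pow_pos hq)⟩), ?_, ?_⟩
    · rw [mem_ftr]
      refine ⟨rfl, ?_⟩
      show wd q D' x.1 n % q ≠ 0
      rw [← Wid_mod (D := D), Wid_wd hD, hx.1]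
      exact hx.2
    · refine Prod.ext rfl (Fin.ext ?_)
      show wd q D' x.1 n % q ^ (D + 1) = x.2
      rw [Wid_wd hD, hx.1]

/-- a phase with windows of length `D + 1` as a phase with longer windows, with the same orders -/
theorem FP_widen (hq : 0 < q) {D' : ℕ} (hD : D ≤ D') (t : Finset (Pt q D L) → G) :
    ∃ t' : Finset (Pt q D' L) → G, (∀ n, FP q D L t n = FP q D' L t' n) ∧
      ∀ S', t' S' = 0 ∨ ∃ S, S.card = S'.card ∧ t' S' = t S := by
  classical
  refine ⟨fun S' => if Set.InjOn (Wid_pr (D := D) hq D') (S' : Set (Pt q D' L)) then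
    t (S'.image (Wid_pr (D := D) hq D')) else 0, fun n => ?_, fun S' => ?_⟩
  · unfold FP
    rw [← Wid_image (D := D) hq hD n]
    symm
    refine Finset.sum_bij (fun S' _ => S'.image (Wid_pr (D := D) hq D')) ?_ ?_ ?_ ?_
    · intro S' hS'
      rw [mem_powerset] at hS' ⊢
      exact image_subset_image hS'
    · intro S1 h1 S2 h2 h12
      rw [mem_powerset] at h1 h2
      exact (Finset.image_injOn_powerset_of_injOn (Wid_injOn (D := D) hq D' n))
        (mem_coe.2 (mem_powerset.2 h1)) (mem_coe.2 (mem_powerset.2 h2)) h12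
    · intro S hS
      rw [mem_powerset] at hS
      obtain ⟨S', h1, h2⟩ := Finset.subset_image_iff.1 hS
      exact ⟨S', mem_powerset.2 (by exact_mod_cast h1), h2⟩
    · intro S' hS'
      rw [mem_powerset] at hS'
      rw [if_pos ((Wid_injOn (D := D) hq D' n).mono (by exact_mod_cast hS'))]
  · by_cases h : Set.InjOn (Wid_pr (D := D) hq D') (S' : Set (Pt q D' L))
    · exact Or.inr ⟨S'.image (Wid_pr (D := D) hq D'), card_image_of_injOn h, if_pos h⟩
    · exact Or.inl (if_neg h)

/-- split a phase of degree `d` in its far leading part and a phase of smaller degree -/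
theorem lead_split (hq : 2 ≤ q) (hd : 1 ≤ d) (W m1 : ℕ) (t : Finset (Pt q D L) → G)
    (h0 : ∀ S, d < S.card → t S = 0)
    (h1 : ∀ S, S.card = d → (∀ x ∈ S, ∀ y ∈ S, x ≠ y → FarP W x y) →
      (∀ x ∈ S, (x.2 : ℕ) % q ≠ 0) → m1 • t S = 0) :
    ∃ (t' : Finset (Pt q (D + W) L) → G) (g : ℕ → G), (∀ S, m1 • t' S = 0) ∧
      (∀ S, S.card ≠ d → t' S = 0) ∧ IsP q (d - 1) (D + W) g ∧
      ∀ n, FP q D L t n = FP q (D + W) L t' n + g n := by
  classical
  let far : Finset (Pt q D L) → Prop := fun S =>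
    (∀ x ∈ S, ∀ y ∈ S, x ≠ y → FarP W x y) ∧ ∀ x ∈ S, (x.2 : ℕ) % q ≠ 0
  let A : Finset (Pt q D L) → G := fun S => if S.card = d ∧ far S then t S else 0
  let B : Finset (Pt q D L) → G := fun S =>
    if S.card = d ∧ ¬ ∀ x ∈ S, ∀ y ∈ S, x ≠ y → FarP W x y then t S else 0
  let C : Finset (Pt q D L) → G := fun S => if S.card < d then t S else 0
  have hABC : ∀ n, FP q D L t n = FP q D L A n + (FP q D L B n + FP q D L C n) := by
    intro n
    unfold FP
    rw [← Finset.sum_add_distrib, ← Finset.sum_add_distrib]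
    refine Finset.sum_congr rfl fun S hS => ?_
    rw [mem_powerset] at hS
    have hgood : ∀ x ∈ S, (x.2 : ℕ) % q ≠ 0 := fun x hx => (mem_ftr.1 (hS hx)).2
    show t S = (if S.card = d ∧ far S then t S else 0) +
      ((if S.card = d ∧ ¬ ∀ x ∈ S, ∀ y ∈ S, x ≠ y → FarP W x y then t S else 0) +
        if S.card < d then t S else 0)
    rcases lt_trichotomy S.card d with h | h | h
    · rw [if_neg (fun h' => absurd h'.1 (by omega)), if_neg (fun h' => absurd h'.1 (by omega)),
        if_pos h, zero_add, zero_add]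
    · rw [if_neg (show ¬ S.card < d by omega), add_zero]
      by_cases hf : ∀ x ∈ S, ∀ y ∈ S, x ≠ y → FarP W x y
      · rw [if_pos ⟨h, hf, hgood⟩, if_neg (fun h' => h'.2 hf), add_zero]
      · rw [if_neg (fun h' => hf h'.2.1), if_pos ⟨h, hf⟩, zero_add]
    · rw [h0 S h]
      simp
  obtain ⟨t', ht', ht''⟩ := FP_widen (by omega : 0 < q) (Nat.le_add_right D W) A
  refine ⟨t', fun n => FP q D L B n + FP q D L C n, ?_, ?_, ?_, ?_⟩
  · intro S
    rcases ht'' S with h | ⟨S', -, h⟩
    · rw [h, smul_zero]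
    · rw [h]
      show m1 • (if S'.card = d ∧ far S' then t S' else 0) = 0
      split_ifs with h2
      · exact h1 S' h2.1 h2.2.1 h2.2.2
      · rw [smul_zero]
  · intro S hS
    rcases ht'' S with h | ⟨S', h2, h⟩
    · exact h
    · rw [h]
      show (if S'.card = d ∧ far S' then t S' else 0) = 0
      rw [if_neg]
      intro h3
      exact hS (h2.symm.trans h3.1)
  · refine IsP.add ?_ ?_
    · refine isP_near hq W hd B fun S hS => ?_
      have h2 : S.card = d ∧ ¬ ∀ x ∈ S, ∀ y ∈ S, x ≠ y → FarP W x y := by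
        by_contra h
        apply hS
        show (if _ then _ else _) = _
        rw [if_neg h]
      refine ⟨h2.1.le, ?_⟩
      have h3 := h2.2
      push Not at h3
      exact h3
    · refine IsP.mono_D hq (Nat.le_add_right D W) (isP_FP C fun S hS => ?_)
      show (if _ then _ else _) = _
      rw [if_neg]
      omega
  · intro n
    rw [hABC n, ht' n]

end

end Pool.Agent.Lib.MP_3e612f_nt.DI
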