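import Pool.Agent.Lib.MP_3e612f_nt.DI.CorrD
import Pool.Agent.Lib.MP_3e612f_nt.DI.FRed
import Pool.Agent.Lib.MP_3e612f_nt.DI.Many
import Pool.Agent.Lib.MP_3e612f_nt.DI.Wid
import Pool.Agent.Lib.MP_3e612f_nt.PI.KatB
import Pool.Agent.Lib.MP_3e612f_nt.PI.ExK
import Pool.Agent.Lib.MP_3e612f_nt.PI.Blk

/-!
The induction on the number of prime factors of `m'`.

PROOF of `or_step`. `PI.main_of_dich`. For `p, r, η, δ, ε`: `W, t0, ε_w` from `corr_boxes` with `δ / 4`, `s_w` from
`many_or_struct` with `ε_w`, `k` from `corr_boxes`, `K_S` from `many_or_struct`, `w` from `exists_K` with `δ / 8`. Let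
`K` be as in `exists_K`, `P + W = K + 1`, `𝒳` the points with positions in `[t0, t0 + P)` and lowest digit `≠ 0`. Either there
are `k` far witness tuples and `corr_boxes` and `block_sum` give the first alternative, or the tensor is structured outside
`Y`. Then `f_reduce`, with `E` the points with a position outside `[t0, t0 + P)` or near `Y`, gives boundedly many phases whose
far leading coefficients are killed by `m1`; `lead_split` and `OR q d m1` with the window size `D + W` and the modulus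
`q ^ (κ + d)` give the second alternative.
-/

set_option autoImplicit false

namespace Pool.Agent.Lib.MP_3e612f_nt.DI

open Finset
open Pool.Agent.Lib.MP_3e612f_nt.PI (wd ee mc Phi)

theorem Ind_norm_mc (n : ℕ) : ‖mc n‖ ≤ 1 := by
  unfold mc
  rw [Complex.norm_intCast]
  exact_mod_cast ArithmeticFunction.abs_moebius_le_one

/-- the integers behind coefficients which are killed by `m'` -/
theorem Ind_tint {M m' : ℕ} [NeZero M] (h : m' ∣ M) (x : ZMod M) (hx : m' • x = 0) :
    ∃ z : ℤ, x = (((M / m' : ℕ) * z : ℤ) : ZMod M) := by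
  have hm' : 0 < m' := Nat.pos_of_ne_zero fun h0 => NeZero.ne M (Nat.eq_zero_of_zero_dvd (h0 ▸ h))
  have h1 : M ∣ m' * x.val := by
    rw [← ZMod.natCast_eq_zero_iff, Nat.cast_mul, ZMod.natCast_zmod_val, ← nsmul_eq_mul]
    exact hx
  have h2 : M / m' ∣ x.val := by
    obtain ⟨c, hc⟩ := h1
    refine ⟨c, Nat.eq_of_mul_eq_mul_left hm' ?_⟩
    rw [hc, ← mul_assoc, Nat.mul_div_cancel' h]
  obtain ⟨z, hz⟩ := h2
  refine ⟨(z : ℤ), ?_⟩
  rw [← Int.natCast_mul, ← hz, Int.cast_natCast, ZMod.natCast_zmod_val]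

/-- multiplication by `m1` of a coefficient `(M / (ℓ m1)) z` -/
theorem Ind_emb {M ℓ m1 : ℕ} [NeZero M] [NeZero ℓ] (h : ℓ * m1 ∣ M) (z : ℤ) :
    m1 • (((M / (ℓ * m1) : ℕ) * z : ℤ) : ZMod M) = emb M (z : ZMod ℓ) := by
  have hM0 : M ≠ 0 := NeZero.ne M
  obtain ⟨c, hc⟩ := h
  have hℓ : 0 < ℓ := Nat.pos_of_ne_zero (NeZero.ne ℓ)
  have hm1 : 0 < m1 := Nat.pos_of_ne_zero fun h0 => hM0 (by rw [hc, h0]; simp)
  have e1 : M / (ℓ * m1) = c := by
    rw [hc, Nat.mul_div_cancel_left _ (Nat.mul_pos hℓ hm1)]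
  have e2 : M / ℓ = m1 * c := by
    rw [hc, mul_assoc, Nat.mul_div_cancel_left _ hℓ]
  unfold emb
  rw [e1, e2, nsmul_eq_mul, ← Int.cast_natCast m1, ← Int.cast_mul,
    ← Int.cast_natCast (m1 * c * (z : ZMod ℓ).val), ZMod.intCast_eq_intCast_iff_dvd_sub]
  have h3 : (((z : ZMod ℓ).val : ℤ)) ≡ z [ZMOD ℓ] := by
    rw [← ZMod.intCast_eq_intCast_iff, Int.cast_natCast, ZMod.natCast_zmod_val]
  obtain ⟨k, hk⟩ := h3.dvd
  refine ⟨-k, ?_⟩
  have hM : (M : ℤ) = ℓ * m1 * c := by exact_mod_cast hc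
  rw [hM]
  push_cast
  linear_combination (-(m1 : ℤ) * c) * hk

/-- the number of exceptional points -/
theorem Ind_card {q D L : ℕ} (W t0 P : ℕ) (Y : Finset (Pt q D L)) (E : Finset (Pt q D L))
    (hE : ∀ x ∈ E, ¬ ((t0 ≤ (x.1 : ℕ) ∧ (x.1 : ℕ) - t0 < P) ∧ ∀ y ∈ Y, FarP W x y)) :
    E.card ≤ (t0 + (L - P) + Y.card * (2 * W)) * q ^ (D + 1) := by
  classical
  set B : Finset ℕ := (range t0 ∪ Ico (t0 + P) L) ∪
    Y.biUnion fun y => Ico ((y.1 : ℕ) + 1 - W) ((y.1 : ℕ) + W) with hB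
  have hBc : B.card ≤ t0 + (L - P) + Y.card * (2 * W) := by
    refine (card_union_le _ _).trans (Nat.add_le_add ?_ ?_)
    · refine (card_union_le _ _).trans ?_
      rw [card_range, Nat.card_Ico]
      omega
    · refine card_biUnion_le_card_mul _ _ _ fun y _ => ?_
      rw [Nat.card_Ico]
      omega
  have hsub : E ⊆ (univ.filter fun i : Fin L => (i : ℕ) ∈ B) ×ˢ univ := by
    intro x hx
    rw [mem_product, mem_filter]
    refine ⟨⟨mem_univ _, ?_⟩, mem_univ _⟩
    have h := hE x hx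
    rw [hB, mem_union, mem_union, mem_range, mem_Ico, mem_biUnion]
    by_contra h2
    push Not at h2
    obtain ⟨⟨h3, h4⟩, h5⟩ := h2
    apply h
    have h6 := x.1.2
    refine ⟨⟨h3, ?_⟩, fun y hy => ?_⟩
    · by_contra h7
      have := h4 (by omega)
      omega
    · have h8 := h5 y hy
      rw [mem_Ico] at h8
      unfold FarP
      omega
  refine (card_le_card hsub).trans ?_
  rw [card_product, card_univ, Fintype.card_fin]
  refine Nat.mul_le_mul_right _ (le_trans ?_ hBc)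
  refine Finset.card_le_card_of_injOn (fun i : Fin L => (i : ℕ)) ?_ ?_
  · intro i hi
    rw [mem_coe, mem_filter] at hi
    exact hi.2
  · intro i _ j _ h
    exact Fin.ext h

theorem or_step {q d : ℕ} (hq : 2 ≤ q) (hd : 2 ≤ d) {ℓ m1 : ℕ} (hℓ : ℓ.Prime)
    (h1 : OR q d m1) : OR q d (ℓ * m1) := by
  classical
  intro D κ M w0 _ hM hm ε hε
  have : NeZero ℓ := ⟨hℓ.ne_zero⟩
  have hq0 : 0 < q := by omega
  have hℓM : ℓ ∣ M := (Dvd.intro _ rfl).trans hm
  have hℓq : ℓ ∣ q := hℓ.dvd_of_dvd_pow (hℓM.trans hM)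
  have key := PI.main_of_dich M q (fun N f _ => ∃ (K1 L : ℕ) (t : Finset (Pt q D L) → ZMod M)
    (g : ℕ → ZMod M), N ≤ q ^ K1 ∧ q ^ K1 ≤ q * N ∧ L ≤ K1 + w0 ∧ (∀ S, (ℓ * m1) • t S = 0) ∧
      (∀ S, S.card ≠ d → t S = 0) ∧ IsP q (d - 1) D g ∧ f = fun n => FP q D L t n + g n) ?_ hε
  · obtain ⟨N0, hN0⟩ := key
    refine ⟨N0, fun N hN K1 L s hN1 hN2 hL t g ht1 ht2 hg => ?_⟩
    exact hN0 N hN (fun n => FP q D L t n + g n) s ⟨K1, L, t, g, hN1, hN2, hL, ht1, ht2, hg, rfl⟩
  · intro p r hp hr hqp hpr η _ δ ε hδ hε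
    obtain ⟨W, t0, εw, hW, hεw, hcorr⟩ := corr_boxes hq D d (by omega) hℓq m1 M hℓM hp hr hqp hpr η
      (show 0 < δ / 4 by positivity)
    obtain ⟨sw, hmany⟩ := many_or_struct hℓ d (by omega) εw hεw
    obtain ⟨k, hcorr⟩ := hcorr sw
    obtain ⟨KS, hmany⟩ := hmany k
    obtain ⟨w, N1, hw⟩ := PI.exists_K q hq (show 0 < δ / 8 by positivity)
    set M2 : ℕ := q ^ (κ + d) with hM2
    have : NeZero M2 := ⟨(Nat.pow_pos hq0).ne'⟩
    set e0 : ℕ := (t0 + (w + w0 + W) + KS * (2 * W)) * q ^ (D + 1) with he0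
    set C : ℕ := M2 ^ (KS + (e0 + 2 ^ e0)) with hC
    have hC0 : 0 < C := Nat.pow_pos (Nat.pos_of_ne_zero (NeZero.ne M2))
    have hCr : (0 : ℝ) < C := by exact_mod_cast hC0
    have hMM2 : M ∣ M2 := hM.trans (pow_dvd_pow q (by omega))
    have hm1M2 : m1 ∣ M2 := ((Dvd.intro_left _ rfl).trans hm).trans hMM2
    obtain ⟨N2, hN2⟩ := h1 (D + W) (κ + d) M2 w0 dvd_rfl hm1M2 (ε / C) (by positivity)
    refine ⟨N1 + N2 + q ^ (W + w) + 1, fun N hN f s hCl => ?_⟩
    obtain ⟨K1, L, t, g, hNK, hKN, hL, ht1, ht2, hg, rfl⟩ := hCl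
    obtain ⟨K, hK, hK1⟩ := hw N (by omega) K1 hKN
    have hK1' : W + w ≤ K1 := by
      by_contra h
      have h1 : q ^ K1 ≤ q ^ (W + w) := Nat.pow_le_pow_right hq0 (by omega)
      omega
    obtain ⟨P, hP⟩ : ∃ P, P + W = K + 1 := ⟨K + 1 - W, by omega⟩
    -- the tensor
    choose z hz using fun S => Ind_tint hm (t S) (ht1 S)
    set τ : Finset (Pt q D L) → ZMod ℓ := fun S => (z S : ZMod ℓ) with hτ
    have hτt : ∀ S, m1 • t S = emb M (τ S) := by
      intro S
      rw [hz S, Ind_emb hm]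
    have hsymm : ∀ x y : Pt q D L, FarP W x y → FarP W y x := by
      intro x y h
      unfold FarP at h ⊢
      exact h.symm
    set 𝒳 : Set (Pt q D L) := {x | t0 ≤ (x.1 : ℕ) ∧ (x.1 : ℕ) - t0 < P ∧ (x.2 : ℕ) % q ≠ 0}
      with h𝒳
    rcases hmany (Pt q D L) (MvPolynomial (Pt q D L) (ZMod ℓ)) pt (FarP W) hsymm 𝒳 (Tm d τ) with
      ⟨V, hV1, hV2, hV3, hV4, hV5⟩ | ⟨Y, n, e, F, lam, hY, hn, he, hstr⟩
    · -- many witnesses
      left
      intro N' hN'
      have h2 := hcorr K P hP L s t τ g ht2 hτt hg V (fun b j x hx => hV2 b j hx)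
        (fun b b' j j' hne x hx y hy => by
          by_cases hb : b = b'
          · subst hb
            exact hV1 b j (mem_univ _) j' (mem_univ _) (fun h => hne (by rw [h])) x hx y hy
          · exact hV4 b b' hb j j' x hx y hy) hV3 hV5
      have hN1 : (1 : ℝ) ≤ N := by
        have : 1 ≤ N := by omega
        exact_mod_cast this
      have h3 := PI.block_sum (fun n => ee (Phi (fun n => FP q D L t n + g n) η p r s n))
        (fun n => (PI.Kat_norm_ee _).le) (Q := q ^ K) (Nat.pow_pos hq0) (τ := δ / 4)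
        (by positivity) (fun u => by
          have := h2 u
          push_cast
          linarith) N'
      have hN'' : (N' : ℝ) ≤ N := by exact_mod_cast hN'
      have h6 : 2 * (((q ^ K : ℕ) : ℝ)) ≤ 2 * (δ / 8 * N) := by
        push_cast
        linarith
      have h4 : δ / 4 * ((N' : ℝ) + 1) ≤ δ / 4 * (2 * N) :=
        mul_le_mul_of_nonneg_left (by linarith) (by positivity)
      have h7 : 0 < δ * N := by positivity
      linarith [h3, h4, h6]
    · -- structure
      right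
      set E : Finset (Pt q D L) := univ.filter fun x =>
        ¬ ((t0 ≤ (x.1 : ℕ) ∧ (x.1 : ℕ) - t0 < P) ∧ ∀ y ∈ Y, FarP W x y) with hE
      have hEc : E.card ≤ e0 := by
        refine (Ind_card W t0 P Y E fun x hx => (mem_filter.1 hx).2).trans ?_
        rw [he0]
        refine Nat.mul_le_mul_right _ ?_
        have h2 : Y.card * (2 * W) ≤ KS * (2 * W) := Nat.mul_le_mul_right _ hY
        omega
      set far : Finset (Pt q D L) → Prop := fun S =>
        (∀ x ∈ S, ∀ y ∈ S, x ≠ y → FarP W x y) ∧ ∀ x ∈ S, (x.2 : ℕ) % q ≠ 0 with hfar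
      obtain ⟨T, hT, a, t', hTc, ha, ht'1, ht'2, hexp⟩ := f_reduce (X := Pt q D L) (q := q)
        (kap := κ) (M := M) (M2 := M2) (l := ℓ) (m1 := m1) (d := d) (n := n) hq hd hM hM2 hm t
        (fun S hS => ht2 S (by omega)) z (fun S _ => hz S) E far e he
        (fun κ' B => F κ' (∏ x ∈ B, pt x)) lam (fun S hS hSE hSf => by
          have h2 := hstr S hS (fun x hx => by
            have h3 : x ∉ E := fun h => (Finset.disjoint_left.1 hSE) hx h
            rw [hE, mem_filter] at h3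
            push Not at h3
            have h4 := h3 (mem_univ _)
            exact ⟨⟨h4.1.1, h4.1.2, hSf.2 x hx⟩, h4.2⟩) hSf.1
          rw [Tm_point τ hS] at h2
          exact h2)
      have hsplit := fun τ' : T => lead_split hq (show 1 ≤ d by omega) W m1 (t' τ') (ht'1 τ')
        (fun S hS hS1 hS2 => by
          by_cases h0 : t' τ' S = 0
          · rw [h0, smul_zero]
          · exact (ht'2 τ' S hS h0).2 ⟨hS1, hS2⟩)
      choose t'' g'' hs1 hs2 hs3 hs4 using hsplit
      have hpt : ∀ n, ee (FP q D L t n + g n) =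
          ∑ τ', a τ' * ee (FP q (D + W) L (t'' τ') n + (g'' τ' n + embM hMM2 (g n))) := by
        intro n
        have h2 := hexp (ftr q D L n)
        rw [PI.Kat_ee_add]
        have h3 : ee (FP q D L t n) = ∑ τ', a τ' * ee (FP q D L (t' τ') n) := h2
        rw [h3, Finset.sum_mul]
        refine Finset.sum_congr rfl fun τ' _ => ?_
        rw [hs4 τ' n, ← add_assoc, PI.Kat_ee_add (FP q (D + W) L (t'' τ') n + g'' τ' n),
          ee_embM, mul_assoc]
      have hterm : ∀ τ', ‖∑ n ∈ Icc 1 N, mc n *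
          ee (FP q (D + W) L (t'' τ') (n + s) + (g'' τ' (n + s) + embM hMM2 (g (n + s))))‖ ≤
          ε / C * N := by
        intro τ'
        refine hN2 N (by omega) K1 L s hNK hKN hL (t'' τ')
          (fun n => g'' τ' n + embM hMM2 (g n)) (hs1 τ') (hs2 τ') ?_
        exact (hs3 τ').add ((hg.map (embM hMM2)).mono_D hq (Nat.le_add_right D W))
      have hsum : ∑ n ∈ Icc 1 N, mc n * ee (FP q D L t (n + s) + g (n + s)) =
          ∑ τ', a τ' * ∑ n ∈ Icc 1 N, mc n *
            ee (FP q (D + W) L (t'' τ') (n + s) + (g'' τ' (n + s) + embM hMM2 (g (n + s)))) := by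
        simp_rw [Finset.mul_sum]
        rw [Finset.sum_comm]
        refine Finset.sum_congr rfl fun n _ => ?_
        rw [hpt (n + s), Finset.mul_sum]
        refine Finset.sum_congr rfl fun τ' _ => ?_
        ring
      show ‖∑ n ∈ Icc 1 N, mc n * ee (FP q D L t (n + s) + g (n + s))‖ ≤ ε * N
      rw [hsum]
      refine (norm_sum_le _ _).trans ?_
      have hcard : (Fintype.card T : ℝ) ≤ C := by
        have h2 : Fintype.card T ≤ C := by
          rw [hTc, hC]
          refine Nat.pow_le_pow_right (Nat.pos_of_ne_zero (NeZero.ne M2)) ?_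
          have h3 : 2 ^ E.card ≤ 2 ^ e0 := Nat.pow_le_pow_right (by omega) hEc
          omega
        exact_mod_cast h2
      have hN0 : (0 : ℝ) ≤ N := Nat.cast_nonneg N
      calc ∑ τ', ‖a τ' * ∑ n ∈ Icc 1 N, mc n *
            ee (FP q (D + W) L (t'' τ') (n + s) + (g'' τ' (n + s) + embM hMM2 (g (n + s))))‖
          ≤ ∑ _τ' : T, ε / C * N := by
            refine Finset.sum_le_sum fun τ' _ => ?_
            rw [norm_mul]
            calc _ ≤ 1 * (ε / C * N) :=
                  mul_le_mul (ha τ') (hterm τ') (norm_nonneg _) zero_le_one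
              _ = _ := one_mul _
        _ = Fintype.card T * (ε / C * N) := by
            rw [Finset.sum_const, card_univ, nsmul_eq_mul]
        _ ≤ C * (ε / C * N) := mul_le_mul_of_nonneg_right hcard (by positivity)
        _ = ε * N := by field_simp

theorem or_one {q d : ℕ} (h : PO q (d - 1)) : OR q d 1 := by
  intro D κ M w0 _ hM _ ε hε
  obtain ⟨N0, hN0⟩ := h D κ M hM ε hε
  refine ⟨N0, fun N hN K1 L s _ _ _ t g ht _ hg => ?_⟩
  refine hN0 N hN s (fun n => FP q D L t n + g n) (hg.congr fun n => ?_)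
  have h0 : ∀ S, t S = 0 := fun S => by
    have := ht S
    rwa [one_smul] at this
  unfold FP
  simp [h0]

/-- the theorem for phases whose leading coefficients are killed by `m'` -/
theorem or_all {q d : ℕ} (hq : 2 ≤ q) (hd : 2 ≤ d) (h : PO q (d - 1)) (m' : ℕ) (hm' : m' ≠ 0) :
    OR q d m' := by
  induction m' using Nat.strong_induction_on with
  | _ m' ih =>
    by_cases h1 : m' = 1
    · rw [h1]
      exact or_one h
    · have hp : m'.minFac.Prime := Nat.minFac_prime h1
      have h2 : m'.minFac * (m' / m'.minFac) = m' := Nat.mul_div_cancel' (Nat.minFac_dvd m')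
      have h3 : m' / m'.minFac ≠ 0 := by
        intro h4
        rw [h4, mul_zero] at h2
        exact hm' h2.symm
      have h4 : m' / m'.minFac < m' :=
        Nat.div_lt_self (Nat.pos_of_ne_zero hm') hp.one_lt
      rw [← h2]
      exact or_step hq hd hp (ih _ h4 h3)

end Pool.Agent.Lib.MP_3e612f_nt.DI
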