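import Pool.Agent.Lib.MP_3e612f_nt.DI.CanD

/-!
Polynomials of bounded degree in the digits (Kalai's question), from the theorem for phases of degree `≤ d`.
-/

set_option autoImplicit false

namespace Pool.Agent.Lib.MP_3e612f_nt.DI

open Finset Filter
open Pool.Agent.Lib.MP_3e612f_nt.PI (wd ee mc Phi)

/-- polynomials of degree `≤ d` in the digits are phases of degree `≤ d` -/
theorem isP_poly {q d L : ℕ} (hq : 2 ≤ q) (P : MvPolynomial (Fin L) (ZMod q))
    (hP : P.totalDegree ≤ d) :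
    IsP q d 0 fun n => MvPolynomial.eval
      (fun i : Fin L => ((n / q ^ (i : ℕ) % q : ℕ) : ZMod q)) P := by
  have h1 : ∀ m ∈ P.support, IsP q d 0 fun n : ℕ => P.coeff m *
      ∏ i ∈ m.support, ((n / q ^ (i : ℕ) % q : ℕ) : ZMod q) ^ m i := by
    intro m hm
    refine ⟨L + 0, isP_of_dep hq (P := m.support.image fun i : Fin L => (i : ℕ)) ?_ ?_ ?_⟩
    · refine card_image_le.trans (le_trans ?_ ((MvPolynomial.le_totalDegree hm).trans hP))
      have h2 : ∑ _i ∈ m.support, 1 ≤ ∑ i ∈ m.support, m i :=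
        sum_le_sum fun i hi => Nat.one_le_iff_ne_zero.2 (Finsupp.mem_support_iff.1 hi)
      simpa [Finsupp.sum] using h2
    · intro i hi
      obtain ⟨j, -, rfl⟩ := mem_image.1 hi
      exact j.2
    · intro n n' h
      show P.coeff m * _ = P.coeff m * _
      refine congrArg (P.coeff m * ·) (prod_congr rfl fun i hi => ?_)
      have h3 := h (i : ℕ) (mem_image_of_mem _ hi)
      unfold wd at h3
      rw [zero_add, pow_one] at h3
      rw [h3]
  refine IsP.congr (IsP.sum P.support h1) fun n => ?_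
  rw [MvPolynomial.eval_eq]

/-- the standard character, explicitly -/
theorem ee_exp {q : ℕ} [NeZero q] (z : ZMod q) :
    ee z = Complex.exp (2 * Real.pi * Complex.I * (z.val : ℂ) / q) := by
  unfold ee
  rw [ZMod.stdAddChar_apply, ZMod.toCircle_apply]

/-- uniform orthogonality to all polynomials of degree `≤ d` in the digits -/
theorem kalai {q d : ℕ} (hq : 2 ≤ q) (h : PO q d) {ε : ℝ} (hε : 0 < ε) : ∃ N₀ : ℕ, ∀ N ≥ N₀,
    ∀ (L : ℕ) (P : MvPolynomial (Fin L) (ZMod q)), P.totalDegree ≤ d →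
      ‖∑ n ∈ Icc 1 N, Complex.exp (2 * Real.pi * Complex.I * ((MvPolynomial.eval
        (fun i : Fin L => ((n / q ^ (i : ℕ) % q : ℕ) : ZMod q)) P).val : ℂ) / q) *
          ((ArithmeticFunction.moebius n : ℤ) : ℂ)‖ ≤ ε * N := by
  have : NeZero q := ⟨by omega⟩
  obtain ⟨N0, hN0⟩ := h 0 1 q (by rw [pow_one]) ε hε
  refine ⟨N0, fun N hN L P hP => ?_⟩
  have h1 := hN0 N hN 0 _ (isP_poly hq P hP)
  refine le_trans (le_of_eq ?_) h1
  congr 1
  refine sum_congr rfl fun n _ => ?_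
  rw [add_zero, ee_exp, mul_comm]
  rfl

/-- the degree may tend to infinity (slowly) -/
theorem kalai_slow {q : ℕ} (hq : 2 ≤ q) (h : ∀ d, PO q d) : ∃ δ : ℕ → ℕ, Tendsto δ atTop atTop ∧
    ∀ ε : ℝ, 0 < ε → ∃ N₀ : ℕ, ∀ N ≥ N₀, ∀ (L : ℕ) (P : MvPolynomial (Fin L) (ZMod q)),
      P.totalDegree ≤ δ N →
      ‖∑ n ∈ Icc 1 N, Complex.exp (2 * Real.pi * Complex.I * ((MvPolynomial.eval
        (fun i : Fin L => ((n / q ^ (i : ℕ) % q : ℕ) : ZMod q)) P).val : ℂ) / q) *
          ((ArithmeticFunction.moebius n : ℤ) : ℂ)‖ ≤ ε * N := by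
  classical
  have hk : ∀ d : ℕ, ∃ N₀ : ℕ, ∀ N ≥ N₀, ∀ (L : ℕ) (P : MvPolynomial (Fin L) (ZMod q)),
      P.totalDegree ≤ d →
      ‖∑ n ∈ Icc 1 N, Complex.exp (2 * Real.pi * Complex.I * ((MvPolynomial.eval
        (fun i : Fin L => ((n / q ^ (i : ℕ) % q : ℕ) : ZMod q)) P).val : ℂ) / q) *
          ((ArithmeticFunction.moebius n : ℤ) : ℂ)‖ ≤ ((d : ℝ) + 1)⁻¹ * N := fun d =>
    kalai hq (h d) (by positivity)
  choose N₀ hN₀ using hk
  -- an increasing bound
  let B : ℕ → ℕ := fun d => d + ∑ i ∈ range (d + 1), N₀ i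
  have hB : ∀ d, N₀ d ≤ B d := fun d => le_trans
    (single_le_sum (f := N₀) (fun _ _ => Nat.zero_le _) (mem_range.2 (Nat.lt_succ_self d)))
    (Nat.le_add_left _ _)
  have hBd : ∀ d, d ≤ B d := fun d => Nat.le_add_right _ _
  have hmono : Monotone B := by
    intro a b hab
    refine Nat.add_le_add hab (sum_le_sum_of_subset ?_)
    intro x hx
    rw [mem_range] at hx ⊢
    omega
  refine ⟨fun N => Nat.findGreatest (fun d => B d ≤ N) N, ?_, ?_⟩
  · refine tendsto_atTop_atTop.2 fun d => ⟨B d, fun N hN => ?_⟩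
    exact Nat.le_findGreatest ((hBd d).trans hN) hN
  · intro ε hε
    obtain ⟨d0, hd0⟩ := exists_nat_gt ε⁻¹
    refine ⟨B d0, fun N hN L P hP => ?_⟩
    set m := Nat.findGreatest (fun d => B d ≤ N) N with hm
    have hm0 : d0 ≤ m := Nat.le_findGreatest ((hBd d0).trans hN) hN
    have hmN : B m ≤ N := Nat.findGreatest_spec (P := fun d => B d ≤ N)
      ((hBd d0).trans hN) hN
    refine (hN₀ m N ((hB m).trans hmN) L P hP).trans ?_
    refine mul_le_mul_of_nonneg_right ?_ (Nat.cast_nonneg N)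
    have h3 : ε⁻¹ ≤ (m : ℝ) + 1 := by
      have : (d0 : ℝ) ≤ m := by exact_mod_cast hm0
      linarith
    rw [inv_le_comm₀ (by positivity) hε]
    exact h3

end Pool.Agent.Lib.MP_3e612f_nt.DI
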