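import Pool.Agent.Lib.MP_3e612f_nt.DI.CanD
import Pool.Agent.Lib.MP_3e612f_nt.DI.FRed

/-!
# The structured case

`or_struct`: if the leading coefficients of the phase are structured outside a bounded set of points, the
Moebius sum is small by the theorem `OR q d m1`. PROOF. `f_reduce` with `U = ftr q D L (n + s)`; the leading
coefficients of the terms are `0` or killed by `m1` for far sets without exceptional points, and the near sets give a
phase of smaller degree (`isP_near`). The leading part is brought to windows of `D + W` digits by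
`IsPL.mono_D` in the group `{x | m1 • x = 0}`.
-/

set_option autoImplicit false

namespace Pool.Agent.Lib.MP_3e612f_nt.DI

open Finset
open Pool.Agent.Lib.MP_3e612f_nt.PI (ee mc)

/-- elements killed by `m'` -/
theorem exists_tint {M m' : ℕ} [NeZero M] (h : m' ∣ M) {x : ZMod M} (hx : m' • x = 0) :
    ∃ z : ℤ, x = (((M / m' : ℕ) * z : ℤ) : ZMod M) := by
  have hM : M ≠ 0 := NeZero.ne M
  obtain ⟨c, hc⟩ := h
  have hm0 : 0 < m' := Nat.pos_of_ne_zero (by rintro rfl; exact hM (by rw [hc, zero_mul]))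
  have hMc : M / m' = c := by
    rw [hc, Nat.mul_div_cancel_left _ hm0]
  have h1 : ((m' * x.val : ℕ) : ZMod M) = 0 := by
    rw [Nat.cast_mul, ZMod.natCast_val, ZMod.cast_id', id]
    rw [nsmul_eq_mul] at hx
    exact hx
  rw [ZMod.natCast_eq_zero_iff] at h1
  have h1' : m' * c ∣ m' * x.val := (dvd_of_eq hc.symm).trans h1
  obtain ⟨z, hz⟩ := (Nat.mul_dvd_mul_iff_left hm0).1 h1'
  refine ⟨z, ?_⟩
  rw [hMc]
  have h2 : x = ((x.val : ℕ) : ZMod M) := by
    rw [ZMod.natCast_val, ZMod.cast_id', id]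
  rw [h2, hz]
  push_cast
  rfl

/-- a phase with coefficients killed by `m1`, in larger windows -/
theorem lead_mono {q d D L m1 M2 : ℕ} [NeZero M2] (hq : 2 ≤ q) {D' : ℕ} (hD : D ≤ D')
    (t : Finset (Pt q D L) → ZMod M2) (ht : ∀ S, m1 • t S = 0) (hd : ∀ S, d < S.card → t S = 0)
    (hd1 : 1 ≤ d) :
    ∃ (t' : Finset (Pt q D' (L + D')) → ZMod M2) (g : ℕ → ZMod M2), (∀ S, m1 • t' S = 0) ∧
      (∀ S, S.card ≠ d → t' S = 0) ∧ IsP q (d - 1) D' g ∧
      ∀ n, FP q D L t n = FP q D' (L + D') t' n + g n := by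
  let H : AddSubgroup (ZMod M2) := (nsmulAddMonoidHom m1 : ZMod M2 →+ ZMod M2).ker
  have hH : ∀ x, x ∈ H ↔ m1 • x = 0 := fun x => by
    rw [AddMonoidHom.mem_ker]
    rfl
  let tH : Finset (Pt q D L) → H := fun S => ⟨t S, (hH _).2 (ht S)⟩
  have h1 : IsPL q d D L (FP q D L tH) := ⟨tH, fun S hS => Subtype.ext (hd S hS), fun _ => rfl⟩
  obtain ⟨tH', htH', hf⟩ := IsPL.mono_D hq hD h1
  have h2 : ∀ n, FP q D L t n = ((FP q D L tH n : H) : ZMod M2) := by
    intro n
    exact FP_map H.subtype tH n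
  refine ⟨fun S => if S.card = d then (tH' S : ZMod M2) else 0,
    FP q D' (L + D') fun S => if S.card = d then 0 else (tH' S : ZMod M2), ?_, ?_, ?_, ?_⟩
  · intro S
    show m1 • (if S.card = d then (tH' S : ZMod M2) else 0) = 0
    split_ifs
    · exact (hH _).1 (tH' S).2
    · exact smul_zero _
  · intro S hS
    exact if_neg hS
  · refine isP_FP _ fun S hS => ?_
    split_ifs with h3
    · rfl
    · rw [htH' S (by omega)]
      rfl
  · intro n
    rw [h2, hf n, ← FP_add]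
    have h3 := FP_map H.subtype tH' n
    have h4 : ((FP q D' (L + D') tH' n : H) : ZMod M2) =
        FP q D' (L + D') (fun S => (tH' S : ZMod M2)) n := h3.symm
    rw [h4]
    congr 1
    funext S
    split_ifs <;> simp

/-- **The structured case.** -/
theorem or_struct {q d l m1 : ℕ} [NeZero l] (hq : 2 ≤ q) (hd : 2 ≤ d) (hOR : OR q d m1)
    (D kap M w0 W K : ℕ) [NeZero M] (hM : M ∣ q ^ kap) (hl : l * m1 ∣ M) {ε : ℝ} (hε : 0 < ε) :
    ∃ N0 : ℕ, ∀ N ≥ N0, ∀ K1 L s : ℕ, N ≤ q ^ K1 → q ^ K1 ≤ q * N → L ≤ K1 + w0 →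
      ∀ (t : Finset (Pt q D L) → ZMod M) (g : ℕ → ZMod M) (tint : Finset (Pt q D L) → ℤ),
      (∀ S, S.card = d → t S = (((M / (l * m1) : ℕ) * tint S : ℤ) : ZMod M)) →
      (∀ S, S.card ≠ d → t S = 0) → IsP q (d - 1) D g →
      ∀ (E : Finset (Pt q D L)) (n : ℕ) (e : Fin n → ℕ) (Fl : Fin n → Finset (Pt q D L) → ZMod l)
        (lam : (Fin n → ℕ) → ZMod l), E.card ≤ K → n ≤ K → (∀ κ, 1 ≤ e κ ∧ e κ < d) →
        (∀ S : Finset (Pt q D L), S.card = d → Disjoint S E →
          (∀ x ∈ S, ∀ y ∈ S, x ≠ y → FarP W x y) →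
          (tint S : ZMod l) = ∑ N ∈ LP e S, lam (mul N) * ∏ p ∈ N, Fl p.2 p.1) →
        ‖∑ n ∈ Icc 1 N, mc n * ee (FP q D L t (n + s) + g (n + s))‖ ≤ ε * N := by
  classical
  set M2 : ℕ := q ^ (kap + d) with hM2
  have hM20 : M2 ≠ 0 := pow_ne_zero _ (by omega)
  have : NeZero M2 := ⟨hM20⟩
  set CT : ℕ := M2 ^ (K + (K + 2 ^ K)) with hCT
  have hCT0 : 0 < (CT : ℝ) := by
    have : 0 < CT := pow_pos (Nat.pos_of_ne_zero hM20) _
    exact_mod_cast this
  have hMM2 : M ∣ M2 := hM.trans (pow_dvd_pow q (by omega))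
  have hm1M2 : m1 ∣ M2 := (dvd_mul_left m1 l).trans (hl.trans hMM2)
  obtain ⟨N0, hN0⟩ := hOR (D + W) (kap + d) M2 (w0 + (D + W)) (dvd_refl _) hm1M2 (ε / CT)
    (div_pos hε hCT0)
  refine ⟨N0, ?_⟩
  intro N hN K1 L s hNK hKN hL t g tint htint ht hg E n e Fl lam hE hn he hstr
  obtain ⟨T, hT, a, t', hTcard, ha, ht'1, ht'2, hred⟩ := f_reduce (X := Pt q D L) hq hd hM hM2 hl t
    (fun S hS => ht S (by omega)) tint htint E
    (fun S => ∀ x ∈ S, ∀ y ∈ S, x ≠ y → FarP W x y) e he Fl lam hstr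
  -- every term is a sum of the class `OR q d m1`
  have hterm : ∀ τ : T, ‖∑ n ∈ Icc 1 N, mc n * ee (FP q D L (t' τ) (n + s) +
      embM hMM2 (g (n + s)))‖ ≤ ε / CT * N := by
    intro τ
    set t2 : Finset (Pt q D L) → ZMod M2 := fun S =>
      if S.card = d ∧ ∀ x ∈ S, ∀ y ∈ S, x ≠ y → FarP W x y then t' τ S else 0 with ht2
    set t3 : Finset (Pt q D L) → ZMod M2 := fun S =>
      if S.card = d ∧ ¬ (∀ x ∈ S, ∀ y ∈ S, x ≠ y → FarP W x y) then t' τ S else 0 with ht3
    set t4 : Finset (Pt q D L) → ZMod M2 := fun S => if S.card = d then 0 else t' τ S with ht4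
    have hsplit : ∀ n, FP q D L (t' τ) n = FP q D L t2 n + (FP q D L t3 n + FP q D L t4 n) := by
      intro n
      rw [← FP_add, ← FP_add]
      congr 1
      funext S
      simp only [ht2, ht3, ht4]
      by_cases h1 : S.card = d
      · by_cases h2 : ∀ x ∈ S, ∀ y ∈ S, x ≠ y → FarP W x y
        · rw [if_pos ⟨h1, h2⟩, if_neg (fun h => h.2 h2), if_pos h1]
          simp
        · rw [if_neg (fun h => h2 h.2), if_pos ⟨h1, h2⟩, if_pos h1]
          simp
      · rw [if_neg (fun h => h1 h.1), if_neg (fun h => h1 h.1), if_neg h1]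
        simp
    have h2m : ∀ S, m1 • t2 S = 0 := by
      intro S
      simp only [ht2]
      split_ifs with h1
      · by_cases h2 : t' τ S = 0
        · rw [h2, smul_zero]
        · exact (ht'2 τ S h1.1 h2).2 h1.2
      · exact smul_zero _
    have h2d : ∀ S, d < S.card → t2 S = 0 := by
      intro S hS
      simp only [ht2]
      rw [if_neg]
      rintro ⟨h1, -⟩
      omega
    have h3 : IsP q (d - 1) (D + W) (FP q D L t3) := by
      refine isP_near hq W (by omega) t3 fun S hS => ?_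
      simp only [ht3] at hS
      rw [ite_ne_right_iff] at hS
      obtain ⟨⟨h1, h2⟩, -⟩ := hS
      push Not at h2
      exact ⟨h1.le, h2⟩
    have h4 : IsP q (d - 1) (D + W) (FP q D L t4) := by
      refine IsP.mono_D hq (by omega) (isP_FP t4 fun S hS => ?_)
      simp only [ht4]
      split_ifs with h1
      · rfl
      · exact ht'1 τ S (by omega)
    obtain ⟨t5, g5, h5m, h5d, h5g, h5⟩ := lead_mono hq (show D ≤ D + W by omega) t2 h2m h2d
      (by omega)
    have hg' : IsP q (d - 1) (D + W) fun n => embM hMM2 (g n) :=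
      IsP.mono_D hq (by omega) (IsP.map (embM hMM2) hg)
    have hgall : IsP q (d - 1) (D + W) fun n =>
        (g5 n + (FP q D L t3 n + FP q D L t4 n)) + embM hMM2 (g n) :=
      IsP.add (IsP.add h5g (IsP.add h3 h4)) hg'
    have h6 := hN0 N hN K1 (L + (D + W)) s hNK hKN (by omega) t5 _ h5m h5d hgall
    refine le_trans (le_of_eq ?_) h6
    congr 1
    refine Finset.sum_congr rfl fun n _ => ?_
    rw [hsplit, h5]
    congr 2
    ring
  have hsum : ∑ n ∈ Icc 1 N, mc n * ee (FP q D L t (n + s) + g (n + s)) =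
      ∑ τ : T, a τ * ∑ n ∈ Icc 1 N, mc n * ee (FP q D L (t' τ) (n + s) +
        embM hMM2 (g (n + s))) := by
    simp only [Finset.mul_sum]
    rw [Finset.sum_comm]
    refine Finset.sum_congr rfl fun n _ => ?_
    have h1 : ee (FP q D L t (n + s)) = ∑ τ, a τ * ee (FP q D L (t' τ) (n + s)) :=
      hred (ftr q D L (n + s))
    rw [PI.Kat_ee_add, h1, Finset.sum_mul, Finset.mul_sum]
    refine Finset.sum_congr rfl fun τ _ => ?_
    rw [PI.Kat_ee_add, ee_embM]
    ring
  rw [hsum]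
  have hcard : (Fintype.card T : ℝ) ≤ CT := by
    have h1 : Fintype.card T ≤ CT := by
      rw [hTcard, hCT]
      refine Nat.pow_le_pow_right (Nat.pos_of_ne_zero hM20) ?_
      have h2 : 2 ^ E.card ≤ 2 ^ K := Nat.pow_le_pow_right (by norm_num) hE
      omega
    exact_mod_cast h1
  have hN0' : (0 : ℝ) ≤ ε / CT * N := by positivity
  calc ‖∑ τ : T, a τ * ∑ n ∈ Icc 1 N, mc n * ee (FP q D L (t' τ) (n + s) +
        embM hMM2 (g (n + s)))‖ ≤ ∑ τ : T, ε / CT * N := by
        refine (norm_sum_le _ _).trans (Finset.sum_le_sum fun τ _ => ?_)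
        rw [norm_mul]
        calc ‖a τ‖ * ‖∑ n ∈ Icc 1 N, mc n * ee (FP q D L (t' τ) (n + s) +
            embM hMM2 (g (n + s)))‖ ≤ 1 * (ε / CT * N) :=
              mul_le_mul (ha τ) (hterm τ) (norm_nonneg _) zero_le_one
          _ = ε / CT * N := one_mul _
    _ = Fintype.card T * (ε / CT * N) := by
        rw [Finset.sum_const, Finset.card_univ, nsmul_eq_mul]
    _ ≤ CT * (ε / CT * N) := mul_le_mul_of_nonneg_right hcard hN0'
    _ = ε * N := by
        field_simp

end Pool.Agent.Lib.MP_3e612f_nt.DI
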