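import Pool.Agent.Lib.MP_3e612f_nt.DI.Gcs
import Pool.Agent.Lib.MP_3e612f_nt.DI.BMul

/-!
The average of a phase over the contents of finitely many windows (parts G2, G3, G4).

`c : A → Fin Q` are the contents of the windows `v : A`, the window `v` is active if its content is `z v`
or `z' v`, and then it is switched between the two by a bit. For fixed `c` the inequality of
Gowers, Cauchy and Schwarz in the bits of the colours gives the average of `ee (BB (b - b'))` (`hcube`).
The law of each coordinate of the argument of `BB` is replaced, colour by colour, by: `0` with the probability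
`1 - 1 / R0`, otherwise uniform modulo `ℓ` (in one colour times `m1`). All factors are real and they
increase. In the end the average is a bias over `ZMod ℓ`, on the set of the active windows; it is at most
`ε` as soon as one of the `k` blocks is completely active.
-/

set_option autoImplicit false

namespace Pool.Agent.Lib.MP_3e612f_nt.DI

open Finset
open Pool.Agent.Lib.MP_3e612f_nt.PI (ee)

/-- the contents `c`, with the active windows switched by the bits `b` -/
def mixC {A C : Type} {Q : ℕ} (col : A → C) (z z' c : A → Fin Q) (b : C → A → Bool) :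
    A → Fin Q := fun v =>
  if c v = z v ∨ c v = z' v then (if b (col v) v then z' v else z v) else c v

/-- the difference of the bits at the active windows -/
def dltC {A C : Type} {Q : ℕ} (z z' c : A → Fin Q) (b b' : C → A → Bool) : C → A → ℤ :=
  fun j v => if c v = z v ∨ c v = z' v then
    (if b j v then 1 else 0) - (if b' j v then 1 else 0) else 0

/-! ### Averages -/

theorem Rep_ee_zero {M : ℕ} [NeZero M] : ee (0 : ZMod M) = 1 := by
  unfold Pool.Agent.Lib.MP_3e612f_nt.PI.ee
  exact AddChar.map_zero_eq_one _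

theorem Rep_ee_inj {M : ℕ} [NeZero M] {x y : ZMod M} (h : ee x = ee y) : x = y := by
  apply ZMod.injective_stdAddChar
  unfold Pool.Agent.Lib.MP_3e612f_nt.PI.ee at h
  exact h

theorem Rep_ee_sum {M : ℕ} [NeZero M] {ι : Type} (s : Finset ι) (f : ι → ZMod M) :
    ee (∑ i ∈ s, f i) = ∏ i ∈ s, ee (f i) := by
  classical
  induction s using Finset.induction_on with
  | empty => simp [Rep_ee_zero]
  | insert a s ha ih => rw [sum_insert ha, prod_insert ha, Gcs_ee_add, ih]

theorem Rep_ee_nsmul {M : ℕ} [NeZero M] (n : ℕ) (x : ZMod M) : ee (n • x) = ee x ^ n := by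
  induction n with
  | zero => simp [Rep_ee_zero]
  | succ n ih => rw [succ_nsmul, Gcs_ee_add, ih, pow_succ]

/-- the average of a product of functions of the coordinates -/
theorem av_pi_prod {A Ω : Type} [Fintype A] [DecidableEq A] [Fintype Ω] (g : A → Ω → ℂ) :
    (av fun u : A → Ω => ∏ v, g v (u v)) = ∏ v, av (g v) := by
  unfold av
  rw [prod_mul_distrib, prod_univ_sum, Fintype.piFinset_univ, Fintype.card_fun]
  congr 1
  rw [prod_const, card_univ, inv_pow]
  push_cast
  rfl

theorem av_diag {A C Ω : Type} [Fintype A] [DecidableEq A] [Fintype C] [DecidableEq C] [Fintype Ω]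
    [Nonempty Ω] (col : A → C) (F : (A → Ω) → ℂ) :
    (av fun κ : C → A → Ω => F fun v => κ (col v) v) = av F := by
  have h1 := av_comp_inj (E := Ω) (fun v : A => (col v, v))
    (fun v w h => (Prod.ext_iff.1 h).2) F
  rw [← h1, ← av_equiv (Equiv.curry C A Ω).symm]
  rfl

theorem norm_av_pow {α : Type} [Fintype α] [Nonempty α] (h : α → ℂ) (n : ℕ) :
    ‖av h‖ ^ n ≤ (av fun a => ((‖h a‖ ^ n : ℝ) : ℂ)).re := by
  have h0 : (0 : ℝ) < Fintype.card α := by exact_mod_cast Fintype.card_pos
  have h1 : (av fun a => ((‖h a‖ ^ n : ℝ) : ℂ)).re = ∑ a, (Fintype.card α : ℝ)⁻¹ * ‖h a‖ ^ n := by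
    unfold av
    rw [← Complex.ofReal_sum, ← Complex.ofReal_natCast, ← Complex.ofReal_inv,
      ← Complex.ofReal_mul, Complex.ofReal_re, mul_sum]
  have h2 : ‖av h‖ ≤ ∑ a, (Fintype.card α : ℝ)⁻¹ * ‖h a‖ := by
    unfold av
    rw [norm_mul, norm_inv, Complex.norm_natCast, ← mul_sum]
    exact mul_le_mul_of_nonneg_left (norm_sum_le _ _) (by positivity)
  rw [h1]
  refine (pow_le_pow_left₀ (norm_nonneg _) h2 n).trans ?_
  refine Real.pow_arith_mean_le_arith_mean_pow _ _ _ (fun _ _ => by positivity) ?_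
    (fun _ _ => norm_nonneg _) n
  rw [sum_const, card_univ, nsmul_eq_mul, mul_inv_cancel₀ h0.ne']

theorem re_av {α : Type} [Fintype α] (f : α → ℂ) :
    (av f).re = (Fintype.card α : ℝ)⁻¹ * ∑ a, (f a).re := by
  unfold av
  rw [← Complex.re_sum, ← Complex.ofReal_natCast, ← Complex.ofReal_inv, Complex.re_ofReal_mul]

/-! ### The first step -/

section
variable {A C : Type} [Fintype A] [DecidableEq A] [Fintype C] [DecidableEq C] {M Q : ℕ} [NeZero M]

theorem Rep_mix (z z' : A → Fin Q) (hz : ∀ v, z v ≠ z' v) (g : (A → Fin Q) → ℂ) :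
    av g = av fun c : A → Fin Q => av fun b : A → Bool =>
      g fun v => if c v = z v ∨ c v = z' v then (if b v then z' v else z v) else c v := by
  let J : (A → Fin Q) × (A → Bool) → (A → Fin Q) × (A → Bool) := fun p =>
    (fun v => if p.1 v = z v ∨ p.1 v = z' v then (if p.2 v then z' v else z v) else p.1 v,
      fun v => if p.1 v = z v ∨ p.1 v = z' v then decide (p.1 v = z' v) else p.2 v)
  have hJ : Function.Involutive J := by
    rintro ⟨c, b⟩
    refine Prod.ext ?_ ?_
    · funext v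
      simp only [J]
      by_cases h : c v = z v ∨ c v = z' v
      · simp only [h, if_true]
        rcases h with h | h
        · by_cases hb : b v = true <;> simp [h, hz v, hb]
        · by_cases hb : b v = true <;> simp [h, hb]
      · simp only [h, if_false]
    · funext v
      simp only [J]
      by_cases h : c v = z v ∨ c v = z' v
      · simp only [h, if_true]
        by_cases hb : b v = true <;> simp [hz v, hb]
      · simp only [h, if_false]
  have h1 : av g = av fun p : (A → Fin Q) × (A → Bool) => g p.1 := by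
    rw [av_prod]
    congr 1
    funext c
    exact (av_const _).symm
  rw [h1, ← av_equiv hJ.toPerm, av_prod]
  rfl

theorem Rep_first [Nonempty C] (hQ : 2 ≤ Q) (col : A → C) (z z' : A → Fin Q)
    (hz : ∀ v, z v ≠ z' v) (f : (A → Fin Q) → ZMod M) (BB : (C → A → ℤ) → ZMod M)
    (hcube : ∀ (c : A → Fin Q) (b b' : C → A → Bool),
      (∑ I : Finset C, (-1 : ℤ) ^ I.card • f (mixC col z z' c (I.piecewise b' b))) =
        BB (dltC z z' c b b')) :
    ‖av fun c => ee (f c)‖ ^ 2 ^ Fintype.card C ≤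
      (av fun c : A → Fin Q => av fun b : C → A → Bool => av fun b' : C → A → Bool =>
        ee (BB (dltC z z' c b b'))).re := by
  have : Nonempty (Fin Q) := ⟨⟨0, by omega⟩⟩
  have h1 : (av fun c => ee (f c)) = av fun c : A → Fin Q => av fun b : C → A → Bool =>
      ee (f (mixC col z z' c b)) := by
    rw [Rep_mix z z' hz]
    congr 1
    funext c
    exact (av_diag col fun b : A → Bool =>
      ee (f fun v => if c v = z v ∨ c v = z' v then (if b v then z' v else z v) else c v)).symm
  rw [h1]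
  refine (norm_av_pow _ _).trans ?_
  refine av_re_mono fun c => ?_
  rw [Complex.ofReal_re]
  refine (gcs fun b : C → A → Bool => f (mixC col z z' c b)).trans (le_of_eq ?_)
  congr 2
  funext b
  congr 1
  funext b'
  rw [hcube]

theorem Rep_indep (hQ : 2 ≤ Q) (col : A → C) (z z' : A → Fin Q)
    (BB : (C → A → ℤ) → ZMod M) (hcol : ∀ x y : C → A → ℤ, (∀ v, x (col v) v = y (col v) v) →
      BB x = BB y) :
    (av fun c : A → Fin Q => av fun b : C → A → Bool => av fun b' : C → A → Bool =>
      ee (BB (dltC z z' c b b'))) =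
    av fun w : C → A → Fin Q × Bool × Bool => ee (BB fun j v =>
      if (w j v).1 = z v ∨ (w j v).1 = z' v then
        (if (w j v).2.1 then 1 else 0) - (if (w j v).2.2 then 1 else 0) else 0) := by
  have : Nonempty (Fin Q) := ⟨⟨0, by omega⟩⟩
  let e : (C → A → Fin Q) × (C → A → Bool) × (C → A → Bool) ≃ (C → A → Fin Q × Bool × Bool) :=
    { toFun := fun p j v => (p.1 j v, p.2.1 j v, p.2.2 j v)
      invFun := fun w => (fun j v => (w j v).1, fun j v => (w j v).2.1, fun j v => (w j v).2.2)
      left_inv := fun _ => rfl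
      right_inv := fun _ => rfl }
  rw [← av_equiv e, av_prod]
  rw [← av_diag col]
  congr 1
  funext κ
  rw [av_prod]
  congr 1
  funext b
  congr 1
  funext b'
  congr 1
  exact hcol _ _ fun v => rfl

end

/-! ### Replacement of the laws, colour by colour -/

set_option linter.unusedSectionVars false

section
variable {A C Ω Ω' : Type} [Fintype A] [DecidableEq A] [Fintype C] [DecidableEq C] [Fintype Ω]
  [Fintype Ω'] {M : ℕ} [NeZero M]

/-- the argument of `BB`: the new law in the colours of `S`, the old law in the other colours -/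
def datR (S : Finset C) (X : A → Ω → ℤ) (X' : C → Ω' → ℤ) (w : C → A → Ω × Ω') : C → A → ℤ :=
  fun i v => if i ∈ S then X' i (w i v).2 else X v (w i v).1

theorem Rep_add {BB : (C → A → ℤ) → ZMod M} (hBB : MAdd univ BB) (x : C → A → ℤ)
    (j : C) (u : A → ℤ) : BB (Function.update x j u) =
      ∑ v, u v • BB (Function.update x j (Pi.single v 1)) := by
  let B : (A → ℤ) →+ ZMod M := AddMonoidHom.mk' (fun u => BB (Function.update x j u))
    fun u v => (hBB x j).1 (mem_univ j) u v
  have h1 : B u = ∑ v, u v • B (Pi.single v 1) := by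
    conv_lhs => rw [← univ_sum_single u]
    rw [map_sum]
    refine sum_congr rfl fun v _ => ?_
    rw [← map_zsmul, ← Pi.single_smul]
    simp
  exact h1

theorem Rep_inner {BB : (C → A → ℤ) → ZMod M} (hBB : MAdd univ BB) (x : C → A → ℤ) (j : C)
    (X : A → Ω → ℤ) :
    (av fun u : A → Ω => ee (BB (Function.update x j fun v => X v (u v)))) =
      ∏ v, av fun ω => ee (X v ω • BB (Function.update x j (Pi.single v 1))) := by
  rw [← av_pi_prod]
  congr 1
  funext u
  rw [Rep_add hBB, Rep_ee_sum]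

theorem av_fst [Nonempty Ω'] (f : Ω → ℂ) : (av fun ω : Ω × Ω' => f ω.1) = av f := by
  rw [av_prod]
  congr 1
  funext ω
  exact av_const (α := Ω') (f ω)

theorem av_snd [Nonempty Ω] (f : Ω' → ℂ) : (av fun ω : Ω × Ω' => f ω.2) = av f := by
  rw [av_prod]
  exact av_const (α := Ω) (av f)

theorem Rep_prod_le {f g : A → ℂ}
    (h : ∀ v, ∃ a b : ℝ, 0 ≤ a ∧ a ≤ b ∧ f v = a ∧ g v = b) :
    (∏ v, f v).re ≤ (∏ v, g v).re := by
  choose a b h0 h1 h2 h3 using h
  simp only [h2, h3]
  rw [← Complex.ofReal_prod, ← Complex.ofReal_prod, Complex.ofReal_re, Complex.ofReal_re]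
  exact prod_le_prod (fun v _ => h0 v) fun v _ => h1 v

theorem Rep_step [Nonempty Ω] [Nonempty Ω'] {BB : (C → A → ℤ) → ZMod M} (hBB : MAdd univ BB)
    (X : A → Ω → ℤ) (X' : C → Ω' → ℤ) {S : Finset C} {j : C} (hj : j ∉ S)
    (h : ∀ (w : C → A → Ω × Ω') (v : A), ∃ a b : ℝ, 0 ≤ a ∧ a ≤ b ∧
      (av fun ω => ee (X v ω • BB (Function.update (datR S X X' w) j (Pi.single v 1)))) = a ∧
      (av fun ω => ee (X' j ω • BB (Function.update (datR S X X' w) j (Pi.single v 1)))) = b) :
    (av fun w : C → A → Ω × Ω' => ee (BB (datR S X X' w))).re ≤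
      (av fun w : C → A → Ω × Ω' => ee (BB (datR (insert j S) X X' w))).re := by
  rw [av_coord j, av_coord j (fun w => ee (BB (datR (insert j S) X X' w)))]
  refine av_re_mono fun w => ?_
  have h1 : ∀ u : A → Ω × Ω', datR S X X' (Function.update w j u) =
      Function.update (datR S X X' w) j fun v => X v (u v).1 := fun u => by
    funext i v
    by_cases hi : i = j
    · subst hi
      simp [datR, hj]
    · simp [datR, hi]
  have h2 : ∀ u : A → Ω × Ω', datR (insert j S) X X' (Function.update w j u) =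
      Function.update (datR S X X' w) j fun v => X' j (u v).2 := fun u => by
    funext i v
    by_cases hi : i = j
    · subst hi
      simp [datR]
    · simp [datR, hi]
  simp only [h1, h2]
  rw [Rep_inner hBB (Ω := Ω × Ω') _ j fun v ω => X v ω.1,
    Rep_inner hBB (Ω := Ω × Ω') _ j fun v ω => X' j ω.2]
  refine Rep_prod_le fun v => ?_
  obtain ⟨a, b, ha, hab, hx, hy⟩ := h w v
  refine ⟨a, b, ha, hab, ?_, ?_⟩
  · rw [← hx]
    exact av_fst fun ω => ee (X v ω • BB (Function.update (datR S X X' w) j (Pi.single v 1)))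
  · rw [← hy]
    exact av_snd fun ω => ee (X' j ω • BB (Function.update (datR S X X' w) j (Pi.single v 1)))

theorem Rep_chain [Nonempty Ω] [Nonempty Ω'] {BB : (C → A → ℤ) → ZMod M} (hBB : MAdd univ BB)
    (X : A → Ω → ℤ) (X' : C → Ω' → ℤ) (j0 : C)
    (h : ∀ (S : Finset C) (j : C), j ∉ S → (S = ∅ ∧ j = j0 ∨ j0 ∈ S) →
      ∀ (w : C → A → Ω × Ω') (v : A), ∃ a b : ℝ, 0 ≤ a ∧ a ≤ b ∧
      (av fun ω => ee (X v ω • BB (Function.update (datR S X X' w) j (Pi.single v 1)))) = a ∧
      (av fun ω => ee (X' j ω • BB (Function.update (datR S X X' w) j (Pi.single v 1)))) = b) :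
    (av fun w : C → A → Ω × Ω' => ee (BB (datR ∅ X X' w))).re ≤
      (av fun w : C → A → Ω × Ω' => ee (BB (datR univ X X' w))).re := by
  have h1 : ∀ S : Finset C, j0 ∉ S →
      (av fun w : C → A → Ω × Ω' => ee (BB (datR ∅ X X' w))).re ≤
      (av fun w : C → A → Ω × Ω' => ee (BB (datR (insert j0 S) X X' w))).re := by
    intro S
    induction S using Finset.induction_on with
    | empty =>
      intro _
      exact Rep_step hBB X X' (notMem_empty j0)
        (h ∅ j0 (notMem_empty j0) (Or.inl ⟨rfl, rfl⟩))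
    | insert j S hj ih =>
      intro hj0
      rw [mem_insert, not_or] at hj0
      refine (ih hj0.2).trans ?_
      rw [Finset.insert_comm]
      have h2 : j ∉ insert j0 S := by
        rw [mem_insert, not_or]
        exact ⟨fun h => hj0.1 h.symm, hj⟩
      exact Rep_step hBB X X' h2 (h _ j h2 (Or.inr (mem_insert_self _ _)))
  have h3 := h1 (univ.erase j0) (notMem_erase _ _)
  rwa [insert_erase (mem_univ j0)] at h3

end

/-! ### The factors -/

theorem Rep_old {M Q : ℕ} [NeZero M] (hQ : 2 ≤ Q) {z z' : Fin Q} (hz : z ≠ z') (y : ZMod M) :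
    (av fun ω : Fin Q × Bool × Bool => ee ((if ω.1 = z ∨ ω.1 = z' then
      (if ω.2.1 then 1 else 0) - (if ω.2.2 then 1 else 0) else 0 : ℤ) • y)) =
      ((1 - (1 - (ee y).re) / Q : ℝ) : ℂ) := by
  have hQ0 : (Q : ℂ) ≠ 0 := by
    have : Q ≠ 0 := by omega
    exact_mod_cast this
  have h1 : ∀ k : Fin Q, (av fun ω : Bool × Bool => ee ((if k = z ∨ k = z' then
      (if ω.1 then 1 else 0) - (if ω.2 then 1 else 0) else 0 : ℤ) • y)) =
      1 - (if k = z then ((1 - (ee y).re : ℝ) : ℂ) / 2 else 0) -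
        (if k = z' then ((1 - (ee y).re : ℝ) : ℂ) / 2 else 0) := by
    intro k
    have h2 : (av fun ω : Bool × Bool => ee (((if ω.1 then 1 else 0) -
        (if ω.2 then 1 else 0) : ℤ) • y)) = 1 - ((1 - (ee y).re : ℝ) : ℂ) / 2 := by
      unfold av
      rw [Fintype.sum_prod_type]
      simp only [Fintype.sum_bool, Fintype.card_prod, Fintype.card_bool]
      have h3 : ee y + ee (-y) = 2 * ((ee y).re : ℂ) := by
        rw [Gcs_ee_neg, Complex.add_conj]
        push_cast
        ring
      simp only [if_true, sub_self, zero_smul, Rep_ee_zero, sub_zero, one_smul,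
        zero_sub, neg_smul, Bool.false_eq_true, if_false]
      push_cast
      linear_combination (1 / 4 : ℂ) * h3
    by_cases hk : k = z
    · have hk' : k ≠ z' := fun h => hz (hk.symm.trans h)
      simp only [hk, hz, true_or, if_true, if_false, sub_zero]
      exact h2
    · by_cases hk' : k = z'
      · simp only [hk', hz.symm, or_true, if_true, if_false, sub_zero]
        exact h2
      · simp only [hk, hk', or_false, if_false, zero_smul, Rep_ee_zero, sub_zero]
        exact av_const _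
  rw [av_prod]
  simp only [h1]
  unfold av
  rw [sum_sub_distrib, sum_sub_distrib, sum_ite_eq', sum_ite_eq']
  simp only [mem_univ, if_true, sum_const, card_univ, Fintype.card_fin, nsmul_eq_mul, mul_one]
  push_cast
  field_simp
  ring

theorem Rep_char {M ℓ : ℕ} [NeZero M] (hℓ : 0 < ℓ) {y : ZMod M} (hy : ℓ • y = 0) :
    (av fun u : Fin ℓ => ee ((u : ℕ) • y)) = if y = 0 then 1 else 0 := by
  have : Nonempty (Fin ℓ) := ⟨⟨0, hℓ⟩⟩
  by_cases h : y = 0
  · simp only [h, smul_zero, Rep_ee_zero, if_true]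
    exact av_const _
  · rw [if_neg h]
    simp only [Rep_ee_nsmul]
    unfold av
    rw [Fin.sum_univ_eq_sum_range (fun u => ee y ^ u) ℓ]
    have h1 : ee y ≠ 1 := fun h' => h (Rep_ee_inj (h'.trans Rep_ee_zero.symm))
    rw [geom_sum_eq h1, ← Rep_ee_nsmul, hy, Rep_ee_zero, sub_self, zero_div, mul_zero]

theorem Rep_new {M ℓ R0 : ℕ} [NeZero M] (hℓ : 0 < ℓ) (hR : 0 < R0) {y : ZMod M}
    (hy : ℓ • y = 0) :
    (av fun ω : Fin R0 × Fin ℓ => ee ((if (ω.1 : ℕ) = 0 then ((ω.2 : ℕ) : ℤ) else 0) • y)) =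
      ((1 - 1 / R0 + 1 / R0 * (if y = 0 then 1 else 0) : ℝ) : ℂ) := by
  have : Nonempty (Fin ℓ) := ⟨⟨0, hℓ⟩⟩
  have hR0 : (R0 : ℂ) ≠ 0 := by
    have : R0 ≠ 0 := by omega
    exact_mod_cast this
  have h1 : ∀ r : Fin R0, (av fun u : Fin ℓ =>
      ee ((if (r : ℕ) = 0 then ((u : ℕ) : ℤ) else 0) • y)) =
      1 - if r = ⟨0, hR⟩ then (1 - if y = 0 then (1 : ℂ) else 0) else 0 := by
    intro r
    by_cases hr : r = ⟨0, hR⟩
    · have hr' : (r : ℕ) = 0 := by rw [hr]
      simp only [hr', if_true, natCast_zsmul]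
      rw [Rep_char hℓ hy, if_pos hr]
      ring
    · have hr' : ¬ (r : ℕ) = 0 := fun h => hr (Fin.ext h)
      simp only [hr', hr, if_false, zero_smul, Rep_ee_zero, sub_zero]
      exact av_const _
  rw [av_prod]
  simp only [h1]
  unfold av
  rw [sum_sub_distrib, sum_ite_eq']
  simp only [mem_univ, if_true, sum_const, card_univ, Fintype.card_fin, nsmul_eq_mul, mul_one]
  by_cases h : y = 0
  · simp only [h, if_true]
    push_cast
    field_simp
    ring
  · simp only [h, if_false]
    push_cast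
    field_simp
    ring

theorem Rep_gap (M : ℕ) [NeZero M] :
    ∃ c : ℝ, 0 < c ∧ ∀ y : ZMod M, y ≠ 0 → c ≤ 1 - (ee y).re := by
  classical
  have hpos : ∀ y : ZMod M, y ≠ 0 → 0 < 1 - (ee y).re := fun y hy => by
    have h1 : (ee y).re ≤ 1 := by
      have := Complex.re_le_norm (ee y)
      rwa [Gcs_norm_ee] at this
    rcases h1.lt_or_eq with h | h
    · linarith
    · exfalso
      have h2 : (ee y).im = 0 := by
        have h3 := Complex.sq_norm (ee y)
        rw [Gcs_norm_ee, Complex.normSq_apply, h] at h3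
        nlinarith
      exact hy (Rep_ee_inj ((Complex.ext (by simpa using h) (by simpa using h2) :
        ee y = 1).trans Rep_ee_zero.symm))
  by_cases hne : (univ.filter fun y : ZMod M => y ≠ 0).Nonempty
  · obtain ⟨y0, hy0, hmin⟩ := exists_min_image _ (fun y : ZMod M => 1 - (ee y).re) hne
    exact ⟨1 - (ee y0).re, hpos y0 (mem_filter.1 hy0).2, fun y hy =>
      hmin y (mem_filter.2 ⟨mem_univ _, hy⟩)⟩
  · exact ⟨1, one_pos, fun y hy => absurd ⟨y, mem_filter.2 ⟨mem_univ _, hy⟩⟩ hne⟩

theorem Rep_factor (M Q : ℕ) [NeZero M] (hQ : 2 ≤ Q) : ∃ R0 : ℕ, 1 ≤ R0 ∧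
    ∀ (ℓ m : ℕ), 0 < ℓ → ∀ (y : ZMod M), ℓ • m • y = 0 → ∀ (z z' : Fin Q), z ≠ z' →
      ∃ a b : ℝ, 0 ≤ a ∧ a ≤ b ∧
      (av fun ω : Fin Q × Bool × Bool => ee ((if ω.1 = z ∨ ω.1 = z' then
        (if ω.2.1 then 1 else 0) - (if ω.2.2 then 1 else 0) else 0 : ℤ) • y)) = a ∧
      (av fun ω : Fin R0 × Fin ℓ => ee (((m : ℤ) *
        (if (ω.1 : ℕ) = 0 then ((ω.2 : ℕ) : ℤ) else 0)) • y)) = b := by
  obtain ⟨c, hc, hgap⟩ := Rep_gap M
  have hQ0 : (0 : ℝ) < Q := by
    have : 0 < Q := by omega
    exact_mod_cast this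
  obtain ⟨R0, hR0⟩ := exists_nat_ge ((Q : ℝ) / c)
  have hR1 : 1 ≤ R0 := by
    rcases Nat.eq_zero_or_pos R0 with h | h
    · rw [h, Nat.cast_zero] at hR0
      have : 0 < (Q : ℝ) / c := by positivity
      linarith
    · exact h
  have hR2 : (0 : ℝ) < R0 := by exact_mod_cast hR1
  have hR3 : 1 / (R0 : ℝ) ≤ c / Q := by
    rw [div_le_iff₀ hc] at hR0
    rw [div_le_div_iff₀ hR2 hQ0]
    linarith
  refine ⟨R0, hR1, ?_⟩
  intro ℓ m hℓ y hy z z' hz
  refine ⟨1 - (1 - (ee y).re) / Q, 1 - 1 / R0 + 1 / R0 * (if m • y = 0 then 1 else 0),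
    ?_, ?_, Rep_old hQ hz y, ?_⟩
  · have h1 : -1 ≤ (ee y).re := by
      have := Complex.abs_re_le_norm (ee y)
      rw [Gcs_norm_ee] at this
      exact (abs_le.1 this).1
    have h2 : (2 : ℝ) ≤ Q := by exact_mod_cast hQ
    rw [sub_nonneg, div_le_one hQ0]
    linarith
  · by_cases h : m • y = 0
    · rw [if_pos h]
      have h1 : (ee y).re ≤ 1 := by
        have := Complex.re_le_norm (ee y)
        rwa [Gcs_norm_ee] at this
      have h2 : 0 ≤ (1 - (ee y).re) / Q := div_nonneg (by linarith) hQ0.le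
      linarith
    · rw [if_neg h]
      have hy0 : y ≠ 0 := fun h' => h (by rw [h', smul_zero])
      have h1 : c / Q ≤ (1 - (ee y).re) / Q := div_le_div_of_nonneg_right (hgap y hy0) hQ0.le
      linarith
  · rw [← Rep_new hℓ (by omega) hy]
    congr 1
    funext ω
    congr 1
    rw [mul_comm, mul_smul, natCast_zsmul]

/-! ### The blocks -/

theorem Rep_blocks {A : Type} [Fintype A] [DecidableEq A] {k s R0 : ℕ} (hR : 1 ≤ R0)
    (blk : A → Fin k) (hs : ∀ i, (univ.filter fun v => blk v = i).card ≤ s) :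
    (av fun r : A → Fin R0 => ∏ i : Fin k,
      (1 - ∏ v ∈ univ.filter fun v => blk v = i, if (r v : ℕ) = 0 then (1 : ℂ) else 0)).re ≤
      (1 - ((R0 : ℝ) ^ s)⁻¹) ^ k := by
  have : Nonempty (Fin R0) := ⟨⟨0, by omega⟩⟩
  have hR1 : (1 : ℝ) ≤ R0 := by exact_mod_cast hR
  have hR0 : (R0 : ℂ) ≠ 0 := by
    have : R0 ≠ 0 := by omega
    exact_mod_cast this
  have h1 : ∀ r : A → Fin R0, (∏ i : Fin k,
      (1 - ∏ v ∈ univ.filter fun v => blk v = i, if (r v : ℕ) = 0 then (1 : ℂ) else 0)) =
      ∑ U : Finset (Fin k), (-1) ^ U.card * ∏ v : A,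
        (if blk v ∈ U then (if (r v : ℕ) = 0 then (1 : ℂ) else 0) else 1) := by
    intro r
    simp only [sub_eq_add_neg]
    rw [prod_one_add, powerset_univ]
    refine sum_congr rfl fun U _ => ?_
    have h2 : (fun i : Fin k => -∏ v ∈ univ.filter fun v => blk v = i,
        if (r v : ℕ) = 0 then (1 : ℂ) else 0) = fun i : Fin k => (-1) *
        ∏ v ∈ univ.filter fun v => blk v = i, if (r v : ℕ) = 0 then (1 : ℂ) else 0 := by
      funext i
      ring
    rw [h2, prod_mul_distrib, prod_const]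
    congr 1
    rw [← prod_filter, ← prod_fiberwise_of_maps_to (g := blk) (t := U)
      (fun v hv => (mem_filter.1 hv).2)]
    refine prod_congr rfl fun i hi => prod_congr ?_ fun _ _ => rfl
    ext v
    simp only [mem_filter, mem_univ, true_and]
    constructor
    · rintro rfl
      exact ⟨hi, rfl⟩
    · exact fun h => h.2
  have h3 : (av fun r : A → Fin R0 => ∏ i : Fin k,
      (1 - ∏ v ∈ univ.filter fun v => blk v = i, if (r v : ℕ) = 0 then (1 : ℂ) else 0)) =
      ∏ i : Fin k, (1 - ∏ v ∈ univ.filter fun v => blk v = i, (R0 : ℂ)⁻¹) := by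
    simp only [h1]
    rw [av_sum]
    simp only [sub_eq_add_neg]
    rw [prod_one_add, powerset_univ]
    refine sum_congr rfl fun U _ => ?_
    have h2 : (fun i : Fin k => -∏ v ∈ univ.filter fun v => blk v = i, (R0 : ℂ)⁻¹) =
        fun i : Fin k => (-1) * ∏ v ∈ univ.filter fun v => blk v = i, (R0 : ℂ)⁻¹ := by
      funext i
      ring
    rw [av_mul_left, h2, prod_mul_distrib, prod_const]
    congr 1
    rw [av_pi_prod fun v (ω : Fin R0) =>
      if blk v ∈ U then (if (ω : ℕ) = 0 then (1 : ℂ) else 0) else 1]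
    have h4 : ∀ v : A, (av fun ω : Fin R0 =>
        if blk v ∈ U then (if (ω : ℕ) = 0 then (1 : ℂ) else 0) else 1) =
        if blk v ∈ U then (R0 : ℂ)⁻¹ else 1 := by
      intro v
      by_cases hv : blk v ∈ U
      · simp only [hv, if_true]
        have h5 : ∀ ω : Fin R0, (if (ω : ℕ) = 0 then (1 : ℂ) else 0) =
            if ω = ⟨0, by omega⟩ then 1 else 0 := fun ω => by
          have h6 : (ω : ℕ) = 0 ↔ ω = ⟨0, by omega⟩ := by
            rw [Fin.ext_iff]
          simp only [h6]
        simp only [h5]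
        unfold av
        rw [sum_ite_eq']
        simp
      · simp only [hv, if_false]
        exact av_const _
    simp only [h4]
    rw [← prod_filter, ← prod_fiberwise_of_maps_to (g := blk) (t := U)
      (fun v hv => (mem_filter.1 hv).2)]
    refine prod_congr rfl fun i hi => prod_congr ?_ fun _ _ => rfl
    ext v
    simp only [mem_filter, mem_univ, true_and]
    constructor
    · exact fun h => h.2
    · rintro rfl
      exact ⟨hi, rfl⟩
  rw [h3]
  have h7 : (∏ i : Fin k, (1 - ∏ v ∈ univ.filter fun v => blk v = i, (R0 : ℂ)⁻¹)) =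
      ((∏ i : Fin k, (1 - ((R0 : ℝ)⁻¹) ^ (univ.filter fun v => blk v = i).card) : ℝ) : ℂ) := by
    push_cast
    refine prod_congr rfl fun i _ => ?_
    rw [prod_const]
  rw [h7, Complex.ofReal_re]
  have h8 : ∀ i : Fin k, 0 ≤ 1 - ((R0 : ℝ)⁻¹) ^ (univ.filter fun v => blk v = i).card ∧
      1 - ((R0 : ℝ)⁻¹) ^ (univ.filter fun v => blk v = i).card ≤ 1 - ((R0 : ℝ) ^ s)⁻¹ := by
    intro i
    have h9 : (R0 : ℝ)⁻¹ ≤ 1 := inv_le_one_of_one_le₀ hR1
    have h10 : 0 ≤ (R0 : ℝ)⁻¹ := by positivity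
    refine ⟨sub_nonneg.2 (pow_le_one₀ h10 h9), ?_⟩
    rw [← inv_pow]
    have := pow_le_pow_of_le_one h10 h9 (hs i)
    linarith
  refine (prod_le_prod (fun i _ => (h8 i).1) fun i _ => (h8 i).2).trans ?_
  rw [prod_const, card_univ, Fintype.card_fin]

/-! ### The main inequality -/

theorem MAdd_zsmul {C E G : Type} [DecidableEq C] [AddCommGroup E] [AddCommGroup G]
    {B : Finset C} {φ : (C → E) → G} (h : MAdd B φ) {j : C} (hj : j ∈ B) (x : C → E) (n : ℤ)
    (u : E) : φ (Function.update x j (n • u)) = n • φ (Function.update x j u) := by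
  let F : E →+ G := AddMonoidHom.mk' (fun u => φ (Function.update x j u))
    fun u v => (h x j).1 hj u v
  exact map_zsmul F n u

/-- the restriction of a function to the elements with `P` -/
def Rep_cut {A : Type} {ℓ : ℕ} (P : A → Prop) [DecidablePred P] :
    (A → ZMod ℓ) →+ (A → ZMod ℓ) where
  toFun u v := if P v then u v else 0
  map_zero' := by
    funext v
    simp
  map_add' u u' := by
    funext v
    by_cases h : P v <;> simp [h]

theorem prod_deg (M Q ℓ : ℕ) [NeZero M] [NeZero ℓ] (hQ : 2 ≤ Q) : ∃ R0 : ℕ, 1 ≤ R0 ∧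
    ∀ (C A : Type) [Fintype C] [DecidableEq C] [Nonempty C] [Fintype A] [DecidableEq A]
      (k s m1 : ℕ) (col : A → C) (blk : A → Fin k)
      (_ : ∀ i, (univ.filter fun v => blk v = i).card ≤ s)
      (z z' : A → Fin Q) (_ : ∀ v, z v ≠ z' v) (f : (A → Fin Q) → ZMod M)
      (BB : (C → A → ℤ) → ZMod M) (_ : MAdd univ BB)
      (_ : ∀ x y : C → A → ℤ, (∀ v, x (col v) v = y (col v) v) → BB x = BB y)
      (Bb : (C → A → ZMod ℓ) → ZMod ℓ) (_ : MAdd univ Bb)
      (_ : ∀ x : C → A → ℤ, ee (m1 • BB x) = ee (Bb fun j v => (x j v : ZMod ℓ)))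
      (_ : ∀ (c : A → Fin Q) (b b' : C → A → Bool),
        (∑ I : Finset C, (-1 : ℤ) ^ I.card • f (mixC col z z' c (I.piecewise b' b))) =
          BB (dltC z z' c b b'))
      (ε : ℝ) (_ : 0 ≤ ε)
      (_ : ∀ i, (av fun u : C → A → ZMod ℓ =>
        ee (Bb fun j v => if blk v = i then u j v else 0)).re ≤ ε),
      ‖av fun c => ee (f c)‖ ^ 2 ^ Fintype.card C ≤ (1 - ((R0 : ℝ) ^ s)⁻¹) ^ k + ε := by
  obtain ⟨R0, hR, hfac⟩ := Rep_factor M Q hQ
  refine ⟨R0, hR, ?_⟩
  intro C A _ _ _ _ _ k s m1 col blk hs z z' hz f BB hBB hcol Bb hBb hrel hcube ε hε hbias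
  have hℓ : 0 < ℓ := Nat.pos_of_ne_zero (NeZero.ne ℓ)
  have : Nonempty (Fin Q) := ⟨⟨0, by omega⟩⟩
  have : Nonempty (Fin R0) := ⟨⟨0, by omega⟩⟩
  have : Nonempty (Fin ℓ) := ⟨⟨0, hℓ⟩⟩
  have hrel0 : ∀ x : C → A → ℤ, ℓ • m1 • BB x = 0 := fun x => by
    apply Rep_ee_inj
    rw [Rep_ee_nsmul, hrel, ← Rep_ee_nsmul, nsmul_eq_mul, CharP.cast_eq_zero, zero_mul,
      Rep_ee_zero, Rep_ee_zero]
  have hcolb : ∀ x y : C → A → ZMod ℓ, (∀ v, x (col v) v = y (col v) v) → Bb x = Bb y := by
    intro x y hxy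
    have hcast : ∀ x : C → A → ZMod ℓ, ee (Bb x) = ee (m1 • BB fun j v => ((x j v).val : ℤ)) := by
      intro x
      rw [hrel]
      congr 2
      funext j v
      simp
    apply Rep_ee_inj
    rw [hcast, hcast]
    congr 2
    refine hcol _ _ fun v => ?_
    rw [hxy v]
  refine (Rep_first hQ col z z' hz f BB hcube).trans ?_
  rw [Rep_indep hQ col z z' BB hcol]
  obtain ⟨j0⟩ := ‹Nonempty C›
  -- the laws
  obtain ⟨X, hX⟩ : ∃ X : A → Fin Q × Bool × Bool → ℤ, X = fun v ω =>
      if ω.1 = z v ∨ ω.1 = z' v then (if ω.2.1 then 1 else 0) - (if ω.2.2 then 1 else 0) else 0 :=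
    ⟨_, rfl⟩
  obtain ⟨X', hX'⟩ : ∃ X' : C → Fin R0 × Fin ℓ → ℤ, X' = fun i ω =>
      (((if i = j0 then m1 else 1 : ℕ)) : ℤ) * (if (ω.1 : ℕ) = 0 then ((ω.2 : ℕ) : ℤ) else 0) :=
    ⟨_, rfl⟩
  have hstart : (av fun w : C → A → Fin Q × Bool × Bool => ee (BB fun j v =>
      if (w j v).1 = z v ∨ (w j v).1 = z' v then
        (if (w j v).2.1 then 1 else 0) - (if (w j v).2.2 then 1 else 0) else 0)) =
      av fun w : C → A → (Fin Q × Bool × Bool) × (Fin R0 × Fin ℓ) => ee (BB (datR ∅ X X' w)) := by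
    let e : (C → A → Fin Q × Bool × Bool) × (C → A → Fin R0 × Fin ℓ) ≃
        (C → A → (Fin Q × Bool × Bool) × (Fin R0 × Fin ℓ)) :=
      { toFun := fun p j v => (p.1 j v, p.2 j v)
        invFun := fun w => (fun j v => (w j v).1, fun j v => (w j v).2)
        left_inv := fun _ => rfl
        right_inv := fun _ => rfl }
    rw [← av_equiv e]
    have h1 : ∀ p : (C → A → Fin Q × Bool × Bool) × (C → A → Fin R0 × Fin ℓ),
        datR ∅ X X' (e p) = fun j v => X v (p.1 j v) := fun p => by
      funext j v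
      simp [datR, e]
    simp only [h1]
    rw [av_fst fun w : C → A → Fin Q × Bool × Bool => ee (BB fun j v => X v (w j v)), hX]
  rw [hstart]
  have hchain := Rep_chain hBB X X' j0 fun S j hj hS w v => by
    have h1 : ∀ y : ZMod M, ℓ • (if j = j0 then m1 else 1) • y = 0 → ∃ a b : ℝ, 0 ≤ a ∧ a ≤ b ∧
        (av fun ω => ee (X v ω • y)) = a ∧ (av fun ω => ee (X' j ω • y)) = b := fun y hy => by
      have := hfac ℓ (if j = j0 then m1 else 1) hℓ y hy (z v) (z' v) (hz v)
      rw [hX, hX']
      exact this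
    refine h1 _ ?_
    by_cases hjj : j = j0
    · rw [if_pos hjj]
      exact hrel0 _
    · rw [if_neg hjj, one_smul]
      have hj0 : j0 ∈ S := by
        rcases hS with h | h
        · exact absurd h.2 hjj
        · exact h
      have h2 : Function.update (datR S X X' w) j (Pi.single v 1) =
          Function.update (Function.update (datR S X X' w) j (Pi.single v 1)) j0
            ((m1 : ℤ) • fun v => if ((w j0 v).2.1 : ℕ) = 0 then (((w j0 v).2.2 : ℕ) : ℤ) else 0) := by
        funext i u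
        by_cases hi : i = j0
        · subst hi
          rw [Function.update_self, Function.update_of_ne (Ne.symm hjj)]
          simp [datR, hj0, hX']
        · rw [Function.update_of_ne hi]
      rw [h2, MAdd_zsmul hBB (mem_univ j0), natCast_zsmul]
      exact hrel0 _
  refine hchain.trans ?_
  have hend : ∀ w : C → A → (Fin Q × Bool × Bool) × (Fin R0 × Fin ℓ),
      ee (BB (datR univ X X' w)) = ee (Bb fun j v =>
        if ((w j v).2.1 : ℕ) = 0 then (((w j v).2.2 : ℕ) : ZMod ℓ) else 0) := by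
    intro w
    have h2 : datR univ X X' w = Function.update
        (fun i v => if ((w i v).2.1 : ℕ) = 0 then (((w i v).2.2 : ℕ) : ℤ) else 0) j0
          ((m1 : ℤ) • fun v => if ((w j0 v).2.1 : ℕ) = 0 then (((w j0 v).2.2 : ℕ) : ℤ) else 0) := by
      funext i u
      by_cases hi : i = j0
      · subst hi
        rw [Function.update_self]
        simp [datR, hX']
      · rw [Function.update_of_ne hi]
        simp [datR, hX', hi]
    rw [h2, MAdd_zsmul hBB (mem_univ j0), natCast_zsmul, Function.update_eq_self, hrel]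
    congr 2
    funext j v
    by_cases h : ((w j v).2.1 : ℕ) = 0 <;> simp [h]
  simp only [hend]
  let e2 : (C → A → Fin Q × Bool × Bool) × ((C → A → Fin R0) × (C → A → Fin ℓ)) ≃
      (C → A → (Fin Q × Bool × Bool) × (Fin R0 × Fin ℓ)) :=
    { toFun := fun p j v => (p.1 j v, p.2.1 j v, p.2.2 j v)
      invFun := fun w => (fun j v => (w j v).1, fun j v => (w j v).2.1, fun j v => (w j v).2.2)
      left_inv := fun _ => rfl
      right_inv := fun _ => rfl }
  have hre : (av fun w : C → A → (Fin Q × Bool × Bool) × (Fin R0 × Fin ℓ) => ee (Bb fun j v =>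
        if ((w j v).2.1 : ℕ) = 0 then (((w j v).2.2 : ℕ) : ZMod ℓ) else 0)) =
      av fun r : C → A → Fin R0 => av fun u : C → A → ZMod ℓ => ee (Bb fun j v =>
        if (r j v : ℕ) = 0 then u j v else 0) := by
    rw [← av_equiv e2]
    refine (av_snd (Ω := C → A → Fin Q × Bool × Bool)
      fun p2 : (C → A → Fin R0) × (C → A → Fin ℓ) => ee (Bb fun j v =>
        if (p2.1 j v : ℕ) = 0 then ((p2.2 j v : ℕ) : ZMod ℓ) else 0)).trans ?_
    rw [av_prod]
    congr 1
    funext r
    have hbij : Function.Bijective fun u : Fin ℓ => ((u : ℕ) : ZMod ℓ) := by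
      rw [Fintype.bijective_iff_injective_and_card]
      refine ⟨fun u v h => ?_, by rw [Fintype.card_fin, ZMod.card]⟩
      have h' := congrArg ZMod.val h
      rw [ZMod.val_natCast_of_lt u.2, ZMod.val_natCast_of_lt v.2] at h'
      exact Fin.ext h'
    let e3 : (C → A → Fin ℓ) ≃ (C → A → ZMod ℓ) :=
      Equiv.piCongrRight fun _ => Equiv.piCongrRight fun _ => Equiv.ofBijective _ hbij
    rw [← av_equiv e3]
    rfl
  rw [hre]
  have hA : (univ : Finset C).Nonempty := ⟨j0, mem_univ j0⟩
  have hone : ∀ r : C → A → Fin R0, (av fun u : C → A → ZMod ℓ => ee (Bb fun j v =>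
      if (r j v : ℕ) = 0 then u j v else 0)).re ≤
      ((∏ i : Fin k, (1 - ∏ v ∈ univ.filter fun v => blk v = i,
        if (r (col v) v : ℕ) = 0 then (1 : ℂ) else 0)) + (ε : ℂ)).re := by
    intro r
    rw [Complex.add_re, Complex.ofReal_re]
    by_cases h : ∃ i, ∀ v, blk v = i → (r (col v) v : ℕ) = 0
    · obtain ⟨i, hi⟩ := h
      have h1 : (∏ i : Fin k, (1 - ∏ v ∈ univ.filter fun v => blk v = i,
          if (r (col v) v : ℕ) = 0 then (1 : ℂ) else 0)) = 0 := by
        refine prod_eq_zero (mem_univ i) ?_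
        rw [prod_eq_one, sub_self]
        intro v hv
        rw [if_pos (hi v (mem_filter.1 hv).2)]
      rw [h1, Complex.zero_re, zero_add]
      refine le_trans ?_ (hbias i)
      have h2 := madd_restrict hA (φ := fun u : C → A → ZMod ℓ => Bb fun j =>
        Rep_cut (fun v => (r j v : ℕ) = 0) (u j))
        (hBb.comp fun j => Rep_cut fun v => (r j v : ℕ) = 0)
        fun _ => Rep_cut fun v => blk v = i
      refine h2.trans (le_of_eq ?_)
      congr 2
      funext u
      congr 1
      refine hcolb _ _ fun v => ?_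
      change (if (r (col v) v : ℕ) = 0 then (if blk v = i then u (col v) v else 0) else 0) =
        if blk v = i then u (col v) v else 0
      by_cases hv : blk v = i
      · rw [if_pos (hi v hv)]
      · simp [hv]
    · push Not at h
      have h1 : (∏ i : Fin k, (1 - ∏ v ∈ univ.filter fun v => blk v = i,
          if (r (col v) v : ℕ) = 0 then (1 : ℂ) else 0)) = 1 := by
        refine prod_eq_one fun i _ => ?_
        obtain ⟨v, hv, hrv⟩ := h i
        rw [prod_eq_zero (mem_filter.2 ⟨mem_univ v, hv⟩) (if_neg hrv), sub_zero]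
      rw [h1, Complex.one_re]
      have h3 : ‖av fun u : C → A → ZMod ℓ => ee (Bb fun j v =>
          if (r j v : ℕ) = 0 then u j v else 0)‖ ≤ 1 :=
        norm_av_le_of zero_le_one fun u => by rw [Gcs_norm_ee]
      have h4 := Complex.re_le_norm (av fun u : C → A → ZMod ℓ => ee (Bb fun j v =>
          if (r j v : ℕ) = 0 then u j v else 0))
      linarith
  refine (av_re_mono hone).trans ?_
  rw [av_add, Complex.add_re, av_const, Complex.ofReal_re]
  have h5 := Rep_blocks hR blk hs
  rw [← av_diag col] at h5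
  linarith

end Pool.Agent.Lib.MP_3e612f_nt.DI
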