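import Pool.Agent.Lib.MP_3e612f_nt.DI.Coll

/-!
If the value of `T` only depends on the pattern, and the family is regular, then `T` is structured.

PROOF of `step3`. Let `γ c = T (∏_A v)` if there is `v` with `GoodM … M0 A v` and `F κ (v_B) = c (B, κ)` for all `B ⊆ A`,
`B.card = e κ` (any such `v`: `hfac`), and `γ c = 0` if there is none (there always is one, by `realise` with `c' = c`).
`hdep` of `alg_of_madd` holds since the condition on `v` only involves these entries. `hadd`: let `j ∈ A` and `c, c'` agree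
off `j`; take `W, h, h'` from `realise`, `v = vec ξ (W ·) (h ·)`, `w = update v j (vec ξ (W j) h')`, and
`v' = update v j (v j + vec ξ (W j) h')`; all three are `GoodM` (with the sets `W`), with the patterns `c`, `c'` and
`if j ∈ p.1 then c p + c' p else c p`, and `T (∏ v') = T (∏ v) + T (∏ w)`. So `φ v = γ (pat F v)` is in
`Alg (gens e F) A` and `T (∏_A v) = φ v` for all `v` with `GoodM … M0 A v`, in particular for points (`1 ≤ M0`; a point `ξ x` is
`vec ξ {x} 1`). `str_ext` and `str_of_one` finish the proof.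
-/

set_option autoImplicit false

namespace Pool.Agent.Lib.MP_3e612f_nt.DI

open Finset

/-- multiplicativity of the products of updated tuples -/
private theorem step3_prod_add {C R : Type} [DecidableEq C] [CommRing R] {B : Finset C} {j : C}
    (hj : j ∈ B) (v : C → R) (a : R) :
    ∏ i ∈ B, Function.update v j (v j + a) i = ∏ i ∈ B, v i + ∏ i ∈ B, Function.update v j a i := by
  rw [Finset.prod_update_of_mem hj, Finset.prod_update_of_mem hj, add_mul,
    ← Finset.mul_prod_erase B v hj, Finset.sdiff_singleton_eq_erase]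

private theorem step3_prod_notMem {C R : Type} [DecidableEq C] [CommRing R] {B : Finset C} {j : C}
    (hj : j ∉ B) (v : C → R) (a : R) :
    ∏ i ∈ B, Function.update v j a i = ∏ i ∈ B, v i :=
  Finset.prod_congr rfl fun i hi => by
    rw [Function.update_of_ne]
    rintro rfl
    exact hj hi

theorem step3 {ℓ : ℕ} [NeZero ℓ] {C X R : Type} [Fintype C] [DecidableEq C] [Fintype X]
    [DecidableEq X] [CommRing R] [Algebra (ZMod ℓ) R] {n : ℕ} {ξ : X → R} {Far : X → X → Prop}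
    {𝒳 : Set X} {e : Fin n → ℕ} {F : Fin n → R →+ ZMod ℓ} (hsymm : ∀ x y, Far x y → Far y x)
    {A : Finset C} (hA : A.Nonempty) (he : ∀ κ, 1 ≤ e κ) (T : R →+ ZMod ℓ) {ε : ℝ} {m s M0 : ℕ}
    (hreg : Reg ξ Far 𝒳 e F ε m s) (hm : 2 ^ A.card * ℓ ^ n * (A.card * s) ≤ m)
    (hM1 : 1 ≤ M0) (hM : 2 ^ A.card * ℓ ^ n * s ≤ M0) (hε0 : 0 ≤ ε)
    (hε : ε < ((ℓ : ℝ) ^ (2 * 2 ^ A.card * n))⁻¹)
    (hfac : ∀ v w : C → R, GoodM ℓ ξ Far 𝒳 M0 A v → GoodM ℓ ξ Far 𝒳 M0 A w → EqPat A e F v w →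
      T (∏ j ∈ A, v j) = T (∏ j ∈ A, w j)) :
    Str ξ Far 𝒳 A.card T (gens e F) := by
  classical
  -- the tuples with a given pattern
  obtain ⟨Re, hRe⟩ : ∃ Re : (Finset C × Fin n → ZMod ℓ) → (C → R) → Prop, Re = fun c v =>
      GoodM ℓ ξ Far 𝒳 M0 A v ∧ ∀ B ⊆ A, ∀ κ, B.card = e κ → F κ (∏ i ∈ B, v i) = c (B, κ) :=
    ⟨_, rfl⟩
  have hTeq : ∀ c v w, Re c v → Re c w → T (∏ j ∈ A, v j) = T (∏ j ∈ A, w j) := by
    intro c v w hv hw
    rw [hRe] at hv hw
    exact hfac v w hv.1 hw.1 fun B hB κ hκ => by rw [hv.2 B hB κ hκ, hw.2 B hB κ hκ]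
  have hex : ∀ j ∈ A, ∀ c c' : Finset C × Fin n → ZMod ℓ, (∀ p, j ∉ p.1 → c p = c' p) →
      ∃ (v : C → R) (a : R), Re c v ∧ Re c' (Function.update v j a) ∧
        GoodM ℓ ξ Far 𝒳 M0 A (Function.update v j (v j + a)) := by
    intro j hj c c' hcc
    obtain ⟨W, h, h', hsep, hW𝒳, hWc, hp, hp'⟩ := realise hsymm hreg he A hm hε0 hε hj c c' hcc
    refine ⟨fun i => vec ξ (W i) (h i), vec ξ (W j) h', ?_, ?_, ?_⟩
    · rw [hRe]
      exact ⟨⟨W, hsep, fun i _ => hW𝒳 i, fun i _ => (hWc i).trans hM, fun i _ => ⟨h i, rfl⟩⟩, hp⟩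
    · rw [hRe]
      refine ⟨⟨W, hsep, fun i _ => hW𝒳 i, fun i _ => (hWc i).trans hM, fun i _ => ?_⟩, hp'⟩
      by_cases hij : i = j
      · subst hij
        exact ⟨h', by rw [Function.update_self]⟩
      · exact ⟨h i, by rw [Function.update_of_ne hij]⟩
    · refine ⟨W, hsep, fun i _ => hW𝒳 i, fun i _ => (hWc i).trans hM, fun i _ => ?_⟩
      by_cases hij : i = j
      · subst hij
        exact ⟨h i + h', by rw [Function.update_self, map_add]⟩
      · exact ⟨h i, by rw [Function.update_of_ne hij]⟩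
  have hex1 : ∀ c, ∃ v, Re c v := by
    intro c
    obtain ⟨j, hj⟩ := hA
    obtain ⟨v, _, hv, _⟩ := hex j hj c c fun _ _ => rfl
    exact ⟨v, hv⟩
  choose V hV using hex1
  obtain ⟨γ, hγ⟩ : ∃ γ : (Finset C × Fin n → ZMod ℓ) → ZMod ℓ, γ = fun c => T (∏ j ∈ A, V c j) :=
    ⟨_, rfl⟩
  have hγ1 : ∀ c v, Re c v → γ c = T (∏ j ∈ A, v j) := by
    intro c v hv
    rw [hγ]
    exact hTeq c _ _ (hV c) hv
  have hdep : ∀ c c' : Finset C × Fin n → ZMod ℓ,
      (∀ B ⊆ A, ∀ κ, B.card = e κ → c (B, κ) = c' (B, κ)) → γ c = γ c' := by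
    intro c c' hcc
    have h1 : Re c' (V c) := by
      have h2 := hV c
      rw [hRe] at h2 ⊢
      exact ⟨h2.1, fun B hB κ hκ => by rw [h2.2 B hB κ hκ, hcc B hB κ hκ]⟩
    rw [hγ1 c' _ h1, hγ1 c _ (hV c)]
  have hadd : ∀ j ∈ A, ∀ c c' : Finset C × Fin n → ZMod ℓ, (∀ p, j ∉ p.1 → c p = c' p) →
      γ (fun p => if j ∈ p.1 then c p + c' p else c p) = γ c + γ c' := by
    intro j hj c c' hcc
    obtain ⟨v, a, hv, hw, hg⟩ := hex j hj c c' hcc
    have h3 : Re (fun p => if j ∈ p.1 then c p + c' p else c p)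
        (Function.update v j (v j + a)) := by
      have hv2 := hv
      have hw2 := hw
      rw [hRe] at hv2 hw2 ⊢
      refine ⟨hg, fun B hB κ hκ => ?_⟩
      by_cases hjB : j ∈ B
      · rw [step3_prod_add hjB, map_add, hv2.2 B hB κ hκ, hw2.2 B hB κ hκ]
        simp only [hjB, if_true]
      · rw [step3_prod_notMem hjB, hv2.2 B hB κ hκ]
        simp only [hjB, if_false]
    rw [hγ1 _ _ h3, hγ1 _ _ hv, hγ1 _ _ hw, step3_prod_add hj, map_add]
  have hφ := alg_of_madd e F he A γ hdep hadd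
  refine str_of_one A rfl hφ fun v hv => ?_
  refine str_ext hφ hA (fun x hx hfar => ?_) v hv
  refine (hγ1 _ _ ?_).symm
  rw [hRe]
  refine ⟨⟨fun j => {x j}, ?_, ?_, ?_, ?_⟩, fun B _ κ _ => rfl⟩
  · intro i hi j hj hij y hy z hz
    rw [Finset.mem_singleton] at hy hz
    subst hy hz
    exact hfar i hi j hj hij
  · intro j hj
    rw [Finset.coe_singleton, Set.singleton_subset_iff]
    exact hx j hj
  · intro j _
    rw [Finset.card_singleton]
    exact hM1
  · intro j _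
    refine ⟨fun _ => 1, ?_⟩
    show ξ (x j) = ∑ y ∈ {x j}, (1 : ZMod ℓ) • ξ y
    rw [Finset.sum_singleton, one_smul]

end Pool.Agent.Lib.MP_3e612f_nt.DI
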