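import Pool.Agent.Lib.MP_3e612f_nt.DI.Hydra
import Pool.Agent.Lib.MP_3e612f_nt.DI.Step3

/-!
The structure theorem for symmetric tensors on far points, with a near minimal box of vectors.

A box: far finite sets `W j` and homomorphisms `α j : E →+ (X → ZMod ℓ)`, the vectors of the box in the
colour `j` are `vec ξ (W j) (α j u)`. If no extension of the box by one vector in every colour decreases the
bias `b` by the factor `1 - η`, then the average over the box shifted by ANY tuple `v` is close to `b`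
(it is one of the `ℓ ^ d` terms of the bias of the extended box, which are all at most `b`), so
`T (∏ v)` is determined by the contractions of `T` with the vectors of the box.
-/

set_option autoImplicit false

namespace Pool.Agent.Lib.MP_3e612f_nt.DI

open Finset
open Pool.Agent.Lib.MP_3e612f_nt.PI (ee)

theorem StabV_norm_ee {ℓ : ℕ} [NeZero ℓ] (z : ZMod ℓ) : ‖ee z‖ = 1 := by
  unfold Pool.Agent.Lib.MP_3e612f_nt.PI.ee
  exact AddChar.norm_apply _ _

theorem StabV_ee_add {ℓ : ℕ} [NeZero ℓ] (z w : ZMod ℓ) : ee (z + w) = ee z * ee w := by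
  unfold Pool.Agent.Lib.MP_3e612f_nt.PI.ee
  exact AddChar.map_add_eq_mul _ _ _

theorem StabV_ee_ne {ℓ : ℕ} [NeZero ℓ] {z : ZMod ℓ} (hz : z ≠ 0) : ee z ≠ 1 := by
  intro h
  apply hz
  have h1 := ZMod.injective_stdAddChar (N := ℓ)
  apply h1
  unfold Pool.Agent.Lib.MP_3e612f_nt.PI.ee at h
  rw [h, AddChar.map_zero_eq_one]

theorem StabV_exists_cl (ℓ : ℕ) [NeZero ℓ] :
    ∃ c : ℝ, 0 < c ∧ c ≤ 1 ∧ ∀ z : ZMod ℓ, z ≠ 0 → 2 * c < ‖ee z - 1‖ := by
  classical
  have hpos : ∀ z : ZMod ℓ, z ≠ 0 → 0 < ‖ee z - 1‖ := fun z hz =>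
    norm_pos_iff.2 (sub_ne_zero.2 (StabV_ee_ne hz))
  by_cases hne : (univ.filter fun z : ZMod ℓ => z ≠ 0).Nonempty
  · obtain ⟨z0, hz0, hmin⟩ := exists_min_image _ (fun z : ZMod ℓ => ‖ee z - 1‖) hne
    have h0 := hpos z0 (mem_filter.1 hz0).2
    refine ⟨min 1 (‖ee z0 - 1‖ / 4), lt_min one_pos (by positivity), min_le_left _ _, ?_⟩
    intro z hz
    have h1 := hmin z (mem_filter.2 ⟨mem_univ _, hz⟩)
    have h2 : min 1 (‖ee z0 - 1‖ / 4) ≤ ‖ee z0 - 1‖ / 4 := min_le_right _ _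
    linarith
  · refine ⟨1, one_pos, le_rfl, fun z hz => ?_⟩
    exact absurd ⟨z, mem_filter.2 ⟨mem_univ _, hz⟩⟩ hne

section
variable {ℓ : ℕ} [NeZero ℓ] {C E R : Type} [Fintype C] [DecidableEq C] [AddCommGroup E] [Fintype E]
  [CommRing R]

/-- the average over the box `ι` shifted by the tuple `v` -/
noncomputable def betaV (T : R →+ ZMod ℓ) (A : Finset C) (ι : C → E →+ R) (v : C → R) : ℂ :=
  av fun a : C → E => ee (T (∏ j ∈ A, (ι j (a j) + v j)))

theorem StabV_split (T : R →+ ZMod ℓ) (A : Finset C) (ι : C → E →+ R) (v : C → R) :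
    betaV T A ι v = ee (T (∏ j ∈ A, v j)) * av fun a : C → E =>
      ee (∑ I ∈ A.powerset.erase A, T ((∏ j ∈ I, v j) * ∏ j ∈ A \ I, ι j (a j))) := by
  unfold betaV
  rw [← av_mul_left]
  congr 1
  funext a
  have h1 : ∏ j ∈ A, (ι j (a j) + v j) = ∏ j ∈ A, (v j + ι j (a j)) :=
    prod_congr rfl fun j _ => add_comm _ _
  rw [h1, expand_add T A v fun j => ι j (a j),
    ← add_sum_erase _ _ (mem_powerset.2 (Subset.refl A)), sdiff_self]
  rw [StabV_ee_add]
  simp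

theorem StabV_eq (T : R →+ ZMod ℓ) (A : Finset C) (ι : C → E →+ R) {b c : ℝ}
    (hb : 0 < b) (hc : ∀ z : ZMod ℓ, z ≠ 0 → 2 * c < ‖ee z - 1‖) (v w : C → R)
    (hv : ‖betaV T A ι v - b‖ ≤ c * b) (hw : ‖betaV T A ι w - b‖ ≤ c * b)
    (h : ∀ I ⊆ A, I ≠ A → ∀ a : C → E,
      T ((∏ j ∈ I, v j) * ∏ j ∈ A \ I, ι j (a j)) =
        T ((∏ j ∈ I, w j) * ∏ j ∈ A \ I, ι j (a j))) :
    T (∏ j ∈ A, v j) = T (∏ j ∈ A, w j) := by
  by_contra hne
  have hz : T (∏ j ∈ A, v j) - T (∏ j ∈ A, w j) ≠ 0 := sub_ne_zero.2 hne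
  have h1 : betaV T A ι v = ee (T (∏ j ∈ A, v j) - T (∏ j ∈ A, w j)) * betaV T A ι w := by
    rw [StabV_split, StabV_split, ← mul_assoc, ← StabV_ee_add, sub_add_cancel]
    congr 2
    funext a
    congr 1
    refine sum_congr rfl fun I hI => ?_
    have h2 := mem_erase.1 hI
    exact h I (mem_powerset.1 h2.2) h2.1 a
  have h2 := hc _ hz
  set z := T (∏ j ∈ A, v j) - T (∏ j ∈ A, w j) with hzdef
  have h3 : (ee z - 1) * (b : ℂ) = ee z * (b - betaV T A ι w) + (betaV T A ι v - b) := by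
    rw [h1]; ring
  have h4 : ‖(ee z - 1) * (b : ℂ)‖ ≤ 2 * c * b := by
    rw [h3]
    calc _ ≤ ‖ee z * (b - betaV T A ι w)‖ + ‖betaV T A ι v - b‖ := norm_add_le _ _
      _ = ‖betaV T A ι w - b‖ + ‖betaV T A ι v - b‖ := by
          rw [norm_mul, StabV_norm_ee, one_mul, norm_sub_rev]
      _ ≤ 2 * c * b := by linarith
  rw [norm_mul, Complex.norm_real, Real.norm_of_nonneg hb.le] at h4
  nlinarith

end

section
variable {ℓ : ℕ} [NeZero ℓ] {C E R : Type} [Fintype C] [DecidableEq C] [AddCommGroup E] [Fintype E]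
  [CommRing R] [Algebra (ZMod ℓ) R]

/-- the box extended by one vector in every colour -/
def extV (ι : C → E →+ R) (v : C → R) (j : C) : E × ZMod ℓ →+ R where
  toFun p := ι j p.1 + p.2 • v j
  map_zero' := by simp
  map_add' p p' := by simp [add_smul]; abel

theorem StabV_bi_ext (T : R →+ ZMod ℓ) (A : Finset C) (ι : C → E →+ R) (v : C → R) :
    bi T A (extV (ℓ := ℓ) ι v) =
      ((ℓ : ℝ) ^ Fintype.card C)⁻¹ *
        ∑ a : C → ZMod ℓ, (betaV T A ι fun j => a j • v j).re := by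
  classical
  unfold bi
  have h1 : (av fun h : C → E × ZMod ℓ => ee (T (∏ j ∈ A, extV (ℓ := ℓ) ι v j (h j)))) =
      av fun a : C → ZMod ℓ => betaV T A ι fun j => a j • v j := by
    rw [← av_equiv (Equiv.arrowProdEquivProdArrow C (fun _ => E) (fun _ => ZMod ℓ)).symm, av_prod,
      av_comm]
    rfl
  rw [h1]
  unfold av
  rw [Complex.mul_re]
  have h2 : ((Fintype.card (C → ZMod ℓ) : ℂ)⁻¹) = ((((ℓ : ℝ) ^ Fintype.card C)⁻¹ : ℝ) : ℂ) := by
    rw [Fintype.card_fun, ZMod.card]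
    push_cast
    rfl
  rw [h2, Complex.ofReal_re, Complex.ofReal_im, zero_mul, sub_zero, Complex.re_sum]

/-- if the extended box has almost the same bias, the shifted average is close to the bias -/
theorem StabV_close {A : Finset C} (hA : A.Nonempty) (T : R →+ ZMod ℓ) (ι : C → E →+ R)
    (v : C → R) {b c η : ℝ} (hb : 0 < b) (hbι : b = bi T A ι) (hc : 0 < c)
    (hη : 2 * (ℓ : ℝ) ^ Fintype.card C * η ≤ c ^ 2)
    (hst : (1 - η) * b < bi T A (extV (ℓ := ℓ) ι v)) : ‖betaV T A ι v - b‖ ≤ c * b := by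
  classical
  have hle : ∀ w : C → R, ‖betaV T A ι w‖ ≤ b := fun w => by
    rw [hbι]
    exact bi_shift hA T ι w
  have hre : ∀ w : C → R, (betaV T A ι w).re ≤ b := fun w => (Complex.re_le_norm _).trans (hle w)
  rw [StabV_bi_ext] at hst
  set N : ℝ := (ℓ : ℝ) ^ Fintype.card C with hN
  have hNpos : 0 < N := by
    have : (0 : ℝ) < ℓ := by exact_mod_cast Nat.pos_of_ne_zero (NeZero.ne ℓ)
    positivity
  have h1 : N * ((1 - η) * b) < ∑ a : C → ZMod ℓ, (betaV T A ι fun j => a j • v j).re := by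
    have h2 := mul_lt_mul_of_pos_left hst hNpos
    rw [← mul_assoc N N⁻¹, mul_inv_cancel₀ hNpos.ne', one_mul] at h2
    exact h2
  have hcard : ((univ : Finset (C → ZMod ℓ)).card : ℝ) = N := by
    rw [card_univ, Fintype.card_fun, ZMod.card, hN]
    push_cast
    rfl
  have h3 : ∑ a : C → ZMod ℓ, (betaV T A ι fun j => a j • v j).re ≤
      (betaV T A ι v).re + (N - 1) * b := by
    rw [← add_sum_erase _ _ (mem_univ (1 : C → ZMod ℓ))]
    have h4 : (fun j => (1 : C → ZMod ℓ) j • v j) = v := by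
      funext j
      simp
    rw [h4]
    refine add_le_add le_rfl ?_
    refine (sum_le_card_nsmul _ _ b fun a _ => hre _).trans ?_
    rw [nsmul_eq_mul, card_erase_of_mem (mem_univ _), Nat.cast_sub (card_pos.2 ⟨_, mem_univ 1⟩),
      hcard, Nat.cast_one]
  have h5 : b - N * η * b ≤ (betaV T A ι v).re := by nlinarith
  have h6 : ‖betaV T A ι v - b‖ ^ 2 ≤ (c * b) ^ 2 := by
    have h7 : ‖betaV T A ι v - b‖ ^ 2 =
        ‖betaV T A ι v‖ ^ 2 - 2 * b * (betaV T A ι v).re + b ^ 2 := by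
      rw [← Complex.normSq_eq_norm_sq, ← Complex.normSq_eq_norm_sq, Complex.normSq_apply,
        Complex.normSq_apply]
      simp only [Complex.sub_re, Complex.sub_im, Complex.ofReal_re, Complex.ofReal_im]
      ring
    rw [h7]
    have h8 : ‖betaV T A ι v‖ ^ 2 ≤ b ^ 2 := by
      have := hle v
      have h9 := norm_nonneg (betaV T A ι v)
      nlinarith
    have h10 : 2 * N * η * b ^ 2 ≤ c ^ 2 * b ^ 2 := mul_le_mul_of_nonneg_right hη (sq_nonneg b)
    nlinarith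
  have h11 := abs_le_of_sq_le_sq h6 (by positivity : 0 ≤ c * b)
  rwa [abs_of_nonneg (norm_nonneg _)] at h11

end

/-! ### The family of the tests -/

section
variable {ℓ : ℕ} [NeZero ℓ] {d : ℕ} {E R : Type} [AddCommGroup E] [Fintype E] [CommRing R]

theorem StabV_tests (T : R →+ ZMod ℓ) (ι : Fin d → E →+ R) {q : ℕ} (hE : Fintype.card E ≤ q) :
    ∃ (n : ℕ) (e : Fin n → ℕ) (F : Fin n → R →+ ZMod ℓ), n ≤ 2 ^ d * q ^ d ∧
      (∀ κ, 1 ≤ e κ ∧ e κ < d) ∧
      ∀ I : Finset (Fin d), I.Nonempty → I ≠ univ → ∀ a : Fin d → E,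
        ∃ κ, e κ = I.card ∧ F κ = cm T (∏ j ∈ univ \ I, ι j (a j)) := by
  classical
  let J := {p : Finset (Fin d) × (Fin d → E) // p.1.Nonempty ∧ p.1 ≠ univ}
  let σ : J ≃ Fin (Fintype.card J) := Fintype.equivFin J
  refine ⟨Fintype.card J, fun κ => (σ.symm κ).1.1.card,
    fun κ => cm T (∏ j ∈ univ \ (σ.symm κ).1.1, ι j ((σ.symm κ).1.2 j)), ?_, ?_, ?_⟩
  · have h1 : Fintype.card J ≤ Fintype.card (Finset (Fin d) × (Fin d → E)) :=
      Fintype.card_subtype_le _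
    rw [Fintype.card_prod, Fintype.card_finset, Fintype.card_fun, Fintype.card_fin] at h1
    exact h1.trans (Nat.mul_le_mul_left _ (Nat.pow_le_pow_left hE d))
  · intro κ
    have h := (σ.symm κ).2
    refine ⟨card_pos.2 h.1, ?_⟩
    have h2 := card_lt_card (ssubset_univ_iff.2 h.2)
    rwa [card_univ, Fintype.card_fin] at h2
  · intro I hI hne a
    refine ⟨σ ⟨(I, a), hI, hne⟩, ?_, ?_⟩
    · simp
    · simp

end

/-! ### Boxes -/

section
variable {ℓ : ℕ} [NeZero ℓ] {X R : Type} [Fintype X] [DecidableEq X] [CommRing R]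
  [Algebra (ZMod ℓ) R]

/-- there is a box of `m` steps with supports of at most `S` points and bias at most
`(1 - η) ^ m` -/
def BoxV (d : ℕ) (ξ : X → R) (Far : X → X → Prop) (𝒳 : Set X) (T : R →+ ZMod ℓ) (S m : ℕ)
    (η : ℝ) : Prop :=
  ∃ (E : Type) (_ : AddCommGroup E) (_ : Fintype E) (W : Fin d → Finset X)
    (α : Fin d → E →+ (X → ZMod ℓ)),
    SepOn Far univ W ∧ (∀ j, (↑(W j) : Set X) ⊆ 𝒳) ∧ (∀ j, (W j).card ≤ S) ∧
      Fintype.card E ≤ ℓ ^ m ∧ bi T univ (fun j => (vec ξ (W j)).comp (α j)) ≤ (1 - η) ^ m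

/-- restriction of a function to a finite set -/
def cutV (W : Finset X) (f : X → ZMod ℓ) : X → ZMod ℓ := fun x => if x ∈ W then f x else 0

theorem StabV_vec_cut (ξ : X → R) {W U : Finset X} (h : W ⊆ U) (f : X → ZMod ℓ) :
    vec ξ U (cutV W f) = vec ξ W f := by
  change ∑ x ∈ U, cutV W f x • ξ x = ∑ x ∈ W, f x • ξ x
  rw [← sum_subset h]
  · refine sum_congr rfl fun x hx => ?_
    simp [cutV, hx]
  · intro x _ hx
    simp [cutV, hx]

/-- the homomorphism of the extended box -/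
def homV {E : Type} [AddCommGroup E] (W W1 : Finset X) (α : E →+ (X → ZMod ℓ)) (h : X → ZMod ℓ) :
    E × ZMod ℓ →+ (X → ZMod ℓ) where
  toFun p := cutV W (α p.1) + p.2 • cutV W1 h
  map_zero' := by
    funext x
    simp [cutV]
  map_add' p p' := by
    funext x
    by_cases hx : x ∈ W <;> by_cases hx1 : x ∈ W1 <;> simp [cutV, hx, hx1] <;> ring

theorem StabV_hom {E : Type} [AddCommGroup E] (ξ : X → R) (W W1 : Finset X)
    (α : E →+ (X → ZMod ℓ)) (h : X → ZMod ℓ) (p : E × ZMod ℓ) :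
    vec ξ (W ∪ W1) (homV W W1 α h p) = vec ξ W (α p.1) + p.2 • vec ξ W1 h := by
  have h1 : homV W W1 α h p = cutV W (α p.1) + p.2 • cutV W1 h := rfl
  rw [h1, map_add, ZMod.map_smul, StabV_vec_cut ξ subset_union_left,
    StabV_vec_cut ξ subset_union_right]

theorem StabV_far_union (Far : X → X → Prop) (𝒳 : Set X) (Z Y : Finset X) :
    FarFrom Far 𝒳 (Z ∪ Y) = FarFrom Far (FarFrom Far 𝒳 Z) Y := by
  ext x
  simp only [FarFrom, Set.mem_ofPred_eq, mem_union]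
  constructor
  · rintro ⟨h1, h2⟩
    exact ⟨⟨h1, fun y hy => h2 y (Or.inl hy)⟩, fun y hy => h2 y (Or.inr hy)⟩
  · rintro ⟨⟨h1, h2⟩, h3⟩
    exact ⟨h1, fun y hy => hy.elim (h2 y) (h3 y)⟩

end

/-! ### One step -/

theorem StabV_step {ℓ : ℕ} [NeZero ℓ] (hℓ : ℓ.Prime) {d : ℕ} (hd : 2 ≤ d)
    (hS : ∀ i, 1 ≤ i → i < d → SThm ℓ i) {c η : ℝ} (hc : 0 < c)
    (hcl : ∀ z : ZMod ℓ, z ≠ 0 → 2 * c < ‖ee z - 1‖) (hη : 2 * (ℓ : ℝ) ^ d * η ≤ c ^ 2)
    (hη1 : η < 1) (m S : ℕ) :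
    ∃ S' K : ℕ, ∀ (X R : Type) [Fintype X] [DecidableEq X] [CommRing R] [Algebra (ZMod ℓ) R]
      (ξ : X → R) (Far : X → X → Prop), (∀ x y, Far x y → Far y x) →
      ∀ (𝒳 : Set X) (T : R →+ ZMod ℓ), BoxV d ξ Far 𝒳 T S m η →
      BoxV d ξ Far 𝒳 T S' (m + 1) η ∨
      ∃ (Y : Finset X) (n : ℕ) (e : Fin n → ℕ) (F : Fin n → R →+ ZMod ℓ),
        Y.card ≤ K ∧ n ≤ K ∧ (∀ κ, 1 ≤ e κ ∧ e κ < d) ∧
        Str ξ Far (FarFrom Far 𝒳 Y) d T (gens e F) := by
  classical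
  obtain ⟨σ, hσ⟩ := regularise hℓ d hS
  have hℓ1 : (1 : ℝ) < ℓ := by exact_mod_cast hℓ.one_lt
  obtain ⟨lev, hlevdef⟩ : ∃ lev : ℕ → ℝ, ∀ n, lev n = ((ℓ : ℝ) ^ (2 * 2 ^ d * n + 1))⁻¹ :=
    ⟨_, fun _ => rfl⟩
  have hlev : ∀ n, 0 < lev n := fun n => by
    rw [hlevdef]
    positivity
  have hlev1 : ∀ n, lev n < ((ℓ : ℝ) ^ (2 * 2 ^ d * n))⁻¹ := fun n => by
    rw [hlevdef]
    exact inv_strictAnti₀ (by positivity) (pow_lt_pow_right₀ hℓ1 (Nat.lt_succ_self _))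
  obtain ⟨mm, hmm⟩ : ∃ mm : ℕ → ℕ, ∀ n, mm n = 2 ^ d * ℓ ^ n * (d * σ (lev n)) :=
    ⟨_, fun _ => rfl⟩
  obtain ⟨M0, hM0⟩ : ∃ M0 : ℕ → ℕ, ∀ n, M0 n = 2 ^ d * ℓ ^ n * σ (lev n) + 1 :=
    ⟨_, fun _ => rfl⟩
  obtain ⟨K1, hK1⟩ := hσ lev hlev mm (2 ^ d * (ℓ ^ m) ^ d)
  refine ⟨S + ∑ n ∈ range (K1 + 1), M0 n, d * S + K1, ?_⟩
  intro X R _ _ _ _ ξ Far hsymm 𝒳 T hbox
  obtain ⟨E, iE, fE, W, α, hsep, hWX, hWc, hE, hbi⟩ := hbox
  obtain ⟨ι, hι⟩ : ∃ ι : Fin d → E →+ R, ι = fun j => (vec ξ (W j)).comp (α j) := ⟨_, rfl⟩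
  rw [← hι] at hbi
  obtain ⟨n0, e0, F0, hn0, he0, hF0⟩ := StabV_tests T ι hE
  obtain ⟨Z, hZ⟩ : ∃ Z : Finset X, Z = univ.biUnion W := ⟨_, rfl⟩
  have hZc : Z.card ≤ d * S := by
    rw [hZ]
    refine card_biUnion_le.trans ((sum_le_card_nsmul _ _ S fun j _ => hWc j).trans ?_)
    simp
  have hWZ : ∀ j, ∀ x ∈ W j, x ∈ Z := fun j x hx => by
    rw [hZ]
    exact mem_biUnion.2 ⟨j, mem_univ _, hx⟩
  obtain ⟨Y1, n, e, F, hY1, hn, he, hreg, hstr⟩ :=
    hK1 X R ξ Far hsymm (FarFrom Far 𝒳 Z) n0 e0 F0 hn0 he0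
  have hne : (univ : Finset (Fin d)).Nonempty := by
    refine card_pos.1 ?_
    rw [card_univ, Fintype.card_fin]
    omega
  obtain ⟨b, hbdef⟩ : ∃ b : ℝ, b = bi T univ ι := ⟨_, rfl⟩
  have hb : 0 < b := by
    rw [hbdef]
    refine bi_pos ?_ T ι
    rwa [card_univ, Fintype.card_fin]
  by_cases hbad : ∃ v : Fin d → R, GoodM ℓ ξ Far (FarFrom Far (FarFrom Far 𝒳 Z) Y1) (M0 n) univ v ∧
      bi T univ (extV (ℓ := ℓ) ι v) ≤ (1 - η) * b
  · left
    obtain ⟨v, ⟨W1, hsep1, hW1X, hW1c, hv⟩, hle⟩ := hbad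
    choose h hh using hv
    have hW1 : ∀ j, ∀ x ∈ W1 j, x ∈ 𝒳 ∧ ∀ z ∈ Z, Far x z := fun j x hx =>
      (hW1X j (mem_univ _) hx).1
    refine ⟨E × ZMod ℓ, inferInstance, inferInstance, fun j => W j ∪ W1 j,
      fun j => homV (W j) (W1 j) (α j) (h j (mem_univ _)), ?_, ?_, ?_, ?_, ?_⟩
    · intro i hi j hj hij x hx y hy
      rcases mem_union.1 hx with hx | hx <;> rcases mem_union.1 hy with hy | hy
      · exact hsep i hi j hj hij x hx y hy
      · exact hsymm _ _ ((hW1 j y hy).2 x (hWZ i x hx))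
      · exact (hW1 i x hx).2 y (hWZ j y hy)
      · exact hsep1 i hi j hj hij x hx y hy
    · intro j x hx
      rcases mem_union.1 (mem_coe.1 hx) with hx | hx
      · exact hWX j hx
      · exact (hW1 j x hx).1
    · intro j
      refine (card_union_le _ _).trans (add_le_add (hWc j) ((hW1c j (mem_univ _)).trans ?_))
      exact single_le_sum (f := M0) (fun _ _ => Nat.zero_le _) (mem_range.2 (Nat.lt_succ_of_le hn))
    · rw [Fintype.card_prod, ZMod.card, pow_succ]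
      exact Nat.mul_le_mul_right _ hE
    · have h1 : (fun j => (vec ξ (W j ∪ W1 j)).comp (homV (W j) (W1 j) (α j) (h j (mem_univ _)))) =
          extV (ℓ := ℓ) ι v := by
        funext j
        refine AddMonoidHom.ext fun p => ?_
        rw [AddMonoidHom.comp_apply, StabV_hom, hι]
        change _ = vec ξ (W j) (α j p.1) + p.2 • v j
        rw [hh j (mem_univ _)]
      rw [h1, pow_succ, mul_comm]
      refine hle.trans (mul_le_mul_of_nonneg_left ?_ (by linarith))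
      rw [hbdef]
      exact hbi
  · right
    push Not at hbad
    refine ⟨Z ∪ Y1, n, e, F, (card_union_le _ _).trans (add_le_add hZc hY1),
      hn.trans (Nat.le_add_left _ _), he, ?_⟩
    rw [StabV_far_union]
    have hcd : (univ : Finset (Fin d)).card = d := by rw [card_univ, Fintype.card_fin]
    have h3 := step3 hsymm hne (fun κ => (he κ).1) T (ε := lev n) (m := mm n)
      (s := σ (lev n)) (M0 := M0 n) hreg (by rw [hcd, hmm]) (by rw [hM0]; omega)
      (by rw [hcd, hM0]; omega) (hlev n).le (by rw [hcd]; exact hlev1 n) ?_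
    · rwa [hcd] at h3
    · intro v w hv hw heq
      have hcl1 : ∀ u : Fin d → R,
          GoodM ℓ ξ Far (FarFrom Far (FarFrom Far 𝒳 Z) Y1) (M0 n) univ u →
          ‖betaV T univ ι u - b‖ ≤ c * b := fun u hu =>
        StabV_close hne T ι u hb hbdef hc (by rw [Fintype.card_fin]; exact hη) (hbad u hu)
      refine StabV_eq T univ ι hb hcl v w (hcl1 v hv) (hcl1 w hw) ?_
      intro I hI hIne a
      rcases I.eq_empty_or_nonempty with rfl | hIn
      · simp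
      · obtain ⟨κ, h1, h2⟩ := hF0 I hIn hIne a
        obtain ⟨φ, hφ, hφ'⟩ := hstr κ (Fin d) I h1.symm
        have hval : ∀ u : Fin d → R, Good ℓ ξ Far (FarFrom Far (FarFrom Far 𝒳 Z) Y1) univ u →
            T ((∏ j ∈ I, u j) * ∏ j ∈ univ \ I, ι j (a j)) = φ u := fun u hu => by
          rw [← hφ' u (Good.mono (Set.Subset.refl _) hI hu), h2, cm_apply, mul_comm]
        rw [hval v hv.good, hval w hw.good]
        refine hφ.factor v w fun B' hB' G hG => ?_
        obtain ⟨κ', hκ'⟩ := hG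
        have h5 : e κ' = B'.card := congrArg Prod.fst hκ'
        have h6 : F κ' = G := congrArg Prod.snd hκ'
        rw [← h6]
        exact heq B' (subset_univ _) κ' h5.symm

/-! ### Iteration -/

theorem StabV_iter {ℓ : ℕ} [NeZero ℓ] (hℓ : ℓ.Prime) {d : ℕ} (hd : 2 ≤ d)
    (hS : ∀ i, 1 ≤ i → i < d → SThm ℓ i) {c η : ℝ} (hc : 0 < c)
    (hcl : ∀ z : ZMod ℓ, z ≠ 0 → 2 * c < ‖ee z - 1‖) (hη : 2 * (ℓ : ℝ) ^ d * η ≤ c ^ 2)
    (hη1 : η < 1) (m : ℕ) :
    ∃ S K : ℕ, ∀ (X R : Type) [Fintype X] [DecidableEq X] [CommRing R] [Algebra (ZMod ℓ) R]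
      (ξ : X → R) (Far : X → X → Prop), (∀ x y, Far x y → Far y x) →
      ∀ (𝒳 : Set X) (T : R →+ ZMod ℓ),
      BoxV d ξ Far 𝒳 T S m η ∨
      ∃ (Y : Finset X) (n : ℕ) (e : Fin n → ℕ) (F : Fin n → R →+ ZMod ℓ),
        Y.card ≤ K ∧ n ≤ K ∧ (∀ κ, 1 ≤ e κ ∧ e κ < d) ∧
        Str ξ Far (FarFrom Far 𝒳 Y) d T (gens e F) := by
  induction m with
  | zero =>
    refine ⟨0, 0, fun X R _ _ _ _ ξ Far _ 𝒳 T => Or.inl ?_⟩
    refine ⟨ZMod 1, inferInstance, inferInstance, fun _ => ∅, fun _ => 0, ?_, ?_, ?_, ?_, ?_⟩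
    · intro i _ j _ _ x hx
      simp at hx
    · intro j
      simp
    · intro j
      simp
    · simp
    · rw [pow_zero]
      exact bi_le_one _ _ _
  | succ m ih =>
    obtain ⟨S, K, h1⟩ := ih
    obtain ⟨S', K', h2⟩ := StabV_step hℓ hd hS hc hcl hη hη1 m S
    refine ⟨S', K + K', fun X R _ _ _ _ ξ Far hsymm 𝒳 T => ?_⟩
    rcases h1 X R ξ Far hsymm 𝒳 T with hb | ⟨Y, n, e, F, hY, hn, he, hF⟩
    · rcases h2 X R ξ Far hsymm 𝒳 T hb with hb' | ⟨Y, n, e, F, hY, hn, he, hF⟩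
      · exact Or.inl hb'
      · exact Or.inr ⟨Y, n, e, F, by omega, by omega, he, hF⟩
    · exact Or.inr ⟨Y, n, e, F, by omega, by omega, he, hF⟩

/-! ### The order one -/

theorem StabV_one {ℓ : ℕ} [NeZero ℓ] : SThm ℓ 1 := by
  classical
  intro ε hε
  refine ⟨1, 0, fun X R _ _ _ _ ξ Far _ 𝒳 T => ?_⟩
  by_cases h : ∃ x ∈ 𝒳, T (ξ x) ≠ 0
  · left
    obtain ⟨x, hx, hT⟩ := h
    refine ⟨fun _ => {x}, ?_, ?_, ?_, ?_⟩
    · intro i _ j _ hij
      exact absurd (Subsingleton.elim i j) hij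
    · intro j
      simpa using hx
    · intro j
      simp
    · obtain ⟨f, hf⟩ : ∃ f : (Fin 1 → X → ZMod ℓ) → ℂ,
          f = fun h => ee (T (∏ j : Fin 1, vec ξ ({x} : Finset X) (h j))) := ⟨_, rfl⟩
      have h1 : ∀ g : Fin 1 → X → ZMod ℓ, f (g + 1) = ee (T (ξ x)) * f g := by
        intro g
        have hvec : ∀ u : X → ZMod ℓ, vec ξ ({x} : Finset X) u = u x • ξ x := fun u => by
          change ∑ y ∈ ({x} : Finset X), u y • ξ y = _
          rw [sum_singleton]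
        rw [hf]
        simp only [Finset.univ_unique, prod_singleton, hvec]
        rw [← StabV_ee_add, ← map_add]
        congr 2
        simp only [Pi.add_apply, Pi.one_apply, add_smul, one_smul]
        rw [add_comm]
      have h2 : av f = ee (T (ξ x)) * av f := by
        conv_lhs => rw [← av_add_right (1 : Fin 1 → X → ZMod ℓ) f]
        rw [← av_mul_left]
        congr 1
        funext g
        exact h1 g
      have h3 : av f = 0 := by
        have h4 : (1 - ee (T (ξ x))) * av f = 0 := by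
          rw [sub_mul, one_mul, ← h2, sub_self]
        rcases mul_eq_zero.1 h4 with h5 | h5
        · exact absurd (sub_eq_zero.1 h5).symm (StabV_ee_ne hT)
        · exact h5
      have h4 : bi T univ (fun _ : Fin 1 => vec (ℓ := ℓ) ξ ({x} : Finset X)) = (av f).re := by
        rw [hf]
        rfl
      rw [h4, h3]
      simpa using hε
  · right
    push Not at h
    refine ⟨∅, 0, fun _ => 0, fun _ => 0, by simp, le_rfl, fun κ => κ.elim0, ?_⟩
    intro C _ B hB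
    refine ⟨fun _ => 0, Alg.zero B, fun v hv => ?_⟩
    obtain ⟨j, rfl⟩ := card_eq_one.1 hB
    obtain ⟨W, _, hW, hh⟩ := hv
    obtain ⟨u, hu⟩ := hh j (mem_singleton_self j)
    rw [prod_singleton, hu]
    change T (∑ y ∈ W j, u y • ξ y) = 0
    rw [map_sum]
    refine sum_eq_zero fun y hy => ?_
    rw [ZMod.map_smul, h y (hW j (mem_singleton_self j) hy).1, smul_zero]

/-- the structure theorem -/
theorem sthmV {ℓ : ℕ} [NeZero ℓ] (hℓ : ℓ.Prime) (d : ℕ) (hd : 1 ≤ d) : SThm ℓ d := by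
  induction d using Nat.strong_induction_on with
  | _ d ih =>
    rcases Nat.lt_or_ge d 2 with h | h
    · obtain rfl : d = 1 := by omega
      exact StabV_one
    · obtain ⟨c, hc, _, hcl⟩ := StabV_exists_cl ℓ
      have hℓ0 : (0 : ℝ) < ℓ := by exact_mod_cast hℓ.pos
      have hD : (0 : ℝ) < (ℓ : ℝ) ^ d := by positivity
      obtain ⟨η, hηdef⟩ : ∃ η : ℝ, η = min (1 / 2) (c ^ 2 / (2 * (ℓ : ℝ) ^ d)) := ⟨_, rfl⟩
      have hη0 : 0 < η := by
        rw [hηdef]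
        exact lt_min (by norm_num) (by positivity)
      have hη1 : η < 1 := by
        rw [hηdef]
        exact (min_le_left _ _).trans_lt (by norm_num)
      have hη2 : 2 * (ℓ : ℝ) ^ d * η ≤ c ^ 2 := by
        have h1 : η ≤ c ^ 2 / (2 * (ℓ : ℝ) ^ d) := by
          rw [hηdef]
          exact min_le_right _ _
        rw [le_div_iff₀ (by positivity)] at h1
        linarith
      intro ε hε
      obtain ⟨r, hr⟩ := exists_pow_lt_of_lt_one hε (by linarith : 1 - η < 1)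
      obtain ⟨S, K, hSK⟩ := StabV_iter hℓ h (fun i hi1 hid => ih i hid hi1) hc hcl hη2 hη1 r
      refine ⟨S, K, fun X R _ _ _ _ ξ Far hsymm 𝒳 T => ?_⟩
      rcases hSK X R ξ Far hsymm 𝒳 T with hb | hs
      · left
        obtain ⟨E, iE, fE, W, α, hsep, hWX, hWc, _, hbi⟩ := hb
        have hne : (univ : Finset (Fin d)).Nonempty := by
          refine card_pos.1 ?_
          rw [card_univ, Fintype.card_fin]
          omega
        have h5 := bi_restrict hne T (fun j => vec (ℓ := ℓ) ξ (W j)) α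
        exact ⟨W, hsep, hWX, hWc, lt_of_le_of_lt h5 (lt_of_le_of_lt hbi hr)⟩
      · exact Or.inr hs

end Pool.Agent.Lib.MP_3e612f_nt.DI
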