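import Pool.Agent.Lib.MP_3e612f_nt.DI.Step1
import Pool.Agent.Lib.MP_3e612f_nt.DI.Coll

/-!
Second self-correction step: at all tuples the value of `T` only depends on the pattern.

PROOF of `half_step2` (one tuple). Let `W0` be the supports of `v` (`GoodM`), `Z = ⋃_{j ∈ A} W0 j` (at most `A.card * M0`
points), `W'` from `collect`, `W j = W0 j ∪ W' j` (far for different colours of `A`, at most `s2` points, contained in
`𝒳`). For `k : C → X → ZMod ℓ` put `kv j = vec ξ (W' j) (k j)` and `pt I k j = if j ∈ I then v j + kv j else kv j`, which is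
`vec ξ (W j)` of some function (`indicator (W0 j) h0 + indicator (W' j) k` resp. `indicator (W' j) k`).
(a) Genericity. Fix `I ⊆ A`, `B ⊆ A` nonempty and `c` admissible, nonzero, as in `Gen`, and put
`G k = ∑_p c p • cm (F p.2) (∏_{p.1} pt I k)`. By `bi_vec_mono`, `bi_real`, the fact that `∏_{p.1} pt I k`, `p.1 ⊆ A \ B`, does not depend
on the colours of `B`, and `av_piecewise`, the average over `k` of `bi (G k) B W` is at most the real part of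
`av_k ee (∑_p c p F p.2 ((∏_{p.1} pt I k) * ∏_B kv))`. Expanding `∏_{p.1} pt I k = ∑_{D ⊆ p.1 ∩ I} v_D kv_{p.1 \ D}` this is of the form of
`avg_top` with `φ B'' k = ∑ c p F p.2 (v_D kv_{B''})`, the sum over `p, D` with `B'' = (p.1 \ D) ∪ B`. Let `p₀` be such that
`c p₀ ≠ 0` and `p₀.1` is maximal (for inclusion) and apply `avg_top` with the top set `A' = p₀.1 ∪ B`: `φ B'' = 0` for `B'' ⊃ A'`, and
`φ A' k = ∑_κ c (p₀.1, κ) F κ (kv_{A'})` (only `D = ∅`, by maximality). So the average is `≤ bi (∑_κ c (p₀.1, κ) • F κ) A' W' < ε` (the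
bound of `collect`; note `A'.card = e κ` when `c (p₀.1, κ) ≠ 0`). By `pr_markov` (`bi_nonneg`) the proportion of the `k` for which
this `(I, B, c)` violates `< δ` is at most `ε / δ`. There are at most `2 ^ A.card` sets `I`, `2 ^ A.card` sets `B`, and `ℓ ^ (2 ^ A.card * n)`
functions `c` (supported on `p.1 ⊆ A`). So the proportion of the `k` such that some `pt I k`, `I ⊆ A`, is not generic is at most
`4 ^ A.card * ℓ ^ (2 ^ A.card * n) * (ε / δ)`.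
(b) `zeros_density` for the equations `F κ (v_D kv_B) = 0`, `D, B ⊆ A` disjoint, `B` nonempty, `D.card + B.card = e κ` (at most
`4 ^ A.card * n` equations): their solutions `k` have proportion `≥ ℓ ^ (-(4 ^ A.card * n))`. By `hε` there is a solution `k` for
which all `pt I k` are generic. (c) Then `F κ (∏_B pt I k) = ∑_{D ⊆ B ∩ I} F κ (v_D kv_{B \ D})` is `F κ (v_B)` if `B ⊆ I` and `0`
otherwise.
PROOF of `step2`: apply `half_step2` to `v` and to `w`; the two `pt I k` have equal patterns by (c), so `H3` gives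
`T (∏_A pt I k) = T (∏_A pt' I k')`, and `expand_shift` gives the claim.
-/

set_option autoImplicit false

namespace Pool.Agent.Lib.MP_3e612f_nt.DI

open Finset
open Pool.Agent.Lib.MP_3e612f_nt.PI (ee)

variable {ℓ : ℕ} [NeZero ℓ] {C X R : Type} [Fintype C] [DecidableEq C] [Fintype X] [DecidableEq X]
  [CommRing R] [Algebra (ZMod ℓ) R] {n : ℕ}

theorem half_step2 {ξ : X → R} {Far : X → X → Prop} {𝒳 : Set X} {e : Fin n → ℕ}
    {F : Fin n → R →+ ZMod ℓ} (hsymm : ∀ x y, Far x y → Far y x) {A : Finset C} (hA : 2 ≤ A.card)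
    (he : ∀ κ, 1 ≤ e κ ∧ e κ < A.card) {ε δ : ℝ} {m s M0 s2 : ℕ} (hδ : 0 < δ)
    (hreg : Reg ξ Far 𝒳 e F ε m s)
    (hm : A.card * M0 + 2 ^ A.card * ℓ ^ n * (A.card * s) ≤ m)
    (hs : M0 + 2 ^ A.card * ℓ ^ n * s ≤ s2)
    (hε : 4 ^ A.card * (ℓ : ℝ) ^ (2 ^ A.card * n) * (ε / δ) < ((ℓ : ℝ) ^ (4 ^ A.card * n))⁻¹)
    (v : C → R) (hv : GoodM ℓ ξ Far 𝒳 M0 A v) :
    ∃ (W : C → Finset X) (h : Finset C → C → X → ZMod ℓ) (k : C → R), SepOn Far A W ∧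
      (∀ j ∈ A, (↑(W j) : Set X) ⊆ 𝒳) ∧ (∀ j ∈ A, (W j).card ≤ s2) ∧
      (∀ I ⊆ A, ∀ j ∈ A, vec ξ (W j) (h I j) = if j ∈ I then v j + k j else k j) ∧
      (∀ I ⊆ A, Gen ξ A e F W (fun j => vec ξ (W j) (h I j)) δ) ∧
      ∀ I ⊆ A, ∀ B ⊆ A, ∀ κ, B.card = e κ →
        F κ (∏ j ∈ B, vec ξ (W j) (h I j)) = if B ⊆ I then F κ (∏ j ∈ B, v j) else 0 := by
  sorry

theorem step2 {ξ : X → R} {Far : X → X → Prop} {𝒳 : Set X} {e : Fin n → ℕ}
    {F : Fin n → R →+ ZMod ℓ} (hsymm : ∀ x y, Far x y → Far y x) {A : Finset C} (hA : 2 ≤ A.card)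
    (he : ∀ κ, 1 ≤ e κ ∧ e κ < A.card) (T : R →+ ZMod ℓ) {ε δ : ℝ} {m s M0 s2 : ℕ} (hδ : 0 < δ)
    (hreg : Reg ξ Far 𝒳 e F ε m s)
    (H3 : ∀ W₁ W₂ : C → Finset X, SepOn Far A W₁ → SepOn Far A W₂ →
      (∀ j ∈ A, (↑(W₁ j) : Set X) ⊆ 𝒳) → (∀ j ∈ A, (↑(W₂ j) : Set X) ⊆ 𝒳) →
      (∀ j ∈ A, (W₁ j).card ≤ s2) → (∀ j ∈ A, (W₂ j).card ≤ s2) →
      ∀ h₁ h₂ : C → X → ZMod ℓ, Gen ξ A e F W₁ (fun j => vec ξ (W₁ j) (h₁ j)) δ →
      Gen ξ A e F W₂ (fun j => vec ξ (W₂ j) (h₂ j)) δ →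
      EqPat A e F (fun j => vec ξ (W₁ j) (h₁ j)) (fun j => vec ξ (W₂ j) (h₂ j)) →
      T (∏ j ∈ A, vec ξ (W₁ j) (h₁ j)) = T (∏ j ∈ A, vec ξ (W₂ j) (h₂ j)))
    (hm : A.card * M0 + 2 ^ A.card * ℓ ^ n * (A.card * s) ≤ m)
    (hs : M0 + 2 ^ A.card * ℓ ^ n * s ≤ s2)
    (hε : 4 ^ A.card * (ℓ : ℝ) ^ (2 ^ A.card * n) * (ε / δ) < ((ℓ : ℝ) ^ (4 ^ A.card * n))⁻¹)
    (v w : C → R) (hv : GoodM ℓ ξ Far 𝒳 M0 A v) (hw : GoodM ℓ ξ Far 𝒳 M0 A w)
    (hvw : EqPat A e F v w) : T (∏ j ∈ A, v j) = T (∏ j ∈ A, w j) := by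
  sorry

end Pool.Agent.Lib.MP_3e612f_nt.DI
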