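import Pool.Agent.Lib.MP_3e612f_nt.DI.Hydra
import Pool.Agent.Lib.MP_3e612f_nt.DI.BV
import Pool.Agent.Lib.MP_3e612f_nt.DI.Step2
import Pool.Agent.Lib.MP_3e612f_nt.DI.Step3

/-!
The structure theorem for symmetric tensors on far points.

PROOF of `stable_or`. `c` from `exists_cl ℓ`; `η = c ^ 2 / (16 * 2 ^ d)` (`≤ 1 / 2`, and `2 η / c ^ 2 ≤ 1 / (4 * 2 ^ d)`). Given
`s0`: `σ` from `regularise … d`; `lev n = (ℓ ^ (4 * 4 ^ d * (n + 1)))⁻¹`, `δ n = 1 / 4 * (ℓ ^ (n * 4 ^ d))⁻¹`,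
`s n = σ (lev n)`, `M0 n = 2 ^ d * ℓ ^ n * s n + 1`, `s2 n = M0 n + 2 ^ d * ℓ ^ n * s n`,
`m n = d * M0 n + 2 ^ d * ℓ ^ n * (d * s n)`, `N0 = 2 ^ d * ℓ ^ (d * s0)`; `K1` from `regularise`; `s1 = s0 + ∑ n ≤ K1, s2 n`,
`K = d * s0 + K1`. Assume that the first alternative fails; `b = bi T univ (vec ξ (W ·)) > 0` (`bi_pos`).
`Z = ⋃ j, W j`, `𝒳1 = FarFrom 𝒳 Z`; `tests_family` gives `n0, e0, F0`; `regularise` on `𝒳1` gives `Y1, n, e, F`, regular on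
`𝒳2 = FarFrom 𝒳1 Y1`. `P v := ‖beta ξ T univ W v - b‖ ≤ c * b`.
H2 (for `step1`): for `v, w` good on `𝒳2` with `P v, P w`, `EqPat`: `bv_eq`; for `I ≠ ∅` its hypothesis holds since
`cm T (∏_{A \ I} vec ξ (W j) (a j)) = F0 κ` is `Str` over `gens e F`, so it is given by an `Alg` function of the tuple on `I`,
and by `Alg.factor` it has the same value at `v` and `w`; `I = ∅` is trivial.
H3 (for `step2`): by `step1`; for `W₁` far, contained in `𝒳2`, with at most `s2 n` points, `W j ∪ W₁ j` is far, contained in `𝒳`,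
with at most `s1` points, so `(1 - η) b < bi (W ∪ W₁) ≤ Re av_h beta (vec ξ (W₁ ·) (h ·))` (`bi_vec_union`), and `bv_pr` gives
`hP₁`. Then `step2` gives `hfac` and `step3` gives the structure; `Y = Z ∪ Y1` (`FarFrom 𝒳 (Z ∪ Y1) = 𝒳2`).
Numbers: `4 ^ d * ℓ ^ (2 ^ d * n) * lev n / δ n < ℓ ^ (-(4 ^ d * n))` since `4 ^ (d + 1) ≤ ℓ ^ (2 * d + 2)`.

PROOF of `sthm`. Strong induction on `d`. `d = 1`: if `T (ξ x) ≠ 0` for some `x ∈ 𝒳` take `W = {x}`: the average of `ee (h x * T (ξ x))` is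
`0`. Otherwise `T` is `0` on all vectors supported by `𝒳` (`Alg.zero`, `n = 0`, `Y = ∅`). `d ≥ 2`: let `(1 - η) ^ R < ε`, start with
`W = ∅` (`bi_le_one`) and use `stable_or` at most `R` times, with `s_0 = 0`, `s_{r + 1} = s1 (s_r)` (make the `s_r` increasing), `K` the
sum of the `K (s_r)`, `r < R`; after `R` steps without structure the bias is at most `(1 - η) ^ R < ε`.
-/

set_option autoImplicit false

namespace Pool.Agent.Lib.MP_3e612f_nt.DI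

open Finset
open Pool.Agent.Lib.MP_3e612f_nt.PI (ee)

private theorem st_farFrom_farFrom {X : Type} [DecidableEq X] (Far : X → X → Prop) (𝒳 : Set X)
    (Y Z : Finset X) : FarFrom Far (FarFrom Far 𝒳 Y) Z = FarFrom Far 𝒳 (Y ∪ Z) := by
  ext x
  simp only [FarFrom, Set.mem_ofPred_eq, mem_union]
  constructor
  · rintro ⟨⟨h1, h2⟩, h3⟩
    exact ⟨h1, fun y hy => hy.elim (h2 y) (h3 y)⟩
  · rintro ⟨h1, h2⟩
    exact ⟨⟨h1, fun y hy => h2 y (Or.inl hy)⟩, fun y hy => h2 y (Or.inr hy)⟩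

/-- the hypothesis of `step1` -/
private theorem st_h2 {ℓ : ℕ} [NeZero ℓ] {C X R : Type} [Fintype C] [DecidableEq C] [Fintype X]
    [DecidableEq X] [CommRing R] [Algebra (ZMod ℓ) R] {n : ℕ} {ξ : X → R} {Far : X → X → Prop}
    {𝒳 : Set X} {e : Fin n → ℕ} {F : Fin n → R →+ ZMod ℓ} {A : Finset C} (T : R →+ ZMod ℓ)
    (W : C → Finset X) {b c : ℝ} (hb : 0 < b) (hc : ∀ z : ZMod ℓ, z ≠ 0 → 2 * c < ‖ee z - 1‖)
    (hstr : ∀ I ⊆ A, I.Nonempty → I ≠ A → ∀ a : C → X → ZMod ℓ,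
      Str ξ Far 𝒳 I.card (cm T (∏ j ∈ A \ I, vec ξ (W j) (a j))) (gens e F))
    (v w : C → R) (hv : Good ℓ ξ Far 𝒳 A v) (hw : Good ℓ ξ Far 𝒳 A w)
    (hPv : ‖beta ξ T A W v - b‖ ≤ c * b) (hPw : ‖beta ξ T A W w - b‖ ≤ c * b)
    (hpat : EqPat A e F v w) : T (∏ j ∈ A, v j) = T (∏ j ∈ A, w j) := by
  refine bv_eq ξ T A W hb hc v w hPv hPw fun I hI hIA a => ?_
  rcases I.eq_empty_or_nonempty with rfl | hne
  · rw [prod_empty, prod_empty]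
  · obtain ⟨φ, hφ, hφv⟩ := hstr I hI hne hIA a C I rfl
    have h1 := hφv v (hv.mono (Set.Subset.refl _) hI)
    have h2 := hφv w (hw.mono (Set.Subset.refl _) hI)
    rw [cm_apply] at h1 h2
    rw [mul_comm (∏ j ∈ I, v j), mul_comm (∏ j ∈ I, w j), h1, h2]
    refine hφ.factor v w fun B' hB' F' hF' => ?_
    obtain ⟨κ, hκ⟩ := hF'
    have e1 : e κ = B'.card := congrArg Prod.fst hκ
    have e2 : F κ = F' := congrArg Prod.snd hκ
    rw [← e2]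
    exact hpat B' (hB'.trans hI) κ e1.symm

/-- the union of two far tuples of sets, the second one far from the first one -/
private theorem st_union {X C : Type} [DecidableEq X] {Far : X → X → Prop}
    (hsymm : ∀ x y, Far x y → Far y x) {A : Finset C} {W W₁ : C → Finset X}
    (h : SepOn Far A W) (h₁ : SepOn Far A W₁)
    (hfar : ∀ i ∈ A, ∀ j ∈ A, ∀ x ∈ W₁ i, ∀ y ∈ W j, Far x y) :
    SepOn Far A fun j => W j ∪ W₁ j := by
  intro i hi j hj hij x hx y hy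
  rcases mem_union.1 hx with hx | hx
  · rcases mem_union.1 hy with hy | hy
    · exact h i hi j hj hij x hx y hy
    · exact hsymm _ _ (hfar j hj i hi y hy x hx)
  · rcases mem_union.1 hy with hy | hy
    · exact hfar i hi j hj x hx y hy
    · exact h₁ i hi j hj hij x hx y hy

private theorem st_num2 {ℓ : ℕ} (hℓ : 2 ≤ ℓ) (d n : ℕ) :
    4 ^ d * (ℓ : ℝ) ^ (2 ^ d * n) *
      (((ℓ : ℝ) ^ (4 * 4 ^ d * (n + 1)))⁻¹ / (1 / 4 * ((ℓ : ℝ) ^ (n * 4 ^ d))⁻¹)) <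
      ((ℓ : ℝ) ^ (4 ^ d * n))⁻¹ := by
  have h0 : (0 : ℝ) < ℓ := by positivity
  have h1 : (1 : ℝ) < ℓ := by exact_mod_cast hℓ
  have e1 : 4 ^ d * (ℓ : ℝ) ^ (2 ^ d * n) *
      (((ℓ : ℝ) ^ (4 * 4 ^ d * (n + 1)))⁻¹ / (1 / 4 * ((ℓ : ℝ) ^ (n * 4 ^ d))⁻¹)) =
      (4 ^ (d + 1) * (ℓ : ℝ) ^ (2 ^ d * n + n * 4 ^ d)) / (ℓ : ℝ) ^ (4 * 4 ^ d * (n + 1)) := by
    rw [pow_add (ℓ : ℝ) (2 ^ d * n), pow_succ (4 : ℝ) d]
    field_simp
  rw [e1, div_lt_iff₀ (by positivity), ← div_eq_inv_mul, lt_div_iff₀ (by positivity)]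
  have h2 : (4 : ℝ) ^ (d + 1) ≤ (ℓ : ℝ) ^ (2 * d + 2) := by
    have h3 : (4 : ℝ) ^ (d + 1) = 2 ^ (2 * d + 2) := by
      rw [show 2 * d + 2 = 2 * (d + 1) by ring, pow_mul]
      norm_num
    rw [h3]
    exact pow_le_pow_left₀ (by norm_num) (by exact_mod_cast hℓ) _
  have h4 : 2 * d + 2 + (2 ^ d * n + n * 4 ^ d) + 4 ^ d * n < 4 * 4 ^ d * (n + 1) := by
    have h5 : 2 ^ d ≤ 4 ^ d := Nat.pow_le_pow_left (by norm_num) d
    have h6 : d < 4 ^ d := Nat.lt_pow_self (by norm_num)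
    have h7 : 2 ^ d * n ≤ 4 ^ d * n := Nat.mul_le_mul_right n h5
    have h8 : n * 4 ^ d = 4 ^ d * n := Nat.mul_comm _ _
    have h9 : 4 * 4 ^ d * (n + 1) = 4 * (4 ^ d * n) + 4 * 4 ^ d := by ring
    rw [h8, h9]
    have h10 : 1 ≤ 4 ^ d := Nat.one_le_pow _ _ (by norm_num)
    nlinarith
  calc 4 ^ (d + 1) * (ℓ : ℝ) ^ (2 ^ d * n + n * 4 ^ d) * (ℓ : ℝ) ^ (4 ^ d * n)
      ≤ (ℓ : ℝ) ^ (2 * d + 2) * (ℓ : ℝ) ^ (2 ^ d * n + n * 4 ^ d) * (ℓ : ℝ) ^ (4 ^ d * n) := by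
        gcongr
    _ = (ℓ : ℝ) ^ (2 * d + 2 + (2 ^ d * n + n * 4 ^ d) + 4 ^ d * n) := by
        rw [pow_add (ℓ : ℝ) (2 * d + 2 + (2 ^ d * n + n * 4 ^ d)), pow_add (ℓ : ℝ) (2 * d + 2)]
    _ < (ℓ : ℝ) ^ (4 * 4 ^ d * (n + 1)) := pow_lt_pow_right₀ h1 h4

private theorem st_num3 {ℓ : ℕ} (hℓ : 2 ≤ ℓ) (d n : ℕ) :
    ((ℓ : ℝ) ^ (4 * 4 ^ d * (n + 1)))⁻¹ < ((ℓ : ℝ) ^ (2 * 2 ^ d * n))⁻¹ := by
  have h0 : (0 : ℝ) < ℓ := by positivity
  have h1 : (1 : ℝ) < ℓ := by exact_mod_cast hℓ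
  apply inv_strictAnti₀ (by positivity)
  apply pow_lt_pow_right₀ h1
  have h5 : 2 ^ d ≤ 4 ^ d := Nat.pow_le_pow_left (by norm_num) d
  have h7 : 2 ^ d * n ≤ 4 ^ d * n := Nat.mul_le_mul_right n h5
  have h9 : 4 * 4 ^ d * (n + 1) = 4 * (4 ^ d * n) + 4 * 4 ^ d := by ring
  have h10 : 1 ≤ 4 ^ d := Nat.one_le_pow _ _ (by norm_num)
  rw [h9]
  nlinarith

theorem stable_or {ℓ : ℕ} [NeZero ℓ] (hℓ : ℓ.Prime) (d : ℕ) (hd : 2 ≤ d)
    (hS : ∀ i, 1 ≤ i → i < d → SThm ℓ i) :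
    ∃ η : ℝ, 0 < η ∧ η < 1 ∧ ∀ s0 : ℕ, ∃ s1 K : ℕ, ∀ (X R : Type) [Fintype X] [DecidableEq X]
      [CommRing R] [Algebra (ZMod ℓ) R] (ξ : X → R) (Far : X → X → Prop),
      (∀ x y, Far x y → Far y x) → ∀ (𝒳 : Set X) (T : R →+ ZMod ℓ) (W : Fin d → Finset X),
      SepOn Far univ W → (∀ j, (↑(W j) : Set X) ⊆ 𝒳) → (∀ j, (W j).card ≤ s0) →
      (∃ W' : Fin d → Finset X, SepOn Far univ W' ∧ (∀ j, (↑(W' j) : Set X) ⊆ 𝒳) ∧
        (∀ j, (W' j).card ≤ s1) ∧ bi T univ (fun j => vec (ℓ := ℓ) ξ (W' j)) ≤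
          (1 - η) * bi T univ fun j => vec (ℓ := ℓ) ξ (W j)) ∨
      ∃ (Y : Finset X) (n : ℕ) (e : Fin n → ℕ) (F : Fin n → R →+ ZMod ℓ),
        Y.card ≤ K ∧ n ≤ K ∧ (∀ κ, 1 ≤ e κ ∧ e κ < d) ∧
        Str ξ Far (FarFrom Far 𝒳 Y) d T (gens e F) := by
  classical
  obtain ⟨c, hc0, hc1, hcl⟩ := exists_cl ℓ
  have hℓ2 : 2 ≤ ℓ := hℓ.two_le
  have hd0 : (1 : ℝ) ≤ 2 ^ d := one_le_pow₀ (by norm_num)
  refine ⟨c ^ 2 / (16 * 2 ^ d), by positivity, ?_, fun s0 => ?_⟩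
  · rw [div_lt_one (by positivity)]
    nlinarith
  obtain ⟨η, hη⟩ : ∃ η : ℝ, η = c ^ 2 / (16 * 2 ^ d) := ⟨_, rfl⟩
  rw [← hη]
  obtain ⟨σ, hσ⟩ := regularise hℓ d hS
  obtain ⟨lev, hlev⟩ : ∃ lev : ℕ → ℝ, ∀ n, lev n = ((ℓ : ℝ) ^ (4 * 4 ^ d * (n + 1)))⁻¹ :=
    ⟨_, fun _ => rfl⟩
  obtain ⟨δ, hδ⟩ : ∃ δ : ℕ → ℝ, ∀ n, δ n = 1 / 4 * ((ℓ : ℝ) ^ (n * 4 ^ d))⁻¹ := ⟨_, fun _ => rfl⟩
  have hℓ0 : (0 : ℝ) < ℓ := by positivity
  have hlev0 : ∀ n, 0 < lev n := fun n => by rw [hlev]; positivity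
  have hδ0 : ∀ n, 0 < δ n := fun n => by rw [hδ]; positivity
  obtain ⟨M0, hM0⟩ : ∃ M0 : ℕ → ℕ, ∀ n, M0 n = 2 ^ d * ℓ ^ n * σ (lev n) + 1 := ⟨_, fun _ => rfl⟩
  obtain ⟨s2, hs2⟩ : ∃ s2 : ℕ → ℕ, ∀ n, s2 n = M0 n + 2 ^ d * ℓ ^ n * σ (lev n) :=
    ⟨_, fun _ => rfl⟩
  obtain ⟨m, hm⟩ : ∃ m : ℕ → ℕ, ∀ n, m n = d * M0 n + 2 ^ d * ℓ ^ n * (d * σ (lev n)) :=
    ⟨_, fun _ => rfl⟩
  obtain ⟨K1, hK1⟩ := hσ lev hlev0 m (2 ^ d * ℓ ^ (d * s0))
  refine ⟨s0 + ∑ n ∈ range (K1 + 1), s2 n, d * s0 + K1, ?_⟩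
  intro X R _ _ _ _ ξ Far hsymm 𝒳 T W hsep hsub hcard
  by_cases hfail : ∃ W' : Fin d → Finset X, SepOn Far univ W' ∧
      (∀ j, (↑(W' j) : Set X) ⊆ 𝒳) ∧ (∀ j, (W' j).card ≤ s0 + ∑ n ∈ range (K1 + 1), s2 n) ∧
        bi T univ (fun j => vec (ℓ := ℓ) ξ (W' j)) ≤
          (1 - η) * bi T univ fun j => vec (ℓ := ℓ) ξ (W j)
  · exact Or.inl hfail
  right
  have hcd : (univ : Finset (Fin d)).card = d := by rw [card_univ, Fintype.card_fin]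
  obtain ⟨A, hA⟩ : ∃ A : Finset (Fin d), A = univ := ⟨_, rfl⟩
  have hAd : A.card = d := by rw [hA, hcd]
  have hAn : A.Nonempty := by
    rw [← card_pos, hAd]
    omega
  rw [← hA] at hsep hfail
  obtain ⟨b, hb⟩ : ∃ b : ℝ, b = bi T A fun j => vec (ℓ := ℓ) ξ (W j) := ⟨_, rfl⟩
  rw [← hb] at hfail
  have hb0 : 0 < b := by
    rw [hb]
    exact bi_pos (by rw [hAd]; exact hd) T _
  obtain ⟨Z, hZ⟩ : ∃ Z : Finset X, Z = A.biUnion W := ⟨_, rfl⟩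
  have hZc : Z.card ≤ d * s0 := by
    have h1 := card_biUnion_le_card_mul A W s0 fun j _ => hcard j
    rw [hAd, ← hZ] at h1
    exact h1
  obtain ⟨n0, e0, F0, hn0, he0, hF0⟩ := tests_family ξ T A W (s := s0) fun j _ => hcard j
  rw [hAd] at hn0 he0
  obtain ⟨Y1, n, e, F, hY1, hn, he, hreg, hstr⟩ :=
    hK1 X R ξ Far hsymm (FarFrom Far 𝒳 Z) n0 e0 F0 hn0 he0
  rw [st_farFrom_farFrom] at hreg hstr
  refine ⟨Z ∪ Y1, n, e, F, ?_, by omega, he, ?_⟩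
  · have := card_union_le Z Y1
    omega
  obtain ⟨𝒳2, h𝒳2⟩ : ∃ 𝒳2 : Set X, 𝒳2 = FarFrom Far 𝒳 (Z ∪ Y1) := ⟨_, rfl⟩
  rw [← h𝒳2] at hreg hstr ⊢
  have hsub2 : 𝒳2 ⊆ 𝒳 := by
    rw [h𝒳2]
    exact fun x hx => hx.1
  have hfar2 : ∀ x ∈ 𝒳2, ∀ j ∈ A, ∀ y ∈ W j, Far x y := by
    intro x hx j hj y hy
    rw [h𝒳2] at hx
    refine hx.2 y (mem_union_left _ ?_)
    rw [hZ]
    exact mem_biUnion.2 ⟨j, hj, hy⟩
  have hs2K : s2 n ≤ ∑ n ∈ range (K1 + 1), s2 n :=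
    single_le_sum (f := s2) (fun _ _ => Nat.zero_le _) (mem_range.2 (by omega))
  have heA : ∀ κ, 1 ≤ e κ ∧ e κ < A.card := fun κ => by rw [hAd]; exact he κ
  -- the proportion of bad points
  have hP : ∀ W₁ : Fin d → Finset X, SepOn Far A W₁ → (∀ j ∈ A, (↑(W₁ j) : Set X) ⊆ 𝒳2) →
      (∀ j ∈ A, (W₁ j).card ≤ s2 n) →
      (pr fun k : Fin d → X → ZMod ℓ =>
        ¬ ‖beta ξ T A W (fun j => vec ξ (W₁ j) (k j)) - b‖ ≤ c * b) ≤ 1 / (4 * 2 ^ A.card) := by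
    intro W₁ hW₁ hX₁ hc₁
    have hst : (1 - η) * b ≤ (av fun h : Fin d → X → ZMod ℓ =>
        beta ξ T A W fun j => vec ξ (W₁ j) (h j)).re := by
      refine le_trans ?_ (bi_vec_union hAn T ξ W W₁)
      refine le_of_not_ge fun hle => hfail ⟨fun j => W j ∪ W₁ j, ?_, ?_, ?_, hle⟩
      · refine st_union hsymm hsep hW₁ fun i hi j hj x hx y hy => ?_
        exact hfar2 x (hX₁ i hi hx) j hj y hy
      · intro j x hx
        rw [mem_coe, mem_union] at hx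
        rcases hx with hx | hx
        · exact hsub j hx
        · exact hsub2 (hX₁ j (by rw [hA]; exact mem_univ j) hx)
      · intro j
        have h1 := card_union_le (W j) (W₁ j)
        have h2 := hcard j
        have h3 := hc₁ j (by rw [hA]; exact mem_univ j)
        exact h1.trans (add_le_add h2 (h3.trans hs2K))
    refine (bv_pr ξ T hAn W W₁ hb0 hc0 hb hst).trans (le_of_lt ?_)
    rw [hη, hAd, div_lt_div_iff₀ (by positivity) (by positivity)]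
    have e1 : 2 * (c ^ 2 / (16 * 2 ^ d)) * (4 * 2 ^ d) = c ^ 2 / 2 := by
      field_simp
      norm_num
    rw [e1]
    have : 0 < c ^ 2 := by positivity
    linarith
  have hfac : ∀ v w : Fin d → R, GoodM ℓ ξ Far 𝒳2 (M0 n) A v → GoodM ℓ ξ Far 𝒳2 (M0 n) A w →
      EqPat A e F v w → T (∏ j ∈ A, v j) = T (∏ j ∈ A, w j) := by
    intro v w hv hw hvw
    refine step2 hsymm (by rw [hAd]; exact hd) heA T (hδ0 n) hreg ?_ (m := m n) (s2 := s2 n)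
      (ε := lev n) ?_ ?_ ?_ v w hv hw hvw
    · intro W₁ W₂ hW₁ hW₂ hX₁ hX₂ hc₁ hc₂ h₁ h₂ g₁ g₂ hpat
      refine step1 hAn heA T (fun v => ‖beta ξ T A W v - b‖ ≤ c * b) ?_ hW₁ hW₂ hX₁ hX₂
        (hδ0 n).le ?_ (hP W₁ hW₁ hX₁ hc₁) (hP W₂ hW₂ hX₂ hc₂) h₁ h₂ g₁ g₂ hpat
      · intro v w hv hw hPv hPw hpat
        refine st_h2 T W hb0 hcl (fun I hI hne hIA a => ?_) v w hv hw hPv hPw hpat
        obtain ⟨κ, hκ, hFκ⟩ := hF0 I hI hne hIA a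
        rw [← hκ, ← hFκ]
        exact hstr κ
      · rw [hAd, hδ]
    · rw [hAd, hm]
    · rw [hAd, hs2]
    · rw [hAd, hlev, hδ]
      exact st_num2 hℓ2 d n
  have hfin := step3 hsymm hAn (fun κ => (he κ).1) T (ε := lev n) (m := m n) (M0 := M0 n) hreg
    (by rw [hAd, hm]; omega) (by rw [hM0]; omega) (by rw [hAd, hM0]; omega) (hlev0 n).le
    (by rw [hAd, hlev]; exact st_num3 hℓ2 d n) hfac
  rw [hAd] at hfin
  exact hfin

/-- tensors of order one -/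
private theorem st_one {ℓ : ℕ} [NeZero ℓ] : SThm ℓ 1 := by
  classical
  intro ε hε
  refine ⟨1, 0, ?_⟩
  intro X R _ _ _ _ ξ Far hsymm 𝒳 T
  by_cases hx : ∃ x ∈ 𝒳, T (ξ x) ≠ 0
  · left
    obtain ⟨x, hx𝒳, hT⟩ := hx
    refine ⟨fun _ => {x}, ?_, ?_, ?_, ?_⟩
    · intro i _ j _ hij
      exact absurd (Subsingleton.elim i j) hij
    · intro j
      rw [coe_singleton, Set.singleton_subset_iff]
      exact hx𝒳
    · intro j
      rw [card_singleton]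
    · have h1 : ∀ h : Fin 1 → X → ZMod ℓ,
          T (∏ j ∈ (univ : Finset (Fin 1)), vec (ℓ := ℓ) ξ {x} (h j)) = h 0 x * T (ξ x) := by
        intro h
        rw [Fin.prod_univ_one]
        have h2 : vec (ℓ := ℓ) ξ {x} (h 0) = h 0 x • ξ x := by
          show ∑ y ∈ {x}, h 0 y • ξ y = _
          rw [sum_singleton]
        rw [h2, ZMod.map_smul, smul_eq_mul]
      have h2 : (av fun h : Fin 1 → X → ZMod ℓ =>
          ee (T (∏ j ∈ (univ : Finset (Fin 1)), vec (ℓ := ℓ) ξ {x} (h j)))) = 0 := by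
        simp only [h1]
        have h3 := av_add_right (fun _ _ => 1 : Fin 1 → X → ZMod ℓ)
          (fun h : Fin 1 → X → ZMod ℓ => ee (h 0 x * T (ξ x)))
        have h4 : ∀ h : Fin 1 → X → ZMod ℓ,
            ee ((h + fun _ _ => 1 : Fin 1 → X → ZMod ℓ) 0 x * T (ξ x)) =
              ee (T (ξ x)) * ee (h 0 x * T (ξ x)) := by
          intro h
          have h5 : (h + fun _ _ => 1 : Fin 1 → X → ZMod ℓ) 0 x * T (ξ x) =
              T (ξ x) + h 0 x * T (ξ x) := by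
            show (h 0 x + 1) * T (ξ x) = _
            ring
          rw [h5]
          exact AddChar.map_add_eq_mul _ _ _
        simp only [h4] at h3
        rw [av_mul_left] at h3
        have h6 : ee (T (ξ x)) ≠ 1 := by
          intro h7
          apply hT
          apply ZMod.injective_stdAddChar (N := ℓ)
          rw [AddChar.map_zero_eq_one]
          exact h7
        have h8 : (ee (T (ξ x)) - 1) *
            (av fun h : Fin 1 → X → ZMod ℓ => ee (h 0 x * T (ξ x))) = 0 := by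
          rw [sub_mul, h3, one_mul, sub_self]
        exact (mul_eq_zero.1 h8).resolve_left (sub_ne_zero.2 h6)
      rw [bi, h2, Complex.zero_re]
      exact hε
  · right
    push Not at hx
    refine ⟨∅, 0, Fin.elim0, Fin.elim0, by simp, le_rfl, fun κ => κ.elim0, ?_⟩
    intro C _ B hB
    refine ⟨_, Alg.zero B, fun v hv => ?_⟩
    obtain ⟨W, -, hW, hvW⟩ := hv
    obtain ⟨j, rfl⟩ := card_eq_one.1 hB
    obtain ⟨h, hh⟩ := hvW j (mem_singleton_self j)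
    rw [prod_singleton, hh]
    show T (∑ y ∈ W j, h y • ξ y) = 0
    rw [map_sum]
    refine sum_eq_zero fun y hy => ?_
    rw [ZMod.map_smul, hx y (hW j (mem_singleton_self j) hy).1, smul_zero]

/-- the structure theorem -/
theorem sthm {ℓ : ℕ} [NeZero ℓ] (hℓ : ℓ.Prime) (d : ℕ) (hd : 1 ≤ d) : SThm ℓ d := by
  induction d using Nat.strong_induction_on with
  | _ d ih =>
    rcases Nat.lt_or_ge 1 d with h2 | h2
    · obtain ⟨η, hη0, hη1, hη⟩ := stable_or hℓ d h2 fun i h3 h4 => ih i h4 h3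
      intro ε hε
      obtain ⟨N, hN⟩ := exists_pow_lt_of_lt_one hε (by linarith : 1 - η < 1)
      choose s1 K hs using hη
      obtain ⟨sq, hsq0, hsq⟩ : ∃ sq : ℕ → ℕ, sq 0 = 0 ∧ ∀ r, sq (r + 1) = s1 (sq r) :=
        ⟨fun r => Nat.rec 0 (fun _ s => s1 s) r, rfl, fun _ => rfl⟩
      refine ⟨sq N, ∑ r ∈ range N, K (sq r), ?_⟩
      intro X R _ _ _ _ ξ Far hsymm 𝒳 T
      by_cases hstr : ∃ (Y : Finset X) (n : ℕ) (e : Fin n → ℕ) (F : Fin n → R →+ ZMod ℓ),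
        Y.card ≤ ∑ r ∈ range N, K (sq r) ∧ n ≤ ∑ r ∈ range N, K (sq r) ∧
          (∀ κ, 1 ≤ e κ ∧ e κ < d) ∧ Str ξ Far (FarFrom Far 𝒳 Y) d T (gens e F)
      · exact Or.inr hstr
      left
      have key : ∀ r ≤ N, ∃ W : Fin d → Finset X, SepOn Far univ W ∧
          (∀ j, (↑(W j) : Set X) ⊆ 𝒳) ∧ (∀ j, (W j).card ≤ sq r) ∧
          bi T univ (fun j => vec (ℓ := ℓ) ξ (W j)) ≤ (1 - η) ^ r := by
        intro r
        induction r with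
        | zero =>
          intro _
          refine ⟨fun _ => ∅, ?_, ?_, ?_, ?_⟩
          · intro i _ j _ _ x hx
            exact absurd hx (notMem_empty x)
          · intro j
            rw [coe_empty]
            exact Set.empty_subset _
          · intro j
            rw [card_empty]
            exact Nat.zero_le _
          · rw [pow_zero]
            exact bi_le_one _ _ _
        | succ r ihr =>
          intro hr
          obtain ⟨W, h3, h4, h5, h6⟩ := ihr (by omega)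
          rcases hs (sq r) X R ξ Far hsymm 𝒳 T W h3 h4 h5 with
            ⟨W', h7, h8, h9, h10⟩ | ⟨Y, n, e, F, h7, h8, h9, h10⟩
          · refine ⟨W', h7, h8, ?_, ?_⟩
            · rw [hsq]
              exact h9
            · rw [pow_succ']
              exact h10.trans (mul_le_mul_of_nonneg_left h6 (by linarith))
          · have h11 : K (sq r) ≤ ∑ r ∈ range N, K (sq r) :=
              single_le_sum (f := fun r => K (sq r)) (fun _ _ => Nat.zero_le _)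
                (mem_range.2 (by omega))
            exact absurd ⟨Y, n, e, F, h7.trans h11, h8.trans h11, h9, h10⟩ hstr
      obtain ⟨W, h3, h4, h5, h6⟩ := key N le_rfl
      exact ⟨W, h3, h4, h5, h6.trans_lt hN⟩
    · obtain rfl : d = 1 := by omega
      exact st_one

end Pool.Agent.Lib.MP_3e612f_nt.DI
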