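import Pool.Agent.Lib.MP_3e612f_nt.DI.Vec
import Pool.Agent.Lib.MP_3e612f_nt.DI.Unif
import Pool.Agent.Lib.MP_3e612f_nt.DI.Pat

/-!
First self-correction step: at generic tuples the value of `T` only depends on the pattern.

`Gen ξ A e F W v δ` says that all nontrivial combinations of the contractions `F κ (v_{B'} · )` of order
`B.card`, `B ⊆ A` nonempty, `B' ⊆ A \ B`, have bias `< δ` on the sets `W j`, `j ∈ B`.

PROOF of `step1`. Let `J` be the finite type of the triples `(B', B, κ)` with `B, B' ⊆ A` disjoint, `B` nonempty,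
`B'.card + B.card = e κ`; `card J ≤ n * 4 ^ A.card`. For `k : C → X → ZMod ℓ` put `kv j = vec ξ (W₁ j) (k j)`, `v j = vec ξ (W₁ j) (h₁ j)`,
`u k (B', B, κ) = F κ ((∏_{B'} v) * ∏_B kv)`. For `c ≠ 0` the average of `ee (∑ c u k)` is `≤ δ` in norm: `avg_top` with
`φ B k = ∑_{B', κ} c (B', B, κ) F κ (v_{B'} kv_B)`, `B` a maximal (for inclusion) set with a nonzero coefficient, and `g₁`.
For `I ⊆ A` let `pt I k j = if j ∈ I then v j + kv j else kv j`. It is `vec ξ (W₁ j)` of `h₁ j + k j` resp. `k j`, so `k ↦` this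
configuration is a translation, and by `pr_add_right`, `hP₁` the proportion of the `k` with `¬ P (pt I k)` is at most
`1 / (4 * 2 ^ A.card)`; hence the proportion of the `k` such that `P (pt I k)` for all `I ⊆ A` is `≥ 3/4`. The same for
the second tuple. By `common_value` there are `k₁, k₂` with `P (pt₁ I k₁)`, `P (pt₂ I k₂)` for all `I ⊆ A` and
`u₁ k₁ = u₂ k₂`. Then `EqPat` holds for `pt₁ I k₁` and `pt₂ I k₂`: by `expand_add`
`F κ (∏_B pt I k) = ∑_{B' ⊆ B ∩ I} F κ (v_{B'} kv_{B \ B'})`; the term `B' = B` is given by `hpat`, the others by `u`. By `H2`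
`T (∏_A pt₁ I k₁) = T (∏_A pt₂ I k₂)`, and `expand_shift` gives the claim. (`Good` for `pt`: the sets `W₁ j`.)
-/

set_option autoImplicit false

namespace Pool.Agent.Lib.MP_3e612f_nt.DI

open Finset
open Pool.Agent.Lib.MP_3e612f_nt.PI (ee)

variable {ℓ : ℕ} [NeZero ℓ] {C X R : Type} [Fintype C] [DecidableEq C] [Fintype X] [DecidableEq X]
  [CommRing R] [Algebra (ZMod ℓ) R] {n : ℕ}

/-- the tuple `v` is generic with respect to the sets `W` -/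
def Gen (ξ : X → R) (A : Finset C) (e : Fin n → ℕ) (F : Fin n → R →+ ZMod ℓ) (W : C → Finset X)
    (v : C → R) (δ : ℝ) : Prop :=
  ∀ B ⊆ A, B.Nonempty → ∀ c : Finset C × Fin n → ZMod ℓ,
    (∀ p, c p ≠ 0 → p.1 ⊆ A \ B ∧ p.1.card + B.card = e p.2) → (∃ p, c p ≠ 0) →
    bi (∑ p, c p • cm (F p.2) (∏ j ∈ p.1, v j)) B (fun j => vec (ℓ := ℓ) ξ (W j)) < δ

theorem step1 {ξ : X → R} {Far : X → X → Prop} {𝒳 : Set X} {e : Fin n → ℕ}
    {F : Fin n → R →+ ZMod ℓ} {A : Finset C} (hA : A.Nonempty)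
    (he : ∀ κ, 1 ≤ e κ ∧ e κ < A.card) (T : R →+ ZMod ℓ) (P : (C → R) → Prop)
    (H2 : ∀ v w, Good ℓ ξ Far 𝒳 A v → Good ℓ ξ Far 𝒳 A w → P v → P w → EqPat A e F v w →
      T (∏ j ∈ A, v j) = T (∏ j ∈ A, w j))
    {W₁ W₂ : C → Finset X} (hW₁ : SepOn Far A W₁) (hW₂ : SepOn Far A W₂)
    (hX₁ : ∀ j ∈ A, (↑(W₁ j) : Set X) ⊆ 𝒳) (hX₂ : ∀ j ∈ A, (↑(W₂ j) : Set X) ⊆ 𝒳) {δ : ℝ}
    (hδ0 : 0 ≤ δ) (hδ : δ ≤ 1 / 4 * ((ℓ : ℝ) ^ (n * 4 ^ A.card))⁻¹)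
    (hP₁ : (pr fun k : C → X → ZMod ℓ => ¬ P fun j => vec ξ (W₁ j) (k j)) ≤ 1 / (4 * 2 ^ A.card))
    (hP₂ : (pr fun k : C → X → ZMod ℓ => ¬ P fun j => vec ξ (W₂ j) (k j)) ≤ 1 / (4 * 2 ^ A.card))
    (h₁ h₂ : C → X → ZMod ℓ) (g₁ : Gen ξ A e F W₁ (fun j => vec ξ (W₁ j) (h₁ j)) δ)
    (g₂ : Gen ξ A e F W₂ (fun j => vec ξ (W₂ j) (h₂ j)) δ)
    (hpat : EqPat A e F (fun j => vec ξ (W₁ j) (h₁ j)) fun j => vec ξ (W₂ j) (h₂ j)) :
    T (∏ j ∈ A, vec ξ (W₁ j) (h₁ j)) = T (∏ j ∈ A, vec ξ (W₂ j) (h₂ j)) := by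
  sorry

end Pool.Agent.Lib.MP_3e612f_nt.DI
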