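import Pool.Agent.Lib.MP_3e612f_nt.DI.Av

/-!
Averages of multiaffine phases are dominated by their top parts.

PROOF of `avg_top`. Let `j ∈ A`. Average over the coordinate `j` first (`av_coord`): for fixed `x`
the function `u ↦ ∑ B, φ B (update x j u)` is `ψ u + const`, `ψ u = ∑_{B ∋ j} φ B (update x j u)`,
and `ψ` is additive in `u`. The average of `ee ∘ ψ` over the finite group `E` is `1` if `ψ = 0` and `0`
otherwise (orthogonality; if `ee (ψ u0) ≠ 1`, the sum is invariant under multiplication by
`ee (ψ u0)`; `ee` is injective: `ZMod.injective_stdAddChar` or `ZMod.isPrimitive_stdAddChar`), hence real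
and `≥ 0`. So `‖av ee (∑ B, φ B)‖ ≤ av ee (∑_{B ∋ j} φ B)`, a real number. Repeat with the other elements
of `A` (`φ` replaced by `φ` restricted to the `B ∋ j`): after all steps only the `B ⊇ A` remain, i.e. only
`φ A`. (Induction on a subset `A' ⊆ A`, nonempty: `‖av ee (∑ B, φ B)‖ ≤ (av ee (∑_{B ⊇ A'} φ B)).re`.)
`avg_real`, `avg_nonneg`: from the same computation. `avg_pos`: if `A` has two elements `j, j'` the inner
average is `1` for `x = 0`, since `φ (update 0 j u)` is additive in the coordinate `j'`, hence `0`.
`madd_restrict`: `av f = av (x ↦ av (h' ↦ f (x + α h')))` (translation, `av_comm`), and for fixed `x` the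
function `h' ↦ φ (x + α h')` is `∑_{B ⊆ A} φ_B (h')`, `φ_B h' = φ (B.piecewise (α h') x)`, with
`MAdd B φ_B` and top part `φ_A h' = φ (α h')` (`A.piecewise (α h') x` and `α h'` agree on `A`); use
`avg_top` and `av_re_mono`.
-/

set_option autoImplicit false

namespace Pool.Agent.Lib.MP_3e612f_nt.DI

open Finset
open Pool.Agent.Lib.MP_3e612f_nt.PI (ee)

variable {ℓ : ℕ} [NeZero ℓ] {C E : Type} [Fintype C] [DecidableEq C] [AddCommGroup E] [Fintype E]

omit [Fintype C] [DecidableEq C] [AddCommGroup E] [Fintype E] in
private theorem ee_add (x y : ZMod ℓ) : ee (x + y) = ee x * ee y := by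
  unfold ee
  exact AddChar.map_add_eq_mul _ _ _

omit [Fintype C] [DecidableEq C] [AddCommGroup E] [Fintype E] in
private theorem ee_zero : ee (0 : ZMod ℓ) = 1 := by
  unfold ee
  exact AddChar.map_zero_eq_one _

omit [Fintype C] [DecidableEq C] [AddCommGroup E] [Fintype E] in
private theorem ee_norm (x : ZMod ℓ) : ‖ee x‖ = 1 := by
  unfold ee
  exact AddChar.norm_apply _ _

omit [Fintype C] [DecidableEq C] in
open Classical in
/-- orthogonality -/
private theorem av_hom {ψ : E → ZMod ℓ} (hψ : ∀ u v, ψ (u + v) = ψ u + ψ v) :
    (av fun u => ee (ψ u)) = if (∀ u, ψ u = 0) then 1 else 0 := by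
  split_ifs with h
  · have h1 : (fun u => ee (ψ u)) = fun _ : E => (1 : ℂ) := by
      funext u
      rw [h u, ee_zero]
    rw [h1]
    exact av_const _
  · push Not at h
    obtain ⟨u0, hu0⟩ := h
    have hne : ee (ψ u0) ≠ 1 := by
      intro h1
      apply hu0
      apply ZMod.injective_stdAddChar
      rw [AddChar.map_zero_eq_one]
      exact h1
    have h1 : (av fun u => ee (ψ u)) = ee (ψ u0) * av fun u => ee (ψ u) := by
      conv_lhs => rw [← av_add_right u0]
      rw [← av_mul_left]
      congr 1
      funext u
      rw [hψ, ee_add, mul_comm]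
    have h2 : (1 - ee (ψ u0)) * (av fun u => ee (ψ u)) = 0 := by
      rw [sub_mul, one_mul, ← h1, sub_self]
    rcases mul_eq_zero.1 h2 with h3 | h3
    · exact absurd (sub_eq_zero.1 h3).symm hne
    · exact h3

open Classical in
private theorem av_madd {A : Finset C} {φ : (C → E) → ZMod ℓ} (h : MAdd A φ) {j : C} (hj : j ∈ A) :
    (av fun x => ee (φ x)) =
      av fun x : C → E => if (∀ u, φ (Function.update x j u) = 0) then (1 : ℂ) else 0 := by
  rw [av_coord j]
  congr 1
  funext x
  exact av_hom fun u v => (h x j).1 hj u v

omit [Fintype C] [DecidableEq C] [AddCommGroup E] [Fintype E] in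
private theorem av_ofReal {α : Type} [Fintype α] (f : α → ℝ) :
    (av fun a => (f a : ℂ)) = (((Fintype.card α : ℝ)⁻¹ * ∑ a, f a : ℝ) : ℂ) := by
  unfold av
  push_cast
  rfl

open Classical in
private theorem av_madd' {A : Finset C} {φ : (C → E) → ZMod ℓ} (h : MAdd A φ) {j : C} (hj : j ∈ A) :
    (av fun x => ee (φ x)) =
      (((Fintype.card (C → E) : ℝ)⁻¹ *
        ∑ x : C → E, (if (∀ u, φ (Function.update x j u) = 0) then (1 : ℝ) else 0) : ℝ) : ℂ) := by
  rw [av_madd h hj, ← av_ofReal]
  congr 1
  funext x
  split_ifs <;> simp

theorem avg_real {A : Finset C} (hA : A.Nonempty) {φ : (C → E) → ZMod ℓ} (h : MAdd A φ) :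
    (av fun x => ee (φ x)).im = 0 := by
  classical
  obtain ⟨j, hj⟩ := hA
  rw [av_madd' h hj, Complex.ofReal_im]

theorem avg_nonneg {A : Finset C} (hA : A.Nonempty) {φ : (C → E) → ZMod ℓ} (h : MAdd A φ) :
    0 ≤ (av fun x => ee (φ x)).re := by
  classical
  obtain ⟨j, hj⟩ := hA
  rw [av_madd' h hj, Complex.ofReal_re]
  apply mul_nonneg (by positivity)
  apply Finset.sum_nonneg
  intro x _
  split_ifs <;> norm_num

theorem avg_pos {A : Finset C} (hA : 2 ≤ A.card) {φ : (C → E) → ZMod ℓ} (h : MAdd A φ) :
    0 < (av fun x => ee (φ x)).re := by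
  classical
  obtain ⟨j, hj, j', hj', hne⟩ := Finset.one_lt_card.1 (by omega : 1 < A.card)
  rw [av_madd' h hj, Complex.ofReal_re]
  apply mul_pos
  · have : 0 < Fintype.card (C → E) := Fintype.card_pos
    positivity
  · apply Finset.sum_pos'
    · intro x _
      split_ifs <;> norm_num
    · refine ⟨0, Finset.mem_univ _, ?_⟩
      have h1 : ∀ u, φ (Function.update (0 : C → E) j u) = 0 := by
        intro u
        have h2 := (h (Function.update (0 : C → E) j u) j').1 hj' 0 0
        have h3 : Function.update (Function.update (0 : C → E) j u) j' 0 =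
            Function.update (0 : C → E) j u := by
          rw [Function.update_eq_self_iff, Function.update_of_ne (Ne.symm hne)]
          rfl
        rw [add_zero, h3] at h2
        have h4 : φ (Function.update (0 : C → E) j u) + 0 =
            φ (Function.update (0 : C → E) j u) + φ (Function.update (0 : C → E) j u) := by
          rw [add_zero]
          exact h2
        exact (add_left_cancel h4).symm
      rw [if_pos h1]
      norm_num

omit [Fintype C] [NeZero ℓ] [Fintype E] in
private theorem madd_zero (B : Finset C) : MAdd B (fun _ : C → E => (0 : ZMod ℓ)) := by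
  intro x j
  refine ⟨fun _ u v => ?_, fun _ u => rfl⟩
  rw [add_zero]

/-- one step -/
private theorem avg_step (φ : Finset C → (C → E) → ZMod ℓ) (hφ : ∀ B, MAdd B (φ B)) (j : C) :
    ‖av fun x => ee (∑ B, φ B x)‖ ≤
      ‖av fun x => ee (∑ B, if j ∈ B then φ B x else 0)‖ := by
  classical
  have hadd : ∀ x : C → E, ∀ u v : E,
      (∑ B : Finset C, if j ∈ B then φ B (Function.update x j (u + v)) else 0) =
      (∑ B : Finset C, if j ∈ B then φ B (Function.update x j u) else 0) +
      ∑ B : Finset C, if j ∈ B then φ B (Function.update x j v) else 0 := by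
    intro x u v
    rw [← Finset.sum_add_distrib]
    apply Finset.sum_congr rfl
    intro B _
    split_ifs with hj
    · exact ((hφ B) x j).1 hj u v
    · rw [add_zero]
  have hin : ∀ x : C → E,
      (av fun u => ee (∑ B : Finset C, if j ∈ B then φ B (Function.update x j u) else 0)) =
      (((if (∀ u, (∑ B : Finset C, if j ∈ B then φ B (Function.update x j u) else 0) = 0) then
        (1 : ℝ) else 0) : ℝ) : ℂ) := by
    intro x
    rw [av_hom (hadd x)]
    split_ifs <;> simp
  have hout : ∀ x : C → E,
      (av fun u => ee (∑ B : Finset C, φ B (Function.update x j u))) =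
      ee (∑ B : Finset C, if j ∈ B then 0 else φ B x) *
      (((if (∀ u, (∑ B : Finset C, if j ∈ B then φ B (Function.update x j u) else 0) = 0) then
        (1 : ℝ) else 0) : ℝ) : ℂ) := by
    intro x
    rw [← hin, ← av_mul_left]
    congr 1
    funext u
    rw [← ee_add, ← Finset.sum_add_distrib]
    congr 1
    apply Finset.sum_congr rfl
    intro B _
    split_ifs with hj
    · rw [zero_add]
    · rw [add_zero]
      exact ((hφ B) x j).2 hj u
  have hR : (av fun x : C → E => ee (∑ B, if j ∈ B then φ B x else 0)) =
      av fun x : C → E => (((if (∀ u, (∑ B : Finset C, if j ∈ B then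
        φ B (Function.update x j u) else 0) = 0) then (1 : ℝ) else 0) : ℝ) : ℂ) := by
    rw [av_coord j]
    congr 1
    funext x
    exact hin x
  have hL : (av fun x : C → E => ee (∑ B, φ B x)) =
      av fun x : C → E => ee (∑ B : Finset C, if j ∈ B then 0 else φ B x) *
      (((if (∀ u, (∑ B : Finset C, if j ∈ B then φ B (Function.update x j u) else 0) = 0) then
        (1 : ℝ) else 0) : ℝ) : ℂ) := by
    rw [av_coord j]
    congr 1
    funext x
    exact hout x
  rw [hL, hR]
  refine (norm_av_le _).trans ?_
  refine le_trans (le_of_eq ?_) (Complex.re_le_norm _)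
  congr 2
  funext x
  rw [norm_mul, ee_norm, one_mul, Complex.norm_real, Real.norm_eq_abs, abs_of_nonneg]
  split_ifs <;> norm_num

private theorem avg_sub (A' : Finset C) : ∀ (φ : Finset C → (C → E) → ZMod ℓ)
    (_ : ∀ B, MAdd B (φ B)), ‖av fun x => ee (∑ B, φ B x)‖ ≤
      ‖av fun x => ee (∑ B, if A' ⊆ B then φ B x else 0)‖ := by
  classical
  induction A' using Finset.induction_on with
  | empty =>
    intro φ _
    simp
  | insert j s hj ih =>
    intro φ hφ
    refine (avg_step φ hφ j).trans ?_
    have h1 := ih (fun B x => if j ∈ B then φ B x else 0) (by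
      intro B
      by_cases hB : j ∈ B
      · simpa only [if_pos hB] using hφ B
      · simpa only [if_neg hB] using madd_zero B)
    refine h1.trans (le_of_eq ?_)
    congr 3
    funext x
    congr 1
    apply Finset.sum_congr rfl
    intro B _
    by_cases hB : j ∈ B <;> by_cases hs : s ⊆ B <;> simp [hB, hs, Finset.insert_subset_iff]

/-- the average of a multiaffine phase is dominated by a maximal part -/
theorem avg_top (φ : Finset C → (C → E) → ZMod ℓ) (hφ : ∀ B, MAdd B (φ B)) {A : Finset C}
    (hA : A.Nonempty) (hmax : ∀ B, A ⊂ B → φ B = fun _ => 0) :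
    ‖av fun x => ee (∑ B, φ B x)‖ ≤ (av fun x => ee (φ A x)).re := by
  classical
  refine (avg_sub A φ hφ).trans ?_
  have h1 : ∀ x : C → E, (∑ B : Finset C, if A ⊆ B then φ B x else 0) = φ A x := by
    intro x
    rw [Finset.sum_eq_single A]
    · rw [if_pos (Finset.Subset.refl A)]
    · intro B _ hB
      split_ifs with hs
      · rw [hmax B (lt_of_le_of_ne hs (Ne.symm hB))]
      · rfl
    · intro h
      exact absurd (Finset.mem_univ _) h
  simp only [h1]
  have h2 := avg_real hA (hφ A)
  have h3 := avg_nonneg hA (hφ A)
  have h4 : (av fun x => ee (φ A x)) = (((av fun x => ee (φ A x)).re : ℝ) : ℂ) :=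
    Complex.ext (Complex.ofReal_re _).symm (by rw [Complex.ofReal_im]; exact h2)
  rw [h4, Complex.norm_real, Real.norm_eq_abs, Complex.ofReal_re, abs_of_nonneg h3]

omit [Fintype C] [NeZero ℓ] [Fintype E] in
private theorem madd_piece {A : Finset C} {φ : (C → E) → ZMod ℓ} (h : MAdd A φ) (y : C → E)
    (s : Finset C) : ∀ x : C → E, Disjoint s A → φ (s.piecewise y x) = φ x := by
  classical
  induction s using Finset.induction_on with
  | empty =>
    intro x _
    rw [Finset.piecewise_empty]
  | insert j s hj ih =>
    intro x hd
    rw [Finset.disjoint_insert_left] at hd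
    rw [Finset.piecewise_insert, (h _ j).2 hd.1]
    exact ih x hd.2

omit [NeZero ℓ] [Fintype E] in
private theorem madd_agree {A : Finset C} {φ : (C → E) → ZMod ℓ} (h : MAdd A φ) {x y : C → E}
    (hxy : ∀ j ∈ A, x j = y j) : φ x = φ y := by
  classical
  rw [← madd_piece h y Aᶜ x disjoint_compl_left]
  congr 1
  funext j
  by_cases hj : j ∈ A
  · rw [Finset.piecewise_eq_of_notMem _ _ _ (by simpa using hj)]
    exact hxy j hj
  · rw [Finset.piecewise_eq_of_mem _ _ _ (by simpa using hj)]

omit [Fintype C] [NeZero ℓ] [Fintype E] in
private theorem madd_expand {A : Finset C} {φ : (C → E) → ZMod ℓ} (h : MAdd A φ) (z : C → E)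
    (s : Finset C) : ∀ x : C → E, s ⊆ A →
      φ (s.piecewise (x + z) x) = ∑ B ∈ s.powerset, φ (B.piecewise z x) := by
  classical
  induction s using Finset.induction_on with
  | empty =>
    intro x _
    simp
  | insert j s hj ih =>
    intro x hs
    rw [Finset.insert_subset_iff] at hs
    rw [Finset.piecewise_insert, Pi.add_apply, ((h _ j).1 hs.1), Finset.sum_powerset_insert hj]
    congr 1
    · rw [← ih x hs.2]
      congr 1
      rw [Function.update_eq_self_iff, Finset.piecewise_eq_of_notMem _ _ _ hj]
    · have h1 : Function.update (s.piecewise (x + z) x) j (z j) =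
          s.piecewise (Function.update x j (z j) + z) (Function.update x j (z j)) := by
        funext c
        by_cases hc : c = j
        · subst hc
          rw [Function.update_self, Finset.piecewise_eq_of_notMem _ _ _ hj, Function.update_self]
        · rw [Function.update_of_ne hc]
          by_cases hcs : c ∈ s
          · rw [Finset.piecewise_eq_of_mem _ _ _ hcs, Finset.piecewise_eq_of_mem _ _ _ hcs,
              Pi.add_apply, Pi.add_apply, Function.update_of_ne hc]
          · rw [Finset.piecewise_eq_of_notMem _ _ _ hcs, Finset.piecewise_eq_of_notMem _ _ _ hcs,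
              Function.update_of_ne hc]
      rw [h1, ih _ hs.2]
      apply Finset.sum_congr rfl
      intro B hB
      have hjB : j ∉ B := fun hjB => hj (Finset.mem_powerset.1 hB hjB)
      congr 1
      funext c
      by_cases hc : c = j
      · subst hc
        rw [Finset.piecewise_eq_of_notMem _ _ _ hjB, Function.update_self,
          Finset.piecewise_eq_of_mem _ _ _ (Finset.mem_insert_self _ _)]
      · by_cases hcs : c ∈ B
        · rw [Finset.piecewise_eq_of_mem _ _ _ hcs,
            Finset.piecewise_eq_of_mem _ _ _ (Finset.mem_insert_of_mem hcs)]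
        · rw [Finset.piecewise_eq_of_notMem _ _ _ hcs, Function.update_of_ne hc,
            Finset.piecewise_eq_of_notMem _ _ _ (by
              rw [Finset.mem_insert]
              push Not
              exact ⟨hc, hcs⟩)]

/-- restriction to subgroups does not decrease the average -/
theorem madd_restrict {E' : Type} [AddCommGroup E'] [Fintype E'] {A : Finset C} (hA : A.Nonempty)
    {φ : (C → E) → ZMod ℓ} (h : MAdd A φ) (α : C → E' →+ E) :
    (av fun x => ee (φ x)).re ≤ (av fun y : C → E' => ee (φ fun j => α j (y j))).re := by
  classical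
  have h1 : (av fun x : C → E => ee (φ x)) =
      av fun x : C → E => av fun y : C → E' => ee (φ (x + fun j => α j (y j))) := by
    rw [av_comm]
    have h2 : ∀ y : C → E', (av fun x : C → E => ee (φ (x + fun j => α j (y j)))) =
        av fun x : C → E => ee (φ x) := fun y =>
      av_add_right (fun j => α j (y j)) (fun x : C → E => ee (φ x))
    simp only [h2]
    rw [av_const]
  rw [h1]
  have h3 : ∀ x : C → E, (av fun y : C → E' => ee (φ (x + fun j => α j (y j)))).re ≤
      (av fun y : C → E' => ee (φ fun j => α j (y j))).re := by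
    intro x
    let ψ : Finset C → (C → E') → ZMod ℓ := fun B y =>
      if B ⊆ A then φ (B.piecewise (fun j => α j (y j)) x) else 0
    have hψ : ∀ B, MAdd B (ψ B) := by
      intro B y j
      by_cases hB : B ⊆ A
      · simp only [ψ, if_pos hB]
        have hup : ∀ u : E', j ∈ B → B.piecewise (fun i => α i (Function.update y j u i)) x =
            Function.update (B.piecewise (fun i => α i (y i)) x) j (α j u) := by
          intro u hj
          funext c
          by_cases hc : c = j
          · subst hc
            rw [Finset.piecewise_eq_of_mem _ _ _ hj, Function.update_self, Function.update_self]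
          · rw [Function.update_of_ne hc]
            by_cases hcB : c ∈ B
            · rw [Finset.piecewise_eq_of_mem _ _ _ hcB, Finset.piecewise_eq_of_mem _ _ _ hcB,
                Function.update_of_ne hc]
            · rw [Finset.piecewise_eq_of_notMem _ _ _ hcB, Finset.piecewise_eq_of_notMem _ _ _ hcB]
        constructor
        · intro hj u v
          rw [hup _ hj, hup _ hj, hup _ hj, map_add]
          exact (h _ j).1 (hB hj) _ _
        · intro hj u
          congr 1
          funext c
          by_cases hcB : c ∈ B
          · have hc : c ≠ j := fun hc => hj (hc ▸ hcB)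
            rw [Finset.piecewise_eq_of_mem _ _ _ hcB, Finset.piecewise_eq_of_mem _ _ _ hcB,
              Function.update_of_ne hc]
          · rw [Finset.piecewise_eq_of_notMem _ _ _ hcB, Finset.piecewise_eq_of_notMem _ _ _ hcB]
      · simp only [ψ, if_neg hB]
        refine ⟨fun _ u v => ?_, fun _ u => trivial⟩
        rw [add_zero]
    have hsum : ∀ y : C → E', φ (x + fun j => α j (y j)) = ∑ B, ψ B y := by
      intro y
      have h4 := madd_expand h (fun j => α j (y j)) A x (Finset.Subset.refl A)
      have h5 : φ (A.piecewise (x + fun j => α j (y j)) x) = φ (x + fun j => α j (y j)) :=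
        madd_agree h fun j hj => Finset.piecewise_eq_of_mem _ _ _ hj
      rw [← h5, h4]
      simp only [ψ]
      rw [← Finset.sum_filter]
      apply Finset.sum_congr _ fun _ _ => rfl
      ext B
      simp
    have h6 := avg_top ψ hψ hA (by
      intro B hB
      funext y
      simp only [ψ]
      rw [if_neg]
      exact fun h7 => absurd (lt_of_lt_of_le hB h7) (lt_irrefl _))
    have h8 : ∀ y : C → E', ψ A y = φ fun j => α j (y j) := by
      intro y
      simp only [ψ, if_pos (Finset.Subset.refl A)]
      exact madd_agree h fun j hj => Finset.piecewise_eq_of_mem _ _ _ hj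
    simp only [h8] at h6
    simp only [hsum]
    exact (Complex.re_le_norm _).trans h6
  have h9 := av_re_mono (f := fun x : C → E => av fun y : C → E' =>
    ee (φ (x + fun j => α j (y j)))) (g := fun _ : C → E => av fun y : C → E' =>
    ee (φ fun j => α j (y j))) h3
  rw [av_const] at h9
  exact h9

end Pool.Agent.Lib.MP_3e612f_nt.DI
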