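import Pool.Agent.Lib.MP_3e612f_nt.DI.Top

/-!
The bias of a tensor on far sets.

PROOFS. `cm T a r = T (a * r)`. `madd_prod`: `∏ j ∈ B, ι j (x j)` is additive in each coordinate of
`B` (`Finset.prod_update_of_mem` or `Finset.mul_prod_erase`). `expand_add`: `Finset.prod_add`,
`map_sum`, `mul_comm`. `bi_shift`: `expand_add` (with `v` and `ι j (h j)`), `avg_top` with
`φ B h = if B ⊆ A then cm T (∏ j ∈ A \ B, v j) (∏ j ∈ B, ι j (h j)) else 0` and top set `A`.
`bi_restrict`: `madd_restrict`. `bi_vec_mono`: `bi_restrict` with `α j h = (W j).indicator h`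
(a homomorphism `(X → ZMod ℓ) →+ (X → ZMod ℓ)`), `vec ξ (W' j) (indicator (W j) h) = vec ξ (W j) h`.
`bi_vec_union`: `bi_restrict` with `E' = (X → ZMod ℓ) × (X → ZMod ℓ)`,
`α j (a, h) = indicator (W j) a + indicator (W' j) h`, for which
`vec ξ (W j ∪ W' j) (α j (a, h)) = vec ξ (W j) a + vec ξ (W' j) h`; the average over
`C → E × E` is the iterated average (`av_equiv` with `Equiv.arrowProdEquivProdArrow`, `av_prod`).
`bi_transport`: `av_comp_inj` with `g`, as `∏ j ∈ univ.image g, …= ∏ k, …` (`Finset.prod_image`).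
`bi_add_right`: for `j ∉ B` the coordinates do not matter; trivial congruence.
-/

set_option autoImplicit false

namespace Pool.Agent.Lib.MP_3e612f_nt.DI

open Finset
open Pool.Agent.Lib.MP_3e612f_nt.PI (ee)

section
variable {ℓ : ℕ} [NeZero ℓ] {C E R : Type} [Fintype C] [DecidableEq C] [AddCommGroup E] [Fintype E]
  [CommRing R]

@[simp] theorem cm_apply (T : R →+ ZMod ℓ) (a r : R) : cm T a r = T (a * r) := rfl

theorem madd_prod (T : R →+ ZMod ℓ) (B : Finset C) (ι : C → E →+ R) :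
    MAdd B fun x : C → E => T (∏ j ∈ B, ι j (x j)) := by
  intro x j
  constructor
  · intro hj u v
    have h : ∀ w : E, ∏ i ∈ B, ι i (Function.update x j w i) =
        ι j w * ∏ i ∈ B.erase j, ι i (x i) := by
      intro w
      rw [← Finset.mul_prod_erase B _ hj, Function.update_self]
      congr 1
      refine Finset.prod_congr rfl fun i hi => ?_
      rw [Function.update_of_ne (Finset.ne_of_mem_erase hi)]
    simp only [h, map_add, add_mul]
  · intro hj u
    have h : ∏ i ∈ B, ι i (Function.update x j u i) = ∏ i ∈ B, ι i (x i) := by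
      refine Finset.prod_congr rfl fun i hi => ?_
      rw [Function.update_of_ne]
      rintro rfl
      exact hj hi
    simp only [h]

theorem expand_add {C : Type} [DecidableEq C] (T : R →+ ZMod ℓ) (A : Finset C) (v w : C → R) :
    T (∏ j ∈ A, (v j + w j)) =
      ∑ I ∈ A.powerset, T ((∏ j ∈ I, v j) * ∏ j ∈ A \ I, w j) := by
  rw [Finset.prod_add, map_sum]

/-- `v 1 ⋯ v d` as a signed sum of the products with `k` added to some and all others replaced -/
theorem expand_shift {C : Type} [DecidableEq C] (T : R →+ ZMod ℓ) (A : Finset C) (v k : C → R) :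
    T (∏ j ∈ A, v j) = ∑ I ∈ A.powerset, (-1) ^ (A \ I).card *
      T (∏ j ∈ A, (if j ∈ I then v j + k j else k j)) := by
  have h : ∏ j ∈ A, v j = ∏ j ∈ A, ((v j + k j) + -k j) :=
    Finset.prod_congr rfl fun j _ => by ring
  rw [h, expand_add]
  refine Finset.sum_congr rfl fun I hI => ?_
  have hIA : I ⊆ A := Finset.mem_powerset.mp hI
  have e1 : ∏ j ∈ A, (if j ∈ I then v j + k j else k j) =
      (∏ j ∈ I, (v j + k j)) * ∏ j ∈ A \ I, k j := by
    rw [← Finset.prod_sdiff hIA, mul_comm]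
    congr 1
    · exact Finset.prod_congr rfl fun j hj => if_pos hj
    · exact Finset.prod_congr rfl fun j hj => if_neg (Finset.mem_sdiff.mp hj).2
  have e2 : ∏ j ∈ A \ I, -k j = (-1) ^ (A \ I).card * ∏ j ∈ A \ I, k j := by
    rw [Finset.prod_neg, ]
  rw [e1, e2]
  rcases Nat.even_or_odd (A \ I).card with he | ho
  · rw [he.neg_one_pow, he.neg_one_pow, one_mul, one_mul]
  · rw [ho.neg_one_pow, ho.neg_one_pow]
    simp

theorem bi_nonneg {B : Finset C} (hB : B.Nonempty) (T : R →+ ZMod ℓ) (ι : C → E →+ R) :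
    0 ≤ bi T B ι :=
  avg_nonneg hB (madd_prod T B ι)

theorem bi_pos {B : Finset C} (hB : 2 ≤ B.card) (T : R →+ ZMod ℓ) (ι : C → E →+ R) :
    0 < bi T B ι :=
  avg_pos hB (madd_prod T B ι)

private theorem vec_norm_ee (x : ZMod ℓ) : ‖ee x‖ = 1 := by
  rw [ee]
  exact AddChar.norm_apply _ _

theorem bi_le_one (B : Finset C) (T : R →+ ZMod ℓ) (ι : C → E →+ R) : bi T B ι ≤ 1 :=
  (Complex.re_le_norm _).trans (norm_av_le_of zero_le_one fun _ => (vec_norm_ee _).le)

theorem bi_real {B : Finset C} (hB : B.Nonempty) (T : R →+ ZMod ℓ) (ι : C → E →+ R) :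
    (av fun h : C → E => ee (T (∏ j ∈ B, ι j (h j)))) = (bi T B ι : ℂ) := by
  apply Complex.ext
  · rw [Complex.ofReal_re, bi]
  · rw [Complex.ofReal_im]
    exact avg_real hB (madd_prod T B ι)

theorem bi_shift {A : Finset C} (hA : A.Nonempty) (T : R →+ ZMod ℓ) (ι : C → E →+ R) (v : C → R) :
    ‖av fun h : C → E => ee (T (∏ j ∈ A, (ι j (h j) + v j)))‖ ≤ bi T A ι := by
  classical
  let φ : Finset C → (C → E) → ZMod ℓ := fun B h =>
    if B ⊆ A then cm T (∏ j ∈ A \ B, v j) (∏ j ∈ B, ι j (h j)) else 0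
  have hφ : ∀ B, MAdd B (φ B) := by
    intro B
    by_cases hBA : B ⊆ A
    · have e : φ B = fun h : C → E => cm T (∏ j ∈ A \ B, v j) (∏ j ∈ B, ι j (h j)) := by
        funext h
        exact if_pos hBA
      rw [e]
      exact madd_prod _ B ι
    · have e : φ B = fun _ => 0 := by
        funext h
        exact if_neg hBA
      rw [e]
      intro x j
      exact ⟨fun _ _ _ => (add_zero _).symm, fun _ _ => rfl⟩
  have hmax : ∀ B, A ⊂ B → φ B = fun _ => 0 := by
    intro B hB
    funext h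
    exact if_neg fun hBA => hB.2 hBA
  have key := avg_top φ hφ hA hmax
  have e1 : ∀ h : C → E, ∑ B, φ B h = T (∏ j ∈ A, (ι j (h j) + v j)) := by
    intro h
    rw [expand_add, ← Finset.sum_filter_add_sum_filter_not univ (fun B => B ⊆ A)]
    have z : ∑ B ∈ univ.filter (fun B => ¬ B ⊆ A), φ B h = 0 :=
      Finset.sum_eq_zero fun B hB => if_neg (Finset.mem_filter.mp hB).2
    rw [z, add_zero]
    refine Finset.sum_congr ?_ fun B hB => ?_
    · ext B
      simp
    · have hB' : B ⊆ A := Finset.mem_powerset.mp hB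
      change (if B ⊆ A then cm T (∏ j ∈ A \ B, v j) (∏ j ∈ B, ι j (h j)) else 0) = _
      rw [if_pos hB', cm_apply, mul_comm]
  have e2 : ∀ h : C → E, φ A h = T (∏ j ∈ A, ι j (h j)) := by
    intro h
    change (if A ⊆ A then cm T (∏ j ∈ A \ A, v j) (∏ j ∈ A, ι j (h j)) else 0) = _
    rw [if_pos (Finset.Subset.refl A), cm_apply, Finset.sdiff_self, Finset.prod_empty, one_mul]
  simp only [e1, e2] at key
  exact key

theorem bi_restrict {E' : Type} [AddCommGroup E'] [Fintype E'] {A : Finset C} (hA : A.Nonempty)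
    (T : R →+ ZMod ℓ) (ι : C → E →+ R) (α : C → E' →+ E) :
    bi T A ι ≤ bi T A fun j => (ι j).comp (α j) :=
  madd_restrict hA (madd_prod T A ι) α

/-- `bi` only depends on the vectors with colours in `A` -/
private theorem bi_congr' (T : R →+ ZMod ℓ) {A : Finset C} {ι κ : C → E →+ R}
    (h : ∀ j ∈ A, ι j = κ j) : bi T A ι = bi T A κ := by
  unfold bi
  congr 2
  funext x
  congr 2
  exact Finset.prod_congr rfl fun j hj => by rw [h j hj]

end

section
variable {ℓ : ℕ} [NeZero ℓ] {C C' X R : Type} [Fintype C] [DecidableEq C] [Fintype C']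
  [DecidableEq C'] [Fintype X] [DecidableEq X] [CommRing R] [Algebra (ZMod ℓ) R]

/-- the restriction of a function to `W`, extended by zero -/
private def cut (W : Finset X) : (X → ZMod ℓ) →+ (X → ZMod ℓ) where
  toFun h x := if x ∈ W then h x else 0
  map_zero' := by
    funext x
    simp
  map_add' h h' := by
    funext x
    by_cases hx : x ∈ W <;> simp [hx]

private theorem vec_apply (ξ : X → R) (W : Finset X) (h : X → ZMod ℓ) :
    vec ξ W h = ∑ x ∈ W, h x • ξ x := rfl

private theorem vec_cut (ξ : X → R) {W W' : Finset X} (hW : W ⊆ W') (h : X → ZMod ℓ) :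
    vec ξ W' (cut W h) = vec ξ W h := by
  rw [vec_apply, vec_apply]
  symm
  have e : ∀ x ∈ W, h x • ξ x = (cut W h) x • ξ x := by
    intro x hx
    have : (cut W h) x = h x := if_pos hx
    rw [this]
  rw [Finset.sum_congr rfl e]
  refine Finset.sum_subset hW fun x _ hx => ?_
  have : (cut W h) x = 0 := if_neg hx
  rw [this, zero_smul]

theorem bi_vec_mono {A : Finset C} (hA : A.Nonempty) (T : R →+ ZMod ℓ) (ξ : X → R)
    {W W' : C → Finset X} (h : ∀ j ∈ A, W j ⊆ W' j) :
    bi T A (fun j => vec (ℓ := ℓ) ξ (W' j)) ≤ bi T A fun j => vec (ℓ := ℓ) ξ (W j) := by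
  refine (bi_restrict hA T (fun j => vec (ℓ := ℓ) ξ (W' j)) fun j => cut (W j)).trans
    (le_of_eq ?_)
  refine bi_congr' T fun j hj => ?_
  refine AddMonoidHom.ext fun g => ?_
  exact vec_cut ξ (h j hj) g

theorem bi_vec_union {A : Finset C} (hA : A.Nonempty) (T : R →+ ZMod ℓ) (ξ : X → R)
    (W W' : C → Finset X) :
    bi T A (fun j => vec (ℓ := ℓ) ξ (W j ∪ W' j)) ≤
      (av fun h : C → X → ZMod ℓ => av fun a : C → X → ZMod ℓ =>
        ee (T (∏ j ∈ A, (vec ξ (W j) (a j) + vec ξ (W' j) (h j))))).re := by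
  let α : C → ((X → ZMod ℓ) × (X → ZMod ℓ)) →+ (X → ZMod ℓ) := fun j =>
    (cut (W j)).comp (AddMonoidHom.fst _ _) + (cut (W' j)).comp (AddMonoidHom.snd _ _)
  have hα : ∀ (j : C) (p : (X → ZMod ℓ) × (X → ZMod ℓ)),
      vec ξ (W j ∪ W' j) (α j p) = vec ξ (W j) p.1 + vec ξ (W' j) p.2 := by
    intro j p
    change vec ξ (W j ∪ W' j) (cut (W j) p.1 + cut (W' j) p.2) = _
    rw [map_add, vec_cut ξ Finset.subset_union_left, vec_cut ξ Finset.subset_union_right]
  refine (bi_restrict hA T (fun j => vec (ℓ := ℓ) ξ (W j ∪ W' j)) α).trans (le_of_eq ?_)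
  unfold bi
  congr 1
  let f : (C → X → ZMod ℓ) × (C → X → ZMod ℓ) → ℂ := fun q =>
    ee (T (∏ j ∈ A, (vec ξ (W j) (q.1 j) + vec ξ (W' j) (q.2 j))))
  have e1 := av_equiv (Equiv.arrowProdEquivProdArrow C (fun _ => X → ZMod ℓ)
    (fun _ => X → ZMod ℓ)) f
  rw [av_prod f, av_comm] at e1
  rw [← e1]
  congr 1
  funext y
  change ee (T (∏ j ∈ A, vec ξ (W j ∪ W' j) (α j (y j)))) = _
  simp only [hα]
  rfl

theorem bi_transport (T : R →+ ZMod ℓ) (ξ : X → R) (g : C → C') (hg : Function.Injective g)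
    (W : C → Finset X) (W' : C' → Finset X) (h : ∀ k, W' (g k) = W k) :
    bi T (univ.image g) (fun j => vec (ℓ := ℓ) ξ (W' j)) =
      bi T univ fun j => vec (ℓ := ℓ) ξ (W j) := by
  unfold bi
  congr 1
  rw [← av_comp_inj g hg (fun x : C → X → ZMod ℓ => ee (T (∏ j, vec ξ (W j) (x j))))]
  congr 1
  funext x
  rw [Finset.prod_image fun a _ b _ hab => hg hab]
  congr 2
  refine Finset.prod_congr rfl fun k _ => ?_
  change vec ξ (W' (g k)) (x (g k)) = _
  rw [h k]
  rfl

/-- a witness in arbitrary colours -/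
theorem Wit.colour {ξ : X → R} {Far : X → X → Prop} {𝒳 : Set X} {i : ℕ} {T : R →+ ZMod ℓ} {s : ℕ}
    {ε : ℝ} (h : Wit ξ Far 𝒳 i T s ε) (B : Finset C) (hB : B.card = i) :
    ∃ W : C → Finset X, (∀ j, j ∉ B → W j = ∅) ∧ SepOn Far B W ∧ (∀ j, (↑(W j) : Set X) ⊆ 𝒳) ∧
      (∀ j, (W j).card ≤ s) ∧ bi T B (fun j => vec (ℓ := ℓ) ξ (W j)) < ε := by
  obtain ⟨W0, hsep, hsub, hcard, hbi⟩ := h
  let e : B ≃ Fin i := B.equivFinOfCardEq hB
  let g : Fin i → C := fun k => (e.symm k : C)
  have hg : Function.Injective g := fun a b hab => e.symm.injective (Subtype.ext hab)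
  have hgB : univ.image g = B := by
    ext j
    rw [Finset.mem_image]
    constructor
    · rintro ⟨k, _, rfl⟩
      exact (e.symm k).2
    · intro hj
      refine ⟨e ⟨j, hj⟩, mem_univ _, ?_⟩
      change ((e.symm (e ⟨j, hj⟩) : B) : C) = j
      rw [Equiv.symm_apply_apply]
  let W : C → Finset X := fun j => if hj : j ∈ B then W0 (e ⟨j, hj⟩) else ∅
  have hWg : ∀ k, W (g k) = W0 k := by
    intro k
    have hk : g k ∈ B := (e.symm k).2
    have e1 : W (g k) = W0 (e ⟨g k, hk⟩) := dif_pos hk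
    have e2 : (⟨g k, hk⟩ : B) = e.symm k := Subtype.ext rfl
    rw [e1, e2, Equiv.apply_symm_apply]
  have hWB : ∀ j (hj : j ∈ B), W j = W0 (e ⟨j, hj⟩) := fun j hj => dif_pos hj
  have hW0 : ∀ j, j ∉ B → W j = ∅ := fun j hj => dif_neg hj
  refine ⟨W, hW0, ?_, ?_, ?_, ?_⟩
  · intro a ha b hb hab x hx y hy
    rw [hWB a ha] at hx
    rw [hWB b hb] at hy
    refine hsep _ (mem_univ _) _ (mem_univ _) (fun hne => hab ?_) x hx y hy
    exact congrArg Subtype.val (e.injective hne)
  · intro j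
    by_cases hj : j ∈ B
    · rw [hWB j hj]
      exact hsub _
    · rw [hW0 j hj]
      simp
  · intro j
    by_cases hj : j ∈ B
    · rw [hWB j hj]
      exact hcard _
    · rw [hW0 j hj]
      simp
  · have h1 := bi_transport T ξ g hg W0 W hWg
    rw [hgB] at h1
    rw [h1]
    exact hbi

end

end Pool.Agent.Lib.MP_3e612f_nt.DI
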